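import Pool.Agent.H942.LP.DefT

set_option autoImplicit false

/-! # From the `b`-functions of a ternary form to the strong form at the origin -/

namespace Pool.Agent.H942.LP

open MvPolynomial
open Pool.Agent.Y229 (SF sf_of_local exists_fe)
open Pool.Agent.W574.LM (IsLocEq)
open Pool.Agent.W574.MO (exists_comp comp_mul)
open Pool.Agent.Q57.MC (eq_of_locEq1)
open Pool.Agent.H628R4.TP (IsBFunction weylS)

/-- a local functional equation with a polynomial unit at the origin, of a homogeneous polynomial,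
is global -/
theorem isBFunction_of_locEq {σ : Type} (F : MvPolynomial σ ℂ) (D : ℕ)
    (hD : F.IsHomogeneous D) (H : MvPolynomial σ ℂ) (hH : constantCoeff H ≠ 0)
    (b : Polynomial ℂ) (hb : IsLocEq H (fun _ : Fin 1 => F) b) : IsBFunction F b := by
  classical
  obtain ⟨P, hP⟩ := eq_of_locEq1 H F b hb
  choose R hR1 hR2 using fun m : ℕ => exists_comp (P m).1 (P m).2 (-(D : ℤ))
  set h0 : ℂ := constantCoeff H with hh0
  refine ⟨Finsupp.onFinset P.support (fun m => if m ∈ P.support then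
    (h0⁻¹ • ⟨R m, hR1 m⟩ : weylS σ) else 0) (fun m hm => by
      by_contra h
      exact hm (if_neg h)), fun s => ?_⟩
  have h1 := congrArg (homogeneousComponent (D * s)) (hP s)
  have hFs : (C (b.eval (s : ℂ)) * F ^ s).IsHomogeneous (D * s) := by
    have := (isHomogeneous_C σ (b.eval (s : ℂ))).mul (hD.pow s)
    rwa [zero_add] at this
  rw [comp_mul H _ (D * s) hFs, Finsupp.sum, map_sum] at h1
  have h2 : ∀ m ∈ P.support, homogeneousComponent (D * s)
      (((s : ℂ) ^ m) • (P m : Module.End ℂ (MvPolynomial σ ℂ)) (F ^ (s + 1)))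
      = ((s : ℂ) ^ m) • R m (F ^ (s + 1)) := by
    intro m _
    rw [map_smul, hR2 m (D * (s + 1)) (D * s) _ (hD.pow (s + 1)) (by push_cast; ring)]
  rw [Finset.sum_congr rfl h2] at h1
  rw [Finsupp.onFinset_sum]
  · have h3 : C (b.eval (s : ℂ)) * F ^ s = C h0⁻¹ * (C h0 * (C (b.eval (s : ℂ)) * F ^ s)) := by
      rw [← mul_assoc, ← map_mul, inv_mul_cancel₀ hH, map_one, one_mul]
    rw [h3, h1, Finset.mul_sum]
    refine Finset.sum_congr rfl fun m hm => ?_
    rw [if_pos hm]
    change C h0⁻¹ * (((s : ℂ) ^ m) • R m (F ^ (s + 1))) =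
      ((s : ℂ) ^ m) • ((h0⁻¹ • R m) (F ^ (s + 1)))
    rw [LinearMap.smul_apply, C_mul', smul_comm]
  · intro m
    simp

theorem t_SF0 : S_SF0 := by
  intro f d hd hf0 hf hroot
  apply sf_of_local _ _ _ _ (exists_fe _ ⟨0, hf0⟩)
  intro H b hb hH
  have h1 : constantCoeff H ≠ 0 := by
    rw [← eval_zero]
    exact hH
  have h2 := hroot b (isBFunction_of_locEq f d hf H h1 b hb)
  have e : (-((2 + 1 : ℕ) : ℂ) / d) = -3 / (d : ℂ) := by norm_num
  rw [e]
  exact h2

end Pool.Agent.H942.LP
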