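import Pool.Agent.H942.LP.DefT

set_option autoImplicit false
set_option linter.unusedSectionVars false
set_option linter.unusedVariables false

/-! # The topological zeta functions of a ternary form with the root `-3/d` (helper627, after the
proofs of helper940 in `H940/P`) -/

namespace Pool.Agent.H942.LP.TWaux

open MvPolynomial

section hom

variable {σ : Type} [Fintype σ]

/-- the homogeneous components as the coefficients of a polynomial -/
noncomputable def Ph : MvPolynomial σ ℂ →ₐ[ℂ] Polynomial (MvPolynomial σ ℂ) :=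
  aeval fun i => Polynomial.C (X i) * Polynomial.X

theorem Ph_monomial (u : σ →₀ ℕ) (c : ℂ) :
    Ph (monomial u c) = Polynomial.C (monomial u c) * Polynomial.X ^ u.degree := by
  unfold Ph
  rw [aeval_monomial, Finsupp.prod_fintype _ _ (fun i => pow_zero _)]
  simp only [mul_pow]
  rw [Finset.prod_mul_distrib, Finset.prod_pow_eq_pow_sum]
  have h1 : (∏ i, (Polynomial.C (X i : MvPolynomial σ ℂ)) ^ u i) =
      Polynomial.C (∏ i, X i ^ u i : MvPolynomial σ ℂ) := by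
    rw [map_prod]
    exact Finset.prod_congr rfl fun i _ => (map_pow _ _ _).symm
  have h2 : (∑ i, u i) = u.degree := by
    rw [Finsupp.degree_eq_sum]
  rw [h1, h2, ← mul_assoc]
  congr 1
  rw [monomial_eq, Finsupp.prod_fintype _ _ (fun i => pow_zero _), map_mul]
  rfl

theorem coeff_Ph (g : MvPolynomial σ ℂ) (j : ℕ) (s : σ →₀ ℕ) :
    coeff s ((Ph g).coeff j) = if s.degree = j then coeff s g else 0 := by
  classical
  induction g using MvPolynomial.induction_on' with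
  | monomial u c =>
    rw [Ph_monomial, Polynomial.coeff_C_mul_X_pow]
    by_cases h : u = s
    · subst h
      by_cases h2 : j = u.degree
      · rw [if_pos h2, if_pos h2.symm]
      · rw [if_neg h2, if_neg fun h3 => h2 h3.symm, coeff_zero]
    · have h3 : coeff s (monomial u c) = 0 := by
        rw [coeff_monomial, if_neg h]
      rw [h3, ite_self]
      split_ifs
      · exact h3
      · exact coeff_zero _
  | add p q hp hq =>
    rw [map_add, Polynomial.coeff_add, coeff_add, hp, hq, coeff_add]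
    split_ifs
    · rfl
    · rw [add_zero]

theorem Ph_hom {f : MvPolynomial σ ℂ} {d : ℕ} (hf : f.IsHomogeneous d) :
    Ph f = Polynomial.monomial d f := by
  refine Polynomial.ext fun j => ?_
  refine MvPolynomial.ext _ _ fun s => ?_
  rw [coeff_Ph, Polynomial.coeff_monomial]
  by_cases h1 : d = j
  · rw [if_pos h1]
    split_ifs with h2
    · rfl
    · by_contra h3
      exact h2 (h1 ▸ (by
        by_contra h4
        exact h3 (hf.coeff_eq_zero h4).symm))
  · rw [if_neg h1, coeff_zero]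
    split_ifs with h2
    · exact hf.coeff_eq_zero (by rw [h2]; exact fun h => h1 h.symm)
    · rfl

/-- the divisors of a form are forms -/
theorem hom_of_mul {g h : MvPolynomial σ ℂ} {d : ℕ} (hf : (g * h).IsHomogeneous d)
    (h0 : g * h ≠ 0) : ∃ k, g.IsHomogeneous k := by
  have h1 := Ph_hom hf
  rw [map_mul] at h1
  have hg : Ph g ≠ 0 := by
    intro h2
    rw [h2, zero_mul] at h1
    exact h0 (Polynomial.monomial_eq_zero_iff _ _ |>.1 h1.symm)
  have hh : Ph h ≠ 0 := by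
    intro h2
    rw [h2, mul_zero] at h1
    exact h0 (Polynomial.monomial_eq_zero_iff _ _ |>.1 h1.symm)
  have h2 := congrArg Polynomial.natDegree h1
  have h3 := congrArg Polynomial.natTrailingDegree h1
  rw [Polynomial.natDegree_mul hg hh, Polynomial.natDegree_monomial_eq _ h0] at h2
  rw [Polynomial.natTrailingDegree_mul hg hh, Polynomial.natTrailingDegree_monomial h0] at h3
  have h4 := Polynomial.natTrailingDegree_le_natDegree (Ph g)
  have h5 := Polynomial.natTrailingDegree_le_natDegree (Ph h)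
  refine ⟨(Ph g).natDegree, fun {s} hs => ?_⟩
  have h6 : (Ph g).coeff s.degree ≠ 0 := by
    intro h7
    have h8 := coeff_Ph g s.degree s
    rw [if_pos rfl, h7, coeff_zero] at h8
    exact hs h8.symm
  have h7 := Polynomial.le_natDegree_of_ne_zero h6
  have h8 := Polynomial.natTrailingDegree_le_of_ne_zero h6
  have h9 : (Finsupp.weight (1 : σ → ℕ)) s = s.degree := by
    rw [Finsupp.degree_eq_weight_one]
    rfl
  rw [h9]
  omega

theorem hom_of_dvd {f g : MvPolynomial σ ℂ} {d : ℕ} (hf : f.IsHomogeneous d)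
    (h0 : f ≠ 0) (h : g ∣ f) : ∃ k, g.IsHomogeneous k := by
  obtain ⟨q, rfl⟩ := h
  exact hom_of_mul hf h0

theorem deg_pos {g : MvPolynomial σ ℂ} {k : ℕ} (hg : g.IsHomogeneous k) (hi : Irreducible g) :
    1 ≤ k := by
  rcases Nat.eq_zero_or_pos k with rfl | h
  · exfalso
    have h1 : g = C (coeff 0 g) := by
      rw [← totalDegree_eq_zero_iff_eq_C]
      exact hg.totalDegree hi.ne_zero
    have h2 : coeff 0 g ≠ 0 := by
      intro h3
      rw [h3, C_0] at h1
      exact hi.ne_zero h1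
    apply hi.not_isUnit
    rw [h1]
    exact (isUnit_iff_ne_zero.2 h2).map C
  · exact h

/-- **factorization of a form** -/
theorem exists_fact {f : MvPolynomial σ ℂ} {d : ℕ} (hd : 1 ≤ d) (hf : f.IsHomogeneous d)
    (h0 : f ≠ 0) : ∃ (T : ℕ) (F : Fin T → MvPolynomial σ ℂ) (e a : Fin T → ℕ),
      (∀ t, 1 ≤ e t) ∧ (∀ t, (F t).IsHomogeneous (e t)) ∧ (∀ t, F t ≠ 0) ∧ (∀ t, 1 ≤ a t) ∧
      1 ≤ ∑ t, e t ∧ Squarefree (∏ t, F t) ∧ ∏ t, F t ^ a t = f := by
  classical
  let _ : StrongNormalizationMonoid (MvPolynomial σ ℂ) :=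
    UniqueFactorizationMonoid.strongNormalizationMonoid
  set NF := UniqueFactorizationMonoid.normalizedFactors f with hNF
  set S := NF.toFinset with hS
  have hirr : ∀ p ∈ S, Irreducible p := fun p hp =>
    UniqueFactorizationMonoid.irreducible_of_normalized_factor p (Multiset.mem_toFinset.1 hp)
  have hdvd : ∀ p ∈ S, p ∣ f := fun p hp =>
    UniqueFactorizationMonoid.dvd_of_mem_normalizedFactors (Multiset.mem_toFinset.1 hp)
  have hnorm : ∀ p ∈ S, normalize p = p := fun p hp =>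
    UniqueFactorizationMonoid.normalize_normalized_factor p (Multiset.mem_toFinset.1 hp)
  obtain ⟨u, hu⟩ := UniqueFactorizationMonoid.prod_normalizedFactors h0
  have hnu : ¬ IsUnit f := by
    intro h1
    have h2 := MvPolynomial.isUnit_iff_totalDegree_of_isReduced.1 h1
    have h3 := hf.totalDegree h0
    omega
  -- the unit is a constant
  obtain ⟨c, hc0, hc⟩ : ∃ c : ℂ, c ≠ 0 ∧ f = C c * ∏ p ∈ S, p ^ NF.count p := by
    have h1 := MvPolynomial.isUnit_iff_totalDegree_of_isReduced.1 u.isUnit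
    have h2 : (u : MvPolynomial σ ℂ) = C (coeff 0 (u : MvPolynomial σ ℂ)) :=
      totalDegree_eq_zero_iff_eq_C.1 h1.2
    refine ⟨coeff 0 (u : MvPolynomial σ ℂ), ?_, ?_⟩
    · intro h3
      rw [h3, C_0] at h2
      exact u.ne_zero h2
    · rw [← h2, ← hu, ← Finset.prod_multiset_count, mul_comm]
  have hne : S.Nonempty := by
    rw [Finset.nonempty_iff_ne_empty]
    intro h1
    rw [h1, Finset.prod_empty, mul_one] at hc
    apply hnu
    rw [hc]
    exact (isUnit_iff_ne_zero.2 hc0).map C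
  obtain ⟨p0, hp0⟩ := hne
  have hcnt : ∀ p ∈ S, 1 ≤ NF.count p := fun p hp =>
    Multiset.one_le_count_iff_mem.2 (Multiset.mem_toFinset.1 hp)
  obtain ⟨b, hb⟩ := IsAlgClosed.exists_pow_nat_eq c (hcnt p0 hp0)
  have hb0 : b ≠ 0 := by
    rintro rfl
    rw [zero_pow (by have := hcnt p0 hp0; omega)] at hb
    exact hc0 hb.symm
  have hbu : IsUnit (C b : MvPolynomial σ ℂ) := (isUnit_iff_ne_zero.2 hb0).map C
  set G : MvPolynomial σ ℂ → MvPolynomial σ ℂ := fun p => if p = p0 then C b * p else p with hG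
  have hGa : ∀ p, Associated p (G p) := by
    intro p
    simp only [hG]
    split_ifs
    · exact (associated_unit_mul_left p _ hbu).symm
    · exact Associated.refl _
  have hGirr : ∀ p ∈ S, Irreducible (G p) := fun p hp => (hGa p).irreducible (hirr p hp)
  have hprod : ∏ p ∈ S, G p ^ NF.count p = f := by
    rw [hc, ← Finset.mul_prod_erase S (fun p => p ^ NF.count p) hp0,
      ← Finset.mul_prod_erase S (fun p => G p ^ NF.count p) hp0]
    have h1 : ∏ p ∈ S.erase p0, G p ^ NF.count p = ∏ p ∈ S.erase p0, p ^ NF.count p :=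
      Finset.prod_congr rfl fun p hp => by
        simp only [hG]
        rw [if_neg (Finset.ne_of_mem_erase hp)]
    have h2 : G p0 = C b * p0 := by
      simp only [hG]
      exact if_pos trivial
    rw [h1, h2, mul_pow, ← C_pow, hb]
    ring
  have hsq : Squarefree (∏ p ∈ S, G p) := by
    refine Finset.squarefree_prod_of_pairwise_isCoprime (fun p hp q hq hpq => ?_)
      fun p hp => (hGirr p hp).squarefree
    have hp' : p ∈ S := Finset.mem_coe.1 hp
    have hq' : q ∈ S := Finset.mem_coe.1 hq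
    change IsRelPrime (G p) (G q)
    rw [(hGirr p hp').isRelPrime_iff_not_dvd]
    intro h1
    have h2 := (hGirr p hp').associated_of_dvd (hGirr q hq') h1
    have h3 : Associated p q := ((hGa p).trans h2).trans (hGa q).symm
    exact hpq (h3.eq_of_normalized (hnorm p hp') (hnorm q hq'))
  have hGh : ∀ p ∈ S, ∃ k, (G p).IsHomogeneous k := by
    intro p hp
    refine hom_of_dvd hf h0 ?_
    rw [← hprod]
    exact (dvd_pow_self _ (by have := hcnt p hp; omega)).trans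
      (Finset.dvd_prod_of_mem (fun p => G p ^ NF.count p) hp)
  choose! k hk using hGh
  set E := S.equivFin.symm with hE
  have htr : ∀ φ : MvPolynomial σ ℂ → MvPolynomial σ ℂ,
      ∏ t : Fin S.card, φ (E t : MvPolynomial σ ℂ) = ∏ p ∈ S, φ p := by
    intro φ
    rw [← Finset.prod_coe_sort S φ]
    exact Equiv.prod_comp E fun p : S => φ (p : MvPolynomial σ ℂ)
  refine ⟨S.card, fun t => G (E t), fun t => k (E t), fun t => NF.count (E t : MvPolynomial σ ℂ),
    fun t => deg_pos (hk _ (E t).2) (hGirr _ (E t).2), fun t => hk _ (E t).2,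
    fun t => (hGirr _ (E t).2).ne_zero, fun t => hcnt _ (E t).2, ?_, ?_, ?_⟩
  · have h1 : 0 < S.card := Finset.card_pos.2 ⟨p0, hp0⟩
    have h2 := deg_pos (hk _ (E ⟨0, h1⟩).2) (hGirr _ (E ⟨0, h1⟩).2)
    exact h2.trans (Finset.single_le_sum (f := fun t => k (E t : MvPolynomial σ ℂ))
      (fun _ _ => Nat.zero_le _) (Finset.mem_univ (⟨0, h1⟩ : Fin S.card)))
  · rw [htr G]
    exact hsq
  · rw [htr fun p => G p ^ NF.count p]
    exact hprod

end hom


open Pool.Agent.W428.MOT Pool.Agent.TH192.MT Pool.Agent.TH192.DT Pool.Agent.Q49.CO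
open Pool.Agent.Q57.QM Pool.Agent.Y229 Pool.Agent.Q57.MC Pool.Agent.Q57.MD
open Pool.Agent.W574.LM (IsLocEq)
open Pool.Agent.H940.Z Pool.Agent.H940.G Pool.Agent.H940.P
open Pool.Agent.H940.LT (eval_homog euler_hom exists_hyp')

theorem na_ne1 {T : ℕ} {d : Fin T → ℕ} (h1d : 1 ≤ ∑ t, d t) (a : Fin T → ℕ) (ha : ∀ t, 1 ≤ a t) :
    ((∑ t, a t * d t : ℕ) : ℂ) ≠ 0 := by
  have h3 : ∑ t, d t ≤ ∑ t, a t * d t :=
    Finset.sum_le_sum fun t _ => Nat.le_mul_of_pos_left _ (ha t)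
  have h4 : ∑ t, a t * d t ≠ 0 := by omega
  exact_mod_cast h4

section lines

variable {T : ℕ} {F : Fin T → MvPolynomial (Fin 3) ℂ} {d : Fin T → ℕ}
  (h1d : 1 ≤ ∑ t, d t) (hF : ∀ t, (F t).IsHomogeneous (d t))
  (hF0 : ∀ t, F t ≠ 0) (hsq : Squarefree (∏ t, F t)) (a : Fin T → ℕ) (ha : ∀ t, 1 ≤ a t)
include h1d hF hF0 ha

theorem zv_prod {x : Fin 3 → ℂ} (h : Zv (n := 2) (lg F a) x) : eval x (∏ t, F t) = 0 := by
  have h1 := congrArg (eval x) (lg_euler F a d hF)
  rw [map_sum, map_mul, eval_C] at h1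
  have h2 : ∑ i, eval x (X i * lg F a i) = 0 := Finset.sum_eq_zero fun i _ => by
    rw [map_mul, h i, mul_zero]
  rw [h2] at h1
  exact (mul_eq_zero.1 h1.symm).resolve_left (na_ne1 h1d a ha)

theorem zv_der {x : Fin 3 → ℂ} (h : Zv (n := 2) (lg F a) x) (j : Fin 3) :
    eval x (pderiv j (∏ t, F t)) = 0 := by
  rw [← lg_one F (Finset.prod_ne_zero_iff.2 fun t _ => hF0 t)]
  exact lg_zero F (fun _ => 1) ha x (zv_prod h1d hF hF0 a ha h) h j

include hsq

/-- the zero lines -/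
theorem exists_lines : ∃ S : Finset (Fin 3 × (Fin 2 → ℂ)), ∀ x : Fin 3 → ℂ, x ≠ 0 →
    Zv (n := 2) (lg F a) x → ∃ s ∈ S, On (n := 2) s x := by
  classical
  obtain ⟨Z, hZ⟩ := Pool.Agent.H941.QH.sing_fin (IsHomogeneous.prod _ _ _ fun t _ => hF t) h1d hsq
  have h2 : ∀ z0 : Fin 3 → ℂ, ∃ s : Fin 3 × (Fin 2 → ℂ), z0 ≠ 0 → On (n := 2) s z0 := by
    intro z0
    by_cases h : z0 = 0
    · exact ⟨(0, 0), fun h' => absurd h h'⟩
    · obtain ⟨s, -, hs⟩ := exists_On (n := 2) z0 h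
      exact ⟨s, fun _ => hs⟩
  choose σ hσ using h2
  refine ⟨Z.image σ, fun x hx hz => ?_⟩
  obtain ⟨z0, hz0, c, hc, hxz⟩ := hZ x hx (zv_prod h1d hF hF0 a ha hz)
    (zv_der h1d hF hF0 a ha hz)
  have hz00 : z0 ≠ 0 := by
    rintro rfl
    apply hx
    rw [hxz]
    funext i
    simp
  obtain ⟨h3, h4⟩ := hσ z0 hz00
  refine ⟨σ z0, Finset.mem_image_of_mem _ hz0, ?_, fun t => ?_⟩
  · rw [hxz]
    exact mul_ne_zero hc h3
  · rw [hxz]
    simp only
    rw [h4 t]
    ring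

omit h1d hF hF0 ha hsq in
theorem eval_an' (i : Fin 3) (q : Fin 2 → ℂ) (t : Fin 2) (x : Fin 3 → ℂ) :
    eval x (an (n := 2) i q t) = x (i.succAbove t) - q t * x i := by
  unfold an
  rw [map_sub, map_mul, eval_X, eval_X, eval_C]

theorem pow_line1 (s : Fin (2 + 1) × (Fin 2 → ℂ)) : ∃ (L : ℕ) (U : MvPolynomial (Fin (2 + 1)) ℂ),
      (∀ x : Fin (2 + 1) → ℂ, On s x → eval x U ≠ 0) ∧
      ∀ t, U * an s.1 s.2 t ^ L ∈ Ideal.span (Set.range (lg F a)) := by
  classical
  obtain ⟨S, hS⟩ := exists_lines h1d hF hF0 hsq a ha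
  have key : ∀ s' : Fin (2 + 1) × (Fin 2 → ℂ), ∃ t' : Fin 2, ¬ On s' (pt s) →
      eval (pt s) (an s'.1 s'.2 t') ≠ 0 := by
    intro s'
    by_contra hc
    push Not at hc
    have h5 : ∀ t, pt s (s'.1.succAbove t) = s'.2 t * pt s s'.1 := by
      intro t
      have h6 := (hc t).2
      rw [eval_an'] at h6
      linear_combination h6
    refine (hc 0).1 ⟨fun h6 => pt_ne s (funext fun j => ?_), h5⟩
    induction j using s'.1.succAboveCases with
    | x => rw [h6, Pi.zero_apply]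
    | p t => rw [h5 t, h6, mul_zero, Pi.zero_apply]
  choose τ hτ using key
  set U : MvPolynomial (Fin (2 + 1)) ℂ := ∏ s' ∈ S.filter (fun s' => ¬ On (n := 2) s' (pt s)),
    an s'.1 s'.2 (τ s') with hU
  have hon : ∀ x : Fin (2 + 1) → ℂ, ∀ c : ℂ, x = c • pt s → ∀ (s' : Fin (2 + 1) × (Fin 2 → ℂ))
      (t : Fin 2), eval x (an s'.1 s'.2 t) = c * eval (pt s) (an s'.1 s'.2 t) := by
    intro x c hx s' t
    rw [eval_an', eval_an', hx, Pi.smul_apply, Pi.smul_apply, smul_eq_mul, smul_eq_mul]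
    ring
  have hU1 : ∀ x : Fin (2 + 1) → ℂ, On s x → eval x U ≠ 0 := by
    intro x hx
    rw [hU, map_prod]
    refine Finset.prod_ne_zero_iff.2 fun s' hs' => ?_
    rw [hon x (x s.1) hx.eq]
    exact mul_ne_zero hx.1 (hτ s' (Finset.mem_filter.1 hs').2)
  have hself : ∀ t, eval (pt s) (an s.1 s.2 t) = 0 := by
    intro t
    rw [eval_an', pt_above, pt_same]
    ring
  have hrad : ∀ t, U * an s.1 s.2 t ∈ (Ideal.span (Set.range (lg F a))).radical := by
    intro t
    rw [← MvPolynomial.vanishingIdeal_zeroLocus_eq_radical (K := ℂ)]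
    intro x hx
    rw [MvPolynomial.mem_zeroLocus_iff] at hx
    have hz : Zv (n := 2) (lg F a) x := fun j => hx _ (Ideal.subset_span ⟨j, rfl⟩)
    change MvPolynomial.eval x (U * an s.1 s.2 t) = 0
    rw [map_mul]
    by_cases hx0 : x = 0
    · rw [hx0, eval_an']
      simp
    · obtain ⟨s', hs', hon'⟩ := hS x hx0 hz
      by_cases h2 : On (n := 2) s' (pt s)
      · have h3 : x = (x s'.1 * (pt s s'.1)⁻¹) • pt s := by
          have h4 := h2.eq
          have h5 : pt s' = (pt s s'.1)⁻¹ • pt s := by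
            conv_rhs => rw [h4]
            rw [smul_smul, Pi.smul_apply, pt_same, smul_eq_mul, mul_one,
              inv_mul_cancel₀ h2.1, one_smul]
          conv_lhs => rw [hon'.eq, h5, smul_smul]
        rw [hon x _ h3, hself, mul_zero, mul_zero]
      · have h3 : eval x U = 0 := by
          rw [hU, map_prod]
          refine Finset.prod_eq_zero (Finset.mem_filter.2 ⟨hs', h2⟩) ?_
          rw [eval_an', hon'.2]
          ring
        rw [h3, zero_mul]
  choose M hM using fun t => hrad t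
  refine ⟨∑ t, M t, U ^ (∑ t, M t), fun x hx => ?_, fun t => ?_⟩
  · rw [map_pow]
    exact pow_ne_zero _ (hU1 x hx)
  · rw [← mul_pow]
    exact Ideal.pow_mem_of_pow_mem _ (hM t)
      (Finset.single_le_sum (fun _ _ => Nat.zero_le _) (Finset.mem_univ t))

end lines

section forms

variable {n T : ℕ} {F : Fin T → MvPolynomial (Fin (n + 1)) ℂ} {d : Fin T → ℕ}

theorem sf_mult1 (hn : 2 ≤ n)
    (hd : ∀ t, 1 ≤ d t) (hF : ∀ t, (F t).IsHomogeneous (d t)) (hF0 : ∀ t, F t ≠ 0)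
    (a : Fin T → ℕ) (ha : ∀ t, 1 ≤ a t)
    (hpow : ∀ s : Fin (n + 1) × (Fin n → ℂ), Zv (lg F a) (pt s) →
      ∃ (L : ℕ) (U : MvPolynomial (Fin (n + 1)) ℂ),
      (∀ x : Fin (n + 1) → ℂ, On s x → eval x U ≠ 0) ∧
      ∀ t, U * an s.1 s.2 t ^ L ∈ Ideal.span (Set.range (lg F a)))
    (t : Fin T) : SF (fun _ : Fin 1 => ∏ s, F s ^ a s) 0 (-1 / (a t : ℂ)) := by
  classical
  have hg0 : ∏ t, F t ≠ 0 := Finset.prod_ne_zero_iff.2 fun t _ => hF0 t
  set S := (finite_lines' hpow).toFinset with hS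
  obtain ⟨l, hl0, hlS, -⟩ := exists_hyp' (∏ t, F t) (lg F a) hg0 (S.image pt) (by
    intro p hp
    obtain ⟨s, _, rfl⟩ := Finset.mem_image.1 hp
    exact pt_ne s)
  -- two vectors in the hyperplane
  set i1 : Fin (n + 1) := ⟨1, by omega⟩ with hi1
  set i2 : Fin (n + 1) := ⟨2, by omega⟩ with hi2
  have h01 : (0 : Fin (n + 1)) ≠ i1 := fun h => by
    have := congrArg Fin.val h
    simp [hi1] at this
  have h02 : (0 : Fin (n + 1)) ≠ i2 := fun h => by
    have := congrArg Fin.val h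
    simp [hi2] at this
  have h12 : i1 ≠ i2 := fun h => by
    have := congrArg Fin.val h
    simp [hi1, hi2] at this
  set u : Fin (n + 1) → ℂ := Pi.single i1 (l 0) - Pi.single 0 (l i1) with hu
  set w : Fin (n + 1) → ℂ := Pi.single i2 (l 0) - Pi.single 0 (l i2) with hw
  obtain ⟨x, y, hxy, hz⟩ := exists_zero (F t) (d t) (hd t) (hF t) u w
  set q : Fin (n + 1) → ℂ := fun j => x * u j + y * w j with hq
  have hq0 : q ≠ 0 := by
    intro h0
    have h1 := congrFun h0 i1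
    have h2 := congrFun h0 i2
    simp only [hq, hu, hw, Pi.sub_apply, Pi.zero_apply] at h1 h2
    rw [Pi.single_eq_same, Pi.single_eq_of_ne h01.symm, Pi.single_eq_of_ne h12,
      Pi.single_eq_of_ne h01.symm] at h1
    rw [Pi.single_eq_same, Pi.single_eq_of_ne h02.symm, Pi.single_eq_of_ne h12.symm,
      Pi.single_eq_of_ne h02.symm] at h2
    simp only [sub_zero, mul_zero, add_zero, zero_add] at h1 h2
    rcases hxy with h3 | h3
    · exact (mul_ne_zero h3 hl0) h1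
    · exact (mul_ne_zero h3 hl0) h2
  have hlq : ∑ i, l i * q i = 0 := by
    have h1 : ∑ i, l i * u i = 0 := by
      simp only [hu, Pi.sub_apply, mul_sub, Finset.sum_sub_distrib]
      simp only [Pi.single_apply, mul_ite, mul_zero]
      rw [Finset.sum_ite_eq' Finset.univ i1, Finset.sum_ite_eq' Finset.univ (0 : Fin (n + 1)),
        if_pos (Finset.mem_univ _), if_pos (Finset.mem_univ _)]
      ring
    have h2 : ∑ i, l i * w i = 0 := by
      simp only [hw, Pi.sub_apply, mul_sub, Finset.sum_sub_distrib]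
      simp only [Pi.single_apply, mul_ite, mul_zero]
      rw [Finset.sum_ite_eq' Finset.univ i2, Finset.sum_ite_eq' Finset.univ (0 : Fin (n + 1)),
        if_pos (Finset.mem_univ _), if_pos (Finset.mem_univ _)]
      ring
    have h3 : ∑ i, l i * q i = x * ∑ i, l i * u i + y * ∑ i, l i * w i := by
      rw [Finset.mul_sum, Finset.mul_sum, ← Finset.sum_add_distrib]
      refine Finset.sum_congr rfl fun i _ => ?_
      simp only [hq]
      ring
    rw [h3, h1, h2]
    ring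
  obtain ⟨s₀, hs1, hs2⟩ := exists_On q hq0
  set p := pt s₀ with hp
  have hc0 : q s₀.1 ≠ 0 := hs2.1
  have hqp : q = q s₀.1 • p := hs2.eq
  -- `p` is not in a zero line
  have hzv : ¬ Zv (lg F a) p := by
    intro hzp
    have h1 : p ∈ S.image pt :=
      Finset.mem_image_of_mem _ ((Set.Finite.mem_toFinset _).2 ⟨hs1, hzp⟩)
    apply hlS p h1
    have h2 : ∑ i, l i * q i = q s₀.1 * ∑ i, l i * p i := by
      conv_lhs => rw [hqp]
      rw [Finset.mul_sum]
      exact Finset.sum_congr rfl fun i _ => by rw [Pi.smul_apply, smul_eq_mul]; ring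
    rw [h2] at hlq
    exact (mul_eq_zero.1 hlq).resolve_left hc0
  have hFp : eval p (F t) = 0 := by
    have h1 := hz
    change eval q (F t) = 0 at h1
    rw [hqp, eval_homog (F t) (d t) (hF t)] at h1
    exact (mul_eq_zero.1 h1).resolve_left (pow_ne_zero _ hc0)
  unfold Zv at hzv
  push Not at hzv
  obtain ⟨j, hj⟩ := hzv
  rw [lg_single F a p hFp] at hj
  have hj1 : ∏ r ∈ Finset.univ.erase t, eval p (F r) ≠ 0 := right_ne_zero_of_mul hj
  have hj2 : eval p (pderiv j (F t)) ≠ 0 := right_ne_zero_of_mul (left_ne_zero_of_mul hj)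
  have hcd : cd s₀.1 s₀.2 p = 0 := cd_pt s₀.1 s₀.2 1 one_ne_zero p (pt_same s₀) (fun t => by
    rw [hp, pt_above, mul_one])
  have hp1 : p s₀.1 = 1 := pt_same s₀
  have hgerm : ∀ (G : MvPolynomial (Fin (n + 1)) ℂ) (e : ℕ), G.IsHomogeneous e →
      constantCoeff (germAt s₀.1 s₀.2 G) = eval p G := by
    intro G e hG
    have h1 := eval_germAt s₀.1 s₀.2 G e hG p (by rw [hp1]; exact one_ne_zero)
    rw [hcd, hp1, one_pow, one_mul, eval_zero] at h1
    exact h1.symm
  -- a derivative in the chart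
  obtain ⟨k, hk⟩ : ∃ k : Fin n, eval p (pderiv (s₀.1.succAbove k) (F t)) ≠ 0 := by
    by_contra hcon
    push Not at hcon
    have h1 := congrArg (eval p) (euler_hom (F t) (d t) (hF t))
    rw [map_sum, Fin.sum_univ_succAbove _ s₀.1, map_mul, eval_X, hp1, one_mul, map_mul, hFp,
      mul_zero, Finset.sum_eq_zero fun k _ => by rw [map_mul, hcon k, mul_zero], add_zero] at h1
    apply hj2
    induction j using s₀.1.succAboveCases with
    | x => exact h1
    | p k => exact hcon k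
  have h5 := sf_mult_germ (fun s => germAt s₀.1 s₀.2 (F s)) a t (ha t) (by
    rw [hgerm _ _ (hF t)]
    exact hFp) k (by
    rw [pderiv_germAt, hgerm _ _ (hF t).pderiv]
    exact hk) (fun s hs => by
    rw [hgerm _ _ (hF s)]
    exact (Finset.prod_ne_zero_iff.1 hj1) s (Finset.mem_erase.2 ⟨hs, Finset.mem_univ s⟩))
  have h6 : ∏ s, germAt s₀.1 s₀.2 (F s) ^ a s = germAt s₀.1 s₀.2 (∏ s, F s ^ a s) := by
    unfold germAt
    rw [map_prod]
    exact Finset.prod_congr rfl fun s _ => (map_pow _ _ _).symm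
  rw [h6] at h5
  refine sf_of_germ _ _ (pow_hom F a d hF) s₀.1 s₀.2 ?_ _ h5
  rw [← h6]
  refine Finset.prod_ne_zero_iff.2 fun s _ => pow_ne_zero _ ?_
  intro h7
  by_cases hst : s = t
  · subst hst
    have h8 := hgerm (pderiv (s₀.1.succAbove k) (F s)) _ (hF s).pderiv
    rw [← pderiv_germAt, h7, map_zero, map_zero] at h8
    exact hk h8.symm
  · have h8 := hgerm _ _ (hF s)
    rw [h7, map_zero] at h8
    exact (Finset.prod_ne_zero_iff.1 hj1) s (Finset.mem_erase.2 ⟨hst, Finset.mem_univ s⟩) h8.symm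


theorem av_tuple2 (hd : ∀ t, 1 ≤ d t) (h1d : 1 ≤ ∑ t, d t) (hF : ∀ t, (F t).IsHomogeneous (d t))
    (hF0 : ∀ t, F t ≠ 0) (a : Fin T → ℕ) (ha : ∀ t, 1 ≤ a t)
    (hpow : ∀ s : Fin (n + 1) × (Fin n → ℂ), Zv (lg F a) (pt s) →
      ∃ (L : ℕ) (U : MvPolynomial (Fin (n + 1)) ℂ),
      (∀ x : Fin (n + 1) → ℂ, On s x → eval x U ≠ 0) ∧
      ∀ t, U * an s.1 s.2 t ^ L ∈ Ideal.span (Set.range (lg F a)))
    (hSF : SF (fun _ : Fin 1 => ∏ t, F t ^ a t) 0
      (-((n + 1 : ℕ) : ℂ) / (∑ t, a t * d t : ℕ)) ∨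
      ∃ (A B : Matrix (Fin (n + 1)) (Fin (n + 1)) ℂ) (w : Fin (n + 1) → ℤ) (c₀ : ℕ),
      A * B = 1 ∧ B * A = 1 ∧ ∑ i, w i ≠ 0 ∧ 0 < c₀ ∧ (∀ i, 0 < w i + c₀) ∧ ∀ c ≥ c₀,
      ∀ γ : Arc ℂ (Fin (n + 1)), aeval (tt A B (fun i => (w i + c).toNat) γ)
        (∏ t, F t ^ a t) = PowerSeries.X ^ (c * ∑ t, a t * d t) * aeval γ (∏ t, F t ^ a t))
    {M : Meas ℂ (MK ℂ)} (hL : M.L = ((Lu ℂ : (MK ℂ)ˣ) : MK ℂ))
    (hn : 2 ≤ n) (hpm : ∀ s : Fin (n + 1) × (Fin n → ℂ), Zv (lg F a) (pt s) →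
      PM M true (fun _ : Fin 1 => germAt s.1 s.2 (∏ t, F t ^ a t))) :
    ∃ R : Finset ℂ, (∀ α ∈ R, SF (fun _ : Fin 1 => ∏ t, F t ^ a t) 0 α) ∧
      Av R (VS M (((Lu ℂ)⁻¹ : (MK ℂ)ˣ) : MK ℂ) (fun _ => True) (∏ t, F t ^ a t)) := by
  classical
  set f := ∏ t, F t ^ a t with hfdef
  set N := ∑ t, a t * d t with hN
  have hf : f.IsHomogeneous N := pow_hom F a d hF
  have hN0 : (N : ℂ) ≠ 0 := na_ne1 h1d a ha
  have hN1 : 1 ≤ N := by
    have : N ≠ 0 := by exact_mod_cast hN0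
    omega
  choose! S hS1 hS2 using fun (s : Fin (n + 1) × (Fin n → ℂ)) (h : Zv (lg F a) (pt s)) =>
    line_pm hL f N hf s.1 s.2 (hpm s h)
  set T' := (finite_lines' hpow).toFinset with hT'
  set D : Finset (ℤ × ℤ) := (Finset.univ.image fun t => ((-1 : ℤ), (a t : ℤ))) ∪ T'.biUnion S
    with hD
  have hDr : ∀ q ∈ D, q.1 < 0 ∧ 0 < q.2 ∧ SF (fun _ : Fin 1 => f) 0 ((q.1 : ℂ) / q.2) := by
    intro q hq
    rcases Finset.mem_union.1 hq with hq | hq
    · obtain ⟨t, -, rfl⟩ := Finset.mem_image.1 hq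
      refine ⟨by norm_num, by have := ha t; simp only; omega, ?_⟩
      have h1 := sf_mult1 hn hd hF hF0 a ha hpow t
      simp only
      push_cast
      exact h1
    · obtain ⟨s, hs, hqs⟩ := Finset.mem_biUnion.1 hq
      exact hS1 s ((Set.Finite.mem_toFinset _).1 hs).2 q hqs
  refine av_univ hL hN1 hf D hDr (fun D' hDD A m => ?_) hSF
  refine out_mem' (lg_hom F a d hd hF) hpow hL f
    (D' : Set (ℤ × ℤ)) (fun e {P} {q} hP h => VS_lg_bdd M (Lu ℂ) hL F a ha (fun t => ?_) e hP h)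
    (fun s hs1 hs2 => ?_) ((cyl_Box A m).and (cyl_Or _).not)
    (fun γ h => h.2) (∑ i, m i + 1) (Nat.succ_pos _) (an_box A m)
  · exact Finset.mem_coe.2 (hDD (Finset.mem_union_left _
      (Finset.mem_image.2 ⟨t, Finset.mem_univ _, rfl⟩)))
  · refine rat_mono (Lu ℂ) ?_ (hS2 s hs2)
    intro q hq
    exact Finset.mem_coe.2 (hDD (Finset.mem_union_right _ (Finset.mem_biUnion.2
      ⟨s, (Set.Finite.mem_toFinset _).2 ⟨hs1, hs2⟩, hq⟩)))

theorem av_tuple1 (hd : ∀ t, 1 ≤ d t) (h1d : 1 ≤ ∑ t, d t) (hF : ∀ t, (F t).IsHomogeneous (d t))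
    (hF0 : ∀ t, F t ≠ 0) (a : Fin T → ℕ) (ha : ∀ t, 1 ≤ a t)
    (hpow : ∀ s : Fin (n + 1) × (Fin n → ℂ), Zv (lg F a) (pt s) →
      ∃ (L : ℕ) (U : MvPolynomial (Fin (n + 1)) ℂ),
      (∀ x : Fin (n + 1) → ℂ, On s x → eval x U ≠ 0) ∧
      ∀ t, U * an s.1 s.2 t ^ L ∈ Ideal.span (Set.range (lg F a)))
    (hSF : SF (fun _ : Fin 1 => ∏ t, F t ^ a t) 0
      (-((n + 1 : ℕ) : ℂ) / (∑ t, a t * d t : ℕ)))
    {M : Meas ℂ (MK ℂ)} (hL : M.L = ((Lu ℂ : (MK ℂ)ˣ) : MK ℂ))
    (hn : 2 ≤ n) (hpm : ∀ s : Fin (n + 1) × (Fin n → ℂ), Zv (lg F a) (pt s) →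
      PM M true (fun _ : Fin 1 => germAt s.1 s.2 (∏ t, F t ^ a t))) :
    ∃ R : Finset ℂ, (∀ α ∈ R, SF (fun _ : Fin 1 => ∏ t, F t ^ a t) 0 α) ∧
      Av R (VS M (((Lu ℂ)⁻¹ : (MK ℂ)ˣ) : MK ℂ) (fun _ => True) (∏ t, F t ^ a t)) :=
  av_tuple2 hd h1d hF hF0 a ha hpow (Or.inl hSF) hL hn hpm

end forms

end Pool.Agent.H942.LP.TWaux

namespace Pool.Agent.H942.LP

open MvPolynomial Pool.Agent.H940.P Pool.Agent.H942.LP.TWaux Pool.Agent.Q57.QM Pool.Agent.Q57.MC
open Pool.Agent.Q57.MD Pool.Agent.Y229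

/-- **TW**, with a second torus -/
theorem tw_or {f : MvPolynomial (Fin 3) ℂ} {d : ℕ} (hd : 1 ≤ d) (hf0 : f ≠ 0)
    (hf : f.IsHomogeneous d) (h : SF (fun _ : Fin 1 => f) 0 (-((2 + 1 : ℕ) : ℂ) / d) ∨
      ∃ η : Fin 3 → MvPolynomial (Fin 3) ℂ, ∑ i, η i * pderiv i f = 0 ∧
        constantCoeff (Pool.Agent.H940.LT.dv η) ≠ 0) : MA f ∧ MAL f := by
  obtain ⟨T, F, e, a, he, hF, hF0, ha, h1, hsq, hprod⟩ := exists_fact hd hf hf0
  subst hprod
  have hN : ∑ t, a t * e t = d := (pow_hom F a e hF).inj_right hf hf0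
  subst hN
  have hSF := h.imp_right fun ⟨η, h1, h2⟩ => Pool.Agent.H940.G.exists_second _ _ hd hf η h1 h2
  refine ⟨ma_of_av (n := 2) hf fun {M} hL => ?_, mal_of_av (n := 2) hf fun {M} hL => ?_⟩
  · exact av_tuple2 (n := 2) he h1 hF hF0 a ha (fun s _ => pow_line1 h1 hF hF0 hsq a ha s) hSF hL
      le_rfl fun s _ => st_plane hL _ ⟨0, germ_ne _ _ hf hf0 s.1 s.2⟩
  · exact av_tuple2 (n := 2) he h1 hF hF0 a ha (fun s _ => pow_line1 h1 hF hF0 hsq a ha s) hSF hL
      le_rfl fun s _ => st_plane hL _ ⟨0, germ_ne _ _ hf hf0 s.1 s.2⟩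

/-- **TW** -/
theorem t_TW : S_TW := by
  intro f d hd hf0 hf hSF
  exact tw_or hd hf0 hf (Or.inl hSF)

end Pool.Agent.H942.LP
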