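import Pool.Agent.H942.LP.TW
import Pool.Agent.H940.F.Steps

set_option autoImplicit false
set_option linter.unusedSectionVars false
set_option linter.unusedVariables false

/-! # One finite set of strong pairs for the forms in three variables with the root `-3/d` -/

namespace Pool.Agent.H942.LP

open MvPolynomial Pool.Agent.W428.MOT Pool.Agent.TH192.MT Pool.Agent.TH192.DT Pool.Agent.Q49.CO
open Pool.Agent.Q57.QM Pool.Agent.Y229 Pool.Agent.Q57.MC Pool.Agent.Q57.MD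
open Pool.Agent.H940.LT (eval_homog euler_hom)
open Pool.Agent.H940.Z Pool.Agent.H940.G Pool.Agent.H940.F Pool.Agent.H940.P
open Pool.Agent.H942.LP.TWaux
open Pool.Agent.TH192.MU (zetaId IsTopZeta)
open Pool.Agent.W574.SM (IsFunctionalEq)

section

variable {f : MvPolynomial (Fin 3) ℂ} {d : ℕ} (hd : 1 ≤ d) (hf0 : f ≠ 0) (hf : f.IsHomogeneous d)
  (hSF : SF (fun _ : Fin 1 => f) 0 (-((2 + 1 : ℕ) : ℂ) / d))
  {M : Meas ℂ (MK ℂ)} (hL : M.L = ((Lu ℂ : (MK ℂ)ˣ) : MK ℂ))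
include hd hf0 hf hSF hL

/-- **The volumes of all arcs: finitely many pairs, which are roots.** -/
theorem fin_univ3 : ∃ S : Finset (ℤ × ℤ), (∀ q ∈ S, q.1 < 0 ∧ 0 < q.2 ∧
      SF (fun _ : Fin 1 => f) 0 ((q.1 : ℂ) / q.2)) ∧
      VS M (((Lu ℂ)⁻¹ : (MK ℂ)ˣ) : MK ℂ) (fun _ => True) f ∈
        ratU (Lu ℂ) (S : Set (ℤ × ℤ)) := by
  classical
  obtain ⟨T, F, e, a, he, hF, hF0, ha, h1d, hsq, hprod⟩ := exists_fact hd hf hf0
  subst hprod
  have hN : ∑ t, a t * e t = d := (pow_hom F a e hF).inj_right hf hf0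
  subst hN
  have hpow : ∀ s : Fin (2 + 1) × (Fin 2 → ℂ), Zv (lg F a) (pt s) →
      ∃ (L : ℕ) (U : MvPolynomial (Fin (2 + 1)) ℂ),
      (∀ x : Fin (2 + 1) → ℂ, On s x → eval x U ≠ 0) ∧
      ∀ t, U * an s.1 s.2 t ^ L ∈ Ideal.span (Set.range (lg F a)) :=
    fun s _ => pow_line1 h1d hF hF0 hsq a ha s
  have hpm : ∀ s : Fin (2 + 1) × (Fin 2 → ℂ), Zv (lg F a) (pt s) →
      PM M true (fun _ : Fin 1 => germAt s.1 s.2 (∏ t, F t ^ a t)) :=
    fun s _ => st_plane hL _ ⟨0, germ_ne _ _ hf hf0 s.1 s.2⟩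
  choose! S hS1 hS2 using fun (s : Fin (2 + 1) × (Fin 2 → ℂ)) (h : Zv (lg F a) (pt s)) =>
    line_pm hL (∏ t, F t ^ a t) _ hf s.1 s.2 (hpm s h)
  set T' := (finite_lines' hpow).toFinset with hT'
  set D : Finset (ℤ × ℤ) := insert (-3, ((∑ t, a t * e t : ℕ) : ℤ))
    ((Finset.univ.image fun t => ((-1 : ℤ), (a t : ℤ))) ∪ T'.biUnion S) with hD
  refine ⟨D, fun q hq => ?_, ?_⟩
  · rcases Finset.mem_insert.1 hq with rfl | hq
    · refine ⟨by norm_num, by simp only; exact_mod_cast hd, ?_⟩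
      have h2 : (((-3 : ℤ) : ℂ) / ((((∑ t, a t * e t : ℕ) : ℤ)) : ℂ)) =
          -((2 + 1 : ℕ) : ℂ) / ((∑ t, a t * e t : ℕ) : ℂ) := by
        push_cast
        norm_num
      simp only
      rw [h2]
      exact hSF
    · rcases Finset.mem_union.1 hq with hq | hq
      · obtain ⟨t, -, rfl⟩ := Finset.mem_image.1 hq
        refine ⟨by norm_num, by have := ha t; simp only; omega, ?_⟩
        have h1 := sf_mult1 (n := 2) le_rfl he hF hF0 a ha hpow t
        simp only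
        push_cast
        exact h1
      · obtain ⟨s, hs, hqs⟩ := Finset.mem_biUnion.1 hq
        exact hS1 s ((Set.Finite.mem_toFinset _).1 hs).2 q hqs
  · have hout : VS M (((Lu ℂ)⁻¹ : (MK ℂ)ˣ) : MK ℂ)
        (fun γ => Box (1 : Matrix (Fin 3) (Fin 3) ℂ) (fun _ => 0) γ ∧ ¬ Or γ) (∏ t, F t ^ a t) ∈
        ratU (Lu ℂ) (D : Set (ℤ × ℤ)) := by
      refine out_mem' (lg_hom F a e he hF) hpow hL (∏ t, F t ^ a t)
        (D : Set (ℤ × ℤ)) (fun e' {P} {q} hP h =>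
          VS_lg_bdd M (Lu ℂ) hL F a ha (fun t => ?_) e' hP h)
        (fun s hs1 hs2 => ?_) ((cyl_Box 1 _).and (cyl_Or _).not)
        (fun γ h => h.2) (∑ i, (fun _ : Fin 3 => 0) i + 1) (Nat.succ_pos _) (an_box 1 _)
      · exact Finset.mem_coe.2 (Finset.mem_insert_of_mem (Finset.mem_union_left _
          (Finset.mem_image.2 ⟨t, Finset.mem_univ _, rfl⟩)))
      · refine rat_mono (Lu ℂ) ?_ (hS2 s hs2)
        intro q hq
        exact Finset.mem_coe.2 (Finset.mem_insert_of_mem (Finset.mem_union_right _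
          (Finset.mem_biUnion.2 ⟨s, (Set.Finite.mem_toFinset _).2 ⟨hs1, hs2⟩, hq⟩)))
    refine univ_scalar M (Lu ℂ) hL _ (∏ t, F t ^ a t) (∑ t, a t * e t) hd
      (fun γ => aeval_homog _ _ hf γ _) ?_ ?_
    · rw [Fintype.card_fin]
      exact Finset.mem_coe.2 (Finset.mem_insert_self _ _)
    · rw [box_zero M (Lu ℂ) hL] at hout
      simp only [true_and] at hout
      exact hout

/-- **The germ at the origin.** -/
theorem pm3 : PM M true (fun _ : Fin 1 => f) := by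
  have hv : M.L * (((Lu ℂ)⁻¹ : (MK ℂ)ˣ) : MK ℂ) = 1 := by rw [hL, Units.mul_inv]
  obtain ⟨S, hS, hz⟩ := fin_univ3 hd hf0 hf hSF hL
  refine ⟨⟨0, hf0⟩, S, hS, ?_⟩
  rw [SW_true, vw_zero hv]
  exact or_of_univ M (Lu ℂ) hL _ f d (fun γ => aeval_homog f d hf γ _) hz

/-- **The global form.** -/
theorem gm3 : GM M true (fun _ : Fin 1 => f) := by
  have hv : M.L * (((Lu ℂ)⁻¹ : (MK ℂ)ˣ) : MK ℂ) = 1 := by rw [hL, Units.mul_inv]
  obtain ⟨S, hS, hz⟩ := fin_univ3 hd hf0 hf hSF hL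
  refine ⟨⟨0, hf0⟩, S, fun q hq => ⟨(hS q hq).1, (hS q hq).2.1, 0, (hS q hq).2.2⟩, ?_⟩
  rw [SW_true, vw_univ hv]
  exact hz

end

end Pool.Agent.H942.LP
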