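import Pool.Agent.H942.LP.DefT

set_option autoImplicit false
set_option linter.unusedSectionVars false
set_option linter.unusedVariables false
set_option maxHeartbeats 1000000

/-! # The `p`-adic zeta functions of a ternary form with the root `-3/d` -/

namespace Pool.Agent.H942.LP

open MeasureTheory MvPolynomial Topology
open Pool.Agent.H940.P Pool.Agent.H940.R
open Pool.Agent.W427.SMC Pool.Agent.Y230.PS Pool.Agent.Q57.QP
open Pool.Agent.Y230.PT hiding CO
open Pool.Agent.Q66.QP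
open Pool.Agent.Y229 (SF sf_of_local exists_fe)
open Pool.Agent.Q57.MC (sf_forced eq_of_locEq1)
open Pool.Agent.H940.G (germAt)
open scoped ENNReal

attribute [local instance] msK bsK msZ bsZ

variable {p : ℕ} [Fact p.Prime]

/-- **The integrals near all points.** -/
theorem pw_LP2 (f : MvPolynomial (Fin 3) ℚ) (N : ℕ) (hN1 : 1 ≤ N) (hf0 : f ≠ 0)
    (hf : f.IsHomogeneous N)
    (hSF : SF (fun _ : Fin 1 => map (algebraMap ℚ ℂ) f) 0 (-((2 + 1 : ℕ) : ℂ) / N) ∨
      ∃ η : Fin 3 → MvPolynomial (Fin 3) ℂ,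
        ∑ i, η i * pderiv i (map (algebraMap ℚ ℂ) f) = 0 ∧
        constantCoeff (Pool.Agent.H940.LT.dv η) ≠ 0)
    (P : Fin 3 → ℚ_[p]) :
    LP (mF p (map (algebraMap ℚ ℂ) f)) (fun x => ‖eval x (map (algebraMap ℚ ℚ_[p]) f)‖) P := by
  classical
  obtain ⟨φ⟩ := exists_emb p
  set G := map (algebraMap ℚ ℂ) f with hG
  set fp := map (algebraMap ℚ ℚ_[p]) f with hfp
  have hφ : map φ fp = G := map_C_eq φ f
  have hGh : G.IsHomogeneous N := hf.map _
  have hfh : fp.IsHomogeneous N := hf.map _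
  have hG0 : G ≠ 0 := by
    intro h0
    apply hf0
    apply map_injective (algebraMap ℚ ℂ) (algebraMap ℚ ℂ).injective
    rw [map_zero]
    exact h0
  have hne : ∀ P : Fin 3 → ℚ_[p], P ≠ 0 → LP (mF p G) (fun x => ‖eval x fp‖) P := by
    intro P hP
    obtain ⟨i, hi⟩ : ∃ i, P i ≠ 0 := by
      by_contra hcon
      push Not at hcon
      exact hP (funext hcon)
    set q : Fin 2 → ℚ_[p] := fun t => P (i.succAbove t) / P i with hq
    refine lp_chart (n := 2) fp N hfh i P hi _ ?_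
    have hmap : map φ (germ i q fp) = germAt i (fun t => φ (q t)) G := by
      rw [map_germ, hφ]
      rfl
    have hg0 : germAt i (fun t => φ (q t)) G ≠ 0 := germ_ne G N hGh hG0 _ _
    have hg1 : germ i q fp ≠ 0 := by
      intro h0
      rw [h0, map_zero] at hmap
      exact hg0 hmap.symm
    have h1 := st_plane p φ (fun _ : Fin 1 => germ i q fp) ⟨0, hg1⟩ 0
    have h2 : nrm (fun _ : Fin 1 => germ i q fp) = fun y => ‖eval y (germ i q fp)‖ := by
      funext x
      unfold nrm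
      rw [pi_norm_const]
    unfold LPF at h1
    rw [h2] at h1
    refine lp_mono (fun T0 _ => ?_) h1
    unfold mS
    split_ifs with h5
    · rw [mF_top]
      refine sf_of_germ G N hGh i (fun t => φ (q t)) hg0 _ ?_
      have h6 : (fun i : Fin 2 => φ ((0 : Fin 2 → ℚ_[p]) i)) = 0 := by
        funext i
        simp
      rw [h6] at h5
      simp only [hmap] at h5
      exact h5
    · exact bot_le
  by_cases hP : P = 0
  swap
  · exact hne P hP
  subst hP
  refine lp_zero_of f N hN1 hf _ (hSF.imp_left fun hSF => ?_) hne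
  intro T0 hT0 hTd
  apply mF_top
  rw [rr_ratio _ _ (by norm_num : 0 < 3) (by omega : 0 < N) T0 hTd]
  exact hSF

/-- **The integrals near all points**, with the root -/
theorem pw_LP (f : MvPolynomial (Fin 3) ℚ) (N : ℕ) (hN1 : 1 ≤ N) (hf0 : f ≠ 0)
    (hf : f.IsHomogeneous N)
    (hSF : SF (fun _ : Fin 1 => map (algebraMap ℚ ℂ) f) 0 (-((2 + 1 : ℕ) : ℂ) / N))
    (P : Fin 3 → ℚ_[p]) :
    LP (mF p (map (algebraMap ℚ ℂ) f)) (fun x => ‖eval x (map (algebraMap ℚ ℚ_[p]) f)‖) P :=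
  pw_LP2 f N hN1 hf0 hf (Or.inl hSF) P

/-- **The real parts of the poles are roots**, with a second torus -/
theorem pw_or (p : ℕ) [Fact p.Prime] (f : MvPolynomial (Fin 3) ℚ) (N : ℕ) (hN1 : 1 ≤ N)
    (hf0 : f ≠ 0) (hf : f.IsHomogeneous N)
    (hSF : SF (fun _ : Fin 1 => map (algebraMap ℚ ℂ) f) 0 (-((2 + 1 : ℕ) : ℂ) / N) ∨
      ∃ η : Fin 3 → MvPolynomial (Fin 3) ℂ,
        ∑ i, η i * pderiv i (map (algebraMap ℚ ℂ) f) = 0 ∧
        constantCoeff (Pool.Agent.H940.LT.dv η) ≠ 0) :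
    Pool.Agent.T6.H26.ZR p false (Pool.Agent.Y230.PS.hyp f) := by
  classical
  refine ⟨⟨(0 : Fin 1), hf0⟩, ?_⟩
  simp only [Bool.false_eq_true, if_false]
  have h1 := st_ff p (FamQ.toP p (hyp f)) (mR p (hyp f)) (fun P => ?_) (fun _ => 1)
    (fun _ => one_ne_zero)
  · rw [scl_one] at h1
    exact h1
  · have h2 := pw_LP2 f N hN1 hf0 hf hSF P
    have h3 : nrm (FamQ.toP p (hyp f)) = fun x => ‖eval x (map (algebraMap ℚ ℚ_[p]) f)‖ := by
      funext x
      unfold nrm
      have h4 : (fun j => eval x (FamQ.toP p (hyp f) j)) =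
          fun _ : Fin 1 => eval x (map (algebraMap ℚ ℚ_[p]) f) := rfl
      rw [h4, pi_norm_const]
    rw [h3]
    refine lp_mono (fun T _ => ?_) h2
    unfold mF
    split_ifs with h5
    · rw [mR_top (sf_forced h5)]
    · exact bot_le

/-- **The real parts of the poles are roots.** -/
theorem t_PW : S_PW := by
  intro p _ f N hN1 hf0 hf hSF
  exact pw_or p f N hN1 hf0 hf (Or.inl hSF)

end Pool.Agent.H942.LP
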