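import Pool.Agent.H942.LP.Tame3
import Pool.Agent.H942.LP.SF0
import Pool.Agent.H942.LP.TW
import Pool.Agent.H942.LP.PW

set_option autoImplicit false
set_option linter.unusedSectionVars false
set_option linter.unusedVariables false

/-! # The topological and the `p`-adic zeta functions -/

namespace Pool.Agent.H942.LP

open MvPolynomial Pool.Agent.Helper748.MC Pool.Agent.Helper748.TP Pool.Agent.H941.TF
  Pool.Agent.H941.SC Pool.Agent.H941.NC Pool.Agent.H941.ND Pool.Agent.H941.QH Pool.Agent.H940.P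
open Pool.Agent.Y229 (SF)
open Pool.Agent.H628R4.TP (IsBFunction)

/-- a linear vector field of trace `≠ 0` -/
theorem field_of_not {f : MvPolynomial (Fin 3) ℂ} (h : ¬ TrZero f) :
    ∃ η : Fin 3 → MvPolynomial (Fin 3) ℂ, ∑ i, η i * pderiv i f = 0 ∧
      constantCoeff (Pool.Agent.H940.LT.dv η) ≠ 0 := by
  unfold TrZero at h
  push Not at h
  obtain ⟨B, h1, h2⟩ := h
  refine ⟨fun i => ∑ j, C (B i j) * X j, h1, ?_⟩
  rw [Pool.Agent.H940.LT.dv, map_sum]
  have h3 : ∀ i : Fin 3, constantCoeff (pderiv i (∑ j, C (B i j) * X j)) = B i i := by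
    intro i
    rw [map_sum, map_sum, Finset.sum_eq_single i]
    · rw [Derivation.leibniz, pderiv_C, smul_zero, add_zero, pderiv_X_self, smul_eq_mul, mul_one,
        constantCoeff_C]
    · intro j _ hj
      rw [Derivation.leibniz, pderiv_C, smul_zero, add_zero, pderiv_X_of_ne hj, smul_zero,
        map_zero]
    · intro h
      exact absurd (Finset.mem_univ i) h
  rw [Finset.sum_congr rfl fun i _ => h3 i]
  exact h2

section
variable {f H : MvPolynomial (Fin 3) ℂ} {d : ℕ} (hf : f.IsHomogeneous d)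
include hf

theorem TameSub.sf (hc : TameSub f H) (hfld : NoField f H) :
    SF (fun _ : Fin 1 => f) 0 (-((2 + 1 : ℕ) : ℂ) / d) :=
  t_SF0 f d (hc.deg hf) hc.ne hf fun b hb => hc.root hf hfld hb

/-- the root, or a second torus -/
theorem TameSub.sf_or (hc : TameSub f H) : SF (fun _ : Fin 1 => f) 0 (-((2 + 1 : ℕ) : ℂ) / d) ∨
    ∃ η : Fin 3 → MvPolynomial (Fin 3) ℂ, ∑ i, η i * pderiv i f = 0 ∧
      constantCoeff (Pool.Agent.H940.LT.dv η) ≠ 0 := by
  by_cases h : TrZero f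
  · exact Or.inl (hc.sf hf (Or.inr (Or.inr h)))
  · exact Or.inr (field_of_not h)

theorem TameSub.ma (hc : TameSub f H) : MA f := (tw_or (hc.deg hf) hc.ne hf (hc.sf_or hf)).1

theorem TameSub.mal (hc : TameSub f H) : MAL f := (tw_or (hc.deg hf) hc.ne hf (hc.sf_or hf)).2

end

/-- the `p`-adic zeta functions -/
theorem TameSub.zr {d : ℕ} {H : MvPolynomial (Fin 3) ℂ} (f : MvPolynomial (Fin 3) ℚ)
    (hf : (map (algebraMap ℚ ℂ) f).IsHomogeneous d) (hc : TameSub (map (algebraMap ℚ ℂ) f) H)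
    (p : ℕ) [Fact p.Prime] : Pool.Agent.T6.H26.ZR p false (Pool.Agent.Y230.PS.hyp f) := by
  refine pw_or p f d (hc.deg hf) (fun h0 => hc.ne (by rw [h0, map_zero])) (fun m hm => ?_)
    (hc.sf_or hf)
  refine hf fun h0 => hm ?_
  rw [coeff_map] at h0
  exact (map_eq_zero_iff (algebraMap ℚ ℂ) (algebraMap ℚ ℂ).injective).1 h0

/-- the cofactor in the squarefree part -/
theorem exists_cof3 {d : ℕ} {f H : MvPolynomial (Fin 3) ℂ} (hf : f.IsHomogeneous d) (hf0 : f ≠ 0)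
    (hd : 1 ≤ d) (hH : Squarefree H) (hHf : H ∣ f) :
    ∃ (G : MvPolynomial (Fin 3) ℂ) (n k : ℕ), G.IsHomogeneous n ∧ Squarefree (H * G) ∧
      H * G ∣ f ∧ f ∣ (H * G) ^ k := by
  classical
  obtain ⟨T, F, e, a, -, hF, hF0, ha, -, hsq, hprod⟩ := TWaux.exists_fact hd hf hf0
  set S := ∏ t, F t with hS
  have h1 : S ∣ f := by
    rw [← hprod, hS]
    exact Finset.prod_dvd_prod_of_dvd _ _ fun t _ => dvd_pow_self _ (by have := ha t; omega)
  have h2 : f ∣ S ^ (∑ t, a t) := by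
    rw [← hprod, hS, ← Finset.prod_pow]
    exact Finset.prod_dvd_prod_of_dvd _ _ fun t _ =>
      pow_dvd_pow _ (Finset.single_le_sum (fun i _ => Nat.zero_le (a i)) (Finset.mem_univ t))
  have h3 : H ∣ S := by
    have h4 : H ∣ S ^ (∑ t, a t + 1) := (hHf.trans h2).trans (pow_dvd_pow _ (Nat.le_succ _))
    exact (hH.dvd_pow_iff_dvd (Nat.succ_ne_zero _)).1 h4
  obtain ⟨G, hG⟩ := h3
  have hGS : G ∣ f := (Dvd.intro_left H hG.symm).trans h1
  obtain ⟨n, hn⟩ := TWaux.hom_of_dvd hf hf0 hGS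
  exact ⟨G, n, ∑ t, a t, hn, hG ▸ hsq, hG ▸ h1, hG ▸ h2⟩

/-- **Powers and multiples of a form.** -/
def DivSub (f H : MvPolynomial (Fin 3) ℂ) : Prop :=
  ∃ e : ℕ, H.IsHomogeneous e ∧ Squarefree H ∧ H ∣ f ∧ Start f H e ∧
    ((∃ k : ℕ, f ∣ H ^ k) ∨ ∃ m : ℕ, 3 * m < e ∧
      ∀ z : Fin 3 → ℂ, z ≠ 0 → eval z H = 0 → MultLE m H z ∨ QHAt f z)

theorem DivSub.sub {d : ℕ} {f H : MvPolynomial (Fin 3) ℂ} (hf : f.IsHomogeneous d) (hf0 : f ≠ 0)
    (h : DivSub f H) : TameSub f H := by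
  classical
  obtain ⟨e, hH, hsq, hHf, hst, ⟨k, hk⟩ | ⟨m, hm, hz⟩⟩ := h
  · refine ⟨0, k, e, fun j => j.elim0, fun j => j.elim0, hH, fun j => j.elim0, ?_, ?_, ?_, hst,
      fun j => j.elim0⟩
    · rwa [Finset.univ_eq_empty, Finset.prod_empty, mul_one]
    · rwa [Finset.univ_eq_empty, Finset.prod_empty, mul_one]
    · rwa [Finset.univ_eq_empty, Finset.prod_empty, mul_one]
  have he := hst.lt
  have hH0 : H ≠ 0 := hsq.ne_zero
  have hd : 1 ≤ d := by
    have h1 := totalDegree_le_of_dvd_of_isDomain hHf hf0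
    rw [hH.totalDegree hH0, hf.totalDegree hf0] at h1
    omega
  obtain ⟨G, n, k, hn, hsqG, h1, h2⟩ := exists_cof3 hf hf0 hd hsq hHf
  have hfil : ∀ j : Fin 1, Finset.univ.filter (· < j) = (∅ : Finset (Fin 1)) := by
    intro j
    refine Finset.filter_eq_empty_iff.2 fun i _ hi => ?_
    have h1 := i.isLt
    have h2 := j.isLt
    have h3 : (i : ℕ) < j := hi
    omega
  refine ⟨1, k, e, fun _ => n, fun _ => G, hH, fun _ => hn, ?_, ?_, ?_, hst, ?_⟩
  · rwa [Fin.prod_univ_one]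
  · rwa [Fin.prod_univ_one]
  · rwa [Fin.prod_univ_one]
  · intro j
    refine Or.inr ⟨m, ?_, fun z hz0 _ hzD => ?_⟩
    · rw [hfil, Finset.sum_empty]
      omega
    · rw [hfil, Finset.prod_empty, mul_one] at hzD ⊢
      exact hz z hz0 hzD

end Pool.Agent.H942.LP
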