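import Pool.Agent.H942.LP.DefG

set_option autoImplicit false
set_option linter.unusedSectionVars false
set_option linter.unusedVariables false

/-! # The residue argument (S_Al) -/

namespace Pool.Agent.H942.LP

open Finset Filter Topology Polynomial Pool.Agent.Helper748.TP Pool.Agent.H941.TF
  Pool.Agent.H941.SC Pool.Agent.H941.NC

namespace AlN

/-- division with remainder does not raise the total degree -/
theorem TD_modByMonic {F : ℂ[X][X]} (hF : F.Monic) {e : ℕ} (he : F.natDegree = e)
    (hTD : TD (e : ℤ) F) {D : ℤ} :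
    ∀ (N : ℕ) (P : ℂ[X][X]), (∀ i, N ≤ i → P.coeff i = 0) → TD D P → TD D (P %ₘ F) := by
  intro N
  induction N with
  | zero =>
    intro P hP _
    have h0 : P = 0 := by
      ext1 i
      rw [hP i (Nat.zero_le i), coeff_zero]
    rw [h0, zero_modByMonic]
    intro i j _
    rw [coeff_zero, coeff_zero]
  | succ N ih =>
    intro P hP hD
    rcases lt_or_ge N e with hN | hN
    · have hdeg : P.degree < F.degree := by
        rw [degree_eq_natDegree hF.ne_zero, he]
        rw [degree_lt_iff_coeff_zero]
        intro i hi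
        exact hP i (by omega)
      rw [(modByMonic_eq_self_iff hF).2 hdeg]
      exact hD
    · set c : ℂ[X] := P.coeff N with hc
      have hFc : F.coeff e = 1 := by
        rw [← he]
        exact hF
      have hmul : ∀ i, (monomial (N - e) c * F).coeff i =
          if N - e ≤ i then c * F.coeff (i - (N - e)) else 0 := by
        intro i
        split_ifs with h
        · obtain ⟨d, rfl⟩ := Nat.exists_eq_add_of_le h
          rw [add_comm (N - e) d, coeff_monomial_mul, Nat.add_sub_cancel]
        · rw [← C_mul_X_pow_eq_monomial, mul_assoc, coeff_C_mul, X_pow_mul, coeff_mul_X_pow',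
            if_neg h, mul_zero]
      have h1 : (P - monomial (N - e) c * F) %ₘ F = P %ₘ F := by
        rw [sub_modByMonic, (modByMonic_eq_zero_iff_dvd hF).2 (dvd_mul_left F _), sub_zero]
      rw [← h1]
      apply ih
      · intro i hi
        rw [coeff_sub, hmul]
        rcases eq_or_lt_of_le hi with h2 | h2
        · subst h2
          rw [if_pos (Nat.sub_le _ _), Nat.sub_sub_self hN, hFc, mul_one, sub_self]
        · rw [hP i h2, if_pos (by omega), coeff_eq_zero_of_natDegree_lt (by rw [he]; omega),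
            mul_zero, sub_zero]
      · have h3 : TD (D - e) (monomial (N - e) c) := by
          intro i j hij
          rw [coeff_monomial]
          split_ifs with h4
          · apply hD N j
            have : ((N - e : ℕ) : ℤ) = N - e := by omega
            rw [← h4, this] at hij
            omega
          · rw [coeff_zero]
        have h5 := h3.mul hTD
        rw [sub_add_cancel] at h5
        exact hD.sub h5

theorem lam_sub (F P Q : ℂ[X][X]) (n : ℕ) : ((P - Q) %ₘ F).coeff n =
    (P %ₘ F).coeff n - (Q %ₘ F).coeff n := by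
  rw [sub_modByMonic, coeff_sub]

theorem lam_C (F P : ℂ[X][X]) (c : ℂ[X]) (n : ℕ) : ((C c * P) %ₘ F).coeff n =
    c * (P %ₘ F).coeff n := by
  rw [← smul_eq_C_mul, smul_modByMonic, coeff_smul, smul_eq_mul]

/-- a nonzero polynomial with many roots has large degree -/
theorem natDegree_large {δ p : ℂ[X]} {b : ℂ} (hδ : δ ≠ 0) (hb : δ.eval b = 0) (hp : p ≠ 0)
    (h1 : ∀ b', b' ≠ b → (X - C b') ^ (δ.rootMultiplicity b') ∣ p)
    (h2 : (X - C b) ^ (δ.rootMultiplicity b - 1) ∣ p) : δ.natDegree ≤ p.natDegree + 1 := by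
  have hle : δ.roots.erase b ≤ p.roots := by
    rw [Multiset.le_iff_count]
    intro a
    rcases eq_or_ne a b with rfl | hab
    · rw [Multiset.count_erase_self, count_roots, count_roots]
      exact (le_rootMultiplicity_iff hp).2 h2
    · rw [Multiset.count_erase_of_ne hab, count_roots, count_roots]
      exact (le_rootMultiplicity_iff hp).2 (h1 a hab)
  have hcard := Multiset.card_le_card hle
  have hmem : b ∈ δ.roots := (mem_roots hδ).2 hb
  rw [Multiset.card_erase_of_mem hmem] at hcard
  have h3 : Multiset.card δ.roots = δ.natDegree :=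
    splits_iff_card_roots.1 (IsAlgClosed.splits δ)
  have h4 := p.card_roots'
  rw [h3] at hcard
  have h5 : δ.natDegree.pred + 1 ≥ δ.natDegree := by
    cases δ.natDegree <;> simp
  omega

theorem main (F W : ℂ[X][X]) (δ : ℂ[X]) (b : ℂ) (e : ℕ) (hF : F.Monic) (he : F.natDegree = e)
    (he1 : 1 ≤ e) (hTD : TD (e : ℤ) F) (hδ : δ ≠ 0) (hW : TD (3 + δ.natDegree : ℤ) W)
    (hyp : ∀ u : ℂ[X][X], ∃ g, TD ((e : ℤ) - 6) g ∧
      (∀ b', b' ≠ b → (X - C b') ^ (δ.rootMultiplicity b') ∣ ((g * W) %ₘ F).coeff (e - 1)) ∧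
      (X - C b) ^ (δ.rootMultiplicity b) ∣ (((g - u) * W) %ₘ F).coeff (e - 1))
    (hb : δ.eval b = 0) : evt b F ∣ evt b W := by
  have hK : 1 ≤ δ.rootMultiplicity b := (rootMultiplicity_pos hδ).2 hb
  obtain ⟨K, hKe⟩ := Nat.exists_eq_add_of_le' hK
  -- the value at `b` of the trace of `u0 * W` vanishes
  have key : ∀ u0 : ℂ[X][X], (((u0 * W) %ₘ F).coeff (e - 1)).eval b = 0 := by
    intro u0
    obtain ⟨g, hg, hg1, hg2⟩ := hyp (C ((X - C b) ^ K) * u0)
    rw [sub_mul, lam_sub, mul_assoc, lam_C, hKe] at hg2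
    have hp0 : ((g * W) %ₘ F).coeff (e - 1) = 0 := by
      by_contra hp
      have h1 : (X - C b) ^ K ∣ ((g * W) %ₘ F).coeff (e - 1) := by
        have h2 : (X - C b) ^ K ∣ ((g * W) %ₘ F).coeff (e - 1) -
            (X - C b) ^ K * ((u0 * W) %ₘ F).coeff (e - 1) :=
          (pow_dvd_pow _ (Nat.le_succ K)).trans hg2
        have h3 := dvd_add h2 (dvd_mul_right ((X - C b) ^ K) (((u0 * W) %ₘ F).coeff (e - 1)))
        rwa [sub_add_cancel] at h3
      have h4 := natDegree_large hδ hb hp hg1 (by rw [hKe, Nat.add_sub_cancel]; exact h1)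
      have h5 := TD_modByMonic hF he hTD ((g * W).natDegree + 1) (g * W)
        (fun i hi => coeff_eq_zero_of_natDegree_lt (by omega)) (hg.mul hW)
      have h6 : ((g * W) %ₘ F).coeff (e - 1) ≠ 0 := hp
      have h7 := h5 (e - 1) (((g * W) %ₘ F).coeff (e - 1)).natDegree (by
        have : ((e - 1 : ℕ) : ℤ) = e - 1 := by omega
        rw [this]
        omega)
      exact h6 (leadingCoeff_eq_zero.1 h7)
    rw [hp0, zero_sub, dvd_neg, pow_succ] at hg2
    have h8 := (mul_dvd_mul_iff_left (pow_ne_zero K (X_sub_C_ne_zero b))).1 hg2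
    exact dvd_iff_isRoot.1 h8
  have hFb : (evt b F).Monic := by
    rw [evt, coe_mapRingHom]
    exact hF.map _
  have hFd : (evt b F).natDegree = e := by
    rw [evt, coe_mapRingHom, hF.natDegree_map]
    exact he
  rw [← modByMonic_eq_zero_iff_dvd hFb]
  by_contra hR
  set R := evt b W %ₘ evt b F with hRdef
  have hRdeg : R.natDegree < e := by
    rw [← hFd]
    apply natDegree_modByMonic_lt _ hFb
    intro h
    rw [h, natDegree_one] at hFd
    omega
  have h1 := key (X ^ (e - 1 - R.natDegree))
  have h2 : (((X ^ (e - 1 - R.natDegree) * W) %ₘ F).coeff (e - 1)).eval b =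
      ((X ^ (e - 1 - R.natDegree) * evt b W) %ₘ evt b F).coeff (e - 1) := by
    have h3 : evt b ((X ^ (e - 1 - R.natDegree) * W) %ₘ F) =
        (X ^ (e - 1 - R.natDegree) * evt b W) %ₘ evt b F := by
      have h4 : evt b (X ^ (e - 1 - R.natDegree) * W) = X ^ (e - 1 - R.natDegree) * evt b W := by
        rw [map_mul, map_pow]
        congr 2
        rw [evt, coe_mapRingHom, map_X]
      rw [← h4, evt, coe_mapRingHom, map_modByMonic _ hF]
    rw [← h3, evt, coe_mapRingHom, coeff_map, coe_evalRingHom]
  rw [h2] at h1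
  have h5 : (X ^ (e - 1 - R.natDegree) * evt b W) %ₘ evt b F = X ^ (e - 1 - R.natDegree) * R := by
    have h6 : X ^ (e - 1 - R.natDegree) * evt b W = X ^ (e - 1 - R.natDegree) * R +
        evt b F * (X ^ (e - 1 - R.natDegree) * (evt b W /ₘ evt b F)) := by
      have h7 := modByMonic_add_div (evt b W) (evt b F)
      rw [← hRdef] at h7
      linear_combination (-(X ^ (e - 1 - R.natDegree) : ℂ[X])) * h7
    rw [h6, add_modByMonic, (modByMonic_eq_zero_iff_dvd hFb).2 (dvd_mul_right (evt b F) _),
      add_zero]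
    apply (modByMonic_eq_self_iff hFb).2
    apply degree_lt_degree
    rw [hFd, natDegree_X_pow_mul _ hR]
    omega
  rw [h5, mul_comm, coeff_mul_X_pow', if_pos (by omega)] at h1
  have h8 : e - 1 - (e - 1 - R.natDegree) = R.natDegree := by omega
  rw [h8] at h1
  exact hR (leadingCoeff_eq_zero.1 h1)

end AlN

open AlN in
theorem t_Al : S_Al := fun F W δ b e hF he he1 hTD hδ hW hyp hb =>
  main F W δ b e hF he he1 hTD hδ hW hyp hb

end Pool.Agent.H942.LP
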