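import Pool.Agent.H942.LP.DefM
import Pool.Agent.H941.SC.Class

set_option autoImplicit false
set_option linter.unusedSectionVars false
set_option linter.unusedVariables false

/-! # LP-Ba: an inequality with the gradient in a chart -/

namespace Pool.Agent.H942.LP

open MvPolynomial Filter Topology Pool.Agent.Helper748.MC Pool.Agent.Helper748.TP
  Pool.Agent.H941.TF Pool.Agent.H941.SC Pool.Agent.H941.NC

namespace BaN

theorem eval_smul_hom {n : ℕ} {p : MvPolynomial (Fin 3) ℂ} (hp : p.IsHomogeneous n) (c : ℂ)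
    (y : Fin 3 → ℂ) : eval (c • y) p = c ^ n * eval y p := by
  rw [eval_eq', eval_eq', Finset.mul_sum]
  refine Finset.sum_congr rfl fun d hd => ?_
  have h1 : ∑ i, d i = n := by
    have h2 := hp (mem_support_iff.1 hd)
    rw [← h2, ← Finsupp.degree_eq_sum, Finsupp.degree_eq_weight_one]
    rfl
  simp only [Pi.smul_apply, smul_eq_mul, mul_pow]
  rw [Finset.prod_mul_distrib, Finset.prod_pow_eq_pow_sum, h1]
  ring

theorem mero_bdd {f : ℂ → ℂ} (hf : MeromorphicAt f 0) {B : ℂ → ℝ} {b : ℝ}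
    (hB : Tendsto B (𝓝[≠] 0) (𝓝 b)) (h : ∀ᶠ u in 𝓝[≠] (0 : ℂ), ‖f u‖ ≤ B u) :
    ∃ L, Tendsto f (𝓝[≠] 0) (𝓝 L) := by
  refine tendsto_nhds_of_meromorphicOrderAt_nonneg hf ?_
  by_contra hneg
  rw [not_le] at hneg
  have h1 := tendsto_norm_atTop_iff_cobounded.2 (tendsto_cobounded_of_meromorphicOrderAt_neg hneg)
  have h2 : Tendsto B (𝓝[≠] (0 : ℂ)) atTop := tendsto_atTop_mono' _ h h1
  exact not_tendsto_atTop_of_tendsto_nhds hB h2

/-- the derivative along the branch -/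
theorem branch_deriv {F : Polynomial (Polynomial ℂ)} {t : ℂ} {m : ℕ} {a : ℂ → ℂ}
    (ha : AnalyticAt ℂ a 0)
    (hr : ∀ᶠ u in 𝓝[≠] (0 : ℂ), ev2 F (t + u ^ m) (a u) = 0) :
    ∀ᶠ u in 𝓝[≠] (0 : ℂ), (m : ℂ) * u ^ (m - 1) * ev2 (dt F) (t + u ^ m) (a u) +
      deriv a u * ev2 (Polynomial.derivative F) (t + u ^ m) (a u) = 0 := by
  filter_upwards [eventually_eventually_nhdsWithin.2 hr, self_mem_nhdsWithin,
    (ha.eventually_analyticAt).filter_mono nhdsWithin_le_nhds] with u h1 h2 h3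
  have h4 : ∀ᶠ v in 𝓝 u, ev2 F (t + v ^ m) (a v) = 0 := by
    rwa [isOpen_compl_singleton.nhdsWithin_eq h2] at h1
  have hT : HasDerivAt (fun v : ℂ => t + v ^ m) ((m : ℂ) * u ^ (m - 1)) u :=
    (hasDerivAt_pow m u).const_add t
  have h5 := hasDerivAt_ev2 F hT h3.differentiableAt.hasDerivAt
  have h6 : HasDerivAt (fun v => ev2 F (t + v ^ m) (a v)) 0 u :=
    (hasDerivAt_const u (0 : ℂ)).congr_of_eventuallyEq h4
  exact h5.unique h6

end BaN

open BaN in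
theorem t_Ba : S_Ba := by
  intro H g e κ z0 A t x c hH hg hA hc hz hK m a hm ha hax hr hd hL
  obtain ⟨K, hK⟩ := hK
  obtain ⟨L, hL⟩ := hL
  set F := ch (lin A H) with hF
  set z : ℂ → Fin 3 → ℂ := fun u => ![t + u ^ m, 1, a u] with hzdef
  set w : ℂ → Fin 3 → ℂ := fun u i => ∑ j, A i j * z u j with hw
  set D : ℂ → Fin 3 → ℂ := fun u j => eval (z u) (pderiv j (lin A H)) with hD
  set v : ℂ → Fin 3 → ℂ := fun u i => eval (w u) (pderiv i H) with hv
  have hD0 : ∀ u, D u 0 = ev2 (dt F) (t + u ^ m) (a u) := fun u => by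
    rw [hF, ← ch_pderiv0, ev_ch]
  have hD2 : ∀ u, D u 2 = ev2 (Polynomial.derivative F) (t + u ^ m) (a u) := fun u => by
    rw [hF, ← ch_pderiv2, ev_ch]
  have hDv : ∀ u, D u = Matrix.vecMul (v u) A := fun u => by
    funext j
    exact eval_pderiv_lin A (z u) H j
  have hAu : IsUnit A.det := isUnit_iff_ne_zero.2 hA
  have hvD : ∀ u i, v u i = ∑ j, D u j * A⁻¹ j i := fun u i => by
    have h1 : Matrix.vecMul (D u) A⁻¹ = v u := by
      rw [hDv, Matrix.vecMul_vecMul, Matrix.mul_nonsing_inv A hAu, Matrix.vecMul_one]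
    rw [← h1]
    rfl
  -- limits
  have hm0 : (m : ℂ) ≠ 0 := Nat.cast_ne_zero.2 hm.ne'
  have hTt : Tendsto (fun u : ℂ => t + u ^ m) (𝓝[≠] 0) (𝓝 t) := by
    have h7 : ContinuousAt (fun u : ℂ => t + u ^ m) 0 := by fun_prop
    have h8 := h7.tendsto.mono_left (nhdsWithin_le_nhds (s := {0}ᶜ))
    simpa [zero_pow hm.ne'] using h8
  have hat : Tendsto a (𝓝[≠] 0) (𝓝 x) := by
    rw [← hax]
    exact ha.continuousAt.tendsto.mono_left nhdsWithin_le_nhds
  have hl0 : Tendsto (fun u => D u 0 / D u 2) (𝓝[≠] 0) (𝓝 (-(L / m))) := by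
    have h1 : Tendsto (fun u => -(deriv a u / u ^ (m - 1) / m)) (𝓝[≠] 0) (𝓝 (-(L / m))) :=
      (hL.div_const (m : ℂ)).neg
    refine h1.congr' ?_
    filter_upwards [branch_deriv ha hr, hd, self_mem_nhdsWithin] with u h2 h3 h4
    have h5 : u ^ (m - 1) ≠ 0 := pow_ne_zero _ h4
    rw [hD0, hD2]
    field_simp
    linear_combination -h2
  have hl2 : Tendsto (fun u => D u 2 / D u 2) (𝓝[≠] 0) (𝓝 1) := by
    refine tendsto_const_nhds.congr' ?_
    filter_upwards [hd] with u h3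
    rw [hD2, div_self h3]
  have hl1 : Tendsto (fun u => D u 1 / D u 2) (𝓝[≠] 0)
      (𝓝 (-(t * -(L / m)) - x)) := by
    have h1 : Tendsto (fun u => -((t + u ^ m) * (D u 0 / D u 2)) - a u) (𝓝[≠] 0)
      (𝓝 (-(t * -(L / m)) - x)) := ((hTt.mul hl0).neg).sub hat
    refine h1.congr' ?_
    filter_upwards [hr, hd] with u h2 h3
    have h4 := euler (lin_homog A hH) (t + u ^ m) (a u) (by rw [← ev_ch]; exact h2)
    have h5 : (t + u ^ m) * D u 0 + D u 1 + a u * D u 2 = 0 := h4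
    have h6 : D u 2 ≠ 0 := by rw [hD2]; exact h3
    field_simp
    linear_combination -h5
  have hlj : ∀ j, ∃ l, Tendsto (fun u => D u j / D u 2) (𝓝[≠] 0) (𝓝 l) := by
    intro j
    fin_cases j
    · exact ⟨_, hl0⟩
    · exact ⟨_, hl1⟩
    · exact ⟨_, hl2⟩
  choose l hl using hlj
  have hvl : ∀ i, Tendsto (fun u => v u i / D u 2) (𝓝[≠] 0) (𝓝 (∑ j, l j * A⁻¹ j i)) := by
    intro i
    have h1 : Tendsto (fun u => ∑ j, D u j / D u 2 * A⁻¹ j i) (𝓝[≠] 0)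
        (𝓝 (∑ j, l j * A⁻¹ j i)) :=
      tendsto_finsetSum _ fun j _ => (hl j).mul_const _
    refine h1.congr fun u => ?_
    rw [hvD, Finset.sum_div]
    refine Finset.sum_congr rfl fun j _ => ?_
    ring
  -- the point of the chart
  have hzt : ∀ j, Tendsto (fun u => z u j) (𝓝[≠] 0) (𝓝 ((![t, 1, x] : Fin 3 → ℂ) j)) := by
    intro j
    fin_cases j
    · exact hTt
    · exact tendsto_const_nhds
    · exact hat
  have hyt : Tendsto (fun u => c⁻¹ • w u) (𝓝[≠] 0) (𝓝 z0) := by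
    rw [tendsto_pi_nhds]
    intro i
    have h1 : Tendsto (fun u => c⁻¹ * ∑ j, A i j * z u j) (𝓝[≠] 0)
        (𝓝 (c⁻¹ * ∑ j, A i j * (![t, 1, x] : Fin 3 → ℂ) j)) :=
      (tendsto_finsetSum _ fun j _ => (hzt j).const_mul _).const_mul _
    have h2 : c⁻¹ * ∑ j, A i j * (![t, 1, x] : Fin 3 → ℂ) j = z0 i := by
      have h3 := congrFun hz i
      rw [Pi.smul_apply, smul_eq_mul] at h3
      rw [h3, ← mul_assoc, inv_mul_cancel₀ hc, one_mul]
    rw [h2] at h1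
    exact h1
  have hKu := hyt.eventually hK
  have hBt : Tendsto (fun u => ‖c ^ κ‖ * (K * (‖c⁻¹ ^ (e - 1)‖ * ∑ i, ‖v u i / D u 2‖))) (𝓝[≠] 0)
      (𝓝 (‖c ^ κ‖ * (K * (‖c⁻¹ ^ (e - 1)‖ * ∑ i, ‖∑ j, l j * A⁻¹ j i‖)))) :=
    ((((tendsto_finsetSum _ fun i _ => (hvl i).norm).const_mul _).const_mul _).const_mul _)
  refine mero_bdd ?_ hBt ?_
  · have hT : AnalyticAt ℂ (fun u : ℂ => t + u ^ m) 0 := by fun_prop
    exact (mero_ev2 _ hT.meromorphicAt ha.meromorphicAt).div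
      (mero_ev2 _ hT.meromorphicAt ha.meromorphicAt)
  · filter_upwards [hKu, hr, hd] with u h1 h2 h3
    have h4 : eval (w u) H = 0 := by
      rw [hw, ← eval_lin, ← ev_ch]
      exact h2
    have h5 := h1 (by rw [eval_smul_hom hH, h4, mul_zero])
    have h6 : ∀ i, eval (c⁻¹ • w u) (pderiv i H) = c⁻¹ ^ (e - 1) * v u i := fun i =>
      eval_smul_hom (hH.pderiv) _ _
    have h7 : eval (w u) g = ev2 (ch (lin A g)) (t + u ^ m) (a u) := by
      rw [hw, ← eval_lin, ← ev_ch]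
    rw [eval_smul_hom hg, h7] at h5
    simp only [h6] at h5
    rw [norm_mul] at h5
    simp only [norm_mul] at h5
    rw [← Finset.mul_sum] at h5
    have h8 : 0 < ‖ev2 (Polynomial.derivative F) (t + u ^ m) (a u)‖ := norm_pos_iff.2 h3
    have h9 : ∑ i, ‖v u i / D u 2‖ =
        (∑ i, ‖v u i‖) / ‖ev2 (Polynomial.derivative F) (t + u ^ m) (a u)‖ := by
      rw [Finset.sum_div]
      refine Finset.sum_congr rfl fun i _ => ?_
      rw [norm_div, hD2]
    have h10 : ‖c ^ κ‖ * ‖c⁻¹ ^ κ‖ = 1 := by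
      rw [← norm_mul, ← mul_pow, mul_inv_cancel₀ hc, one_pow, norm_one]
    have h11 : ‖ev2 (ch (lin A g)) (t + u ^ m) (a u)‖ ≤
        ‖c ^ κ‖ * (K * (‖c⁻¹ ^ (e - 1)‖ * ∑ i, ‖v u i‖)) := by
      calc ‖ev2 (ch (lin A g)) (t + u ^ m) (a u)‖
          = ‖c ^ κ‖ * (‖c⁻¹ ^ κ‖ * ‖ev2 (ch (lin A g)) (t + u ^ m) (a u)‖) := by
            rw [← mul_assoc, h10, one_mul]
        _ ≤ _ := mul_le_mul_of_nonneg_left h5 (norm_nonneg _)
    rw [norm_div, h9, div_le_iff₀ h8]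
    calc _ ≤ _ := h11
      _ = _ := by
        field_simp

end Pool.Agent.H942.LP

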