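import Pool.Agent.H942.LP.DefZ
import Pool.Agent.H942.LP.Ba

set_option autoImplicit false
set_option linter.unusedSectionVars false
set_option linter.unusedVariables false

/-! # LP-Bb: an inequality with the gradient and the distance in a chart -/

namespace Pool.Agent.H942.LP

open MvPolynomial Filter Topology Pool.Agent.Helper748.MC Pool.Agent.Helper748.TP
  Pool.Agent.H941.TF Pool.Agent.H941.SC Pool.Agent.H941.NC

namespace BbN

/-- one minor of `(B (c y), B (c z0))` is bounded by the sum of the minors of `(y, z0)` -/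
theorem crs_ge (B : Matrix (Fin 3) (Fin 3) ℂ) (y z0 : Fin 3 → ℂ) (c : ℂ) :
    ‖(∑ i, B 0 i * (c * y i)) * (∑ j, B 1 j * (c * z0 j)) -
      (∑ j, B 1 j * (c * y j)) * (∑ i, B 0 i * (c * z0 i))‖ ≤
      (‖c‖ ^ 2 * ((∑ i, ‖B 0 i‖) * ∑ j, ‖B 1 j‖)) * crs y z0 := by
  have h : (∑ i, B 0 i * (c * y i)) * (∑ j, B 1 j * (c * z0 j)) -
      (∑ j, B 1 j * (c * y j)) * (∑ i, B 0 i * (c * z0 i)) =
      ∑ i, ∑ j, B 0 i * B 1 j * c ^ 2 * (y i * z0 j - y j * z0 i) := by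
    simp only [Fin.sum_univ_three]
    ring
  rw [h, crs, Finset.mul_sum]
  refine (norm_sum_le _ _).trans (Finset.sum_le_sum fun i _ => ?_)
  rw [Finset.mul_sum]
  refine (norm_sum_le _ _).trans (Finset.sum_le_sum fun j _ => ?_)
  rw [norm_mul, norm_mul, norm_mul, norm_pow]
  refine mul_le_mul_of_nonneg_right ?_ (norm_nonneg _)
  rw [mul_comm]
  refine mul_le_mul_of_nonneg_left ?_ (by positivity)
  have h1 : ‖B 0 i‖ ≤ ∑ i, ‖B 0 i‖ :=
    Finset.single_le_sum (f := fun i => ‖B 0 i‖) (fun _ _ => norm_nonneg _) (Finset.mem_univ i)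
  have h2 : ‖B 1 j‖ ≤ ∑ j, ‖B 1 j‖ :=
    Finset.single_le_sum (f := fun j => ‖B 1 j‖) (fun _ _ => norm_nonneg _) (Finset.mem_univ j)
  exact mul_le_mul h1 h2 (norm_nonneg _) (Finset.sum_nonneg fun _ _ => norm_nonneg _)

end BbN

open BaN BbN in
theorem t_Bb : S_Bb := by
  intro H g e κ z0 A t x c hH hg hA hc hz hK m a hm ha hax hr hd hL
  obtain ⟨L, hL⟩ := hL
  set F := ch (lin A H) with hF
  set z : ℂ → Fin 3 → ℂ := fun u => ![t + u ^ m, 1, a u] with hzdef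
  set w : ℂ → Fin 3 → ℂ := fun u i => ∑ j, A i j * z u j with hw
  set D : ℂ → Fin 3 → ℂ := fun u j => eval (z u) (pderiv j (lin A H)) with hD
  set v : ℂ → Fin 3 → ℂ := fun u i => eval (w u) (pderiv i H) with hv
  have hD0 : ∀ u, D u 0 = ev2 (dt F) (t + u ^ m) (a u) := fun u => by
    rw [hF, ← ch_pderiv0, ev_ch]
  have hD2 : ∀ u, D u 2 = ev2 (Polynomial.derivative F) (t + u ^ m) (a u) := fun u => by
    rw [hF, ← ch_pderiv2, ev_ch]
  have hDv : ∀ u, D u = Matrix.vecMul (v u) A := fun u => by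
    funext j
    exact eval_pderiv_lin A (z u) H j
  have hAu : IsUnit A.det := isUnit_iff_ne_zero.2 hA
  have hvD : ∀ u i, v u i = ∑ j, D u j * A⁻¹ j i := fun u i => by
    have h1 : Matrix.vecMul (D u) A⁻¹ = v u := by
      rw [hDv, Matrix.vecMul_vecMul, Matrix.mul_nonsing_inv A hAu, Matrix.vecMul_one]
    rw [← h1]
    rfl
  -- limits
  have hm0 : (m : ℂ) ≠ 0 := Nat.cast_ne_zero.2 hm.ne'
  have hTt : Tendsto (fun u : ℂ => t + u ^ m) (𝓝[≠] 0) (𝓝 t) := by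
    have h7 : ContinuousAt (fun u : ℂ => t + u ^ m) 0 := by fun_prop
    have h8 := h7.tendsto.mono_left (nhdsWithin_le_nhds (s := {0}ᶜ))
    simpa [zero_pow hm.ne'] using h8
  have hat : Tendsto a (𝓝[≠] 0) (𝓝 x) := by
    rw [← hax]
    exact ha.continuousAt.tendsto.mono_left nhdsWithin_le_nhds
  have hl0 : Tendsto (fun u => D u 0 / D u 2) (𝓝[≠] 0) (𝓝 (-(L / m))) := by
    have h1 : Tendsto (fun u => -(deriv a u / u ^ (m - 1) / m)) (𝓝[≠] 0) (𝓝 (-(L / m))) :=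
      (hL.div_const (m : ℂ)).neg
    refine h1.congr' ?_
    filter_upwards [branch_deriv ha hr, hd, self_mem_nhdsWithin] with u h2 h3 h4
    have h5 : u ^ (m - 1) ≠ 0 := pow_ne_zero _ h4
    rw [hD0, hD2]
    field_simp
    linear_combination -h2
  have hl2 : Tendsto (fun u => D u 2 / D u 2) (𝓝[≠] 0) (𝓝 1) := by
    refine tendsto_const_nhds.congr' ?_
    filter_upwards [hd] with u h3
    rw [hD2, div_self h3]
  have hl1 : Tendsto (fun u => D u 1 / D u 2) (𝓝[≠] 0)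
      (𝓝 (-(t * -(L / m)) - x)) := by
    have h1 : Tendsto (fun u => -((t + u ^ m) * (D u 0 / D u 2)) - a u) (𝓝[≠] 0)
      (𝓝 (-(t * -(L / m)) - x)) := ((hTt.mul hl0).neg).sub hat
    refine h1.congr' ?_
    filter_upwards [hr, hd] with u h2 h3
    have h4 := euler (lin_homog A hH) (t + u ^ m) (a u) (by rw [← ev_ch]; exact h2)
    have h5 : (t + u ^ m) * D u 0 + D u 1 + a u * D u 2 = 0 := h4
    have h6 : D u 2 ≠ 0 := by rw [hD2]; exact h3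
    field_simp
    linear_combination -h5
  have hlj : ∀ j, ∃ l, Tendsto (fun u => D u j / D u 2) (𝓝[≠] 0) (𝓝 l) := by
    intro j
    fin_cases j
    · exact ⟨_, hl0⟩
    · exact ⟨_, hl1⟩
    · exact ⟨_, hl2⟩
  choose l hl using hlj
  have hvl : ∀ i, Tendsto (fun u => v u i / D u 2) (𝓝[≠] 0) (𝓝 (∑ j, l j * A⁻¹ j i)) := by
    intro i
    have h1 : Tendsto (fun u => ∑ j, D u j / D u 2 * A⁻¹ j i) (𝓝[≠] 0)
        (𝓝 (∑ j, l j * A⁻¹ j i)) :=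
      tendsto_finsetSum _ fun j _ => (hl j).mul_const _
    refine h1.congr fun u => ?_
    rw [hvD, Finset.sum_div]
    refine Finset.sum_congr rfl fun j _ => ?_
    ring
  -- the point of the chart
  have hzt : ∀ j, Tendsto (fun u => z u j) (𝓝[≠] 0) (𝓝 ((![t, 1, x] : Fin 3 → ℂ) j)) := by
    intro j
    fin_cases j
    · exact hTt
    · exact tendsto_const_nhds
    · exact hat
  have hyt : Tendsto (fun u => c⁻¹ • w u) (𝓝[≠] 0) (𝓝 z0) := by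
    rw [tendsto_pi_nhds]
    intro i
    have h1 : Tendsto (fun u => c⁻¹ * ∑ j, A i j * z u j) (𝓝[≠] 0)
        (𝓝 (c⁻¹ * ∑ j, A i j * (![t, 1, x] : Fin 3 → ℂ) j)) :=
      (tendsto_finsetSum _ fun j _ => (hzt j).const_mul _).const_mul _
    have h2 : c⁻¹ * ∑ j, A i j * (![t, 1, x] : Fin 3 → ℂ) j = z0 i := by
      have h3 := congrFun hz i
      rw [Pi.smul_apply, smul_eq_mul] at h3
      rw [h3, ← mul_assoc, inv_mul_cancel₀ hc, one_mul]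
    rw [h2] at h1
    exact h1
  -- the distance
  set K1 : ℝ := ‖c‖ ^ 2 * ((∑ i, ‖A⁻¹ 0 i‖) * ∑ j, ‖A⁻¹ 1 j‖) with hK1
  have hK10 : 0 ≤ K1 := by
    have h1 : 0 ≤ ∑ i, ‖A⁻¹ 0 i‖ := Finset.sum_nonneg fun _ _ => norm_nonneg _
    have h2 : 0 ≤ ∑ j, ‖A⁻¹ 1 j‖ := Finset.sum_nonneg fun _ _ => norm_nonneg _
    positivity
  have hinv : ∀ (q : Fin 3 → ℂ) (k : Fin 3), ∑ i, A⁻¹ k i * (∑ j, A i j * q j) = q k := by
    intro q k
    have h1 : Matrix.mulVec A⁻¹ (Matrix.mulVec A q) = q := by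
      rw [Matrix.mulVec_mulVec, Matrix.nonsing_inv_mul A hAu, Matrix.one_mulVec]
    have h2 := congrFun h1 k
    exact h2
  have hcr : ∀ u, ‖u ^ m‖ ≤ K1 * crs (c⁻¹ • w u) z0 := by
    intro u
    have h1 := crs_ge A⁻¹ (c⁻¹ • w u) z0 c
    have h2 : ∀ k, ∑ i, A⁻¹ k i * (c * (c⁻¹ • w u) i) = z u k := fun k => by
      rw [← hinv (z u) k]
      refine Finset.sum_congr rfl fun i _ => ?_
      rw [Pi.smul_apply, smul_eq_mul, ← mul_assoc c, mul_inv_cancel₀ hc, one_mul]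
    have h3 : ∀ k, ∑ i, A⁻¹ k i * (c * z0 i) = (![t, 1, x] : Fin 3 → ℂ) k := fun k => by
      rw [← hinv (![t, 1, x] : Fin 3 → ℂ) k]
      refine Finset.sum_congr rfl fun i _ => ?_
      have h4 := congrFun hz i
      rw [Pi.smul_apply, smul_eq_mul] at h4
      rw [← h4]
    rw [h2, h3, h2, h3] at h1
    have h5 : z u 0 * (![t, 1, x] : Fin 3 → ℂ) 1 - z u 1 * (![t, 1, x] : Fin 3 → ℂ) 0 = u ^ m := by
      have e1 : z u 0 = t + u ^ m := rfl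
      have e2 : z u 1 = 1 := rfl
      have e3 : (![t, 1, x] : Fin 3 → ℂ) 0 = t := rfl
      have e4 : (![t, 1, x] : Fin 3 → ℂ) 1 = 1 := rfl
      rw [e1, e2, e3, e4]
      ring
    rw [h5] at h1
    exact h1
  -- the limit
  have hSt : Tendsto (fun u => ∑ i, ‖v u i / D u 2‖) (𝓝[≠] 0) (𝓝 (∑ i, ‖∑ j, l j * A⁻¹ j i‖)) :=
    tendsto_finsetSum _ fun i _ => (hvl i).norm
  set S0 : ℝ := ∑ i, ‖∑ j, l j * A⁻¹ j i‖ with hS0
  have hS00 : 0 ≤ S0 := Finset.sum_nonneg fun _ _ => norm_nonneg _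
  rw [Metric.tendsto_nhds]
  intro δ hδ
  set K2 : ℝ := ‖c ^ κ‖ * (K1 ^ 2 * (‖c⁻¹ ^ (e - 1)‖ * (S0 + 1))) with hK2
  have hK20 : 0 ≤ K2 := by positivity
  have hε : 0 < δ / (K2 + 1) := by positivity
  filter_upwards [hyt.eventually (hK _ hε), hr, hd, hSt.eventually (gt_mem_nhds (lt_add_one S0))]
    with u h1 h2 h3 hS
  set ε : ℝ := δ / (K2 + 1) with hεd
  have hεK : ε * K2 < δ := by
    rw [hεd, div_mul_eq_mul_div, div_lt_iff₀ (by positivity)]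
    nlinarith
  have h4 : eval (w u) H = 0 := by
    rw [hw, ← eval_lin, ← ev_ch]
    exact h2
  have h5 := h1 (by rw [eval_smul_hom hH, h4, mul_zero])
  have h6 : ∀ i, eval (c⁻¹ • w u) (pderiv i H) = c⁻¹ ^ (e - 1) * v u i := fun i =>
    eval_smul_hom (hH.pderiv) _ _
  have h7 : eval (w u) g = ev2 (ch (lin A g)) (t + u ^ m) (a u) := by
    rw [hw, ← eval_lin, ← ev_ch]
  rw [eval_smul_hom hg, h7] at h5
  simp only [h6] at h5
  simp only [norm_mul] at h5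
  rw [← Finset.mul_sum] at h5
  have h8 : 0 < ‖ev2 (Polynomial.derivative F) (t + u ^ m) (a u)‖ := norm_pos_iff.2 h3
  have h9 : ∑ i, ‖v u i / D u 2‖ =
      (∑ i, ‖v u i‖) / ‖ev2 (Polynomial.derivative F) (t + u ^ m) (a u)‖ := by
    rw [Finset.sum_div]
    refine Finset.sum_congr rfl fun i _ => ?_
    rw [norm_div, hD2]
  have h10 : ‖c ^ κ‖ * ‖c⁻¹ ^ κ‖ = 1 := by
    rw [← norm_mul, ← mul_pow, mul_inv_cancel₀ hc, one_pow, norm_one]
  have h11 : ‖(u ^ m) ^ 2‖ ≤ K1 ^ 2 * crs (c⁻¹ • w u) z0 ^ 2 := by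
    rw [norm_pow, ← mul_pow]
    exact pow_le_pow_left₀ (norm_nonneg _) (hcr u) 2
  have h12 : ‖(u ^ m) ^ 2‖ * ‖ev2 (ch (lin A g)) (t + u ^ m) (a u)‖ ≤
      ‖c ^ κ‖ * (K1 ^ 2 * (ε * (‖c⁻¹ ^ (e - 1)‖ * ∑ i, ‖v u i‖))) := by
    calc ‖(u ^ m) ^ 2‖ * ‖ev2 (ch (lin A g)) (t + u ^ m) (a u)‖
        ≤ K1 ^ 2 * crs (c⁻¹ • w u) z0 ^ 2 * ‖ev2 (ch (lin A g)) (t + u ^ m) (a u)‖ :=
          mul_le_mul_of_nonneg_right h11 (norm_nonneg _)
      _ = (‖c ^ κ‖ * ‖c⁻¹ ^ κ‖) * (K1 ^ 2 * (crs (c⁻¹ • w u) z0 ^ 2 *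
            ‖ev2 (ch (lin A g)) (t + u ^ m) (a u)‖)) := by
          rw [h10]
          ring
      _ = ‖c ^ κ‖ * (K1 ^ 2 * (crs (c⁻¹ • w u) z0 ^ 2 *
            (‖c⁻¹ ^ κ‖ * ‖ev2 (ch (lin A g)) (t + u ^ m) (a u)‖))) := by ring
      _ ≤ _ := mul_le_mul_of_nonneg_left (mul_le_mul_of_nonneg_left h5 (by positivity))
          (norm_nonneg _)
  rw [dist_zero_right, norm_mul, norm_div, mul_div_assoc', div_lt_iff₀ h8]
  refine h12.trans_lt ?_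
  have h13 : (∑ i, ‖v u i‖) < (S0 + 1) * ‖ev2 (Polynomial.derivative F) (t + u ^ m) (a u)‖ := by
    rw [h9, div_lt_iff₀ h8] at hS
    exact hS
  have h14 : ‖c ^ κ‖ * (K1 ^ 2 * (ε * (‖c⁻¹ ^ (e - 1)‖ * ∑ i, ‖v u i‖))) ≤
      ε * K2 * ‖ev2 (Polynomial.derivative F) (t + u ^ m) (a u)‖ := by
    have h15 : 0 ≤ ‖c ^ κ‖ * (K1 ^ 2 * (ε * ‖c⁻¹ ^ (e - 1)‖)) := by positivity
    calc ‖c ^ κ‖ * (K1 ^ 2 * (ε * (‖c⁻¹ ^ (e - 1)‖ * ∑ i, ‖v u i‖)))
        = ‖c ^ κ‖ * (K1 ^ 2 * (ε * ‖c⁻¹ ^ (e - 1)‖)) * ∑ i, ‖v u i‖ := by ring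
      _ ≤ ‖c ^ κ‖ * (K1 ^ 2 * (ε * ‖c⁻¹ ^ (e - 1)‖)) *
          ((S0 + 1) * ‖ev2 (Polynomial.derivative F) (t + u ^ m) (a u)‖) :=
          mul_le_mul_of_nonneg_left h13.le h15
      _ = _ := by
          rw [hK2]
          ring
  exact h14.trans_lt (mul_lt_mul_of_pos_right hεK h8)

end Pool.Agent.H942.LP

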