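import Pool.Agent.H942.LP.DefX

set_option autoImplicit false

namespace Pool.Agent.H942.LP

open MvPolynomial

namespace CCN

theorem tay_tay (z : Fin 3 → ℂ) (H : MvPolynomial (Fin 3) ℂ) : tay (-z) (tay z H) = H := by
  have h : (tay (-z)).comp (tay z) = AlgHom.id ℂ (MvPolynomial (Fin 3) ℂ) := by
    apply MvPolynomial.algHom_ext
    intro i
    simp only [tay, AlgHom.comp_apply, aeval_X, map_add, aeval_C, AlgHom.id_apply,
      MvPolynomial.algebraMap_eq, Pi.neg_apply, map_neg]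
    ring
  exact DFunLike.congr_fun h H

theorem exists_hc (z : Fin 3 → ℂ) {H : MvPolynomial (Fin 3) ℂ} (hH : H ≠ 0) :
    ∃ k, homogeneousComponent k (tay z H) ≠ 0 := by
  by_contra hcon
  have hcon' : ∀ k, homogeneousComponent k (tay z H) = 0 := fun k =>
    not_not.1 fun hk => hcon ⟨k, hk⟩
  have h0 : tay z H = 0 := by
    rw [← sum_homogeneousComponent (tay z H)]
    exact Finset.sum_eq_zero fun k _ => hcon' k
  apply hH
  rw [← tay_tay z H, h0, map_zero]

end CCN

theorem t_CC (hCe : S_Ce) : S_CC := by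
  classical
  intro H e s hH hne
  have hk := fun z => CCN.exists_hc z hne
  refine ⟨∏ z0 ∈ s, homogeneousComponent (Nat.find (hk z0)) (tay z0 H),
    Finset.prod_ne_zero_iff.2 fun z0 _ => Nat.find_spec (hk z0), ?_⟩
  intro A _ hL z0 hz0 t x c hc h
  obtain ⟨h1, h2⟩ := hCe H e (Nat.find (hk z0)) z0 A t x c hH
    (fun i hi => not_not.1 (Nat.find_min (hk z0) hi)) hc h
  refine ⟨Nat.find (hk z0), ?_, h1, ?_⟩
  · rintro M ⟨k, hkM, hk0⟩
    exact (Nat.find_min' (hk z0) hk0).trans hkM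
  · rw [h2]
    refine mul_ne_zero (mul_ne_zero (pow_ne_zero _ hc)
      (Nat.cast_ne_zero.2 (Nat.factorial_ne_zero _))) ?_
    rw [map_prod] at hL
    exact Finset.prod_ne_zero_iff.1 hL z0 hz0

end Pool.Agent.H942.LP
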