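import Pool.Agent.H942.LP.DefM

set_option autoImplicit false
set_option linter.unusedSectionVars false
set_option linter.unusedVariables false

/-! # The multiplicity in a chart -/

namespace Pool.Agent.H942.LP

open MvPolynomial Filter Topology Pool.Agent.Helper748.MC Pool.Agent.Helper748.TP
  Pool.Agent.H941.TF Pool.Agent.H941.SC Pool.Agent.H941.NC

namespace CeN

theorem deg_eq {n : ℕ} {h : MvPolynomial (Fin 3) ℂ} (hh : h.IsHomogeneous n) {α : Fin 3 →₀ ℕ}
    (hα : α ∈ h.support) : ∑ i, α i = n := by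
  have h1 := hh (mem_support_iff.1 hα)
  rw [Finsupp.weight_apply] at h1
  rw [← h1, Finsupp.sum_fintype]
  · exact Finset.sum_congr rfl fun i _ => by simp
  · intro i
    simp

theorem aeval_mem {S : Type*} [CommRing S] [Algebra ℂ S] (I : Ideal S) (v : Fin 3 → S)
    (hv : ∀ i, v i ∈ I) {n : ℕ} {h : MvPolynomial (Fin 3) ℂ} (hh : h.IsHomogeneous n) :
    aeval v h ∈ I ^ n := by
  rw [aeval_def, eval₂_eq']
  refine Ideal.sum_mem _ fun α hα => Ideal.mul_mem_left _ _ ?_
  rw [← deg_eq hh hα, ← Finset.prod_pow_eq_pow_sum]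
  exact Ideal.prod_mem_prod fun i _ => Ideal.pow_mem_pow (hv i) _

theorem aeval_scale {S : Type*} [CommRing S] [Algebra ℂ S] (a : S) (v : Fin 3 → S)
    {n : ℕ} {h : MvPolynomial (Fin 3) ℂ} (hh : h.IsHomogeneous n) :
    aeval (fun i => a * v i) h = a ^ n * aeval v h := by
  rw [aeval_def, eval₂_eq', aeval_def, eval₂_eq', Finset.mul_sum]
  refine Finset.sum_congr rfl fun α hα => ?_
  rw [← deg_eq hh hα, ← Finset.prod_pow_eq_pow_sum]
  simp only [mul_pow, Finset.prod_mul_distrib]
  ring

theorem expand {S : Type*} [CommRing S] [Algebra ℂ S] (v : Fin 3 → S) (z0 : Fin 3 → ℂ) {c : ℂ}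
    (hc : c ≠ 0) {e : ℕ} {H : MvPolynomial (Fin 3) ℂ} (hH : H.IsHomogeneous e) :
    aeval (fun i => algebraMap ℂ S (c * z0 i) + v i) H = algebraMap ℂ S c ^ e *
      ∑ i ∈ Finset.range ((tay z0 H).totalDegree + 1),
        algebraMap ℂ S c⁻¹ ^ i * aeval v (homogeneousComponent i (tay z0 H)) := by
  have hcc : algebraMap ℂ S c * algebraMap ℂ S c⁻¹ = 1 := by
    rw [← map_mul, mul_inv_cancel₀ hc, map_one]
  have h1 : (fun i => algebraMap ℂ S (c * z0 i) + v i) = fun i =>
      algebraMap ℂ S c * (algebraMap ℂ S (z0 i) + algebraMap ℂ S c⁻¹ * v i) := by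
    funext i
    rw [mul_add, ← mul_assoc, hcc, one_mul, map_mul]
  have h2 : aeval (fun i => algebraMap ℂ S (z0 i) + algebraMap ℂ S c⁻¹ * v i) H =
      aeval (fun i => algebraMap ℂ S c⁻¹ * v i) (tay z0 H) := by
    have h3 : (aeval (fun i => algebraMap ℂ S (z0 i) + algebraMap ℂ S c⁻¹ * v i) :
        MvPolynomial (Fin 3) ℂ →ₐ[ℂ] S) =
        (aeval (fun i => algebraMap ℂ S c⁻¹ * v i)).comp (tay z0) := by
      refine MvPolynomial.algHom_ext fun i => ?_
      rw [AlgHom.comp_apply, tay, aeval_X, aeval_X, map_add, aeval_X, aeval_C]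
    rw [h3, AlgHom.comp_apply]
  rw [h1, aeval_scale _ _ hH, h2]
  refine congrArg (fun s => algebraMap ℂ S c ^ e * s) ?_
  have h4 : aeval (fun i => algebraMap ℂ S c⁻¹ * v i) (tay z0 H) =
      aeval (fun i => algebraMap ℂ S c⁻¹ * v i) (∑ i ∈ Finset.range ((tay z0 H).totalDegree + 1),
        homogeneousComponent i (tay z0 H)) := by
    rw [sum_homogeneousComponent]
  rw [h4, map_sum]
  exact Finset.sum_congr rfl fun i _ =>
    aeval_scale _ _ (homogeneousComponent_isHomogeneous i (tay z0 H))

theorem chlin (A : Matrix (Fin 3) (Fin 3) ℂ) (t x c : ℂ) (z0 : Fin 3 → ℂ)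
    (h : (fun i => ∑ j, A i j * (![t, 1, x] : Fin 3 → ℂ) j) = c • z0)
    (H : MvPolynomial (Fin 3) ℂ) : ch (lin A H) =
      aeval (fun i => algebraMap ℂ (Polynomial (Polynomial ℂ)) (c * z0 i) +
        (algebraMap ℂ (Polynomial (Polynomial ℂ)) (A i 0) *
          Polynomial.C (Polynomial.X - Polynomial.C t) +
        algebraMap ℂ (Polynomial (Polynomial ℂ)) (A i 2) *
          (Polynomial.X - Polynomial.C (Polynomial.C x)))) H := by
  have h3 : ch.comp (lin A) =
      (aeval (fun i => algebraMap ℂ (Polynomial (Polynomial ℂ)) (c * z0 i) +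
        (algebraMap ℂ (Polynomial (Polynomial ℂ)) (A i 0) *
          Polynomial.C (Polynomial.X - Polynomial.C t) +
        algebraMap ℂ (Polynomial (Polynomial ℂ)) (A i 2) *
          (Polynomial.X - Polynomial.C (Polynomial.C x)))) :
        MvPolynomial (Fin 3) ℂ →ₐ[ℂ] Polynomial (Polynomial ℂ)) := by
    refine MvPolynomial.algHom_ext fun i => ?_
    have h1 := congrFun h i
    simp only [Fin.sum_univ_three, Matrix.cons_val_zero, Matrix.cons_val_one, Matrix.cons_val_two,
      Pi.smul_apply, smul_eq_mul, mul_one] at h1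
    have h2 : c * z0 i = A i 0 * t + A i 1 + A i 2 * x := by
      rw [← h1]
      simp
    rw [AlgHom.comp_apply, lin_X, Fin.sum_univ_three, aeval_X, h2, map_add, map_add, map_mul,
      map_mul, map_mul, ch, aeval_C, aeval_C, aeval_C, aeval_X, aeval_X, aeval_X]
    simp only [Matrix.cons_val_zero, Matrix.cons_val_one, Matrix.cons_val_two, map_add, map_mul,
      Polynomial.algebraMap_apply, Polynomial.C_sub, Algebra.algebraMap_self, RingHom.id_apply,
      Matrix.tail_cons, Matrix.head_cons]
    ring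
  rw [← h3, AlgHom.comp_apply]

theorem evt_alg (t c : ℂ) : evt t (algebraMap ℂ (Polynomial (Polynomial ℂ)) c) =
    Polynomial.C c := by
  rw [Polynomial.algebraMap_apply, Polynomial.algebraMap_apply, evt, Polynomial.coe_mapRingHom,
    Polynomial.map_C, Polynomial.coe_evalRingHom, Polynomial.eval_C]
  rfl

/-- the restriction to the line `T = t` -/
theorem evt_ch (A : Matrix (Fin 3) (Fin 3) ℂ) (t x c : ℂ) (z0 : Fin 3 → ℂ)
    (h : (fun i => ∑ j, A i j * (![t, 1, x] : Fin 3 → ℂ) j) = c • z0)
    (H : MvPolynomial (Fin 3) ℂ) : evt t (ch (lin A H)) =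
      aeval (fun i => algebraMap ℂ (Polynomial ℂ) (c * z0 i) +
        (Polynomial.X - Polynomial.C x) * algebraMap ℂ (Polynomial ℂ) (A i 2)) H := by
  rw [chlin A t x c z0 h]
  have h0 : evt t (Polynomial.C (Polynomial.X - Polynomial.C t)) = 0 := by
    rw [evt, Polynomial.coe_mapRingHom, Polynomial.map_C, Polynomial.coe_evalRingHom,
      Polynomial.eval_sub, Polynomial.eval_X, Polynomial.eval_C, sub_self, Polynomial.C_0]
  have h1 : evt t (Polynomial.X - Polynomial.C (Polynomial.C x)) =
      Polynomial.X - Polynomial.C x := by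
    rw [evt, Polynomial.coe_mapRingHom, Polynomial.map_sub, Polynomial.map_X, Polynomial.map_C,
      Polynomial.coe_evalRingHom, Polynomial.eval_C]
  rw [aeval_def, aeval_def, eval₂_eq', eval₂_eq', map_sum]
  refine Finset.sum_congr rfl fun α _ => ?_
  rw [map_mul, map_prod, evt_alg]
  refine congrArg₂ (fun a b => a * b) rfl (Finset.prod_congr rfl fun i _ => ?_)
  rw [map_pow, map_add (evt t), map_add (evt t), map_mul (evt t), map_mul (evt t), evt_alg, evt_alg,
    evt_alg, h0, h1, mul_zero, zero_add, mul_comm (Polynomial.C (A i 2))]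
  rfl

theorem evt_derivative (t : ℂ) (P : Polynomial (Polynomial ℂ)) :
    evt t (Polynomial.derivative P) = Polynomial.derivative (evt t P) := by
  rw [evt, Polynomial.coe_mapRingHom, Polynomial.derivative_map]

theorem evt_iterate (t : ℂ) (k : ℕ) (P : Polynomial (Polynomial ℂ)) :
    evt t (Polynomial.derivative^[k] P) = Polynomial.derivative^[k] (evt t P) := by
  induction k with
  | zero => rfl
  | succ k ih => rw [Function.iterate_succ_apply', Function.iterate_succ_apply', evt_derivative, ih]

theorem aeval_const (u : Fin 3 → ℂ) (h : MvPolynomial (Fin 3) ℂ) :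
    aeval (fun i => algebraMap ℂ (Polynomial ℂ) (u i)) h = Polynomial.C (eval u h) := by
  refine (aeval_algebraMap_apply (Polynomial ℂ) u h).trans ?_
  rfl

/-- the Taylor coefficients of the restriction -/
theorem dk (u : Fin 3 → ℂ) (P : MvPolynomial (Fin 3) ℂ) (x : ℂ) (a b : ℂ) (k : ℕ)
    (h : ℕ → MvPolynomial (Fin 3) ℂ) (N : ℕ) (hN : ∀ i, N ≤ i → h i = 0) (p : Polynomial ℂ)
    (hh : ∀ i, (h i).IsHomogeneous i)
    (hp : p = Polynomial.C a * ∑ i ∈ Finset.range N, Polynomial.C b ^ i *
      aeval (fun i => (Polynomial.X - Polynomial.C x) * algebraMap ℂ (Polynomial ℂ) (u i)) (h i)) :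
    (Polynomial.derivative^[k] p).eval x = a * b ^ k * k.factorial * eval u (h k) := by
  have h1 : p = ∑ i ∈ Finset.range N, Polynomial.C (a * b ^ i * eval u (h i)) *
      (Polynomial.X - Polynomial.C x) ^ i := by
    rw [hp, Finset.mul_sum]
    refine Finset.sum_congr rfl fun i _ => ?_
    rw [aeval_scale _ _ (hh i), aeval_const, Polynomial.C_mul, Polynomial.C_mul, Polynomial.C_pow]
    ring
  have h2 : (Polynomial.derivative^[k] p).eval x = ∑ i ∈ Finset.range N,
      (a * b ^ i * eval u (h i)) * if i = k then (k.factorial : ℂ) else 0 := by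
    rw [h1, Polynomial.iterate_derivative_sum, Polynomial.eval_finsetSum]
    refine Finset.sum_congr rfl fun i _ => ?_
    rw [Polynomial.iterate_derivative_C_mul, Polynomial.eval_mul, Polynomial.eval_C,
      Polynomial.iterate_derivative_X_sub_pow]
    refine congrArg (fun s => a * b ^ i * eval u (h i) * s) ?_
    rw [Polynomial.eval_smul, Polynomial.eval_pow, Polynomial.eval_sub, Polynomial.eval_X,
      Polynomial.eval_C, sub_self, nsmul_eq_mul]
    split_ifs with hik
    · rw [hik, Nat.descFactorial_self, Nat.sub_self, pow_zero, mul_one]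
    · rcases lt_or_gt_of_ne hik with hlt | hgt
      · rw [Nat.descFactorial_of_lt hlt, Nat.cast_zero, zero_mul]
      · rw [zero_pow (Nat.sub_ne_zero_of_lt hgt), mul_zero]
  rw [h2]
  by_cases hk : k < N
  · rw [Finset.sum_eq_single k]
    · rw [if_pos rfl]
      ring
    · intro i _ hik
      rw [if_neg hik, mul_zero]
    · intro hk'
      exact absurd (Finset.mem_range.2 hk) hk'
  · rw [hN k (not_lt.1 hk), map_zero, mul_zero]
    refine Finset.sum_eq_zero fun i hi => ?_
    rw [if_neg, mul_zero]
    intro hik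
    exact hk (hik ▸ Finset.mem_range.1 hi)

end CeN

open CeN in
theorem t_Ce : S_Ce := by
  intro H e k z0 A t x c hH hk hc hA
  refine ⟨?_, ?_⟩
  · rw [chlin A t x c z0 hA, expand _ z0 hc hH]
    refine Ideal.mul_mem_left _ _ (Ideal.sum_mem _ fun i _ => Ideal.mul_mem_left _ _ ?_)
    by_cases hik : i < k
    · rw [hk i hik, map_zero]
      exact Ideal.zero_mem _
    · refine Ideal.pow_le_pow_right (not_lt.1 hik) (aeval_mem _ _ (fun j => ?_)
        (homogeneousComponent_isHomogeneous i (tay z0 H)))
      refine Ideal.add_mem _ (Ideal.mul_mem_left _ _ (Ideal.subset_span ?_))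
        (Ideal.mul_mem_left _ _ (Ideal.subset_span ?_))
      · exact Set.mem_insert _ _
      · exact Set.mem_insert_of_mem _ (Set.mem_singleton _)
  · have h1 : evt t (ch (lin A H)) = Polynomial.C (c ^ e) *
        ∑ i ∈ Finset.range ((tay z0 H).totalDegree + 1), Polynomial.C c⁻¹ ^ i *
          aeval (fun i => (Polynomial.X - Polynomial.C x) * algebraMap ℂ (Polynomial ℂ) (A i 2))
            (homogeneousComponent i (tay z0 H)) := by
      rw [evt_ch A t x c z0 hA, expand _ z0 hc hH, Polynomial.C_pow]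
      rfl
    have h2 : ev2 (Polynomial.derivative^[k] (ch (lin A H))) t x =
        c ^ e * c⁻¹ ^ k * k.factorial *
          eval (fun i => A i 2) (homogeneousComponent k (tay z0 H)) := by
      rw [ev2, evt_iterate]
      exact dk (fun i => A i 2) H x (c ^ e) c⁻¹ k (fun i => homogeneousComponent i (tay z0 H))
        ((tay z0 H).totalDegree + 1)
        (fun i hi => homogeneousComponent_eq_zero i _ (Nat.lt_of_succ_le hi)) _
        (fun i => homogeneousComponent_isHomogeneous i _) h1
    by_cases hke : k ≤ e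
    · rw [h2]
      have h3 : c ^ e * c⁻¹ ^ k = c ^ (e - k) := by
        rw [inv_pow, ← div_eq_mul_inv, div_eq_iff (pow_ne_zero k hc), ← pow_add,
          Nat.sub_add_cancel hke]
      rw [h3]
    · have h3 : (evt t (ch (lin A H))).natDegree ≤ e * 1 := by
        rw [evt_ch A t x c z0 hA]
        refine aeval_natDegree_le H hH.totalDegree_le _ fun i => ?_
        refine (Polynomial.natDegree_add_le _ _).trans (max_le ?_ ?_)
        · exact (Polynomial.natDegree_C _).le.trans (Nat.zero_le 1)
        · refine Polynomial.natDegree_mul_le.trans ?_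
          have h4 : (algebraMap ℂ (Polynomial ℂ) (A i 2)).natDegree = 0 := Polynomial.natDegree_C _
          rw [h4, add_zero]
          exact (Polynomial.natDegree_X_sub_C x).le
      have h5 : ev2 (Polynomial.derivative^[k] (ch (lin A H))) t x = 0 := by
        rw [ev2, evt_iterate, Polynomial.iterate_derivative_eq_zero (by omega),
          Polynomial.eval_zero]
      rw [h5] at h2
      have h6 : eval (fun i => A i 2) (homogeneousComponent k (tay z0 H)) = 0 := by
        rcases mul_eq_zero.1 h2.symm with h7 | h7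
        · exfalso
          exact (mul_ne_zero (mul_ne_zero (pow_ne_zero _ hc) (pow_ne_zero _ (inv_ne_zero hc)))
            (Nat.cast_ne_zero.2 k.factorial_ne_zero)) h7
        · exact h7
      rw [h5, h6, mul_zero]

end Pool.Agent.H942.LP
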