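import Pool.Agent.H942.LP.DefP

set_option autoImplicit false
set_option linter.unusedSectionVars false
set_option linter.unusedVariables false

/-! # Two plane curves without a common component have finitely many common points -/

namespace Pool.Agent.H942.LP.PN

open Polynomial

/-- Gauss: relatively prime polynomials over a GCD domain are coprime over the fraction field. -/
theorem coprime_frac {A : Type} [CommRing A] [IsDomain A] [UniqueFactorizationMonoid A]
    {f g : A[X]} (hf : f ≠ 0) (h : IsRelPrime f g) :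
    IsCoprime (f.map (algebraMap A (FractionRing A))) (g.map (algebraMap A (FractionRing A))) := by
  classical
  have hinj : Function.Injective (algebraMap A (FractionRing A)) := IsFractionRing.injective _ _
  rw [← isRelPrime_iff_isCoprime]
  intro q hqf hqg
  have hq0 : q ≠ 0 := by
    rintro rfl
    rw [zero_dvd_iff, Polynomial.map_eq_zero_iff hinj] at hqf
    exact hf hqf
  let _ : NormalizedGCDMonoid A := Nonempty.some inferInstance
  set Q := IsLocalization.integerNormalization (nonZeroDivisors A) q with hQ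
  obtain ⟨b, hb, hbq⟩ := IsLocalization.integerNormalization_spec (nonZeroDivisors A) q
  rw [← hQ] at hbq
  have hb0 : b ≠ 0 := nonZeroDivisors.ne_zero hb
  have hQ0 : Q ≠ 0 := by
    rw [hQ, Ne, IsFractionRing.integerNormalization_eq_zero_iff]
    exact hq0
  have hc0 : Q.content ≠ 0 := by
    rw [Ne, content_eq_zero_iff]
    exact hQ0
  -- the primitive part divides `q` over the field
  have hP : Q.primPart.IsPrimitive := Q.isPrimitive_primPart
  have hass : Associated (Q.primPart.map (algebraMap A (FractionRing A))) q := by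
    have h1 : Q.map (algebraMap A (FractionRing A)) =
        C (algebraMap A (FractionRing A) Q.content) *
          Q.primPart.map (algebraMap A (FractionRing A)) := by
      conv_lhs => rw [Q.eq_C_content_mul_primPart]
      rw [Polynomial.map_mul, map_C]
    have h2 : Associated (Q.map (algebraMap A (FractionRing A)))
        (Q.primPart.map (algebraMap A (FractionRing A))) := by
      rw [h1]
      refine associated_unit_mul_left _ _ ?_
      rw [isUnit_C, isUnit_iff_ne_zero, Ne, map_eq_zero_iff _ hinj]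
      exact hc0
    have h3 : Associated (Q.map (algebraMap A (FractionRing A))) q := by
      rw [hbq, Algebra.smul_def, Polynomial.algebraMap_apply]
      refine associated_unit_mul_left _ _ ?_
      rw [isUnit_C, isUnit_iff_ne_zero, Ne, map_eq_zero_iff _ hinj]
      exact hb0
    exact h2.symm.trans h3
  have h1 : Q.primPart ∣ f :=
    hP.dvd_of_fraction_map_dvd_fraction_map (K := FractionRing A) (hass.dvd.trans hqf)
  have h2 : Q.primPart ∣ g :=
    hP.dvd_of_fraction_map_dvd_fraction_map (K := FractionRing A) (hass.dvd.trans hqg)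
  have h3 : IsUnit Q.primPart := h h1 h2
  exact hass.isUnit (h3.map (mapRingHom (algebraMap A (FractionRing A))))

/-- Elimination: a combination of two relatively prime polynomials is a nonzero constant. -/
theorem elim {A : Type} [CommRing A] [IsDomain A] [UniqueFactorizationMonoid A]
    {f g : A[X]} (hf : f ≠ 0) (h : IsRelPrime f g) :
    ∃ (R : A) (p q : A[X]), R ≠ 0 ∧ f * p + g * q = C R := by
  by_cases hd : f.natDegree = 0 ∧ g.natDegree = 0
  · obtain ⟨a, ha⟩ := natDegree_eq_zero.1 hd.1
    refine ⟨a, 1, 0, ?_, by simp [ha]⟩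
    rintro rfl
    apply hf
    rw [← ha, C_0]
  · have hinj : Function.Injective (algebraMap A (FractionRing A)) := IsFractionRing.injective _ _
    obtain ⟨p, q, -, -, hpq⟩ := exists_mul_add_mul_eq_C_resultant f g
      (m := f.natDegree) (n := g.natDegree) le_rfl le_rfl (by tauto)
    refine ⟨_, p, q, ?_, hpq⟩
    intro h0
    have h1 := resultant_map_map f g f.natDegree g.natDegree (algebraMap A (FractionRing A))
    rw [h0, map_zero] at h1
    have h2 : resultant (f.map (algebraMap A (FractionRing A)))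
        (g.map (algebraMap A (FractionRing A))) = 0 := by
      rw [natDegree_map_eq_of_injective hinj, natDegree_map_eq_of_injective hinj]
      exact h1
    rw [resultant_eq_zero_iff] at h2
    exact h2.2 (coprime_frac hf h)

end Pool.Agent.H942.LP.PN

namespace Pool.Agent.H942.LP.PN

open MvPolynomial

/-- Elimination of the variable `0`. -/
theorem elim3 {H G : MvPolynomial (Fin 3) ℂ} (h : Squarefree (H * G)) :
    ∃ R : MvPolynomial (Fin 2) ℂ, R ≠ 0 ∧ ∀ z : Fin 3 → ℂ, eval z H = 0 → eval z G = 0 →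
      eval (Fin.tail z) R = 0 := by
  have hrel : IsRelPrime H G := (squarefree_mul_iff.1 h).1
  have hH : H ≠ 0 := by
    rintro rfl
    rw [zero_mul] at h
    exact not_squarefree_zero h
  have hf : finSuccEquiv ℂ 2 H ≠ 0 := by
    rw [Ne, map_eq_zero_iff _ (finSuccEquiv ℂ 2).injective]
    exact hH
  have hrel' : IsRelPrime (finSuccEquiv ℂ 2 H) (finSuccEquiv ℂ 2 G) := by
    intro d hd1 hd2
    have e1 : (finSuccEquiv ℂ 2).symm d ∣ H := by
      have := map_dvd (finSuccEquiv ℂ 2).symm hd1
      rwa [AlgEquiv.symm_apply_apply] at this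
    have e2 : (finSuccEquiv ℂ 2).symm d ∣ G := by
      have := map_dvd (finSuccEquiv ℂ 2).symm hd2
      rwa [AlgEquiv.symm_apply_apply] at this
    have e3 := (hrel e1 e2).map (finSuccEquiv ℂ 2)
    rwa [AlgEquiv.apply_symm_apply] at e3
  obtain ⟨R, p, q, hR, hpq⟩ := elim hf hrel'
  refine ⟨R, hR, fun z hz1 hz2 => ?_⟩
  have hz : (Fin.cons (z 0) (Fin.tail z) : Fin 3 → ℂ) = z := Fin.cons_self_tail z
  have k1 : Polynomial.eval (z 0) (Polynomial.map (eval (Fin.tail z)) (finSuccEquiv ℂ 2 H)) = 0 := by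
    rw [← eval_eq_eval_mv_eval', hz, hz1]
  have k2 : Polynomial.eval (z 0) (Polynomial.map (eval (Fin.tail z)) (finSuccEquiv ℂ 2 G)) = 0 := by
    rw [← eval_eq_eval_mv_eval', hz, hz2]
  have k3 := congrArg (fun P => Polynomial.eval (z 0) (Polynomial.map (eval (Fin.tail z)) P)) hpq
  simp only [Polynomial.map_add, Polynomial.map_mul, Polynomial.eval_add, Polynomial.eval_mul,
    k1, k2, zero_mul, add_zero, Polynomial.map_C, Polynomial.eval_C] at k3
  exact k3.symm

/-- A nonzero polynomial in two variables vanishes on finitely many lines through the origin of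
the form `y = t x`. -/
theorem lines {R : MvPolynomial (Fin 2) ℂ} (hR : R ≠ 0) :
    ∃ T : Finset ℂ, ∀ t : ℂ, (∀ c : ℂ, eval ![c, c * t] R = 0) → t ∈ T := by
  classical
  have h1 : ∃ v : Fin 2 → ℂ, eval v (X 0 * R) ≠ 0 := by
    by_contra hcon
    push Not at hcon
    have : (X 0 * R : MvPolynomial (Fin 2) ℂ) = 0 := by
      apply MvPolynomial.funext
      intro v
      rw [hcon v, map_zero]
    rcases mul_eq_zero.1 this with h | h
    · exact X_ne_zero (0 : Fin 2) h
    · exact hR h
  obtain ⟨v, hv⟩ := h1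
  rw [map_mul, eval_X] at hv
  have hv0 : v 0 ≠ 0 := left_ne_zero_of_mul hv
  have hvR : eval v R ≠ 0 := right_ne_zero_of_mul hv
  set P : Polynomial ℂ :=
    aeval ![Polynomial.C (v 0), Polynomial.C (v 0) * Polynomial.X] R with hP
  have hev : ∀ t : ℂ, Polynomial.eval t P = eval ![v 0, v 0 * t] R := by
    intro t
    have e1 : Polynomial.eval t P = (Polynomial.evalRingHom t) P := rfl
    rw [e1, hP, aeval_def, hom_eval₂]
    have e2 : (Polynomial.evalRingHom t).comp (algebraMap ℂ (Polynomial ℂ)) = RingHom.id ℂ := by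
      ext; simp
    rw [e2, ← eval₂_id]
    congr 1
    funext i
    fin_cases i <;> simp
  have hP0 : P ≠ 0 := by
    intro h0
    have h2 := hev (v 1 / v 0)
    rw [h0, Polynomial.eval_zero, mul_div_cancel₀ _ hv0] at h2
    apply hvR
    have h3 : (![v 0, v 1] : Fin 2 → ℂ) = v := by
      funext i
      fin_cases i <;> rfl
    rw [← h3]
    exact h2.symm
  refine ⟨P.roots.toFinset, fun t ht => ?_⟩
  rw [Multiset.mem_toFinset, Polynomial.mem_roots hP0, Polynomial.IsRoot, hev t]
  exact ht (v 0)

/-- Homogeneous polynomials: zeros are stable under scaling. -/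
theorem zero_smul' {e : ℕ} {H : MvPolynomial (Fin 3) ℂ} (hH : H.IsHomogeneous e) {z : Fin 3 → ℂ}
    (hz : eval z H = 0) (c : ℂ) : eval (c • z) H = 0 := by
  have h1 : eval (c • z) H = c ^ e * eval z H := by
    rw [eval_eq', eval_eq', Finset.mul_sum]
    refine Finset.sum_congr rfl fun d hd => ?_
    have hd' : ∑ i, d i = e := by
      have h2 := hH (mem_support_iff.1 hd)
      rw [← h2, Finsupp.weight_apply, Finsupp.sum_fintype _ _ (by simp)]
      simp
    have h3 : ∏ i, (c • z) i ^ d i = c ^ e * ∏ i, z i ^ d i := by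
      simp only [Pi.smul_apply, smul_eq_mul, mul_pow, Finset.prod_mul_distrib]
      rw [Finset.prod_pow_eq_pow_sum, hd']
    rw [h3]
    ring
  rw [h1, hz, mul_zero]

/-- The ratio of two coordinates of a common zero takes finitely many values. -/
theorem ratio {e n : ℕ} {H G : MvPolynomial (Fin 3) ℂ} (hH : H.IsHomogeneous e)
    (hG : G.IsHomogeneous n) (h : Squarefree (H * G)) (σ : Equiv.Perm (Fin 3)) :
    ∃ T : Finset ℂ, ∀ z : Fin 3 → ℂ, eval z H = 0 → eval z G = 0 → z (σ 1) ≠ 0 →
      z (σ 2) / z (σ 1) ∈ T := by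
  have hsq : Squarefree (rename σ.symm H * rename σ.symm G) := by
    intro d hd
    have h1 : rename σ d * rename σ d ∣ H * G := by
      have h2 := map_dvd (rename σ : MvPolynomial (Fin 3) ℂ →ₐ[ℂ] MvPolynomial (Fin 3) ℂ) hd
      rw [map_mul, map_mul, rename_rename, rename_rename] at h2
      have h3 : ((σ : Fin 3 → Fin 3) ∘ σ.symm) = id := by
        funext i; simp
      rw [h3, rename_id_apply, rename_id_apply] at h2
      exact h2
    have h4 := (h _ h1).map (rename σ.symm : MvPolynomial (Fin 3) ℂ →ₐ[ℂ] MvPolynomial (Fin 3) ℂ)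
    rw [rename_rename] at h4
    have h3 : ((σ.symm : Fin 3 → Fin 3) ∘ σ) = id := by
      funext i; simp
    rwa [h3, rename_id_apply] at h4
  obtain ⟨R, hR, hzR⟩ := elim3 hsq
  obtain ⟨T, hT⟩ := lines hR
  refine ⟨T, fun z hz1 hz2 hne => hT _ fun c => ?_⟩
  have key : ∀ K : MvPolynomial (Fin 3) ℂ, eval (((c / z (σ 1)) • z) ∘ σ) (rename σ.symm K) =
      eval ((c / z (σ 1)) • z) K := by
    intro K
    rw [eval_rename]
    congr 2
    funext i
    simp
  have h5 := hzR (((c / z (σ 1)) • z) ∘ σ) (by rw [key]; exact zero_smul' hH hz1 _)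
    (by rw [key]; exact zero_smul' hG hz2 _)
  have h6 : Fin.tail (((c / z (σ 1)) • z) ∘ σ) = ![c, c * (z (σ 2) / z (σ 1))] := by
    funext i
    fin_cases i
    · simp only [Fin.tail, Function.comp, Pi.smul_apply, smul_eq_mul]
      show c / z (σ 1) * z (σ 1) = c
      field_simp
    · simp only [Fin.tail, Function.comp, Pi.smul_apply, smul_eq_mul]
      show c / z (σ 1) * z (σ 2) = c * (z (σ 2) / z (σ 1))
      ring
  rw [← h6]
  exact h5

end Pool.Agent.H942.LP.PN

namespace Pool.Agent.H942.LP

open MvPolynomial PN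

theorem t_P : S_P := by
  classical
  intro e n H G hH hG hsq
  obtain ⟨A, hA⟩ := ratio hH hG hsq (Equiv.swap 1 2 * Equiv.swap 0 1)
  obtain ⟨B, hB⟩ := ratio hH hG hsq (Equiv.swap 0 1)
  obtain ⟨D, hD⟩ := ratio hH hG hsq 1
  have p1 : (Equiv.swap 1 2 * Equiv.swap 0 1 : Equiv.Perm (Fin 3)) 1 = 0 := by decide
  have p2 : (Equiv.swap 1 2 * Equiv.swap 0 1 : Equiv.Perm (Fin 3)) 2 = 1 := by decide
  have p3 : (Equiv.swap 0 1 : Equiv.Perm (Fin 3)) 1 = 0 := by decide
  have p4 : (Equiv.swap 0 1 : Equiv.Perm (Fin 3)) 2 = 2 := by decide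
  rw [p1, p2] at hA
  rw [p3, p4] at hB
  rw [Equiv.Perm.one_apply, Equiv.Perm.one_apply] at hD
  set s0 : Finset (Fin 3 → ℂ) :=
    (A ×ˢ B).image (fun p => ![1, p.1, p.2]) ∪ D.image (fun b => ![0, 1, b]) ∪ {![0, 0, 1]} with hs0
  refine ⟨s0.filter (fun w => w ≠ 0 ∧ eval w H = 0 ∧ eval w G = 0), fun w hw => ?_,
    fun z hz hz1 hz2 => ?_⟩
  · exact (Finset.mem_filter.1 hw).2
  -- it is enough to find a normalized multiple
  have main : ∀ c : ℂ, c ≠ 0 → c⁻¹ • z ∈ s0 →
      ∃ w ∈ s0.filter (fun w => w ≠ 0 ∧ eval w H = 0 ∧ eval w G = 0), ∃ c : ℂ, z = c • w := by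
    intro c hc hmem
    refine ⟨c⁻¹ • z, Finset.mem_filter.2 ⟨hmem, ?_, zero_smul' hH hz1 _, zero_smul' hG hz2 _⟩,
      c, (smul_inv_smul₀ hc z).symm⟩
    exact smul_ne_zero (inv_ne_zero hc) hz
  by_cases h0 : z 0 = 0
  · by_cases h1 : z 1 = 0
    · have h2 : z 2 ≠ 0 := by
        intro h2
        apply hz
        funext i
        fin_cases i
        · exact h0
        · exact h1
        · exact h2
      refine main (z 2) h2 ?_
      rw [hs0, Finset.mem_union]
      right
      rw [Finset.mem_singleton]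
      funext i
      fin_cases i
      · show (z 2)⁻¹ * z 0 = 0
        rw [h0, mul_zero]
      · show (z 2)⁻¹ * z 1 = 0
        rw [h1, mul_zero]
      · show (z 2)⁻¹ * z 2 = 1
        exact inv_mul_cancel₀ h2
    · refine main (z 1) h1 ?_
      rw [hs0, Finset.mem_union, Finset.mem_union]
      left; right
      refine Finset.mem_image.2 ⟨z 2 / z 1, hD z hz1 hz2 h1, ?_⟩
      funext i
      fin_cases i
      · show 0 = (z 1)⁻¹ * z 0
        rw [h0, mul_zero]
      · show 1 = (z 1)⁻¹ * z 1
        exact (inv_mul_cancel₀ h1).symm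
      · show z 2 / z 1 = (z 1)⁻¹ * z 2
        ring
  · refine main (z 0) h0 ?_
    rw [hs0, Finset.mem_union, Finset.mem_union]
    left; left
    refine Finset.mem_image.2 ⟨(z 1 / z 0, z 2 / z 0),
      Finset.mem_product.2 ⟨hA z hz1 hz2 h0, hB z hz1 hz2 h0⟩, ?_⟩
    funext i
    fin_cases i
    · show 1 = (z 0)⁻¹ * z 0
      exact (inv_mul_cancel₀ h0).symm
    · show z 1 / z 0 = (z 0)⁻¹ * z 1
      ring
    · show z 2 / z 0 = (z 0)⁻¹ * z 2
      ring

end Pool.Agent.H942.LP
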