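import Pool.Agent.H942.LP.H
import Pool.Agent.H942.LP.P
import Pool.Agent.H942.LP.B
import Pool.Agent.H941.NC.Class
import Pool.Graph.R_seed8.W206.CU.Pole

set_option autoImplicit false
set_option linter.unusedSectionVars false
set_option linter.unusedVariables false

/-! # Curves with a normal crossing part of degree at least four: the class -/

namespace Pool.Agent.H942.LP

open MvPolynomial Pool.Agent.Helper748.MC Pool.Agent.Helper748.TP Pool.Agent.H941.TF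
  Pool.Agent.H941.SC Pool.Agent.H941.NC Pool.Agent.H628R4.TP

/-- **Forms whose curve contains a curve with simple normal crossings of degree at least four.**

The curve `f = 0` is the union of the curves `h i = 0`, `G = 0` and `g j = 0` (the form
`S = ∏ h i * (G * ∏ g j)` is squarefree, `S ∣ f` and `f ∣ S ^ k`; the multiplicities of `f` are
arbitrary). The curves `h i = 0` are smooth, any two of them are transversal, and no three of them
have a common point; the sum of their degrees is at least `4`. The curve `G = 0` does not pass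
through the crossing points of the curves `h i = 0`; there is no other condition on `G`: it may have
arbitrary singularities, and arbitrary contacts with the curves `h i = 0`. The `g j` are
irreducible, and `g j = 0` has at least `3 deg (g j) + 1` different points `P j b` on the union of
the curves `h i = 0`, `G = 0` and `g l = 0`, `l < j`; there is no other condition on `g j` (it may
pass through the crossing points). -/
def CrossRest (f : MvPolynomial (Fin 3) ℂ) : Prop :=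
  ∃ (a r k n₀ : ℕ) (e : Fin a → ℕ) (n : Fin r → ℕ) (h : Fin a → MvPolynomial (Fin 3) ℂ)
    (G : MvPolynomial (Fin 3) ℂ) (g : Fin r → MvPolynomial (Fin 3) ℂ)
    (P : (j : Fin r) → Fin (3 * n j + 1) → Fin 3 → ℂ),
    (∀ i, (h i).IsHomogeneous (e i)) ∧ G.IsHomogeneous n₀ ∧ (∀ j, (g j).IsHomogeneous (n j)) ∧
    4 ≤ ∑ i, e i ∧ (∀ j, Irreducible (g j)) ∧ Squarefree ((∏ i, h i) * (G * ∏ j, g j)) ∧
    (∏ i, h i) * (G * ∏ j, g j) ∣ f ∧ f ∣ ((∏ i, h i) * (G * ∏ j, g j)) ^ k ∧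
    (∀ i, ∀ z : Fin 3 → ℂ, z ≠ 0 → eval z (h i) = 0 → ∃ l, eval z (pderiv l (h i)) ≠ 0) ∧
    (∀ i j, i ≠ j → ∀ z : Fin 3 → ℂ, z ≠ 0 → eval z (h i) = 0 → eval z (h j) = 0 → ∀ c : ℂ,
      ∃ l, eval z (pderiv l (h j)) ≠ c * eval z (pderiv l (h i))) ∧
    (∀ i j l, i ≠ j → l ≠ i → l ≠ j → ∀ z : Fin 3 → ℂ, z ≠ 0 → eval z (h i) = 0 →
      eval z (h j) = 0 → eval z (h l) ≠ 0) ∧
    (∀ i j, i ≠ j → ∀ z : Fin 3 → ℂ, z ≠ 0 → eval z (h i) = 0 → eval z (h j) = 0 →
      eval z G ≠ 0) ∧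
    (∀ j b, P j b ≠ 0 ∧ eval (P j b) (g j) = 0 ∧
      eval (P j b) ((∏ i, h i) * (G * ∏ l ∈ Finset.univ.filter (· < j), g l)) = 0) ∧
    (∀ j b b', b ≠ b' → ∀ c : ℂ, P j b ≠ c • P j b')

theorem CrossRest.ne {f : MvPolynomial (Fin 3) ℂ} (hf : CrossRest f) : f ≠ 0 := by
  obtain ⟨a, r, k, n₀, e, n, h, G, g, P, hh, hG, hg, he, hirr, hsq, hSf, hfS, -⟩ := hf
  rintro rfl
  exact pow_ne_zero k hsq.ne_zero (zero_dvd_iff.1 hfS)

theorem CrossRest.deg {d : ℕ} {f : MvPolynomial (Fin 3) ℂ} (hf : f.IsHomogeneous d)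
    (h : CrossRest f) : 0 < d := by
  have hf0 := h.ne
  obtain ⟨a, r, k, n₀, e, n, h, G, g, P, hh, hG, hg, he, hirr, hsq, hSf, hfS, -⟩ := h
  have h1 := totalDegree_le_of_dvd_of_isDomain hSf hf0
  have hS : ((∏ i, h i) * (G * ∏ j, g j)).IsHomogeneous (∑ i, e i + (n₀ + ∑ j, n j)) :=
    (IsHomogeneous.prod _ _ _ fun i _ => hh i).mul
      (hG.mul (IsHomogeneous.prod _ _ _ fun j _ => hg j))
  rw [hS.totalDegree hsq.ne_zero, hf.totalDegree hf0] at h1
  omega

theorem CrossChain.rest {f : MvPolynomial (Fin 3) ℂ} (hf : CrossChain f) : CrossRest f := by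
  obtain ⟨a, r, k, e, n, h, g, P, hh, hg, he, hirr, hsq, hSf, hfS, hsm, htr, htwo, hP, hPP⟩ := hf
  refine ⟨a, r, k, 0, e, n, h, 1, g, P, hh, isHomogeneous_one _ _, hg, he, hirr, ?_, ?_, ?_, hsm,
    htr, htwo, fun i j _ z _ _ _ => ?_, fun j b => ?_, hPP⟩
  · rwa [one_mul]
  · rwa [one_mul]
  · rwa [one_mul]
  · rw [map_one]
    exact one_ne_zero
  · rw [one_mul]
    exact hP j b

/-- a linear change of coordinates, as an isomorphism of algebras -/
noncomputable def linA (A : Matrix (Fin 3) (Fin 3) ℂ) (hA : A.det ≠ 0) :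
    MvPolynomial (Fin 3) ℂ ≃ₐ[ℂ] MvPolynomial (Fin 3) ℂ :=
  AlgEquiv.ofRingEquiv (f := linE A hA) fun r => by
    change lin A (C r) = C r
    exact (lin A).commutes r

theorem linA_apply (A : Matrix (Fin 3) (Fin 3) ℂ) (hA : A.det ≠ 0) (f : MvPolynomial (Fin 3) ℂ) :
    linA A hA f = lin A f := rfl

/-- the gradient of a product at a zero of exactly one smooth factor -/
theorem grad_ne {ι : Type} [Fintype ι] [DecidableEq ι] {h : ι → MvPolynomial (Fin 3) ℂ}
    (hsm : ∀ i, ∀ z : Fin 3 → ℂ, z ≠ 0 → eval z (h i) = 0 → ∃ l, eval z (pderiv l (h i)) ≠ 0)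
    {G : MvPolynomial (Fin 3) ℂ}
    (hGc : ∀ i j, i ≠ j → ∀ z : Fin 3 → ℂ, z ≠ 0 → eval z (h i) = 0 → eval z (h j) = 0 →
      eval z G ≠ 0) {w : Fin 3 → ℂ} (hw : w ≠ 0) (h0 : eval w (∏ i, h i) = 0)
    (g0 : eval w G = 0) : ∃ l, eval w (pderiv l (∏ i, h i)) ≠ 0 := by
  rw [map_prod, Finset.prod_eq_zero_iff] at h0
  obtain ⟨i, -, hi⟩ := h0
  obtain ⟨l, hl⟩ := hsm i w hw hi
  refine ⟨l, ?_⟩
  have h1 : ∏ i, h i = h i * ∏ j ∈ Finset.univ.erase i, h j :=
    (Finset.mul_prod_erase _ _ (Finset.mem_univ i)).symm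
  rw [h1, pderiv_mul, map_add, map_mul, map_mul, hi, zero_mul, add_zero]
  refine mul_ne_zero hl ?_
  rw [map_prod]
  refine Finset.prod_ne_zero_iff.2 fun j hj => ?_
  intro hj0
  exact hGc i j (Finset.ne_of_mem_erase hj).symm w hw hi hj0 g0

theorem isB_lin (A : Matrix (Fin 3) (Fin 3) ℂ) (hA : A.det ≠ 0) {f : MvPolynomial (Fin 3) ℂ}
    {b : Polynomial ℂ} (hb : IsBFunction f b) : IsBFunction (lin A f) b := by
  have h1 := Pool.Agent.W206.CU.isBFunction_iso (linA A hA) hb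
  rwa [linA_apply] at h1

/-- The projection center: outside of `L = 0` the curve `H = 0` is not tangent to the projection
at its points on `G = 0`. -/
theorem center {e n : ℕ} {H G : MvPolynomial (Fin 3) ℂ} (hH : H.IsHomogeneous e)
    (hG : G.IsHomogeneous n) (hsq : Squarefree (H * G))
    (hgr : ∀ w : Fin 3 → ℂ, w ≠ 0 → eval w H = 0 → eval w G = 0 →
      ∃ l, eval w (pderiv l H) ≠ 0) :
    ∃ L : MvPolynomial (Fin 3) ℂ, L ≠ 0 ∧ ∀ A : Matrix (Fin 3) (Fin 3) ℂ, A.det ≠ 0 →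
      eval (fun i => A i 2) L ≠ 0 → ∀ z : Fin 3 → ℂ, z ≠ 0 → eval z (lin A G) = 0 →
      eval z (lin A H) = 0 → eval z (pderiv 2 (lin A H)) ≠ 0 := by
  classical
  obtain ⟨s, hs, hs'⟩ := t_P e n H G hH hG hsq
  have hLe : ∀ v : Fin 3 → ℂ,
      eval v (∏ w ∈ s, ∑ i, C (eval w (pderiv i H)) * X i : MvPolynomial (Fin 3) ℂ) =
      ∏ w ∈ s, ∑ i, eval w (pderiv i H) * v i := by
    intro v
    rw [map_prod]
    refine Finset.prod_congr rfl fun w _ => ?_
    rw [map_sum]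
    refine Finset.sum_congr rfl fun i _ => ?_
    rw [map_mul, eval_C, eval_X]
  refine ⟨∏ w ∈ s, ∑ i, C (eval w (pderiv i H)) * X i, ?_, ?_⟩
  · refine Finset.prod_ne_zero_iff.2 fun w hw => ?_
    obtain ⟨hw0, hwH, hwG⟩ := hs w hw
    obtain ⟨l, hl⟩ := hgr w hw0 hwH hwG
    intro h0
    apply hl
    have h1 := congrArg (eval (Pi.single l (1 : ℂ))) h0
    rw [map_sum, map_zero] at h1
    rw [← h1, Finset.sum_eq_single l]
    · rw [map_mul, eval_C, eval_X, Pi.single_eq_same, mul_one]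
    · intro j _ hj
      rw [map_mul, eval_C, eval_X, Pi.single_eq_of_ne hj, mul_zero]
    · intro h
      exact absurd (Finset.mem_univ _) h
  · intro A hA hAL z hz hG0 hH0
    rw [eval_lin] at hG0 hH0
    obtain ⟨w, hw, c, hc⟩ := hs' _ (lin_vec_ne hA hz) hH0 hG0
    have hc0 : c ≠ 0 := by
      rintro rfl
      rw [zero_smul] at hc
      exact lin_vec_ne hA hz hc
    rw [eval_pderiv_lin, hc, Matrix.vecMul, dotProduct]
    have h1 : ∀ i : Fin 3, eval (c • w) (pderiv i H) =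
        c ^ (e - 1) * eval w (pderiv i H) := fun i => eval_smul_pt hH.pderiv c w
    simp only [h1, mul_assoc]
    rw [← Finset.mul_sum]
    refine mul_ne_zero (pow_ne_zero _ hc0) ?_
    rw [hLe] at hAL
    exact Finset.prod_ne_zero_iff.1 hAL w hw

/-- **The root `-3/d`** -/
theorem not_rest {d : ℕ} {f : MvPolynomial (Fin 3) ℂ} (hf : f.IsHomogeneous d)
    (hc : CrossRest f) {b : Polynomial ℂ} (hb : IsBFunction f b)
    (hb0 : b.eval (-3 / d : ℂ) ≠ 0) : False := by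
  classical
  have hd := hc.deg hf
  obtain ⟨a, r, k, n₀, e, n, h, G, g, P, hh, hG, hg, he, hirr, hsq, hSf, hfS, hsm, htr, htwo, hGc,
    hP, hPP⟩ := hc
  have hH : (∏ i, h i).IsHomogeneous (∑ i, e i) := IsHomogeneous.prod _ _ _ fun i _ => hh i
  have hS : ((∏ i, h i) * (G * ∏ j, g j)).IsHomogeneous (∑ i, e i + (n₀ + ∑ j, n j)) :=
    hH.mul (hG.mul (IsHomogeneous.prod _ _ _ fun j _ => hg j))
  obtain ⟨L, hL0, hL⟩ := center hH hG (hsq.squarefree_of_dvd ⟨∏ j, g j, by ring⟩)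
    fun w hw hwH hwG => grad_ne hsm hGc hw hwH hwG
  obtain ⟨A, P', hA, hsep, hdeg, hAL, hAP, hP1, hPt⟩ := t_B _ _ L hS (by omega) hsq hL0
    (Σ j : Fin r, Fin (3 * n j + 1)) (fun x => P x.1 x.2) (fun x => (hP x.1 x.2).1)
    (fun x => by
      rw [map_mul, map_mul, map_prod (eval _) g, Finset.prod_eq_zero (Finset.mem_univ x.1)
        (hP x.1 x.2).2.1, mul_zero, mul_zero])
  have hl : ∀ t : Finset (Fin r), lin A ((∏ i, h i) * (G * ∏ j ∈ t, g j)) =
      (∏ i, lin A (h i)) * (lin A G * ∏ j ∈ t, lin A (g j)) := by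
    intro t
    rw [map_mul, map_mul, map_prod, map_prod]
  rw [hl] at hsep hdeg
  have hgd := hL A hA hAL
  rw [map_prod] at hgd
  -- the points in the new coordinates
  have hlin : ∀ (j : Fin r) (b : Fin (3 * n j + 1)) (p : MvPolynomial (Fin 3) ℂ) (m : ℕ),
      p.IsHomogeneous m → eval (P j b) p = 0 →
      eval ![P' ⟨j, b⟩ 0 / P' ⟨j, b⟩ 1, 1, P' ⟨j, b⟩ 2 / P' ⟨j, b⟩ 1] (lin A p) = 0 := by
    intro j b p m hp h0
    have h1 : eval (P' ⟨j, b⟩) (lin A p) = 0 := by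
      rw [eval_lin, hAP ⟨j, b⟩]
      exact h0
    have h2 := hP1 ⟨j, b⟩
    have h3 : P' ⟨j, b⟩ = fun i => P' ⟨j, b⟩ 1 *
        (![P' ⟨j, b⟩ 0 / P' ⟨j, b⟩ 1, 1, P' ⟨j, b⟩ 2 / P' ⟨j, b⟩ 1] : Fin 3 → ℂ) i := by
      funext i
      fin_cases i
      · simp [mul_div_cancel₀ _ h2]
      · simp
      · simp [mul_div_cancel₀ _ h2]
    rw [h3, eval_smul_pt (lin_homog A hp)] at h1
    exact (mul_eq_zero.1 h1).resolve_left (pow_ne_zero _ h2)
  have a1 : ∀ j, Irreducible (lin A (g j)) := fun j => irr_lin hA (hirr j)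
  have a2 : (∏ i, lin A (h i)) * (lin A G * ∏ j, lin A (g j)) ∣ lin A f := by
    rw [← hl]
    exact map_dvd (lin A) hSf
  have a3 : lin A f ∣ ((∏ i, lin A (h i)) * (lin A G * ∏ j, lin A (g j))) ^ k := by
    rw [← hl, ← map_pow]
    exact map_dvd (lin A) hfS
  have a4 : ∀ i j l, i ≠ j → l ≠ i → l ≠ j → ∀ z : Fin 3 → ℂ, z ≠ 0 →
      eval z (lin A (h i)) = 0 → eval z (lin A (h j)) = 0 → eval z (lin A (h l)) ≠ 0 := by
    intro i j l hij hli hlj z hz h1 h2
    rw [eval_lin] at h1 h2 ⊢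
    exact htwo i j l hij hli hlj _ (lin_vec_ne hA hz) h1 h2
  have a5 : ∀ j, 3 * n j <
      (Finset.univ.image fun b => P' ⟨j, b⟩ 0 / P' ⟨j, b⟩ 1).card := by
    intro j
    rw [Finset.card_image_of_injective, Finset.card_univ, Fintype.card_fin]
    · omega
    · intro b b' hbb
      by_contra hne
      exact hPt ⟨j, b⟩ ⟨j, b'⟩ (hPP j b b' hne) hbb
  have a6 : ∀ j, ∀ t ∈ (Finset.univ.image fun b => P' ⟨j, b⟩ 0 / P' ⟨j, b⟩ 1),
      ∃ x : ℂ, eval ![t, 1, x] (lin A (g j)) = 0 ∧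
        eval ![t, 1, x] ((∏ i, lin A (h i)) * (lin A G *
          ∏ l ∈ Finset.univ.filter (· < j), lin A (g l))) = 0 := by
    intro j t ht
    rw [Finset.mem_image] at ht
    obtain ⟨b, -, rfl⟩ := ht
    refine ⟨P' ⟨j, b⟩ 2 / P' ⟨j, b⟩ 1, hlin j b _ _ (hg j) (hP j b).2.1, ?_⟩
    have h1 := hlin j b _ _ (hH.mul (hG.mul
      (IsHomogeneous.prod (Finset.univ.filter (· < j)) _ _ fun j _ => hg j))) (hP j b).2.2
    rwa [hl] at h1
  have a7 : ∀ t x : ℂ, eval ![t, 1, x] (lin A G) = 0 →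
      eval ![t, 1, x] (∏ i, lin A (h i)) = 0 →
      eval ![t, 1, x] (pderiv 2 (∏ i, lin A (h i))) ≠ 0 := fun t x =>
    hgd _ fun h0 => one_ne_zero (α := ℂ) (congrFun h0 1)
  exact coreL (F := lin A f) (G := lin A G) (h := fun i => lin A (h i))
    (g := fun j => lin A (g j)) (K := k) (ee := e) (nn := n) (lin_homog A hf) hd
    (fun i => lin_homog A (hh i)) (lin_homog A hG)
    (fun j => lin_homog A (hg j)) he a1 a2 a3 (fun i => smooth_lin hA (hsm i))
    (fun i j hij => trans_lin hA (htr i j hij)) a4 a7 hsep hdeg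
    (fun j => Finset.univ.image fun b => P' ⟨j, b⟩ 0 / P' ⟨j, b⟩ 1) a5 a6
    b (isB_lin A hA hb) hb0

/-- **The root `-3/d`** -/
theorem root_rest {d : ℕ} {f : MvPolynomial (Fin 3) ℂ} (hf : f.IsHomogeneous d)
    (hc : CrossRest f) {b : Polynomial ℂ} (hb : IsBFunction f b) : b.eval (-3 / d : ℂ) = 0 := by
  by_contra hb0
  exact not_rest hf hc hb hb0

end Pool.Agent.H942.LP
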