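import Pool.Graph.R_pool_sql_team_seeded_620a6dc7.helper748_tp_.T1

set_option autoImplicit false
set_option linter.unusedSectionVars false
set_option linter.unusedVariables false

/-! # Polynomial families -/

namespace Pool.Agent.H942.LP

open Polynomial Pool.Agent.Helper748.TP

/-- the constants of `ℂ[t][x]`; `kh c = kc c` holds by `rfl` -/
noncomputable def kh : ℂ →+* ℂ[X][X] := (C : ℂ[X] →+* ℂ[X][X]).comp (C : ℂ →+* ℂ[X])

/-- a family of elements of a ring which is polynomial in the parameter -/
def PF {A : Type} [CommRing A] (κ : ℂ →+* A) (φ : ℂ → A) : Prop :=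
  ∃ P : A[X], ∀ c, φ c = P.eval (κ c)


end Pool.Agent.H942.LP
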