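import Pool.Graph.R_seed8.H628R4.TP.Defs
import Pool.Agent.H942.LP.DefK

set_option autoImplicit false
set_option linter.unusedSectionVars false
set_option linter.unusedVariables false

/-! # Polynomial families of primitives from the functional equation: the statement -/

namespace Pool.Agent.H942.LP

open Polynomial Pool.Agent.Helper748.TP Pool.Agent.H628R4.TP

/-- The substitution `x₀ = t`, `x₁ = 1`, `x₂ = x`, with values in `ℂ[t][x]`. -/
noncomputable def chx : MvPolynomial (Fin 3) ℂ →ₐ[ℂ] ℂ[X][X] :=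
  MvPolynomial.aeval ![Polynomial.C Polynomial.X, 1, Polynomial.X]

theorem chx_C (c : ℂ) : chx (MvPolynomial.C c) = kc c := by
  rw [chx, MvPolynomial.aeval_C]; rfl

theorem chx_pderiv0 (p : MvPolynomial (Fin 3) ℂ) : chx (MvPolynomial.pderiv 0 p) = dt (chx p) := by
  induction p using MvPolynomial.induction_on with
  | C a => rw [MvPolynomial.pderiv_C, map_zero, chx_C, kc, dt_C, derivative_C, C_0]
  | add p q hp hq => rw [map_add, map_add, map_add, hp, hq, dt_add]
  | mul_X p i hp =>
    rw [Derivation.leibniz, map_add, smul_eq_mul, smul_eq_mul, map_mul, map_mul, hp, map_mul,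
      dt_mul]
    have h1 : chx (MvPolynomial.pderiv 0 (MvPolynomial.X i)) = dt (chx (MvPolynomial.X i)) := by
      fin_cases i
      · simp [chx, dt_C]
      · have : dt (1 : ℂ[X][X]) = 0 := by
          rw [← C_1, dt_C, derivative_one, C_0]
        simp [chx, this]
      · simp [chx, dt_X]
    rw [h1]
    ring

theorem chx_pderiv2 (p : MvPolynomial (Fin 3) ℂ) :
    chx (MvPolynomial.pderiv 2 p) = derivative (chx p) := by
  induction p using MvPolynomial.induction_on with
  | C a => rw [MvPolynomial.pderiv_C, map_zero, chx_C, kc, derivative_C]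
  | add p q hp hq => rw [map_add, map_add, map_add, hp, hq, derivative_add]
  | mul_X p i hp =>
    rw [Derivation.leibniz, map_add, smul_eq_mul, smul_eq_mul, map_mul, map_mul, hp, map_mul,
      derivative_mul]
    have h1 : chx (MvPolynomial.pderiv 2 (MvPolynomial.X i)) =
        derivative (chx (MvPolynomial.X i)) := by
      fin_cases i
      · simp [chx]
      · simp [chx]
      · simp [chx]
    rw [h1]
    ring

theorem chx_monomial (m : Fin 3 →₀ ℕ) (c : ℂ) : chx (MvPolynomial.monomial m c) =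
    monomial (m 2) (C c * X ^ m 0) := by
  rw [chx, MvPolynomial.aeval_monomial, Finsupp.prod_fintype _ _ (fun i => pow_zero _),
    Fin.prod_univ_three, ← C_mul_X_pow_eq_monomial, C_mul, C_pow]
  simp only [Matrix.cons_val_zero, Matrix.cons_val_one, Matrix.cons_val_two, Matrix.head_cons,
    Matrix.tail_cons, one_pow, mul_one, Matrix.cons_val]
  rw [← mul_assoc]
  rfl

theorem hdeg3 {n : ℕ} {F : MvPolynomial (Fin 3) ℂ} (hF : F.IsHomogeneous n) :
    ∀ m ∈ F.support, m 0 + m 1 + m 2 = n := by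
  intro m hm
  have h1 := hF (MvPolynomial.mem_support_iff.1 hm)
  rw [← h1, ← Fin.sum_univ_three (fun i => m i), ← Finsupp.degree_eq_sum,
    Finsupp.degree_eq_weight_one]
  rfl

theorem chx_deg {n : ℕ} {F : MvPolynomial (Fin 3) ℂ} (hF : F.IsHomogeneous n) :
    (chx F).natDegree ≤ n := by
  have hm := hdeg3 hF
  have hs : F = ∑ m ∈ F.support, MvPolynomial.monomial m (MvPolynomial.coeff m F) := F.as_sum
  rw [hs, map_sum]
  refine natDegree_sum_le_of_forall_le _ _ fun m hm' => ?_
  rw [chx_monomial]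
  have := hm m hm'
  exact (natDegree_monomial_le _).trans (by omega)

theorem chx_coeff {d : ℕ} {F : MvPolynomial (Fin 3) ℂ} (hF : F.IsHomogeneous d) (m : Fin 3 →₀ ℕ)
    (hm : m 0 + m 1 + m 2 = d) : ((chx F).coeff (m 2)).coeff (m 0) = MvPolynomial.coeff m F := by
  have hm' := hdeg3 hF
  conv_lhs => rw [F.as_sum, map_sum, finsetSum_coeff, finsetSum_coeff]
  rw [Finset.sum_eq_single m]
  · rw [chx_monomial, coeff_monomial, if_pos rfl, coeff_C_mul_X_pow, if_pos rfl]
  · intro m' hs hne
    rw [chx_monomial, coeff_monomial]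
    split_ifs with h2
    · rw [coeff_C_mul_X_pow]
      split_ifs with h0
      · exfalso
        apply hne
        have := hm' m' hs
        ext i
        fin_cases i
        · exact h0.symm
        · change m' 1 = m 1
          omega
        · exact h2
      · rfl
    · rw [coeff_zero]
  · intro hs
    rw [MvPolynomial.notMem_support_iff.1 hs, map_zero, map_zero, coeff_zero, coeff_zero]

theorem chx_inj {d : ℕ} {F : MvPolynomial (Fin 3) ℂ} (hF : F.IsHomogeneous d) (h : chx F = 0) :
    F = 0 := by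
  ext m
  by_cases hm : MvPolynomial.coeff m F = 0
  · rw [hm, MvPolynomial.coeff_zero]
  · have h1 := hF hm
    have h2 : m 0 + m 1 + m 2 = d := by
      rw [← h1, ← Fin.sum_univ_three (fun i => m i), ← Finsupp.degree_eq_sum,
        Finsupp.degree_eq_weight_one]
      rfl
    rw [← chx_coeff hF m h2, h, coeff_zero, coeff_zero, MvPolynomial.coeff_zero]

/-- operators with all derivatives on the left, of order `≤ n` -/
def Fil : ℕ → Module.End ℂ (MvPolynomial (Fin 3) ℂ) → Prop
  | 0, Q => ∃ g : MvPolynomial (Fin 3) ℂ, ∀ p, Q p = g * p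
  | n + 1, Q => ∃ (g : MvPolynomial (Fin 3) ℂ)
      (Q' : Fin 3 → Module.End ℂ (MvPolynomial (Fin 3) ℂ)), (∀ i, Fil n (Q' i)) ∧
      ∀ p, Q p = g * p + ∑ i, MvPolynomial.pderiv i (Q' i p)

/-- **Fa**: step (1) of the proof of **F** below: `Fil n ⊆ Fil (n+1)`, `Fil n` is closed under
sums and scalar multiples and under `x_j ∘`, `∂_j ∘ Fil n ⊆ Fil (n+1)`; so the operators `Q1` for
which `Q1 ∘ Q ∈ ⋃ Fil n` for all `Q ∈ ⋃ Fil n` form a subalgebra which contains the generators;
take `Q = 1`. -/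
def S_Fa : Prop := ∀ Q ∈ weylS (Fin 3), ∃ n, Fil n Q

/-- **F** (family of primitives from the functional equation of a form).

Paper proof. (1) Let `W` be the Weyl algebra `weylS (Fin 3)`. Define `Fil 0` = multiplications
by polynomials, `Fil (n+1)` = operators `mul g + ∑ i, ∂_i ∘ Q_i` with `Q_i ∈ Fil n` (all
derivatives on the LEFT). `Fil n ⊆ Fil (n+1)`; `Fil n` is closed under sums and scalar multiples;
`x_j ∘ (mul g + ∑ ∂_i ∘ Q_i) = mul (x_j g) + ∑ ∂_i ∘ (x_j ∘ Q_i) - Q_j` (induction) and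
`∂_j ∘ Fil n ⊆ Fil (n+1)`; so by `Algebra.adjoin_induction` every element of `W` is in some
`Fil n`. (2) Write `hc_m` for the homogeneous component of degree `m`. For `Q ∈ Fil n` and all
`k` there are `K` and a polynomial family `v` with `v c` homogeneous of degree `d * K + k` and
`hc_{d s + k} (Q (f^(s+1))) = v s * f ^ (s - K)` for all `s ∈ ℕ`, `s ≥ K + 1`
(induction on `n`, `hc_m ∘ ∂_i = ∂_i ∘ hc_{m+1}`,
`hc_{d s + k} (g f^(s+1)) = hc_{k-d}(g) f^(s+1)`, zero if `k < d`; `K` can be increased).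
(3) For `ψ` homogeneous of degree `m` (Euler):
`chx (∂_1 ψ) = m (chx ψ) - t ∂_t (chx ψ) - x ∂_x (chx ψ)`
`= (m + 2) chx ψ - dt (t chx ψ) - derivative (x chx ψ)`.
(4) Claim: for `Q ∈ Fil n`, `k`: there are `K` and polynomial families `A, B, H` with
`chx (hc_{d s + k} (Q f^(s+1))) = H s * F^(s+1) + dt (A s * F^(s-K)) + derivative (B s * F^(s-K))`
for large `s ∈ ℕ`, where `F = chx f`: induction on `n`: for `Q = mul g + ∑ ∂_i ∘ Q_i` the first
term gives `H`, `∂_0` and `∂_2` give divergences of terms as in (2), and for `∂_1` use (3) with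
`m = d s + k + 1` and the claim for `Q_1`, `k + 1`, multiplied by `d s + k + 3`.
(5) The functional equation is `b(s) f^s = (∑_m s^m Q_m) (f^(s+1))`, `Q_m = mul g_m + ∑ ∂_i ∘
Q_{m,i}`. Take the component of degree `d s` (`g_m` does not contribute, as `d ≥ 1`):
`b(s) f^s = ∑_i ∂_i ψ_i`, `ψ_i = hc_{d s + 1} (∑_m s^m Q_{m,i} f^(s+1)) = v_i(s) f^(s-K)`. By (3)
`b(s) F^s = dt (chx ψ_0 - t chx ψ_1) + derivative (chx ψ_2 - x chx ψ_1) + (d s + 3) chx ψ_1` and by
(4) for `ψ_1` the last term is `(d s + 3) (H F^(s+1) + dt(A' F^(s-K)) + derivative (B' F^(s-K)))`.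
So `A c = chx (v_0 c) - t chx (v_1 c) + (d c + 3) A' c`, `B c = chx (v_2 c) - x chx (v_1 c) +
(d c + 3) B' c`. Multiplying by `F^(K+1-s)` gives the equation for all large `s ∈ ℕ`, hence for
all `c ∈ ℂ` (both sides are polynomial families; `chx f ≠ 0` as `f ≠ 0` is homogeneous, see
`chx_inj` above). For `c = -3/d` the factor `d c + 3` vanishes and
`natDegree (chx v) ≤ d * K + 1` for `v` homogeneous of degree `d * K + 1`
(`chx_deg` above). -/
def S_F : Prop := ∀ (d : ℕ) (f : MvPolynomial (Fin 3) ℂ) (b : ℂ[X]), 0 < d →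
  f.IsHomogeneous d → f ≠ 0 → IsBFunction f b →
  ∃ (K : ℕ) (A B H : ℂ → ℂ[X][X]), PF kh A ∧ PF kh B ∧ PF kh H ∧
    (∀ c : ℂ, kc (b.eval c) * chx f ^ (K + 1) = kc (d * c + 3) * H c * chx f ^ (K + 2) +
      chx f * (dt (A c) + derivative (B c)) +
      kc (c - K) * (dt (chx f) * A c + derivative (chx f) * B c)) ∧
    (A (-3 / d)).natDegree ≤ d * K + 1 ∧ (B (-3 / d)).natDegree ≤ d * K + 2

end Pool.Agent.H942.LP
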