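import Pool.Agent.H941.NC.Bert
import Pool.Agent.H941.SC.Core

set_option autoImplicit false
set_option linter.unusedSectionVars false
set_option linter.unusedVariables false

/-! # Multiplicities of points of plane curves: the statements -/

namespace Pool.Agent.H942.LP

open MvPolynomial Filter Topology Pool.Agent.Helper748.MC Pool.Agent.Helper748.TP
  Pool.Agent.H941.TF Pool.Agent.H941.SC Pool.Agent.H941.NC

/-- the Taylor expansion of `H` at `z`: the polynomial `H(z + y)` in `y` -/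
noncomputable def tay (z : Fin 3 → ℂ) : MvPolynomial (Fin 3) ℂ →ₐ[ℂ] MvPolynomial (Fin 3) ℂ :=
  aeval fun i => C (z i) + X i

/-- The multiplicity of `H` at `z` is at most `m`: the Taylor expansion of `H` at `z` has a nonzero
homogeneous part of a degree `≤ m`. -/
def MultLE (m : ℕ) (H : MvPolynomial (Fin 3) ℂ) (z : Fin 3 → ℂ) : Prop :=
  ∃ k ≤ m, homogeneousComponent k (tay z H) ≠ 0

/-- **MF**: no curve of degree `> 2 M` whose points have multiplicities `≤ M` is contained in the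
zero set of a form with a second torus.

Paper proof. `lin B H ∣ lin B f`, so (`ℂ[x]` is a domain graded by the weights `w`) all monomials
`α` of `H' = lin B H` have the same weight `W = ∑ α_i w_i` (the divisors of a homogeneous element of a
ℤ-graded domain are homogeneous). Not all `w_i` are equal: otherwise `w_i = c ≠ 0` for all `i` and a
monomial of the form `lin B f ≠ 0` of degree `d ≥ 1` has the weight `c d ≠ 0`. Let `w_p` be the
largest and `w_q` the smallest weight, `w_q < w_p`. The multiplicity of `H'` at the unit vector `e_p`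
is the one of `H` at `B e_p ≠ 0` (compare `tay e_p (lin B H) = lin B (tay (B e_p) H)`; if
`H (B e_p) ≠ 0` the multiplicity is `0`), so it is `≤ M`, and `H'` has a monomial `α` with
`α_p ≥ e - M` (`H'(e_p + y)`: a monomial `x ^ α` of degree `e` gives
`(1 + y_p) ^ {α_p} ∏_{i ≠ p} y_i ^ {α_i}`, whose terms have degree `≥ e - α_p`). So
`W ≥ (e - M) w_p + M w_q`, as `∑ α_i = e`, `α_i ≥ 0` (`W = e w_q + ∑ α_i (w_i - w_q) ≥
e w_q + (e - M) (w_p - w_q)`). In the same way, at `e_q`, `W ≤ e w_p - (e - M) (w_p - w_q)`. Hence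
`(e - 2 M) (w_p - w_q) ≤ 0`, a contradiction. -/
def S_MF : Prop := ∀ (f H : MvPolynomial (Fin 3) ℂ) (d e M : ℕ) (B : Matrix (Fin 3) (Fin 3) ℂ)
  (w : Fin 3 → ℤ), B.det ≠ 0 → f.IsHomogeneous d → 1 ≤ d → f ≠ 0 → H.IsHomogeneous e → H ∣ f →
  2 * M < e → (∀ z : Fin 3 → ℂ, z ≠ 0 → eval z H = 0 → MultLE M H z) →
  (∀ α ∈ (lin B f).support, ∑ i, (α i : ℤ) * w i = 0) → ∑ i, w i ≠ 0 → False

/-- **Ce**: the multiplicity in the chart `x₁ = 1` of the coordinates `A`.

Paper proof. By homogeneity `H(c z0 + y) = c ^ e H(z0 + y / c) = ∑_i c ^ (e - i) h_i(y)` with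
`h_i = homogeneousComponent i (tay z0 H)`, which is `0` for `i < k`. For `F = ch (lin A H)`,
`F(t + τ, x + ξ) = H (A (t + τ, 1, x + ξ)) = H (c z0 + A (τ, 0, ξ)) =
∑_{i ≥ k} c ^ (e - i) h_i (A (τ, 0, ξ))`. So `F` is in the `k`-th power of the ideal
`(T - t, X - x)`, and the `k`-th derivative by `ξ` at `τ = ξ = 0` is `k! c ^ (e - k)` times the value
of `h_k` at the third column of `A`. (`i ≤ e` for the nonzero `h_i`.) -/
def S_Ce : Prop := ∀ (H : MvPolynomial (Fin 3) ℂ) (e k : ℕ) (z0 : Fin 3 → ℂ)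
  (A : Matrix (Fin 3) (Fin 3) ℂ) (t x c : ℂ), H.IsHomogeneous e →
  (∀ i < k, homogeneousComponent i (tay z0 H) = 0) → c ≠ 0 →
  (fun i => ∑ j, A i j * (![t, 1, x] : Fin 3 → ℂ) j) = c • z0 →
  ch (lin A H) ∈ (Ideal.span {Polynomial.C (Polynomial.X - Polynomial.C t),
    Polynomial.X - Polynomial.C (Polynomial.C x)} : Ideal (Polynomial (Polynomial ℂ))) ^ k ∧
  ev2 (Polynomial.derivative^[k] (ch (lin A H))) t x =
    c ^ (e - k) * k.factorial * eval (fun i => A i 2) (homogeneousComponent k (tay z0 H))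

/-- **Ba**: an inequality between `g` and the gradient of `H` near a point of the curve `H = 0`, in
the chart.

Paper proof. For `z` near `z1 = A (t, 1, x)` the same kind of inequality holds (scaling by `c`:
`g (c y) = c ^ κ g(y)`, and the partial derivatives of `H` are forms of degree `e - 1`). Let
`F = ch (lin A H)`, `G = ch (lin A g)`, so `F(t, x) = H (A (t, 1, x))`. The values of the `∂_i H` at
`A z` are linear combinations of those of `∂_j (lin A H)` at `z` (`pderiv_lin`, `A` is invertible),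
and on `lin A H = 0`, at `z = (t', 1, x')`, Euler's identity gives
`∂_1 (lin A H) = - t' ∂_0 (lin A H) - x' ∂_2 (lin A H)`, `∂_0 ↔ dt F`, `∂_2 ↔ derivative F`
(`ch_pderiv0`, `ch_pderiv2`). So `|G| ≤ C' (|dt F| + |derivative F|)` on `F = 0` near `(t, x)`. On the
branch: `m u ^ (m - 1) dt F + a'(u) derivative F = 0`, so `dt F / derivative F` is bounded there by
the hypothesis on `a'`, and `G / derivative F` is bounded and meromorphic in `u`, so it has a
limit. -/
def S_Ba : Prop := ∀ (H g : MvPolynomial (Fin 3) ℂ) (e κ : ℕ) (z0 : Fin 3 → ℂ)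
  (A : Matrix (Fin 3) (Fin 3) ℂ) (t x c : ℂ), H.IsHomogeneous e → g.IsHomogeneous κ →
  A.det ≠ 0 → c ≠ 0 → (fun i => ∑ j, A i j * (![t, 1, x] : Fin 3 → ℂ) j) = c • z0 →
  (∃ K : ℝ, ∀ᶠ y in 𝓝 z0, eval y H = 0 → ‖eval y g‖ ≤ K * ∑ i, ‖eval y (pderiv i H)‖) →
  ∀ (m : ℕ) (a : ℂ → ℂ), 0 < m → AnalyticAt ℂ a 0 → a 0 = x →
    (∀ᶠ u in 𝓝[≠] (0 : ℂ), ev2 (ch (lin A H)) (t + u ^ m) (a u) = 0) →
    (∀ᶠ u in 𝓝[≠] (0 : ℂ), ev2 (Polynomial.derivative (ch (lin A H))) (t + u ^ m) (a u) ≠ 0) →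
    (∃ L, Tendsto (fun u => deriv a u / u ^ (m - 1)) (𝓝[≠] 0) (𝓝 L)) →
    ∃ L, Tendsto (fun u => ev2 (ch (lin A g)) (t + u ^ m) (a u) /
      ev2 (Polynomial.derivative (ch (lin A H))) (t + u ^ m) (a u)) (𝓝[≠] 0) (𝓝 L)

/-- **Sg**: a reduced plane curve has finitely many singular points.

Paper proof: take good coordinates `A` for `H` (`bertini`, H941/SC/Bertini.lean; if `e = 0` then
`H` is a nonzero constant without zeros): `evt`-discriminant: with `Q` the monic multiple of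
`ch (lin A H)` there is `0 ≠ D0 ∈ ℂ[t]`, `C D0 = α Q + β derivative Q` (`disc'`, as in H941/SC/Core.lean).
A singular point of `lin A H = 0` is not on `x₁ = 0` (there `(lin A H)(1, 0, X)` would have a double
root, or `(0, 0, 1)` would be a zero), so it is `(t, 1, x)` up to a factor with `D0(t) = 0` and
`Q(t, x) = 0`. -/
def S_Sg : Prop := ∀ (H : MvPolynomial (Fin 3) ℂ) (e : ℕ), H.IsHomogeneous e → Squarefree H →
  ∃ s : Finset (Fin 3 → ℂ), (∀ w ∈ s, w ≠ 0 ∧ eval w H = 0) ∧ ∀ z : Fin 3 → ℂ, z ≠ 0 →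
    eval z H = 0 → (∀ i, eval z (pderiv i H) = 0) → ∃ w ∈ s, ∃ c : ℂ, z = c • w

end Pool.Agent.H942.LP
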