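import Pool.Agent.H942.LP.DefW
import Pool.Agent.H942.LP.DefM

set_option autoImplicit false
set_option linter.unusedSectionVars false
set_option linter.unusedVariables false

/-! # Lipschitz functions along a branch, and a weaker inequality: the statements -/

namespace Pool.Agent.H942.LP

open Finset Filter Topology Polynomial Pool.Agent.Helper748.TP Pool.Agent.Helper748.MC Pool.Agent.H941.TF
  Pool.Agent.H941.SC Pool.Agent.H941.NC

/-- **Mo** (monodromy): a Lipschitz function on the curve is constant up to `O(t - b)` along a branch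
which is not vertical.

Paper proof: let `v j u = ev2 A / ev2 H` at `(b + u ^ m, a j u)`; it has a limit `L j`, so it agrees for
`u ≠ 0` near `0` with an analytic function `v' j`, `v' j 0 = L j` (a quotient of analytic functions which
has a limit). Let `ζ = exp (2 π i / m)`. As `(ζ u) ^ m = u ^ m`, `a j (ζ u)` is a root of
`evt (b + u ^ m) Q = ∏ (X - C (a l u))`; for every `l` the analytic function `a j (ζ u) - a l u` vanishes
identically near `0` or has no zeros `u ≠ 0` near `0`, so there is one index `l` with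
`a j (ζ u) = a l u` for all `u ≠ 0` near `0`, and then `v j (ζ u) = v l u`. If `l = j` then
`v j (ζ u) - v j u = 0`. If `l ≠ j` then `v j (ζ u) - v j u = v l u - v j u` is bounded by
`a l u - a j u = a j (ζ u) - a j u`, which is `O (u ^ m)`, since `a j u = a j 0 + O (u ^ m)` (the
hypothesis on `deriv (a j)`). In both cases `v' j (ζ u) - v' j u = O (u ^ m)`. If the order `r` of the
analytic function `v' j - L j` at `0` was `< m`, `v' j u - L j = u ^ r g u`, `g 0 ≠ 0`, `r ≥ 1`, then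
`u ^ (-r) (v' j (ζ u) - v' j u) → (ζ ^ r - 1) g 0 ≠ 0`, a contradiction. -/
def S_Mo : Prop := ∀ (N : ℕ) (Q A H : ℂ[X][X]) (b : ℂ) (m : ℕ) (a : Fin N → ℂ → ℂ) (L : Fin N → ℂ),
  0 < m → (∀ j, AnalyticAt ℂ (a j) 0) → Par N Q (fun u => b + u ^ m) a →
  (∀ j, Tendsto (fun u => ev2 A (b + u ^ m) (a j u) / ev2 H (b + u ^ m) (a j u)) (𝓝[≠] 0)
    (𝓝 (L j))) →
  (∀ i j, i ≠ j → ∃ l, Tendsto (fun u => (ev2 A (b + u ^ m) (a i u) / ev2 H (b + u ^ m) (a i u) -
    ev2 A (b + u ^ m) (a j u) / ev2 H (b + u ^ m) (a j u)) / (a i u - a j u)) (𝓝[≠] 0) (𝓝 l)) →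
  ∀ j, (∃ l, Tendsto (fun u => deriv (a j) u / u ^ (m - 1)) (𝓝[≠] 0) (𝓝 l)) →
    ∃ l, Tendsto (fun u => (ev2 A (b + u ^ m) (a j u) / ev2 H (b + u ^ m) (a j u) - L j) / u ^ m)
      (𝓝[≠] 0) (𝓝 l)

/-- the distance of `y` to the line of `z` (up to a constant): the sum of the absolute values of the
`2 × 2` minors -/
noncomputable def crs (y z : Fin 3 → ℂ) : ℝ := ∑ i, ∑ j, ‖y i * z j - y j * z i‖

/-- **Bb**: the inequality `(dist (y, ℂ z0)) ^ 2 |g y| ≤ ε |∇ H y|` on the curve near `z0`, for all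
`ε > 0`, in the chart.

Paper proof: see `S_Ba` in DefM.lean, and its proof `t_Ba` in Ba.lean. Put
`y u = c⁻¹ • A (t + u ^ m, 1, a u) → z0`. The minors of `(y u, z0)` are `c⁻²` times those of
`(A (u ^ m, 0, a u - x), A (t, 1, x))`, and `A` is invertible, so the sum of their absolute values is at
least `κ |u ^ m|` with `κ > 0` (the minors of `(A v, A w)` are the entries of the invertible compound
matrix of `A` applied to the minors of `(v, w)`, and for `v = (τ, 0, ξ)`, `w = (t, 1, x)` one of the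
latter is `τ * 1 - 0 * t = τ`). So `|u ^ m| ^ 2 |g (y u)| ≤ κ⁻² crs ^ 2 |g| ≤ κ⁻² ε ∑ |∂_i H (y u)|`, and
as in the proof of `Ba` the sum is at most `K |∂_x F (t + u ^ m, a u)|`. -/
def S_Bb : Prop := ∀ (H g : MvPolynomial (Fin 3) ℂ) (e κ : ℕ) (z0 : Fin 3 → ℂ)
  (A : Matrix (Fin 3) (Fin 3) ℂ) (t x c : ℂ), H.IsHomogeneous e → g.IsHomogeneous κ →
  A.det ≠ 0 → c ≠ 0 → (fun i => ∑ j, A i j * (![t, 1, x] : Fin 3 → ℂ) j) = c • z0 →
  (∀ ε : ℝ, 0 < ε → ∀ᶠ y in 𝓝 z0, MvPolynomial.eval y H = 0 →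
    crs y z0 ^ 2 * ‖MvPolynomial.eval y g‖ ≤ ε * ∑ i, ‖MvPolynomial.eval y (MvPolynomial.pderiv i H)‖) →
  ∀ (m : ℕ) (a : ℂ → ℂ), 0 < m → AnalyticAt ℂ a 0 → a 0 = x →
    (∀ᶠ u in 𝓝[≠] (0 : ℂ), ev2 (ch (lin A H)) (t + u ^ m) (a u) = 0) →
    (∀ᶠ u in 𝓝[≠] (0 : ℂ), ev2 (derivative (ch (lin A H))) (t + u ^ m) (a u) ≠ 0) →
    (∃ L, Tendsto (fun u => deriv a u / u ^ (m - 1)) (𝓝[≠] 0) (𝓝 L)) →
    Tendsto (fun u => (u ^ m) ^ 2 * (ev2 (ch (lin A g)) (t + u ^ m) (a u) /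
      ev2 (derivative (ch (lin A H))) (t + u ^ m) (a u))) (𝓝[≠] 0) (𝓝 0)

end Pool.Agent.H942.LP
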