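import Pool.Agent.H942.LP.DefY
import Pool.Agent.H942.LP.DefZ

set_option autoImplicit false
set_option linter.unusedSectionVars false
set_option linter.unusedVariables false

/-! # Bounds in terms of fat points, and a residue argument: the statements -/

namespace Pool.Agent.H942.LP

open Finset Filter Topology Polynomial Pool.Agent.Helper748.TP Pool.Agent.Helper748.MC
  Pool.Agent.H941.TF Pool.Agent.H941.SC Pool.Agent.H941.NC

/-- the ideal of the point `(t, x)` -/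
noncomputable def mId (t x : ℂ) : Ideal ℂ[X][X] :=
  Ideal.span {Polynomial.C (Polynomial.X - Polynomial.C t), Polynomial.X - Polynomial.C (Polynomial.C x)}

/-- points of `F = 0` where no branch is vertical and `(t' - t) ^ (k + 2) / ∂_x F` tends to `0` along
every branch -/
def FatOk (F : ℂ[X][X]) (k : ℕ) (t x : ℂ) : Prop :=
  ∀ (m : ℕ) (a : ℂ → ℂ), 0 < m → AnalyticAt ℂ a 0 → a 0 = x →
    (∀ᶠ u in 𝓝[≠] (0 : ℂ), ev2 F (t + u ^ m) (a u) = 0) →
    (∀ᶠ u in 𝓝[≠] (0 : ℂ), ev2 (derivative F) (t + u ^ m) (a u) ≠ 0) →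
    (∃ L, Tendsto (fun u => deriv a u / u ^ (m - 1)) (𝓝[≠] 0) (𝓝 L)) ∧
    Tendsto (fun u => (u ^ m) ^ (k + 2) / ev2 (derivative F) (t + u ^ m) (a u)) (𝓝[≠] 0) (𝓝 0)

/-- **FP**: forms in the `k`-th power of the ideal of the point.

Paper proof: fourth alternative of `PtOk`. `g = ∑_{i + j = k} c_ij (T - t) ^ i (X - x) ^ j` with
polynomials `c_ij` (or `Submodule.span_induction` / `Ideal.pow_induction` ...; a convenient form: the set
of the `g` for which `ev2 g (t + u ^ m) (a u) / (u ^ m) ^ k` has a limit is an ideal which contains the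
products of `k` elements of the ideal of the point). Along the branch `T - t = u ^ m`, and
`(a u - x) / u ^ m` has a limit, as `deriv a u / u ^ (m - 1)` has one (`a u - x` is analytic, vanishes at
`0`; compare orders, see the proof of `t_Mo` in Mo.lean). So
`(u ^ m) ^ 2 * (g / ∂_x F) = ((u ^ m) ^ (k + 2) / ∂_x F) * (g / (u ^ m) ^ k) → 0 * L = 0`. -/
def S_FP : Prop := ∀ (F g : ℂ[X][X]) (k : ℕ) (t x : ℂ), FatOk F k t x → g ∈ mId t x ^ k →
  PtOk F g t x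

/-- **Bk**: the inequality `(dist (y, ℂ z0)) ^ (k + 2) ≤ ε |∇ H y|` on the curve near `z0`, for all
`ε > 0`, in the chart.

Paper proof: as `t_Bb` (Bb.lean), with `crs ^ (k + 2)` in the place of `crs ^ 2 * |g|`. -/
def S_Bk : Prop := ∀ (H : MvPolynomial (Fin 3) ℂ) (e k : ℕ) (z0 : Fin 3 → ℂ)
  (A : Matrix (Fin 3) (Fin 3) ℂ) (t x c : ℂ), H.IsHomogeneous e →
  A.det ≠ 0 → c ≠ 0 → (fun i => ∑ j, A i j * (![t, 1, x] : Fin 3 → ℂ) j) = c • z0 →
  (∀ ε : ℝ, 0 < ε → ∀ᶠ y in 𝓝 z0, MvPolynomial.eval y H = 0 →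
    crs y z0 ^ (k + 2) ≤ ε * ∑ i, ‖MvPolynomial.eval y (MvPolynomial.pderiv i H)‖) →
  ∀ (m : ℕ) (a : ℂ → ℂ), 0 < m → AnalyticAt ℂ a 0 → a 0 = x →
    (∀ᶠ u in 𝓝[≠] (0 : ℂ), ev2 (ch (lin A H)) (t + u ^ m) (a u) = 0) →
    (∀ᶠ u in 𝓝[≠] (0 : ℂ), ev2 (derivative (ch (lin A H))) (t + u ^ m) (a u) ≠ 0) →
    (∃ L, Tendsto (fun u => deriv a u / u ^ (m - 1)) (𝓝[≠] 0) (𝓝 L)) →
    Tendsto (fun u => (u ^ m) ^ (k + 2) / ev2 (derivative (ch (lin A H))) (t + u ^ m) (a u))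
      (𝓝[≠] 0) (𝓝 0)

/-- **Rg**: the trace of `g A / (H ∂_x F)` has no pole at `b` if `g A / H` is regular there. Here
`W / δ = A / H` on the curve, and the trace is `coeff (e - 1) ((g * W) %ₘ F) / δ`.

Paper proof: let `K = δ.rootMultiplicity b`. Show by induction on `K` (for all `δ ≠ 0` and all `Y`) that
`F ∣ C δ * (g * A) - H * Y` implies `(X - C b) ^ K ∣ coeff (e - 1) (Y %ₘ F)` (then take `Y = g * W`). If
`K ≥ 1` then `δ.eval b = 0` and `S_St2'` gives `evt b F ∣ evt b Y`, so (monic, degrees)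
`evt b (Y %ₘ F) = 0`, `Y %ₘ F = C (X - C b) * Y'`, `δ = (X - C b) * δ'`, and
`F ∣ C (X - C b) * (C δ' * (g * A) - H * Y')` implies `F ∣ C δ' * (g * A) - H * Y'` as `F` is monic
(see the proof of `t_St1` in Sa.lean); `Y' %ₘ F = Y'` has degree `< e`, and
`coeff (e - 1) (Y %ₘ F) = (X - C b) * coeff (e - 1) Y'`. -/
def S_Rg : Prop := ∀ (N e : ℕ) (Q F A H g W : ℂ[X][X]) (δ D0 : ℂ[X]) (b : ℂ), Q.Monic →
  Q.natDegree = N → F.Monic → F.natDegree = e → F ∣ Q → D0 ≠ 0 →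
  (∀ t, D0.eval t ≠ 0 → (evt t Q).Separable ∧ ∀ x, ev2 Q t x = 0 → ev2 H t x ≠ 0) →
  LipAt N Q A H b → (∀ x, ev2 F b x = 0 → PtOk F g b x ∨
    ∃ c W0, ev2 c b x ≠ 0 ∧ F ∣ c * A - H * W0) →
  δ ≠ 0 → F ∣ C δ * A - H * W →
  (X - C b) ^ (δ.rootMultiplicity b) ∣ ((g * W) %ₘ F).coeff (e - 1)

/-- **Al**: the residue argument (the sum of the residues of the rational function
`coeff (e - 1) ((g * W) %ₘ F) / δ` is zero).

Paper proof. Let `λ(P) = coeff (e - 1) (P %ₘ F)`; it is `ℂ[t]`-linear. (i) If `TD D P` then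
`TD D (P %ₘ F)`, as `TD e F` and `F` is monic of degree `e` in `x` (division step by step); so
`coeff j (λ P) = 0` for `j > D - (e - 1)`. (ii) So for `TD (e - 6) g`: `TD (e - 3 + deg δ) (g * W)` and
`coeff j (λ (g W)) = 0` for `j + 2 > deg δ`. (iii) Let `K ≥ 1` be the multiplicity of `b`, `δ'` the product
of the `(X - b') ^ mult` over the other roots `b'`; `δ' ∣ λ(g W)` (pairwise coprime),
`deg δ' = deg δ - K`; `λ(g W) = δ' q`, `q = 0` or `deg q ≤ K - 2`. (iv) Apply the hypothesis to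
`u = C (X - C b) ^ (K - 1) * u0`: `λ(u W) = (X - b) ^ (K - 1) λ(u0 W)`, and `(X - b) ^ K` divides
`λ((g - u) W) = λ(g W) - λ(u W)`. Hence `(X - b) ^ (K - 1) ∣ δ' q`, `δ'(b) ≠ 0`,
`(X - b) ^ (K - 1) ∣ q`, and `q = 0` by the degree. So `λ(g W) = 0` and `(X - b) ∣ λ(u0 W)` for all `u0`.
(v) If `R = evt b W %ₘ evt b F ≠ 0` has the degree `j ≤ e - 1`, take `u0 = X ^ (e - 1 - j)`:
`λ(u0 W)(b)` is the coefficient `e - 1` of `(X ^ (e - 1 - j) * evt b W) %ₘ evt b F = X ^ (e - 1 - j) * R`,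
which is the leading coefficient of `R`, a contradiction. (`evt b` commutes with `%ₘ`:
`Polynomial.map_modByMonic`.) -/
def S_Al : Prop := ∀ (F W : ℂ[X][X]) (δ : ℂ[X]) (b : ℂ) (e : ℕ), F.Monic → F.natDegree = e →
  1 ≤ e → TD (e : ℤ) F → δ ≠ 0 → TD (3 + δ.natDegree : ℤ) W →
  (∀ u : ℂ[X][X], ∃ g, TD ((e : ℤ) - 6) g ∧
    (∀ b', b' ≠ b → (X - C b') ^ (δ.rootMultiplicity b') ∣ ((g * W) %ₘ F).coeff (e - 1)) ∧
    (X - C b) ^ (δ.rootMultiplicity b) ∣ (((g - u) * W) %ₘ F).coeff (e - 1)) →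
  δ.eval b = 0 → evt b F ∣ evt b W

/-- **In**: interpolation in fat points.

Paper proof. If all `k p` are `0` take `g = 0` (the ideals are `⊤`). For `p ∈ s` let
`L_p = ∏_{q ∈ s, q ≠ p} l_q ^ (k q)` where `l_q` is `C (X - C q.1)` or `X - C (C q.2)` (a polynomial of
total degree `1` which vanishes at `q` but not at `p`; `q ≠ p` differ in one coordinate); so
`L_p ∈ mId q ^ k q` for `q ≠ p` and `L_p (p) ≠ 0`. For `p` with `p.1 = b` there is a polynomial `c_p` of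
total degree `≤ k p - 1` with `c_p * L_p - u ∈ mId p ^ k p`: (`L_p` is a unit modulo `mId p ^ k p`:
`L_p = v - n` with a constant `v ≠ 0`, `n ∈ mId p`, so `L_p * (v ^ (k-1) + v ^ (k-2) n + ⋯ + n ^ (k-1)) =
v ^ k - n ^ k`), and each polynomial is modulo `mId p ^ k p` a polynomial in `T - p.1`, `X - p.2` of total
degree `≤ k p - 1` (Taylor expansion; induction). `g = ∑_{p.1 = b} c_p * L_p` (if `k p = 0` take
`c_p = 0`); its total degree is at most `k p - 1 + ∑_{q ≠ p} k q`. -/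
def S_In : Prop := ∀ (s : Finset (ℂ × ℂ)) (k : ℂ × ℂ → ℕ) (u : ℂ[X][X]) (b : ℂ),
  ∃ g : ℂ[X][X], TD (((∑ p ∈ s, k p : ℕ) : ℤ) - 1) g ∧
    (∀ p ∈ s, p.1 = b → g - u ∈ mId p.1 p.2 ^ k p) ∧
    ∀ p ∈ s, p.1 ≠ b → g ∈ mId p.1 p.2 ^ k p

end Pool.Agent.H942.LP
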