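import Mathlib

set_option autoImplicit false
set_option linter.unusedSectionVars false
set_option linter.unusedVariables false

/-! # The Lipschitz lemma: the statement -/

namespace Pool.Agent.H942.LP

open Finset Filter Topology

/-- **La**: the algebraic part of the proof of **L** below (the last paragraph): choose
`j, k ∈ B` with `g j k ≠ 0` and `κ j k` maximal, and compare the sums term by term. -/
def S_La : Prop := ∀ (N : ℕ) (B : Finset (Fin N)) (κ : Fin N → Fin N → ℕ) (n : Fin N → ℕ)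
  (g : Fin N → Fin N → ℂ) (ρ : ℤ) (s : ℝ), Irrational s → (∀ j, 1 ≤ n j) →
  (∀ i j, κ i j = κ j i) →
  (∀ i j k, i ≠ j → j ≠ k → i ≠ k → min (κ i j) (κ j k) ≤ κ i k) →
  (∀ j ∈ B, ∀ k ∈ B, j ≠ k → ρ < κ j k) →
  (∀ i ∉ B, ∀ j ∈ B, ∀ k ∈ B, κ j i = κ k i) →
  (∀ i j k, i ∈ B → j ∈ B → k ∈ B → g i j + g j k = g i k) →
  (∀ j ∈ B, ∀ k ∈ B, j ≠ k → (ρ : ℂ) * g j k + (s : ℂ) * (∑ i ∈ B.erase j, n i * κ j i * g j i -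
    ∑ i ∈ B.erase k, n i * κ k i * g k i + ∑ i ∈ Bᶜ, n i * κ j i * g j k) = 0) →
  ∀ j ∈ B, ∀ k ∈ B, g j k = 0

/-- **L** (the Lipschitz lemma).

Paper proof. Let `κ_ij ∈ ℕ` be the order of vanishing at `0` of `a_i - a_j` (`i ≠ j`; finite by
`hinj`), `κ_ii = ∞`; `κ_ij ≥ min (κ_ik, κ_kj)`, with equality if `κ_ik ≠ κ_kj`. Let
`η_ij ∈ ℤ ∪ {∞}` be the order of `y_i - y_j` (`meromorphicOrderAt`). The claim is
`η_ij ≥ κ_ij` for `i ≠ j`. Call a pair `i ≠ j` bad if `η_ij < κ_ij`. If there is a bad pair take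
one, `(i0, j0)`, with minimal `ρ = η_{i0 j0}`, and `B = {j : κ_{i0 j} > ρ} ∋ i0, j0`. For
`j, k ∈ B`, `κ_jk > ρ`, and `η_jk ≥ ρ` (bad pairs: minimality; other pairs: `η ≥ κ > ρ`); let
`c_jk` be the coefficient of `u^ρ` of `y_j - y_k`, i.e. the limit of `u^(-ρ) (y_j - y_k)`;
`c_jk = c_ji + c_ik`, `c_{i0 j0} ≠ 0`. For `i ∉ B`, `j ∈ B`: `κ_ij = κ_{i0 i} ≤ ρ` and `(i, j)` is
not bad (else `ρ ≤ η_ij < κ_ij ≤ ρ`), so `η_ij ≥ κ_ij`.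
Take `j, k ∈ B`, subtract the equations of `j` and `k`, multiply by `u^(1-ρ)` and let `u → 0`,
with `λ_ji = (a_j - a_i)' / (a_j - a_i)`, `u λ_ji → κ_ji`:
`u^(1-ρ) (y_j - y_k)' → ρ c_jk`; the terms with `i ∈ B` tend to `s n_i c_ji κ_ji`, resp.
`- s n_i c_ki κ_ki`; for `i ∉ B`,
`(y_j - y_i) λ_ji - (y_k - y_i) λ_ki = (y_j - y_k) λ_ji + (y_k - y_i) (λ_ji - λ_ki)`, the first
part gives `c_jk κ_ji = c_jk κ_{i0 i}`, and `λ_ji - λ_ki` is the logarithmic derivative of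
`(a_j - a_i) / (a_k - a_i) = 1 + (a_j - a_k) / (a_k - a_i) = 1 + O(u^(κ_jk - κ_ki))`
(`κ_jk > ρ ≥ κ_ki`), so it is `O(u^(κ_jk - κ_ki - 1))`, and the second part is
`u^(1-ρ) O(u^(κ_ki)) O(u^(κ_jk - κ_ki - 1)) = O(u^(κ_jk - ρ)) → 0`; the right side is
`u^(-ρ) (a_j - a_k) * (u (R_j - R_k) / (a_j - a_k)) → 0` as `κ_jk > ρ`. Hence
`ρ c_jk + s (∑_{i ∈ B, i ≠ j} n_i c_ji κ_ji - ∑_{i ∈ B, i ≠ k} n_i c_ki κ_ki +
∑_{i ∉ B} n_i κ_{i0 i} c_jk) = 0`.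
Choose `j, k ∈ B` with `c_jk ≠ 0` and `κ = κ_jk` maximal (`κ > ρ`, and `κ ≥ 1` if `ρ ≥ 0`). For
`i ∈ B`, `i ≠ j, k`: if `κ_ij > κ` then `c_ij = 0`, `κ_ik = κ`, `c_ji κ_ji - c_ki κ_ki = c_jk κ`;
the same if `κ_ik > κ`; otherwise `κ_ij = κ_ik =: κ_i` and `c_ji κ_ji - c_ki κ_ki = κ_i c_jk`.
The terms `i = k` and `i = j` give `(n_k + n_j) κ c_jk`. So `(ρ + s n) c_jk = 0` with `n ∈ ℕ`,
hence `ρ + s n = 0`; as `s` is irrational `n = 0` and `ρ = 0`; but then `κ ≥ 1` and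
`n ≥ (n_j + n_k) κ > 0`, a contradiction. -/
def S_L : Prop := ∀ (N : ℕ) (a y R : Fin N → ℂ → ℂ) (n : Fin N → ℕ) (s : ℝ), Irrational s →
  (∀ j, 1 ≤ n j) → (∀ j, AnalyticAt ℂ (a j) 0) →
  (∀ᶠ u in 𝓝[≠] (0 : ℂ), Function.Injective fun j => a j u) →
  (∀ j, MeromorphicAt (y j) 0) →
  (∀ i j, i ≠ j → ∃ L, Tendsto (fun u => u * (R i u - R j u) / (a i u - a j u)) (𝓝[≠] 0) (𝓝 L)) →
  (∀ j, ∀ᶠ u in 𝓝[≠] (0 : ℂ), deriv (y j) u + ∑ i ∈ univ.erase j, (s : ℂ) * n i *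
    (y j u - y i u) * ((deriv (a j) u - deriv (a i) u) / (a j u - a i u)) = R j u) →
  ∀ i j, i ≠ j → ∃ L, Tendsto (fun u => (y i u - y j u) / (a i u - a j u)) (𝓝[≠] 0) (𝓝 L)

end Pool.Agent.H942.LP
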