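import Pool.Agent.H941.NC.Bert

set_option autoImplicit false
set_option linter.unusedSectionVars false
set_option linter.unusedVariables false

/-! # Good coordinates: the statements -/

namespace Pool.Agent.H942.LP

open MvPolynomial Pool.Agent.Helper748.MC Pool.Agent.H941.SC Pool.Agent.H941.NC

/-- **P**: two plane curves without a common component have finitely many common points.

Paper proof: e.g. take the coordinates of `bertini'` / `bertini` (H941/SC/Bertini.lean) for
`S = H * G` (degree `e + n`; if `e + n = 0` then `H`, `G` are nonzero constants and there is no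
common zero): `A` with `det A ≠ 0` such that `(lin A S)(1, 0, X)` is separable of degree `e + n`.
So `S' = lin A S = H' G'` does not vanish at `(0,0,1)`. Let `z ≠ 0` be a common zero of `H'`, `G'`.
If `z 1 = 0` then `z 0 ≠ 0` and `z 2 / z 0` is a double root of `S'(1, 0, X)`, a contradiction. So
`z = z 1 • (t, 1, x)`. The polynomials `H'(T, 1, X)`, `G'(T, 1, X) ∈ ℂ[T][X]` are (up to
constants) monic in `X`, and their resultant `R(T)` is not zero (it is enough that some
combination `α H' + β G'` is a nonzero polynomial `R(T)`; this holds since `H G` is squarefree, so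
`H', G'` have no common factor; Gauss, as in `squarefree_frac`, `res_frac`). Hence `R(t) = 0`: there
are finitely many `t`, and for each `t` finitely many roots `x` of the nonzero polynomial
`S'(t, 1, X)`. Any other proof is fine. -/
def S_P : Prop := ∀ (e n : ℕ) (H G : MvPolynomial (Fin 3) ℂ), H.IsHomogeneous e →
  G.IsHomogeneous n → Squarefree (H * G) →
  ∃ s : Finset (Fin 3 → ℂ), (∀ w ∈ s, w ≠ 0 ∧ eval w H = 0 ∧ eval w G = 0) ∧
    ∀ z : Fin 3 → ℂ, z ≠ 0 → eval z H = 0 → eval z G = 0 → ∃ w ∈ s, ∃ c : ℂ, z = c • w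

/-- **B**: Good coordinates for a reduced curve and finitely many points on it, such that the
projection center avoids an arbitrary curve `L = 0`.

Paper proof: this is `Pool.Agent.H941.NC.bertini'` (H941/NC/Bert.lean) with the additional
polynomial `L`: in its proof the point `q` is chosen with `S(q) q_0 L'(q) ≠ 0`; multiply by `L`.
The third column of the matrix `A * !![0, 0, 1; x 0, 0, 0; x 1, 1, 0]` is the first column of
`A = !![q 0, 0, 0; q 1, 1, 0; q 2, 0, 1]`, which is `q`. Copy the proof. -/
def S_B : Prop := ∀ (N : ℕ) (S L : MvPolynomial (Fin 3) ℂ), S.IsHomogeneous N → 0 < N →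
  Squarefree S → L ≠ 0 → ∀ (ι : Type) [Fintype ι] (P : ι → Fin 3 → ℂ), (∀ i, P i ≠ 0) →
  (∀ i, eval (P i) S = 0) →
  ∃ (A : Matrix (Fin 3) (Fin 3) ℂ) (P' : ι → Fin 3 → ℂ), A.det ≠ 0 ∧
    (aeval ![(1 : Polynomial ℂ), 0, Polynomial.X] (lin A S)).Separable ∧
    (aeval ![(1 : Polynomial ℂ), 0, Polynomial.X] (lin A S)).natDegree = N ∧
    eval (fun i => A i 2) L ≠ 0 ∧
    (∀ i, (fun k => ∑ j, A k j * P' i j) = P i) ∧ (∀ i, P' i 1 ≠ 0) ∧
    ∀ i j, (∀ c : ℂ, P i ≠ c • P j) → P' i 0 / P' i 1 ≠ P' j 0 / P' j 1

end Pool.Agent.H942.LP
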