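import Pool.Agent.H941.TF.Stage
import Pool.Agent.H942.LP.DefK

set_option autoImplicit false
set_option linter.unusedSectionVars false
set_option linter.unusedVariables false

/-! # Uniform reduction to simple poles: the statement -/

namespace Pool.Agent.H942.LP

open Polynomial Finset Pool.Agent.Helper748.TP Pool.Agent.H941.TF

/-- The curve `Q = 0` (`Q` monic in `x`, squarefree) and a polynomial `γ` with the same zeros;
`hx / Q` and `ht / Q` are the logarithmic derivatives of `γ`. -/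
structure Cur (N : ℕ) (Q γ hx ht : ℂ[X][X]) (D0 : ℂ[X]) (M : ℕ) : Prop where
  monic : Q.Monic
  deg : Q.natDegree = N
  pos : 1 ≤ N
  γ0 : γ ≠ 0
  dvd : Q ∣ γ
  dvd' : γ ∣ Q ^ M
  hxE : derivative γ * Q = γ * hx
  htE : dt γ * Q = γ * ht
  hxd : hx.natDegree ≤ N - 1
  htd : ht.natDegree ≤ N - 1
  D00 : D0 ≠ 0
  disc : ∃ α β : ℂ[X][X], C D0 = α * Q + β * derivative Q

/-- A primitive `(p / (d Q), r / (d Q))` of `U`: with `h = c hx`, `l = c ht` and
`∇_t = ∂_t + l / Q`, `∇_x = ∂_x + h / Q` the equation is `∇_t (P / Q) + ∇_x (R / Q) = U`,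
`P = p / d`, `R = r / d`. The polynomial parts of `P / Q`, `R / Q` are `W`, `V`. -/
structure Fm (N : ℕ) (Q hx ht : ℂ[X][X]) (d : ℂ[X]) (c : ℂ) (U p r W V : ℂ[X][X]) : Prop where
  eq : C d ^ 2 * U * Q ^ 2 = Q * (C d * dt p - C (derivative d) * p) +
    C d * (kc c * ht - dt Q) * p + C d * (Q * derivative r) + C d * (kc c * hx - derivative Q) * r
  pd : (p - C d * W * Q).degree < (N : WithBot ℕ)
  rd : (r - C d * V * Q).degree < (N : WithBot ℕ)

/-- the constants of `ℂ(t)[x]` -/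
noncomputable def kK : ℂ →+* Kt[X] := (C : Kt →+* Kt[X]).comp (io.comp (C : ℂ →+* ℂ[X]))

/-- **Ra**: step (2) of the proof of **R** below, with `M' = natDegree γ` and the product over
`b = 1, …, M'` written with `b + 1`, `b < M'`. -/
def S_Ra : Prop := ∀ (N : ℕ) (Q γ hx ht : ℂ[X][X]) (D0 : ℂ[X]) (M : ℕ), Cur N Q γ hx ht D0 M →
  ∀ m : ℕ, ∃ β : ℂ → Kt[X], PF kK β ∧ ∀ c : ℂ, Q.map io ∣
    β c * ((kc c * hx).map io - (m : Kt[X]) * derivative (Q.map io)) -
      kK (∏ b ∈ Finset.range γ.natDegree, (c * ((b : ℂ) + 1) - m))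

/-- **R** (uniform reduction to simple poles).

Paper proof. All over `Kt[X]`, `Kt = ℂ(t)` (files H941/TF/Der, Red, Stage: `io`, `D`, `dk`, `Cl`,
`gx`, `gt`, `Cl.gauge`, `Cl.step`, `to_Cl`, `integ_map`, `clear`, `PP`); write `Q, hx, ht` for
`Q.map io` etc. and `h_c = kc c * hx`, `l_c = kc c * ht`. Define, for fixed `c`,
`ClU U Q h l n P R : U * Q^(n+1) = Q * dk P + (l - n * dk Q) * P + Q * derivative R +
(h - n * derivative Q) * R`.
(1) As in `to_Cl` (case `m0 = 0`; `V` with `γ V = Q^M`) the hypothesis gives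
`ClU (U c) Q h_c l_c (M K + 1) (A c * (V^K * Q)) (B c * (V^K * Q))`.
(2) As `disc` makes `derivative Q` invertible mod `Q` over `Kt`, take `ι` with
`ι * derivative Q ≡ 1 mod Q`, `ε = ι * hx`. There is `M' ≥ 1` (`M' = M`, or `natDegree γ`) with
`Q ∣ ∏_{b=1}^{M'} (hx - b * derivative Q)` (over `Kt`, or an algebraic closure: for a root `a` of
the squarefree `Q`, `hx(a) = n Q'(a)` with `n` the multiplicity of `a` in `γ`,
`1 ≤ n ≤ M'`; see `mult_val`, `at_pt`, `cop_field`), so `Q ∣ ∏_b (b - ε)`. For `m ∈ ℕ` put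
`δ_m(c) = ∏_{b=1}^{M'} (c b - m) ∈ ℂ`. In `Kt[X]`: with the polynomial
`Π_c(w) = ∏_b (c b - w)` one has `(m - c ε) ∣ Π_c(m) - Π_c(c ε)`, the quotient is polynomial in
`c` (apply `sub_dvd_eval_sub` in the ring `Kt[X][c]` to get a quotient which is a polynomial in
`c`), and `Π_c(c ε) = c^M' ∏ (b - ε) ≡ 0`, and `h_c - m Q' ≡ Q' (c ε - m) mod Q`. So there is a
polynomial family `β_m` (PF over `Kt[X]`) with
`Q ∣ β_m(c) * (h_c - m * derivative Q) - δ_m(c)` for all `c`.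
(3) Step from `n = m + 1` to `n = m`, `m ≥ 1`, at a fixed real `c < 0` (so all `δ_m(c) ≠ 0` and
`h_c - m' Q'` is prime to `Q` for all `m'`, by (2)): `Z = (β_m(c) * P) %ₘ Q`,
`P' = (δ_m(c) P - gx Q h_c m Z) /ₘ Q`, `R' = (δ_m(c) R + gt Q l_c 0 m Z) /ₘ Q`. The divisions are
exact (proof of `Cl.step`: `δ P - gx Z ≡ δ P - (h - m Q') β P ≡ 0`; then from the equation
`(h - (m+1) Q') (δ R + gt Z) ≡ 0`), and `ClU (δ_m(c) U) Q h l m P' R'` (as in `Cl.gauge`,
`Cl.step`; `gauge` does not involve `U`). The formulas for `P'`, `R'` are polynomial families in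
`c` if `P, R` are (`%ₘ Q`, `/ₘ Q`, `dk`, `derivative` are additive and commute with
multiplication by constants of `ℂ`). The polynomial parts: if `P = w Q^(m+1) + (degree <
(m+1) N)` then `P' = δ w Q^m + (degree < m N)`, the same for `R` (as in `Cl.step`, `PP`). Also
`natDegree P ≤ (m+1) N + 1 → natDegree P' ≤ m N + 1` and `natDegree R ≤ (m+1) N + 2 →
natDegree R' ≤ m N + 2` (`gx Z`, `gt Z` have degree `≤ 2 N - 1`).
(4) After `M K` steps `n = 1`; `Δ(c) = ∏_{m=1}^{M K} δ_m(c)`, `P(c), R(c)` polynomial families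
over `Kt[X]`, polynomial parts `W(c), V(c) ∈ ℂ[t][x]` (start with
`(A c * (V^K * Q)) /ₘ Q^(M K + 1)`, multiply by `Δ(c)`). Clear the denominators of the finitely
many coefficients (in `c`) of `P(c)`, `R(c)` by one `d ∈ ℂ[t]`: `p(c) = d P(c)`, `r(c) = d R(c)`.
The equation becomes `Fm.eq` after multiplication by `d^2` (see the end of `stage2`). -/
def S_R : Prop := ∀ (N : ℕ) (Q γ hx ht : ℂ[X][X]) (D0 : ℂ[X]) (M : ℕ), Cur N Q γ hx ht D0 M →
  ∀ (K δ : ℕ) (A B U : ℂ → ℂ[X][X]), PF kh A → PF kh B → γ.natDegree = δ →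
  (∀ c : ℂ, U c * γ ^ (K + 1) = γ * (dt (A c) + derivative (B c)) +
    kc (c - K) * (dt γ * A c + derivative γ * B c)) →
  ∃ (d : ℂ[X]) (Δ : ℂ → ℂ) (p r W V : ℂ → ℂ[X][X]), d ≠ 0 ∧ PF kh p ∧
    ∀ s : ℝ, s < 0 → Δ s ≠ 0 ∧
      Fm N Q hx ht d s (kc (Δ s) * U s) (p s) (r s) (W s) (V s) ∧
      ((A s).natDegree ≤ δ * K + 1 → (p s).natDegree ≤ N + 1) ∧
      ((B s).natDegree ≤ δ * K + 2 → (r s).natDegree ≤ N + 2)

end Pool.Agent.H942.LP
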