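import Pool.Agent.H940.P.Top
import Pool.Agent.H940.P.Padic
import Pool.Agent.H941.QH.Sing

set_option autoImplicit false

/-! # Statements: the topological and p-adic zeta functions of a ternary form with the root `-3/d` -/

namespace Pool.Agent.H942.LP

open MvPolynomial Pool.Agent.H940.P
open Pool.Agent.Y229 (SF)
open Pool.Agent.H628R4.TP (IsBFunction)

/-- from the `b`-functions to the strong form at the origin -/
def S_SF0 : Prop := ∀ (f : MvPolynomial (Fin 3) ℂ) (d : ℕ), 1 ≤ d → f ≠ 0 → f.IsHomogeneous d →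
  (∀ b : Polynomial ℂ, IsBFunction f b → b.eval (-3 / (d : ℂ)) = 0) →
  SF (fun _ : Fin 1 => f) 0 (-((2 + 1 : ℕ) : ℂ) / d)

/-- the topological zeta functions -/
def S_TW : Prop := ∀ (f : MvPolynomial (Fin 3) ℂ) (d : ℕ), 1 ≤ d → f ≠ 0 → f.IsHomogeneous d →
  SF (fun _ : Fin 1 => f) 0 (-((2 + 1 : ℕ) : ℂ) / d) → MA f ∧ MAL f

/-- the `p`-adic zeta functions -/
def S_PW : Prop := ∀ (p : ℕ) [Fact p.Prime] (f : MvPolynomial (Fin 3) ℚ) (d : ℕ), 1 ≤ d → f ≠ 0 →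
  f.IsHomogeneous d → SF (fun _ : Fin 1 => map (algebraMap ℚ ℂ) f) 0 (-((2 + 1 : ℕ) : ℂ) / d) →
  Pool.Agent.T6.H26.ZR p false (Pool.Agent.Y230.PS.hyp f)

end Pool.Agent.H942.LP
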