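import Mathlib

set_option autoImplicit false
set_option linter.unusedSectionVars false
set_option linter.unusedVariables false

/-! # Clusters of roots: the statements -/

namespace Pool.Agent.H942.LP

open Finset Filter Topology Polynomial

/-- **V**: let the polynomials `G u` (of bounded degree) converge to `G0` (coefficientwise), let
`a j u`, `j ∈ s`, be different points which converge to `x0`, and let the interpolation polynomials
of `G u` at the points `a j u` converge to `0`. Then `G0` is divisible by `(X - x0) ^ #s`.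

Paper proof: `E u = G u - interpolate …` has degree at most `max D #s`, converges to `G0`, and
vanishes at the points `a j u`, `j ∈ s`. By induction on `s`: if polynomials `E u` of bounded degree
converge to `E0` and vanish at the different points `a j u → x0`, then `(X - x0) ^ #s ∣ E0`. For one
point `α = a j u`: `E u = (X - C α) * B u`, where the coefficient of `X ^ k` in `B u` is
`∑_{i > k} (E u)_i α ^ (i - k - 1)`, so `B u` converges (to `B0` with `E0 = (X - x0) B0`), has bounded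
degree, and vanishes at the other points. -/
def S_V : Prop := ∀ (ι : Type) [DecidableEq ι] (s : Finset ι) (a : ι → ℂ → ℂ) (G : ℂ → ℂ[X])
  (G0 : ℂ[X]) (x0 : ℂ) (f : Filter ℂ) [f.NeBot] (D : ℕ),
  (∀ᶠ u in f, (G u).natDegree ≤ D) → (∀ i, Tendsto (fun u => (G u).coeff i) f (𝓝 (G0.coeff i))) →
  (∀ j ∈ s, Tendsto (a j) f (𝓝 x0)) → (∀ᶠ u in f, Set.InjOn (fun j => a j u) s) →
  (∀ i, Tendsto (fun u => (Lagrange.interpolate s (fun j => a j u)
    (fun j => (G u).eval (a j u))).coeff i) f (𝓝 0)) →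
  (X - C x0) ^ #s ∣ G0

/-- **V2**: the hypothesis of `V` holds if `G u (a_j) / ∏_{l ≠ j} (a_j - a_l) → 0` for all `j`. -/
def S_V2 : Prop := ∀ (ι : Type) [DecidableEq ι] (s : Finset ι) (a : ι → ℂ → ℂ) (G : ℂ → ℂ[X])
  (G0 : ℂ[X]) (x0 : ℂ) (f : Filter ℂ) [f.NeBot] (D : ℕ),
  (∀ᶠ u in f, (G u).natDegree ≤ D) → (∀ i, Tendsto (fun u => (G u).coeff i) f (𝓝 (G0.coeff i))) →
  (∀ j ∈ s, Tendsto (a j) f (𝓝 x0)) → (∀ᶠ u in f, Set.InjOn (fun j => a j u) s) →
  (∀ j ∈ s, Tendsto (fun u => (G u).eval (a j u) / ∏ l ∈ s.erase j, (a j u - a l u)) f (𝓝 0)) →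
  (X - C x0) ^ #s ∣ G0

/-- **V3**: two points. -/
def S_V3 : Prop := ∀ (a b : ℂ → ℂ) (G : ℂ → ℂ[X]) (G0 : ℂ[X]) (x0 : ℂ) (f : Filter ℂ) [f.NeBot]
  (D : ℕ), (∀ᶠ u in f, (G u).natDegree ≤ D) →
  (∀ i, Tendsto (fun u => (G u).coeff i) f (𝓝 (G0.coeff i))) →
  Tendsto a f (𝓝 x0) → Tendsto b f (𝓝 x0) → (∀ᶠ u in f, a u ≠ b u) →
  Tendsto (fun u => (G u).eval (a u)) f (𝓝 0) →
  Tendsto (fun u => ((G u).eval (a u) - (G u).eval (b u)) / (a u - b u)) f (𝓝 0) →
  (X - C x0) ^ 2 ∣ G0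

end Pool.Agent.H942.LP
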