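import Pool.Agent.H941.NC.Step
import Pool.Agent.H942.LP.DefV

set_option autoImplicit false
set_option linter.unusedSectionVars false
set_option linter.unusedVariables false

/-! # Lipschitz functions on a curve are polynomials: the statements -/

namespace Pool.Agent.H942.LP

open Finset Filter Topology Polynomial Pool.Agent.Helper748.TP Pool.Agent.H941.TF
  Pool.Agent.H941.SC Pool.Agent.H941.NC

/-- **NV**: a branch of a curve through a point `(t, x)` of multiplicity `k` whose tangent cone does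
not contain the vertical line is not vertical.

Paper proof: `F = ∑_{i + j = k} c_ij (T - t) ^ i (X - x) ^ j` with polynomials `c_ij`, and
`derivative^[k] F (t, x) = k! c_0k (t, x)`. Let `τ = u ^ m` and `ξ = a u - x`, an analytic function
with `ξ 0 = 0`. If `ξ = 0` near `0` then `deriv a = 0`. Otherwise let `r ≥ 1` be the order of `ξ`; if
`r < m`, then `τ / ξ → 0`, and `0 = F (t + τ, x + ξ) / ξ ^ k → c_0k (t, x) ≠ 0`, a contradiction. So
`r ≥ m`, the order of `deriv a` is `r - 1 ≥ m - 1`, and `deriv a u / u ^ (m - 1)` has a limit. -/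
def S_NV : Prop := ∀ (F : ℂ[X][X]) (t x : ℂ) (k : ℕ),
  F ∈ (Ideal.span {C (X - C t), X - C (C x)} : Ideal ℂ[X][X]) ^ k →
  ev2 (derivative^[k] F) t x ≠ 0 → ∀ (m : ℕ) (a : ℂ → ℂ), 0 < m → AnalyticAt ℂ a 0 → a 0 = x →
  (∀ᶠ u in 𝓝[≠] (0 : ℂ), ev2 F (t + u ^ m) (a u) = 0) →
  ∃ L, Tendsto (fun u => deriv a u / u ^ (m - 1)) (𝓝[≠] 0) (𝓝 L)

/-- **SmV**: a point `(b, x0)` of `F = 0` with `∂_t F ≠ 0`.

Paper proof: `F(t, x) = F(b, x) + (t - b) F_1(t, x)` (`F_1 ∈ ℂ[t][x]`, `F_1(b, x0) = ∂_t F (b, x0)`),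
`F(b, x) = (x - x0) ^ k E(x)`, `E(x0) ≠ 0`, `k` the root multiplicity. Along the branch
`(a - x0) ^ k E(a) = - u ^ m F_1(b + u ^ m, a)`, so `a u ≠ x0` and `u ^ m / (a - x0) ^ k` has a limit. In
the same way `W(b, a) = W(b + u ^ m, a) - u ^ m W_1(b + u ^ m, a)`, so `W(b, a) / u ^ m` and hence
`W(b, a) / (a - x0) ^ k` have limits. If the order `r` of `W(b, ·)` at `x0` was `< k` then
`W(b, a) / (a - x0) ^ r` would have a nonzero limit, but it is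
`(a - x0) ^ (k - r) W(b, a) / (a - x0) ^ k → 0`. -/
def S_SmV : Prop := ∀ (F W : ℂ[X][X]) (b x0 : ℂ) (m : ℕ) (a : ℂ → ℂ), 0 < m → F.Monic →
  Tendsto a (𝓝[≠] 0) (𝓝 x0) → (∀ᶠ u in 𝓝[≠] (0 : ℂ), ev2 F (b + u ^ m) (a u) = 0) →
  ev2 (dt F) b x0 ≠ 0 →
  (∃ L, Tendsto (fun u => ev2 W (b + u ^ m) (a u) / u ^ m) (𝓝[≠] 0) (𝓝 L)) →
  (X - C x0) ^ (evt b F).rootMultiplicity x0 ∣ evt b W

/-- the local conditions: the fraction `A / H` on the curve `Q = 0` is bounded and Lipschitz near the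
fibre over `b` -/
def LipAt (N : ℕ) (Q A H : ℂ[X][X]) (b : ℂ) : Prop :=
  ∃ (m : ℕ) (a : Fin N → ℂ → ℂ) (L : Fin N → ℂ), 0 < m ∧ (∀ j, AnalyticAt ℂ (a j) 0) ∧
    Par N Q (fun u => b + u ^ m) a ∧
    (∀ j, Tendsto (fun u => ev2 A (b + u ^ m) (a j u) / ev2 H (b + u ^ m) (a j u)) (𝓝[≠] 0)
      (𝓝 (L j))) ∧
    ∀ i j, i ≠ j → ∃ l, Tendsto (fun u => (ev2 A (b + u ^ m) (a i u) / ev2 H (b + u ^ m) (a i u) -
      ev2 A (b + u ^ m) (a j u) / ev2 H (b + u ^ m) (a j u)) / (a i u - a j u)) (𝓝[≠] 0) (𝓝 l)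

/-- the points of the curve `F = 0`: smooth points, double points with a non-vertical tangent cone,
points where no branch is vertical and `(t' - t) ^ 2 g / ∂_x F` tends to `0` along every branch -/
def PtOk (F g : ℂ[X][X]) (t x : ℂ) : Prop :=
  ev2 (dt F) t x ≠ 0 ∨ ev2 (derivative F) t x ≠ 0 ∨ ev2 (derivative (derivative F)) t x ≠ 0 ∨
  ∀ (m : ℕ) (a : ℂ → ℂ), 0 < m → AnalyticAt ℂ a 0 → a 0 = x →
    (∀ᶠ u in 𝓝[≠] (0 : ℂ), ev2 F (t + u ^ m) (a u) = 0) →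
    (∀ᶠ u in 𝓝[≠] (0 : ℂ), ev2 (derivative F) (t + u ^ m) (a u) ≠ 0) →
    (∃ L, Tendsto (fun u => deriv a u / u ^ (m - 1)) (𝓝[≠] 0) (𝓝 L)) ∧
    Tendsto (fun u => (u ^ m) ^ 2 * (ev2 g (t + u ^ m) (a u) /
      ev2 (derivative F) (t + u ^ m) (a u))) (𝓝[≠] 0) (𝓝 0)

/-- **St2**: the local part of the proof that `g A / H` is a polynomial on `F = 0`.

Paper proof. Let `J = {j : a j is a root of F}` (`fam_ind`); for `u ≠ 0` near `0` (`eq_prod`)
`evt (b + u ^ m) F = ∏_{j ∈ J} (X - C (a j u))`, so (limit) `evt b F = ∏_{j ∈ J} (X - C (a j 0))`. It is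
enough to show `(X - C x0) ^ #s ∣ evt b W` for every `x0`, where `s = {j ∈ J : a j 0 = x0}` (`#s` is the
root multiplicity of `x0`; different `x0` are coprime). Let `#s ≥ 1`, so `ev2 F b x0 = 0`, and put
`v_j = A / H` at `(b + u ^ m, a j u)`, `t = b + u ^ m`. The hypothesis gives
`ev2 W t (a j u) = δ(t) g(t, a j u) v_j(u)` for `j ∈ J`, `u ≠ 0` near `0` (here `H ≠ 0`), with
`δ(b) = 0`, in particular it tends to `0`. Use `PtOk`:
(1) `∂_t F ≠ 0` at `(b, x0)`: `SmV` (`δ(b + u ^ m) / u ^ m` has a limit).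
(2) `∂_x F ≠ 0`: `#s = 1`, and `evt b W` vanishes at `x0`.
(3) `∂_x² F ≠ 0`: `#s ≤ 2`; if `s = {i, j}`: `V3` with `G u = evt (b + u ^ m) W`; the difference
quotient of `δ g v` is `δ(t) (g(t, a_i) (v_i - v_j) / (a_i - a_j) + v_j (g(t, a_i) - g(t, a_j)) /
(a_i - a_j)) → 0`.
(4) otherwise: `V2`; `ev2 (derivative F) t (a j u) = ∏_{l ∈ J, l ≠ j} (a j u - a l u)`, so
`W(t, a_j) / ∏_{l ∈ s, l ≠ j} (a_j - a_l) = δ(t) v_j (g / ∂_x F) ∏_{l ∈ J \ s} (a_j - a_l) → 0`. -/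
def S_St2 : Prop := ∀ (N : ℕ) (Q F A H g W : ℂ[X][X]) (δ : ℂ[X]) (b : ℂ), Q.Monic →
  Q.natDegree = N → F.Monic → F ∣ Q →
  (∀ (m : ℕ) (a : Fin N → ℂ → ℂ), 0 < m → Par N Q (fun u => b + u ^ m) a →
    ∀ᶠ u in 𝓝[≠] (0 : ℂ), ∀ j, ev2 H (b + u ^ m) (a j u) ≠ 0) →
  LipAt N Q A H b → (∀ x, ev2 F b x = 0 → PtOk F g b x) →
  δ.eval b = 0 → F ∣ C δ * (g * A) - H * W → evt b F ∣ evt b W

/-- **St1**: from the local to the global statement.

Paper proof. `evt t F` is separable and `ev2 H t x ≠ 0` for all roots `x` of `evt t F`, if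
`D0.eval t ≠ 0`. So `F` and `H` are coprime over `ℂ(t)` (a common factor would have positive degree in
`x`), and there is `0 ≠ ρ ∈ ℂ[t]` with `C ρ = w F + w' H` (for example `disc'`-like arguments, or
`res_frac` in H941/SC/Bertini.lean, or clear the denominators in the Bezout relation). So
`F ∣ C ρ * (g * A) - H * (w' * g * A)`. Hence there are a polynomial `δ ≠ 0` (choose `natDegree`
minimal) and `W` with `F ∣ C δ * (g * A) - H * W`. If `δ` is constant we are done. Otherwise let `b`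
be a root of `δ`. Replace `W` by `W %ₘ F`. The hypothesis gives `evt b F ∣ evt b W`, and
`degree (evt b W) < degree (evt b F)`, so `evt b W = 0`, and `W = C (X - C b) * W'`,
`δ = (X - C b) * δ'`. As `F` is monic it can be cancelled: `F ∣ C (X - C b) * Y → F ∣ Y`
(`Y %ₘ F`). So `F ∣ C δ' * (g * A) - H * W'`, a contradiction to the minimality. -/
def S_St1 : Prop := ∀ (F A H g : ℂ[X][X]) (D0 : ℂ[X]), F.Monic → D0 ≠ 0 →
  (∀ t, D0.eval t ≠ 0 → (evt t F).Separable ∧ ∀ x, ev2 F t x = 0 → ev2 H t x ≠ 0) →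
  (∀ (b : ℂ) (δ : ℂ[X]) (W : ℂ[X][X]), δ.eval b = 0 → F ∣ C δ * (g * A) - H * W →
    evt b F ∣ evt b W) → ∃ W, F ∣ g * A - H * W

/-- **Zq**: from `g1 v` and `g2 v` to `v`.

Paper proof: `F` divides `H * (g2 * W1 - g1 * W2)`, so (for all `t` with `D0.eval t ≠ 0` all roots of
`evt t F`, which is separable, are roots of `evt t (g2 * W1 - g1 * W2)`; `dvd_of_ev`)
`F ∣ g2 * W1 - g1 * W2`, whose degree in `x` is at most the total degree `≤ 2 κ + 3 < e`; so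
`g2 * W1 = g1 * W2`, `g1 ∣ W1`, `W1 = g1 * Z`, `W2 = g2 * Z` (if `g1 = 0` then `g2` is a unit, as
`g1, g2` are relatively prime, and everything is trivial). So `F ∣ g1 * (A - H * Z)` and
`F ∣ g2 * (A - H * Z)`. As `g1, g2` are relatively prime, there is `0 ≠ ρ ∈ ℂ[t]` in the ideal
`(g1, g2)` (Gauss: coprime over `ℂ(t)`; see `coprime_frac` in H942/LP/P.lean), so
`F ∣ C ρ * (A - H * Z)`, and `F` is monic, so `F ∣ A - H * Z`. -/
def S_Zq : Prop := ∀ (F A H g1 g2 W1 W2 : ℂ[X][X]) (D0 : ℂ[X]) (e κ : ℕ), F.Monic →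
  F.natDegree = e → D0 ≠ 0 →
  (∀ t, D0.eval t ≠ 0 → (evt t F).Separable ∧ ∀ x, ev2 F t x = 0 → ev2 H t x ≠ 0) →
  IsRelPrime g1 g2 → TD κ g1 → TD κ g2 → TD (κ + 3) W1 → TD (κ + 3) W2 → 2 * κ + 3 < e →
  F ∣ g1 * A - H * W1 → F ∣ g2 * A - H * W2 → ∃ Z, F ∣ A - H * Z

end Pool.Agent.H942.LP
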