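import Pool.Agent.H942.LP.DefW
import Pool.Agent.H942.LP.DefM
import Pool.Agent.H942.LP.DefZ
import Pool.Agent.H941.QH.Field

set_option autoImplicit false
set_option linter.unusedSectionVars false
set_option linter.unusedVariables false

/-! # The geometry of the curve in the chart: the statements -/

namespace Pool.Agent.H942.LP

open MvPolynomial Filter Topology Pool.Agent.Helper748.MC Pool.Agent.Helper748.TP
  Pool.Agent.H941.TF Pool.Agent.H941.SC Pool.Agent.H941.NC Pool.Agent.H941.QH

/-- **RP**: dehomogenization of relatively prime forms.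

Paper proof: let `q` be an irreducible common divisor of `ch p1`, `ch p2`, where `p_i = lin A g_i`
(forms, relatively prime, as `lin A` is an automorphism, `irr_lin`, `linA` in H942/LP/Class.lean).
Write `p1`, `p2` as products of irreducible forms (divisors of forms are forms: `hdvd`, or
`IsHomogeneous.of_mul`-like lemmas in H941 TF/Norm, SC/Norm, QH/Class). `q` divides `ch u` for an
irreducible factor `u` of `p1` and `ch v` for an irreducible factor `v` of `p2`; by `irr_ch`
(H941/NC/Irr.lean) `ch u`, `ch v` are irreducible (they are not units), so they are associated, and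
`ch u = c * ch v` with a nonzero constant `c`. If `deg u ≤ deg v` then `X_1 ^ (deg v - deg u) * u` and
`c * v` are forms of the same degree with the same `ch`, so they are equal (`ch_inj`), and `u ∣ v`
(or `v` is associated to `X_1` and then `u` is a unit), a contradiction.
(Alternative: `q` has infinitely many zeros, but `g1, g2` have only finitely many common points.) -/
def S_RP : Prop := ∀ (g1 g2 : MvPolynomial (Fin 3) ℂ) (κ1 κ2 : ℕ) (A : Matrix (Fin 3) (Fin 3) ℂ),
  g1.IsHomogeneous κ1 → g2.IsHomogeneous κ2 → IsRelPrime g1 g2 → A.det ≠ 0 →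
  IsRelPrime (ch (lin A g1)) (ch (lin A g2))

/-- **TZ**: no linear vector field with a nonzero trace kills a form whose zero set contains a curve of
degree `> 2 M` with points of multiplicities `≤ M`.

Paper proof: let `B` be a matrix as in `TrZero` with `B.trace ≠ 0`, and `η i = ∑ j, C (B i j) * X j`;
then `constantCoeff (dv η) = B.trace ≠ 0`, and `exists_second'` (H940/F/Torus.lean) gives invertible
`A, B'` and weights `w` with `∑ w_i ≠ 0` such that all monomials of `sb B' f` have the weight `0`;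
`sb B' = lin B'`. Now `S_MF`. -/
def S_TZ : Prop := ∀ (f H : MvPolynomial (Fin 3) ℂ) (d e M : ℕ), f.IsHomogeneous d → 1 ≤ d →
  f ≠ 0 → H.IsHomogeneous e → H ∣ f → 2 * M < e →
  (∀ z : Fin 3 → ℂ, z ≠ 0 → eval z H = 0 → MultLE M H z) → TrZero f

/-- **CC**: the projection center: for general coordinates the tangent cones of `H` at finitely many
points do not contain the vertical line of the chart.

Paper proof: for `z0 ∈ s` let `k0` be the least `k` with `homogeneousComponent k (tay z0 H) ≠ 0`
(`tay z0` is injective: `tay (-z0) (tay z0 H) = H`), and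
`L = ∏_{z0 ∈ s} homogeneousComponent (k0 z0) (tay z0 H)`. Now `S_Ce` with `k = k0`; if `MultLE M H z0`
then `k0 ≤ M`. -/
def S_CC : Prop := ∀ (H : MvPolynomial (Fin 3) ℂ) (e : ℕ) (s : Finset (Fin 3 → ℂ)),
  H.IsHomogeneous e → H ≠ 0 → ∃ L : MvPolynomial (Fin 3) ℂ, L ≠ 0 ∧
  ∀ A : Matrix (Fin 3) (Fin 3) ℂ, A.det ≠ 0 → eval (fun i => A i 2) L ≠ 0 → ∀ z0 ∈ s,
    ∀ t x c : ℂ, c ≠ 0 → (fun i => ∑ j, A i j * (![t, 1, x] : Fin 3 → ℂ) j) = c • z0 →
    ∃ k : ℕ, (∀ M, MultLE M H z0 → k ≤ M) ∧
      ch (lin A H) ∈ (Ideal.span {Polynomial.C (Polynomial.X - Polynomial.C t),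
        Polynomial.X - Polynomial.C (Polynomial.C x)} : Ideal (Polynomial (Polynomial ℂ))) ^ k ∧
      ev2 (Polynomial.derivative^[k] (ch (lin A H))) t x ≠ 0

/-- **PK**: the points of the curve.

Paper proof: `k = 0` is impossible, as `ev2 (ch (lin A H)) t x = 0`. `k = 1`: second alternative of
`PtOk`, `k = 2`: third alternative. If the inequality holds: fourth alternative, by `S_NV` (which
gives the hypothesis on `deriv a`) and `S_Bb`. (`kc c1 *` only multiplies by a nonzero constant.) -/
def S_PK : Prop := ∀ (H g : MvPolynomial (Fin 3) ℂ) (e κ k : ℕ) (z0 : Fin 3 → ℂ)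
  (A : Matrix (Fin 3) (Fin 3) ℂ) (t x c c1 : ℂ), H.IsHomogeneous e → g.IsHomogeneous κ →
  A.det ≠ 0 → c ≠ 0 → c1 ≠ 0 → (fun i => ∑ j, A i j * (![t, 1, x] : Fin 3 → ℂ) j) = c • z0 →
  eval z0 H = 0 →
  ch (lin A H) ∈ (Ideal.span {Polynomial.C (Polynomial.X - Polynomial.C t),
    Polynomial.X - Polynomial.C (Polynomial.C x)} : Ideal (Polynomial (Polynomial ℂ))) ^ k →
  ev2 (Polynomial.derivative^[k] (ch (lin A H))) t x ≠ 0 →
  (k ≤ 2 ∨ ∀ ε : ℝ, 0 < ε → ∀ᶠ y in 𝓝 z0, eval y H = 0 →
    crs y z0 ^ 2 * ‖eval y g‖ ≤ ε * ∑ i, ‖eval y (pderiv i H)‖) →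
  PtOk (kc c1 * ch (lin A H)) (ch (lin A g)) t x

end Pool.Agent.H942.LP
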