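import Pool.Agent.H942.LP.N
import Pool.Agent.H941.NC.Top

set_option autoImplicit false
set_option linter.unusedSectionVars false
set_option linter.unusedVariables false

/-! # The residues on the other components -/

namespace Pool.Agent.H942.LP

open Polynomial Finset Filter Topology Metric Pool.Agent.Helper748.TP Pool.Agent.H941.TF
  Pool.Agent.H941.SC Pool.Agent.H941.NC

/-- difference quotients of polynomials -/
theorem dq' (W : ℂ[X][X]) {T x y : ℂ → ℂ} {f : Filter ℂ} {t₀ x₀ : ℂ} (hT : Tendsto T f (𝓝 t₀))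
    (hx : Tendsto x f (𝓝 x₀)) (hy : Tendsto y f (𝓝 x₀)) (hne : ∀ᶠ u in f, x u ≠ y u) :
    Tendsto (fun u => (ev2 W (T u) (x u) - ev2 W (T u) (y u)) / (x u - y u)) f
      (𝓝 (ev2 (derivative W) t₀ x₀)) := by
  induction W using Polynomial.induction_on' with
  | add P Q hP hQ =>
    rw [derivative_add, ev2_add]
    refine (hP.add hQ).congr fun u => ?_
    rw [ev2_add, ev2_add, ← add_div]
    congr 1
    ring
  | monomial n c =>
    have hc : Tendsto (fun u => c.eval (T u)) f (𝓝 (c.eval t₀)) :=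
      (c.continuous.tendsto t₀).comp hT
    have hs : Tendsto (fun u => ∑ i ∈ range n, x u ^ i * y u ^ (n - 1 - i)) f
        (𝓝 (∑ i ∈ range n, x₀ ^ i * x₀ ^ (n - 1 - i))) :=
      tendsto_finsetSum _ fun i _ => (hx.pow i).mul (hy.pow _)
    have e1 : ev2 (derivative (monomial n c)) t₀ x₀ =
        c.eval t₀ * ∑ i ∈ range n, x₀ ^ i * x₀ ^ (n - 1 - i) := by
      have e2 : ∑ i ∈ range n, x₀ ^ i * x₀ ^ (n - 1 - i) = n * x₀ ^ (n - 1) := by
        rw [Finset.sum_congr rfl fun i hi => (pow_add x₀ i (n - 1 - i)).symm,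
          Finset.sum_congr rfl fun i hi => (by
            have := mem_range.1 hi
            rw [show i + (n - 1 - i) = n - 1 by omega] : x₀ ^ (i + (n - 1 - i)) = x₀ ^ (n - 1)),
          Finset.sum_const, card_range, nsmul_eq_mul]
      rw [derivative_monomial, ev2_monomial, e2, eval_mul, eval_natCast]
      ring
    rw [e1]
    refine (hc.mul hs).congr' ?_
    filter_upwards [hne] with u hu
    rw [ev2_monomial, ev2_monomial, ← mul_sub, ← Commute.mul_geom_sum₂ (Commute.all _ _)]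
    have : x u - y u ≠ 0 := sub_ne_zero.2 hu
    field_simp

section
variable {N : ℕ} {Q γ hx ht V : ℂ[X][X]} {σ : ℝ} {d D0 : ℂ[X]} {p r q : ℂ[X][X]}

/-- **The residues on the other components.** -/
theorem stepL (D : Dat N Q γ hx ht σ V d p r q) (hN2 : 2 ≤ N) (hσ : σ < 0) {M : ℕ}
    (hγ : γ ∣ Q ^ M) (hD0 : D0 ≠ 0) {α β : ℂ[X][X]} (hαβ : C D0 = α * Q + β * derivative Q)
    {p1 Z : ℂ[X][X]} (hp1 : p = C d * p1) (TZ : TD 3 Z)
    {F Ψ R Fi Ψi Ri Qi : ℂ[X][X]} {e n' n'' : ℕ} (hFΨR : Ψ * (F * R) = Q) (hFm : F.Monic)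
    (iF : Inf F Fi e) (iΨ : Inf Ψ Ψi n') (iR : Inf R Ri n'') (he : 4 ≤ e)
    (hnN : n' + (e + n'') = N) (hQi : Ψi * (Fi * Ri) = Qi) (hs : (evt 0 Qi).Separable)
    (hFz : F ∣ p1 - kc (σ : ℂ) * hx * Z)
    (hgood : ∀ t x, ev2 Ψ t x = 0 → ev2 F t x = 0 → ev2 (derivative F) t x ≠ 0)
    (hlip : ∀ (b : ℂ) (m : ℕ) (a : Fin N → ℂ → ℂ), 0 < m → (∀ j, AnalyticAt ℂ (a j) 0) →
      Par N Q (fun u => b + u ^ m) a → ∀ i j, i ≠ j → ∃ L, Tendsto (fun u =>
        (yy σ hx d p (b + u ^ m) (a i u) - yy σ hx d p (b + u ^ m) (a j u)) / (a i u - a j u))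
        (𝓝[≠] 0) (𝓝 L))
    (hinf : ∀ x : ℂ → ℂ, AnalyticAt ℂ x 0 → (∀ᶠ u in 𝓝 (0 : ℂ), ev2 Qi u (x u) = 0) →
      ∃ L, Tendsto (fun u => u ^ (3 : ℤ) * (ev2 p1 u⁻¹ (x u / u) /
        ev2 (kc (σ : ℂ) * hx) u⁻¹ (x u / u))) (𝓝[≠] 0) (𝓝 L)) :
    ∀ t ∉ D0.roots.toFinset, ∀ x, ev2 Ψ t x = 0 →
      ev2 (p1 - kc (σ : ℂ) * hx * Z) t x = 0 := by
  classical
  have hQm := D.monic
  have hQN := D.deg
  have hB : ∀ t ∉ D0.roots.toFinset, D0.eval t ≠ 0 := by
    intro t ht h
    rw [Multiset.mem_toFinset, mem_roots hD0] at ht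
    exact ht h
  have hsep : ∀ t ∉ D0.roots.toFinset, (evt t Q).Separable := fun t ht => sep_of_disc hαβ (hB t ht)
  have hΨQ : ∀ t x, ev2 Ψ t x = 0 → ev2 Q t x = 0 := by
    intro t x h
    rw [← hFΨR, ev2_mul, h, zero_mul]
  have hFQ : F ∣ Q := ⟨Ψ * R, by rw [← hFΨR]; ring⟩
  have hne2 : ∀ t ∉ D0.roots.toFinset, ∀ x, ev2 Ψ t x = 0 → ev2 (F * R) t x ≠ 0 := by
    intro t ht x h0
    have h1 := hsep t ht
    rw [← hFΨR, map_mul] at h1
    exact sep_ne h1 h0
  have hFne : ∀ t ∉ D0.roots.toFinset, ∀ x, ev2 Ψ t x = 0 → ev2 F t x ≠ 0 := by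
    intro t ht x h0 h1
    apply hne2 t ht x h0
    rw [ev2_mul, h1, zero_mul]
  set h := kc (σ : ℂ) * hx with hh
  have hhne : ∀ t ∉ D0.roots.toFinset, ∀ x, ev2 Q t x = 0 → ev2 h t x ≠ 0 := fun t ht x h0 =>
    hneQ D hγ hσ (hsep t ht) h0
  set w : ℂ → ℂ → ℂ := fun t x => if ev2 Ψ t x = 0 then
    (ev2 p1 t x / ev2 h t x - ev2 Z t x) / ev2 F t x else 0 with hw
  have iFR : Inf (F * R) (Fi * Ri) (e + n'') := iF.mul iR
  have iQ : Inf Q Qi N := by
    have := iΨ.mul iFR
    rwa [hFΨR, hQi, hnN] at this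
  obtain ⟨X', hX, hX0, hXr, PX⟩ := iQ.par hQm hQN (by omega) hs
  have hXroot : ∀ j, ∀ᶠ u in 𝓝 (0 : ℂ), ev2 Qi u (X' j u) = 0 := by
    intro j
    filter_upwards [hXr] with u hu
    rw [ev2, hu]
    exact eval_nod (x := fun j => X' j u) j
  have hs' : (evt 0 (Ψi * (Fi * Ri))).Separable := by rw [hQi]; exact hs
  have hvan := van (v := w) hQm hQN hαβ hB (fun t ht a ha h0 => by
    have hid : HasDerivAt (fun u : ℂ => u) 1 t := hasDerivAt_id' t
    have hd : ∀ P : ℂ[X][X], DifferentiableAt ℂ (fun u => ev2 P u (a u)) t := fun P =>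
      (hasDerivAt_ev2 P hid ha.hasDerivAt).differentiableAt
    by_cases h1 : ev2 Ψ t (a t) = 0
    · have h2 := hne2 t ht _ h1
      have h3 : ∀ᶠ s in 𝓝 t, ev2 (F * R) s (a s) ≠ 0 := (hd (F * R)).continuousAt.eventually_ne h2
      have h4 : (fun s => w s (a s)) =ᶠ[𝓝 t] fun s => (ev2 p1 s (a s) / ev2 h s (a s) -
          ev2 Z s (a s)) / ev2 F s (a s) := by
        filter_upwards [h0, h3] with s e1 e2
        rw [← hFΨR, ev2_mul] at e1
        simp only [hw, if_pos ((mul_eq_zero.1 e1).resolve_right e2)]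
      exact ((((hd p1).fun_div (hd h) (hhne t ht _ (hΨQ _ _ h1))).fun_sub
        (hd Z)).fun_div (hd F) (hFne t ht _ h1)).congr_of_eventuallyEq h4
    · have h3 : ∀ᶠ s in 𝓝 t, ev2 Ψ s (a s) ≠ 0 := (hd Ψ).continuousAt.eventually_ne h1
      have h4 : (fun s => w s (a s)) =ᶠ[𝓝 t] fun _ => 0 := by
        filter_upwards [h3] with s e1
        simp only [hw, if_neg e1]
      exact (differentiableAt_const _).congr_of_eventuallyEq h4)
    (fun b hb => by
      obtain ⟨m, a, L, hm, ha, P, hd, hL, hLL⟩ := fin_pt2 D hN2 hσ hγ hD0 hαβ b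
      have hT : AnalyticAt ℂ (fun u : ℂ => b + u ^ m) 0 := by fun_prop
      have hT0 : b + (0 : ℂ) ^ m = b := by rw [zero_pow hm.ne', add_zero]
      have hTt : Tendsto (fun u : ℂ => b + u ^ m) (𝓝[≠] 0) (𝓝 b) := by
        have := hT.continuousAt.tendsto.mono_left (nhdsWithin_le_nhds (s := {0}ᶜ))
        rwa [hT0] at this
      have hat : ∀ j, Tendsto (a j) (𝓝[≠] 0) (𝓝 (a j 0)) := fun j =>
        (ha j).continuousAt.tendsto.mono_left nhdsWithin_le_nhds
      have hBu := ev_notin D0.roots.toFinset b hm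
      refine ⟨m, a, hm, P, fun j => ?_⟩
      rcases fam_ind (Γ := Ψ) P j with h1 | h1
      · have hw1 : (fun u => (yy σ hx d p (b + u ^ m) (a j u) - ev2 Z (b + u ^ m) (a j u)) /
            ev2 F (b + u ^ m) (a j u)) =ᶠ[𝓝[≠] 0] fun u => w (b + u ^ m) (a j u) := by
          filter_upwards [h1, hd] with u e1 e2
          rw [yyQ D hp1 _ e2]
          simp only [hw, if_pos e1]
          rfl
        by_cases hF0 : ev2 F b (a j 0) = 0
        · -- an intersection with `F = 0`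
          have hΨ0 : ev2 Ψ b (a j 0) = 0 := by
            refine tendsto_nhds_unique (tendP Ψ b hm (ha j)) (tendsto_const_nhds.congr' ?_)
            filter_upwards [h1] with u hu
            exact hu.symm
          have hF' := hgood b _ hΨ0 hF0
          obtain ⟨i, hi0, hi⟩ := fam (Γ := F) P hT ha hFm hFQ (ξ := a j 0) (by rw [hT0]; exact hF0)
          have hij : j ≠ i := by
            rintro rfl
            obtain ⟨u, k1, k2, k3⟩ := ((h1.and (hi.and hBu))).exists
            exact hFne _ k3 _ k1 k2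
          have hne : ∀ᶠ u in 𝓝[≠] (0 : ℂ), a j u ≠ a i u := by
            filter_upwards [P.inj] with u hu h'
            exact hij (hu h')
          have hai : Tendsto (a i) (𝓝[≠] 0) (𝓝 (a j 0)) := by
            have := hat i
            rwa [hi0] at this
          obtain ⟨l, hl⟩ := hlip b m a hm ha P j i hij
          have hZ := dq' Z hTt (hat j) hai hne
          have hFq := dq' F hTt (hat j) hai hne
          refine ⟨_, (((hl.sub hZ).div hFq hF').congr' ?_).congr' hw1⟩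
          filter_upwards [hi, hd, hBu, hne] with u k1 k2 k3 k4
          have k5 : ev2 (p1 - h * Z) (b + u ^ m) (a i u) = 0 := ev2_dvd hFz k1
          have k6 := hhne _ k3 _ (ev2_dvd hFQ k1)
          rw [ev2_sub, ev2_mul h] at k5
          have k7 : yy σ hx d p (b + u ^ m) (a i u) = ev2 Z (b + u ^ m) (a i u) := by
            rw [yyQ D hp1 _ k2, div_eq_iff k6]
            linear_combination k5
          have k8 : a j u - a i u ≠ 0 := sub_ne_zero.2 k4
          change ((yy σ hx d p (b + u ^ m) (a j u) - yy σ hx d p (b + u ^ m) (a i u)) /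
            (a j u - a i u) - (ev2 Z (b + u ^ m) (a j u) - ev2 Z (b + u ^ m) (a i u)) /
              (a j u - a i u)) / ((ev2 F (b + u ^ m) (a j u) - ev2 F (b + u ^ m) (a i u)) /
                (a j u - a i u)) = _
          rw [k7, k1, sub_zero, ← sub_div, div_div_div_cancel_right₀ k8]
          congr 1
          ring
        · have hLj := (((hL j).sub (tendP Z b hm (ha j))).div (tendP F b hm (ha j)) hF0)
          exact ⟨_, hLj.congr' hw1⟩
      · refine ⟨0, tendsto_const_nhds.congr' ?_⟩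
        filter_upwards [h1] with u e1
        simp only [hw, if_neg e1])
    ⟨X', PX, fun j => by
      rcases inf_dich iΨ iFR hs' (hX j) (by rw [hQi]; exact hXroot j) with ⟨h1, h2, h3⟩ | h1
      · obtain ⟨L, hL⟩ := hinf (X' j) (hX j) (hXroot j)
        obtain ⟨l, hl⟩ := tend3 TZ (hX j)
        have hFi : ev2 Fi 0 (X' j 0) ≠ 0 := by
          intro h4
          apply h3
          rw [ev2_mul, h4, zero_mul]
        have hF1 := iF.lim (hX j)
        have hpw : Tendsto (fun u : ℂ => u ^ (e - 3)) (𝓝[≠] 0) (𝓝 0) := by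
          have := ((continuous_pow (e - 3)).tendsto (0 : ℂ)).mono_left
            (nhdsWithin_le_nhds (s := {0}ᶜ))
          rwa [zero_pow (by omega)] at this
        have h5 := hpw.mul ((hL.sub hl).div hF1 hFi)
        rw [zero_mul] at h5
        refine h5.congr' ?_
        filter_upwards [h1, ev_ne, hF1.eventually_ne hFi] with u e1 e2 e3
        simp only [hw, if_pos e1]
        have e4 := right_ne_zero_of_mul e3
        have e5 : (u : ℂ) ^ (e : ℤ) = u ^ (e - 3) * u ^ (3 : ℤ) := by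
          rw [show (3 : ℤ) = ((3 : ℕ) : ℤ) from rfl, zpow_natCast, zpow_natCast, ← pow_add]
          congr 1
          omega
        have e6 : (u : ℂ) ^ (e - 3) ≠ 0 := pow_ne_zero _ e2
        have e7 : (u : ℂ) ^ (3 : ℤ) ≠ 0 := zpow_ne_zero _ e2
        change u ^ (e - 3) * ((u ^ (3 : ℤ) * (ev2 p1 u⁻¹ (X' j u / u) /
          ev2 h u⁻¹ (X' j u / u)) - u ^ (3 : ℤ) * ev2 Z u⁻¹ (X' j u / u)) /
            (u ^ (e : ℤ) * ev2 F u⁻¹ (X' j u / u))) = _
        rw [e5]
        have e8 : ∀ A B w1 w2 g : ℂ, w1 ≠ 0 → w2 ≠ 0 → g ≠ 0 →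
            w1 * ((w2 * A - w2 * B) / (w1 * w2 * g)) = (A - B) / g := by
          intro A B w1 w2 g i1 i2 i3
          field_simp
        exact e8 _ _ _ _ _ e6 e7 e4
      · refine tendsto_const_nhds.congr' ?_
        filter_upwards [h1] with u e1
        simp only [hw, if_neg e1]⟩
  intro t ht x h0
  have h1 := hvan t ht x (hΨQ t x h0)
  simp only [hw, if_pos h0] at h1
  have h2 := hhne t ht x (hΨQ t x h0)
  have h3 := hFne t ht x h0
  have h4 := (div_eq_zero_iff.1 h1).resolve_right h3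
  rw [ev2_sub, ev2_mul]
  rw [sub_eq_zero, div_eq_iff h2] at h4
  linear_combination h4

end

end Pool.Agent.H942.LP
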