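import Pool.Agent.H942.LP.DefW
import Pool.Agent.H942.LP.G
import Pool.Agent.H941.QH.Main

set_option autoImplicit false
set_option linter.unusedSectionVars false
set_option linter.unusedVariables false

/-! # The statements with quasi-homogeneous points -/

namespace Pool.Agent.H942.LP

open Finset Filter Topology Polynomial Pool.Agent.Helper748.TP Pool.Agent.H941.TF
  Pool.Agent.H941.SC Pool.Agent.H941.NC

/-- `St2` with a fifth kind of points: `A / H` is a regular function near the point. -/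
def S_St2' : Prop := ∀ (N : ℕ) (Q F A H g W : ℂ[X][X]) (δ : ℂ[X]) (b : ℂ) (D0 : ℂ[X]), Q.Monic →
  Q.natDegree = N → F.Monic → F ∣ Q → D0 ≠ 0 →
  (∀ t, D0.eval t ≠ 0 → (evt t Q).Separable ∧ ∀ x, ev2 Q t x = 0 → ev2 H t x ≠ 0) →
  LipAt N Q A H b → (∀ x, ev2 F b x = 0 → PtOk F g b x ∨
    ∃ c W0, ev2 c b x ≠ 0 ∧ F ∣ c * A - H * W0) →
  δ.eval b = 0 → F ∣ C δ * (g * A) - H * W → evt b F ∣ evt b W

/-- `Ps` with a second kind of common points: `p1 / h` is a regular function near the point. -/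
def S_Ps' : Prop := ∀ (N : ℕ) (Q γ hx ht V p r q : ℂ[X][X]) (σ : ℝ) (d D0 : ℂ[X]),
  Dat N Q γ hx ht σ V d p r q → 2 ≤ N → σ < 0 → ∀ (M : ℕ), γ ∣ Q ^ M → D0 ≠ 0 →
  ∀ (α β : ℂ[X][X]), C D0 = α * Q + β * derivative Q →
  ∀ (p1 Z : ℂ[X][X]), p = C d * p1 → TD 3 Z →
  ∀ (F Ψ R Fi Ψi Ri Qi : ℂ[X][X]) (e n' n'' m0 : ℕ), Ψ * (F * R) = Q → F.Monic →
  Inf F Fi e → Inf Ψ Ψi n' → Inf R Ri n'' → 1 ≤ m0 → 3 * m0 < e → n' + (e + n'') = N →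
  Ψi * (Fi * Ri) = Qi → (evt 0 Qi).Separable → F ∣ p1 - kc (σ : ℂ) * hx * Z →
  (∀ t x, ev2 Ψ t x = 0 → ev2 F t x = 0 → (∃ k ≤ m0, ev2 (derivative^[k] F) t x ≠ 0) ∨
    ∃ c W, ev2 c t x ≠ 0 ∧ Q ∣ c * p1 - kc (σ : ℂ) * hx * W) →
  (∀ (b : ℂ) (m : ℕ) (a : Fin N → ℂ → ℂ), 0 < m → (∀ j, AnalyticAt ℂ (a j) 0) →
      Par N Q (fun u => b + u ^ m) a → ∀ i j, i ≠ j → ∃ L, Tendsto (fun u =>
        (yy σ hx d p (b + u ^ m) (a i u) - yy σ hx d p (b + u ^ m) (a j u)) / (a i u - a j u))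
        (𝓝[≠] 0) (𝓝 L)) →
  (∀ x : ℂ → ℂ, AnalyticAt ℂ x 0 → (∀ᶠ u in 𝓝 (0 : ℂ), ev2 Qi u (x u) = 0) →
      ∃ L, Tendsto (fun u => u ^ (3 : ℤ) * (ev2 p1 u⁻¹ (x u / u) /
        ev2 (kc (σ : ℂ) * hx) u⁻¹ (x u / u))) (𝓝[≠] 0) (𝓝 L)) →
  ∀ t ∉ D0.roots.toFinset, ∀ x, ev2 Ψ t x = 0 → ev2 (p1 - kc (σ : ℂ) * hx * Z) t x = 0

end Pool.Agent.H942.LP
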