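import Pool.Agent.H942.LP.DefF

set_option autoImplicit false
set_option linter.unusedSectionVars false
set_option linter.unusedVariables false

/-! # Polynomial families of primitives from the functional equation: proof -/

namespace Pool.Agent.H942.LP.FN

open Polynomial Pool.Agent.Helper748.TP Pool.Agent.H628R4.TP Pool.Agent.H942.LP

section PFs

variable {A B : Type} [CommRing A] [CommRing B] {κ : ℂ →+* A} {κ' : ℂ →+* B}

theorem pf_congr {F G : ℂ → A} (hF : PF κ F) (h : ∀ c, F c = G c) : PF κ G := by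
  obtain ⟨P, hP⟩ := hF
  exact ⟨P, fun c => by rw [← h, hP]⟩

theorem pf_const (a : A) : PF κ (fun _ => a) :=
  ⟨Polynomial.C a, fun c => by rw [Polynomial.eval_C]⟩

theorem pf_add {F G : ℂ → A} (hF : PF κ F) (hG : PF κ G) : PF κ (fun c => F c + G c) := by
  obtain ⟨P, hP⟩ := hF
  obtain ⟨Q, hQ⟩ := hG
  exact ⟨P + Q, fun c => by beta_reduce; rw [hP, hQ, Polynomial.eval_add]⟩

theorem pf_mul {F G : ℂ → A} (hF : PF κ F) (hG : PF κ G) : PF κ (fun c => F c * G c) := by
  obtain ⟨P, hP⟩ := hF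
  obtain ⟨Q, hQ⟩ := hG
  exact ⟨P * Q, fun c => by beta_reduce; rw [hP, hQ, Polynomial.eval_mul]⟩

theorem pf_sub {F G : ℂ → A} (hF : PF κ F) (hG : PF κ G) : PF κ (fun c => F c - G c) := by
  obtain ⟨P, hP⟩ := hF
  obtain ⟨Q, hQ⟩ := hG
  exact ⟨P - Q, fun c => by beta_reduce; rw [hP, hQ, Polynomial.eval_sub]⟩

theorem pf_sum {α : Type} (s : Finset α) {F : α → ℂ → A} (hF : ∀ i ∈ s, PF κ (F i)) :
    PF κ (fun c => ∑ i ∈ s, F i c) := by
  classical
  induction s using Finset.induction_on with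
  | empty => exact pf_congr (pf_const 0) fun c => by rw [Finset.sum_empty]
  | insert i s hi ih =>
    refine pf_congr (pf_add (hF i (Finset.mem_insert_self i s))
      (ih fun j hj => hF j (Finset.mem_insert_of_mem hj))) fun c => ?_
    rw [Finset.sum_insert hi]

theorem pf_poly (p : ℂ[X]) : PF κ (fun c => κ (p.eval c)) := by
  refine ⟨p.map κ, fun c => ?_⟩
  rw [Polynomial.eval_map, Polynomial.eval₂_hom]

theorem pf_lin {F : ℂ → A} (hF : PF κ F) (L : A →+ B) (hL : ∀ c a, L (κ c * a) = κ' c * L a) :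
    PF κ' (fun c => L (F c)) := by
  obtain ⟨P, hP⟩ := hF
  refine ⟨∑ k ∈ P.support, Polynomial.monomial k (L (P.coeff k)), fun c => ?_⟩
  beta_reduce
  rw [hP, Polynomial.eval_eq_sum, Polynomial.sum_def, map_sum, Polynomial.eval_finsetSum]
  refine Finset.sum_congr rfl fun k _ => ?_
  rw [Polynomial.eval_monomial, ← map_pow, mul_comm, hL, map_pow, mul_comm]

/-- A polynomial family which vanishes at all large natural numbers is zero. -/
theorem pf_zero [IsDomain A] (hκ : Function.Injective κ) {F : ℂ → A} (hF : PF κ F) (n0 : ℕ)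
    (h : ∀ n : ℕ, n0 ≤ n → F n = 0) (c : ℂ) : F c = 0 := by
  obtain ⟨P, hP⟩ := hF
  have hP0 : P = 0 := by
    apply Polynomial.eq_zero_of_infinite_isRoot
    have hinj : Function.Injective (fun n : ℕ => (κ ((n : ℕ) : ℂ) : A)) := by
      intro m n hmn
      exact_mod_cast hκ hmn
    refine Set.Infinite.mono ?_ (Set.Infinite.image hinj.injOn (Set.Ici_infinite n0))
    rintro _ ⟨n, hn, rfl⟩
    change P.IsRoot _
    rw [Polynomial.IsRoot.def]
    beta_reduce
    rw [← hP]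
    exact h n hn
  rw [hP, hP0, Polynomial.eval_zero]

theorem pf_eq [IsDomain A] (hκ : Function.Injective κ) {F G : ℂ → A} (hF : PF κ F) (hG : PF κ G)
    (n0 : ℕ) (h : ∀ n : ℕ, n0 ≤ n → F n = G n) (c : ℂ) : F c = G c := by
  have h2 := pf_zero hκ (pf_sub hF hG) n0 (fun n hn => by rw [h n hn]; ring) c
  linear_combination h2

end PFs

section Hom

variable {σ : Type} [Fintype σ] [DecidableEq σ]

open MvPolynomial

theorem hc_pderiv (i : σ) (m : ℕ) (p : MvPolynomial σ ℂ) :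
    homogeneousComponent m (pderiv i p) = pderiv i (homogeneousComponent (m + 1) p) := by
  induction p using MvPolynomial.induction_on' with
  | monomial u a =>
    have h1 : (MvPolynomial.monomial u a : MvPolynomial σ ℂ).IsHomogeneous u.degree :=
      isHomogeneous_monomial a rfl
    rw [homogeneousComponent_of_mem h1]
    by_cases hu : u.degree = 0
    · have h2 : u = 0 := (Finsupp.degree_eq_zero_iff u).1 hu
      subst h2
      rw [if_neg (by rw [hu]; omega), map_zero]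
      have h3 : (MvPolynomial.monomial 0 a : MvPolynomial σ ℂ) = MvPolynomial.C a := rfl
      rw [h3, pderiv_C, map_zero]
    · obtain ⟨k, hk⟩ := Nat.exists_eq_succ_of_ne_zero hu
      have h2 : (pderiv i (MvPolynomial.monomial u a : MvPolynomial σ ℂ)).IsHomogeneous k := by
        have := h1.pderiv (i := i)
        rw [hk] at this
        simpa using this
      rw [homogeneousComponent_of_mem h2, hk]
      by_cases hm : m = k
      · rw [if_pos hm, if_pos (by rw [hm])]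
      · rw [if_neg hm, if_neg (by omega), map_zero]
  | add p q hp hq => rw [map_add, map_add, map_add, map_add, hp, hq]

theorem hc_mul (N m : ℕ) (p g : MvPolynomial σ ℂ) (hg : g.IsHomogeneous N) :
    homogeneousComponent (m + N) (p * g) = homogeneousComponent m p * g := by
  induction p using MvPolynomial.induction_on' with
  | monomial u a =>
    have h1 : (MvPolynomial.monomial u a : MvPolynomial σ ℂ).IsHomogeneous u.degree :=
      isHomogeneous_monomial a rfl
    rw [homogeneousComponent_of_mem h1, homogeneousComponent_of_mem (h1.mul hg)]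
    by_cases hm : m = u.degree
    · rw [if_pos hm, if_pos (by rw [hm])]
    · rw [if_neg hm, if_neg (by omega), zero_mul]
  | add p q hp hq => rw [add_mul, map_add, map_add, add_mul, hp, hq]

theorem hc_mul_lt (N m : ℕ) (hm : m < N) (p g : MvPolynomial σ ℂ) (hg : g.IsHomogeneous N) :
    homogeneousComponent m (p * g) = 0 := by
  induction p using MvPolynomial.induction_on' with
  | monomial u a =>
    have h1 : (MvPolynomial.monomial u a : MvPolynomial σ ℂ).IsHomogeneous u.degree :=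
      isHomogeneous_monomial a rfl
    rw [homogeneousComponent_of_mem (h1.mul hg), if_neg (by omega)]
  | add p q hp hq => rw [add_mul, map_add, hp, hq, add_zero]

end Hom

/-- the part of `g` which matters -/
noncomputable def gk (d k : ℕ) (g : MvPolynomial (Fin 3) ℂ) : MvPolynomial (Fin 3) ℂ :=
  if d ≤ k then MvPolynomial.homogeneousComponent (k - d) g else 0

theorem hc_gk {d : ℕ} {f : MvPolynomial (Fin 3) ℂ} (hf : f.IsHomogeneous d) (k s : ℕ)
    (g : MvPolynomial (Fin 3) ℂ) :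
    MvPolynomial.homogeneousComponent (d * s + k) (g * f ^ (s + 1)) = gk d k g * f ^ (s + 1) := by
  have h1 : (f ^ (s + 1)).IsHomogeneous (d * (s + 1)) := hf.pow (s + 1)
  unfold gk
  split_ifs with h
  · obtain ⟨j, rfl⟩ := Nat.exists_eq_add_of_le h
    have h2 : d * s + (d + j) = j + d * (s + 1) := by ring
    rw [h2, hc_mul _ _ _ _ h1, Nat.add_sub_cancel_left]
  · rw [zero_mul]
    refine hc_mul_lt _ _ ?_ _ _ h1
    push Not at h
    rw [mul_add, mul_one]
    omega

theorem gk_hom {d k : ℕ} {f : MvPolynomial (Fin 3) ℂ} (hf : f.IsHomogeneous d) (j : ℕ)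
    (g : MvPolynomial (Fin 3) ℂ) : (gk d k g * f ^ (j + 1)).IsHomogeneous (d * j + k) := by
  unfold gk
  split_ifs with h
  · obtain ⟨i, rfl⟩ := Nat.exists_eq_add_of_le h
    have h2 : d * j + (d + i) = i + d * (j + 1) := by ring
    rw [h2, Nat.add_sub_cancel_left]
    exact (MvPolynomial.homogeneousComponent_isHomogeneous _ _).mul (hf.pow _)
  · rw [zero_mul]
    exact MvPolynomial.isHomogeneous_zero _ _ _

/-- abbreviation: the constants of `ℂ[x0, x1, x2]` -/
noncomputable def km : ℂ →+* MvPolynomial (Fin 3) ℂ := MvPolynomial.C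

theorem pf_pderiv {v : ℂ → MvPolynomial (Fin 3) ℂ} (hv : PF km v) (i : Fin 3) :
    PF km (fun c => MvPolynomial.pderiv i (v c)) :=
  pf_lin (κ' := km) hv
    ((MvPolynomial.pderiv i : Derivation ℂ (MvPolynomial (Fin 3) ℂ)
      (MvPolynomial (Fin 3) ℂ)) : MvPolynomial (Fin 3) ℂ →ₗ[ℂ] MvPolynomial (Fin 3) ℂ).toAddMonoidHom
    (fun c a => by
      change MvPolynomial.pderiv i (MvPolynomial.C c * a) =
        MvPolynomial.C c * MvPolynomial.pderiv i a
      rw [MvPolynomial.pderiv_C_mul])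

theorem pf_chx {v : ℂ → MvPolynomial (Fin 3) ℂ} (hv : PF km v) : PF kh (fun c => chx (v c)) :=
  pf_lin (κ' := kh) hv (chx : MvPolynomial (Fin 3) ℂ →+* ℂ[X][X]).toAddMonoidHom
    (fun c a => by
      change chx (MvPolynomial.C c * a) = kc c * chx a
      rw [map_mul, chx_C])

/-- **(2)** -/
theorem step2 {d : ℕ} (hd : 0 < d) {f : MvPolynomial (Fin 3) ℂ} (hf : f.IsHomogeneous d) (n : ℕ) :
    ∀ (Q : Module.End ℂ (MvPolynomial (Fin 3) ℂ)), Fil n Q → ∀ k : ℕ, ∃ K0 : ℕ, ∀ K, K0 ≤ K →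
      ∃ v : ℂ → MvPolynomial (Fin 3) ℂ, PF km v ∧ (∀ c, (v c).IsHomogeneous (d * K + k)) ∧
        ∀ s : ℕ, K + 1 ≤ s → MvPolynomial.homogeneousComponent (d * s + k) (Q (f ^ (s + 1))) =
          v s * f ^ (s - K) := by
  induction n with
  | zero =>
    rintro Q ⟨g, hg⟩ k
    refine ⟨0, fun K _ => ⟨fun _ => gk d k g * f ^ (K + 1), pf_const _,
      fun c => gk_hom hf K g, fun s hs => ?_⟩⟩
    rw [hg, hc_gk hf]
    obtain ⟨m, rfl⟩ : ∃ m, s = K + 1 + m := ⟨s - (K + 1), by omega⟩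
    have h1 : K + 1 + m - K = m + 1 := by omega
    rw [h1, mul_assoc, ← pow_add]
    congr 2
  | succ n ih =>
    rintro Q ⟨g, Q', hQ', hQ⟩ k
    have h1 := fun i => ih (Q' i) (hQ' i) (k + 1)
    choose K0 hK0 using h1
    refine ⟨∑ i, K0 i + 1, fun K hK => ?_⟩
    obtain ⟨K, rfl⟩ : ∃ j, K = j + 1 := ⟨K - 1, by omega⟩
    have hle : ∀ i, K0 i ≤ K := fun i => by
      have : K0 i ≤ ∑ i, K0 i :=
        Finset.single_le_sum (f := K0) (fun _ _ => Nat.zero_le _) (Finset.mem_univ i)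
      omega
    choose v hv hvh hvE using fun i => hK0 i K (hle i)
    refine ⟨fun c => gk d k g * f ^ (K + 2) + ∑ i, (f * MvPolynomial.pderiv i (v i c) +
      km (c - K) * v i c * MvPolynomial.pderiv i f), ?_, ?_, ?_⟩
    · refine pf_add (pf_const _) (pf_sum _ fun i _ => pf_add (pf_mul (pf_const _)
        (pf_pderiv (hv i) i)) (pf_mul (pf_mul ?_ (hv i)) (pf_const _)))
      refine pf_congr (pf_poly (X - C (K : ℂ))) fun c => ?_
      rw [eval_sub, eval_X, eval_C]
    · intro c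
      refine (gk_hom hf (K + 1) g).add (MvPolynomial.IsHomogeneous.sum _ _ _ fun i _ => ?_)
      have h2 : (MvPolynomial.pderiv i (v i c)).IsHomogeneous (d * K + k) := by
        have := (hvh i c).pderiv (i := i)
        have h3 : d * K + (k + 1) - 1 = d * K + k := by omega
        rwa [h3] at this
      have h4 : (MvPolynomial.pderiv i f).IsHomogeneous (d - 1) := hf.pderiv
      have h5 : d * (K + 1) + k = d + (d * K + k) := by ring
      have h6 : d * (K + 1) + k = 0 + (d * K + (k + 1)) + (d - 1) := by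
        rw [mul_add, mul_one]; omega
      refine MvPolynomial.IsHomogeneous.add ?_ ?_
      · rw [h5]; exact hf.mul h2
      · rw [h6]
        exact ((MvPolynomial.isHomogeneous_C _ _).mul (hvh i c)).mul h4
    · intro s hs
      obtain ⟨m, rfl⟩ : ∃ m, s = K + 1 + 1 + m := ⟨s - (K + 1 + 1), by omega⟩
      rw [hQ, map_add, hc_gk hf, map_sum]
      have h2 : ∀ i, MvPolynomial.homogeneousComponent (d * (K + 1 + 1 + m) + k)
          (MvPolynomial.pderiv i (Q' i (f ^ (K + 1 + 1 + m + 1)))) =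
          (f * MvPolynomial.pderiv i (v i ((K + 1 + 1 + m : ℕ) : ℂ)) +
            km (((K + 1 + 1 + m : ℕ) : ℂ) - K) * v i ((K + 1 + 1 + m : ℕ) : ℂ) *
              MvPolynomial.pderiv i f) * f ^ (m + 1) := by
        intro i
        have h3 : K + 1 + 1 + m - K = m + 2 := by omega
        have h4 : (((K + 1 + 1 + m : ℕ) : ℂ) - K) = ((m + 2 : ℕ) : ℂ) := by push_cast; ring
        have h5 : km (((m + 2 : ℕ) : ℂ)) = ((m + 2 : ℕ) : MvPolynomial (Fin 3) ℂ) := by
          rw [km, map_natCast]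
        rw [hc_pderiv, add_assoc (d * (K + 1 + 1 + m)), hvE i _ (by omega), h3, h4, h5,
          Derivation.leibniz, Derivation.leibniz_pow]
        simp only [smul_eq_mul, nsmul_eq_mul]
        have h6 : m + 2 - 1 = m + 1 := by omega
        rw [h6]
        ring
      rw [Finset.sum_congr rfl fun i _ => h2 i, ← Finset.sum_mul]
      have h3 : K + 1 + 1 + m - (K + 1) = m + 1 := by omega
      rw [h3]
      push_cast
      ring

/-- Euler's formula after the substitution -/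
theorem chx_pderiv1 {m : ℕ} {ψ : MvPolynomial (Fin 3) ℂ} (hψ : ψ.IsHomogeneous m) :
    chx (MvPolynomial.pderiv 1 ψ) = kc (m + 2) * chx ψ - dt (C X * chx ψ) -
      derivative (X * chx ψ) := by
  have h1 := hψ.sum_X_mul_pderiv
  rw [Fin.sum_univ_three] at h1
  have h2 := congrArg chx h1
  rw [map_add, map_add, map_mul, map_mul, map_mul, chx_pderiv0, chx_pderiv2, map_nsmul] at h2
  have h3 : chx (MvPolynomial.X 0) = C X := by simp [chx]
  have h4 : chx (MvPolynomial.X 1) = 1 := by simp [chx]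
  have h5 : chx (MvPolynomial.X 2) = X := by simp [chx]
  rw [h3, h4, h5, nsmul_eq_mul] at h2
  have h6 : kc ((m : ℂ) + 2) = (m : ℂ[X][X]) + 2 := by
    rw [kc_add, kc_nat]
    congr 1
  rw [dt_mul, dt_C, derivative_X, C_1, derivative_mul, derivative_X, h6]
  linear_combination h2

/-- the statement of **(4)** -/
def Cl4 (d : ℕ) (f : MvPolynomial (Fin 3) ℂ) (Q : Module.End ℂ (MvPolynomial (Fin 3) ℂ))
    (k : ℕ) : Prop :=
  ∃ K0 : ℕ, ∀ K, K0 ≤ K → ∃ A B H : ℂ → ℂ[X][X], PF kh A ∧ PF kh B ∧ PF kh H ∧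
    ∀ s : ℕ, K + 1 ≤ s → chx (MvPolynomial.homogeneousComponent (d * s + k) (Q (f ^ (s + 1)))) =
      H s * chx f ^ (s + 1) + dt (A s * chx f ^ (s - K)) + derivative (B s * chx f ^ (s - K))

theorem step4 {d : ℕ} (hd : 0 < d) {f : MvPolynomial (Fin 3) ℂ} (hf : f.IsHomogeneous d)
    (Q : Module.End ℂ (MvPolynomial (Fin 3) ℂ)) (g : MvPolynomial (Fin 3) ℂ)
    (Q' : Fin 3 → Module.End ℂ (MvPolynomial (Fin 3) ℂ)) (hQ' : ∀ i, ∃ n, Fil n (Q' i))
    (hQ : ∀ p, Q p = g * p + ∑ i, MvPolynomial.pderiv i (Q' i p)) (k : ℕ)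
    (h4 : Cl4 d f (Q' 1) (k + 1)) :
    ∃ K0 : ℕ, ∀ K, K0 ≤ K → ∃ A1 B1 A2 B2 H2 : ℂ → ℂ[X][X],
      PF kh A1 ∧ PF kh B1 ∧ PF kh A2 ∧ PF kh B2 ∧ PF kh H2 ∧
      (∀ c, (A1 c).natDegree ≤ d * K + k + 1) ∧ (∀ c, (B1 c).natDegree ≤ d * K + k + 2) ∧
      ∀ s : ℕ, K + 1 ≤ s →
        chx (MvPolynomial.homogeneousComponent (d * s + k) (Q (f ^ (s + 1)))) =
        (chx (gk d k g) + kc (d * s + k + 3) * H2 s) * chx f ^ (s + 1) +
        dt ((A1 s + kc (d * s + k + 3) * A2 s) * chx f ^ (s - K)) +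
        derivative ((B1 s + kc (d * s + k + 3) * B2 s) * chx f ^ (s - K)) := by
  obtain ⟨K4, h4⟩ := h4
  choose nn hnn using hQ'
  choose K0 hK0 using fun i => step2 hd hf (nn i) (Q' i) (hnn i) (k + 1)
  refine ⟨∑ i, K0 i + K4, fun K hK => ?_⟩
  have hle : ∀ i, K0 i ≤ K := fun i => by
    have : K0 i ≤ ∑ i, K0 i :=
      Finset.single_le_sum (f := K0) (fun _ _ => Nat.zero_le _) (Finset.mem_univ i)
    omega
  obtain ⟨A', B', H', hA', hB', hH', hE'⟩ := h4 K (by omega)
  choose v hv hvh hvE using fun i => hK0 i K (hle i)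
  refine ⟨fun c => chx (v 0 c) - C X * chx (v 1 c), fun c => chx (v 2 c) - X * chx (v 1 c),
    A', B', H', pf_sub (pf_chx (hv 0)) (pf_mul (pf_const _) (pf_chx (hv 1))),
    pf_sub (pf_chx (hv 2)) (pf_mul (pf_const _) (pf_chx (hv 1))), hA', hB', hH', ?_, ?_, ?_⟩
  · intro c
    have h0 := chx_deg (hvh 0 c)
    have h1 := chx_deg (hvh 1 c)
    refine (natDegree_sub_le _ _).trans (max_le (by omega) ?_)
    refine (natDegree_C_mul_le _ _).trans (by omega)
  · intro c
    have h0 := chx_deg (hvh 2 c)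
    have h1 := chx_deg (hvh 1 c)
    refine (natDegree_sub_le _ _).trans (max_le (by omega) ?_)
    refine natDegree_mul_le.trans ?_
    rw [natDegree_X]
    omega
  · intro s hs
    have e0 : ∀ i, MvPolynomial.homogeneousComponent (d * s + k)
        (MvPolynomial.pderiv i (Q' i (f ^ (s + 1)))) =
        MvPolynomial.pderiv i (v i s * f ^ (s - K)) := by
      intro i
      rw [hc_pderiv, add_assoc (d * s), hvE i s hs]
    have e1 : (v 1 s * f ^ (s - K)).IsHomogeneous (d * s + k + 1) := by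
      rw [← hvE 1 s hs, ← add_assoc]
      exact MvPolynomial.homogeneousComponent_isHomogeneous _ _
    have e2 := hE' s hs
    rw [hvE 1 s hs] at e2
    rw [hQ, map_add, hc_gk hf, map_sum, Finset.sum_congr rfl fun i _ => e0 i,
      Fin.sum_univ_three, map_add, map_add, map_add, chx_pderiv0, chx_pderiv2, chx_pderiv1 e1]
    have e3 : (((d * s + k + 1 : ℕ) : ℂ) + 2) = (d * s + k + 3 : ℂ) := by push_cast; ring
    rw [e3, map_mul, map_pow, map_mul (f := chx) (v 0 s), map_mul (f := chx) (v 2 s), map_pow,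
      map_mul (f := chx) (v 1 s), map_pow]
    rw [map_mul, map_pow] at e2
    beta_reduce
    have e4 : kc (d * s + k + 3 : ℂ) * (chx (v 1 s) * chx f ^ (s - K)) =
        kc (d * s + k + 3 : ℂ) * H' s * chx f ^ (s + 1) +
        dt (kc (d * s + k + 3 : ℂ) * A' s * chx f ^ (s - K)) +
        derivative (kc (d * s + k + 3 : ℂ) * B' s * chx f ^ (s - K)) := by
      rw [e2, mul_assoc (kc _) (A' s), mul_assoc (kc _) (B' s), dt_kc, der_kc]
      ring
    rw [e4]
    have e5 : dt ((chx (v 0 s) - C X * chx (v 1 s) + kc (d * s + k + 3 : ℂ) * A' s) *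
        chx f ^ (s - K)) = dt (chx (v 0 s) * chx f ^ (s - K)) -
        dt (C X * (chx (v 1 s) * chx f ^ (s - K))) +
        dt (kc (d * s + k + 3 : ℂ) * A' s * chx f ^ (s - K)) := by
      rw [add_mul, sub_mul, dt_add, dt_sub, mul_assoc (C X)]
    have e6 : derivative ((chx (v 2 s) - X * chx (v 1 s) + kc (d * s + k + 3 : ℂ) * B' s) *
        chx f ^ (s - K)) = derivative (chx (v 2 s) * chx f ^ (s - K)) -
        derivative (X * (chx (v 1 s) * chx f ^ (s - K))) +
        derivative (kc (d * s + k + 3 : ℂ) * B' s * chx f ^ (s - K)) := by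
      rw [add_mul, sub_mul, derivative_add, derivative_sub, mul_assoc X]
    rw [e5, e6]
    ring

theorem pf_kc_lin (d k : ℕ) : PF kh (fun c => kc (d * c + k + 3)) := by
  refine pf_congr (pf_poly (κ := kh) (C (d : ℂ) * X + C (k : ℂ) + C 3)) fun c => ?_
  rw [eval_add, eval_add, eval_mul, eval_C, eval_X, eval_C, eval_C]
  rfl

theorem claim4 {d : ℕ} (hd : 0 < d) {f : MvPolynomial (Fin 3) ℂ} (hf : f.IsHomogeneous d) (n : ℕ) :
    ∀ (Q : Module.End ℂ (MvPolynomial (Fin 3) ℂ)), Fil n Q → ∀ k : ℕ, Cl4 d f Q k := by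
  induction n with
  | zero =>
    rintro Q ⟨g, hg⟩ k
    refine ⟨0, fun K _ => ⟨fun _ => 0, fun _ => 0, fun _ => chx (gk d k g), pf_const _, pf_const _,
      pf_const _, fun s hs => ?_⟩⟩
    rw [hg, hc_gk hf, map_mul, map_pow, zero_mul, dt_zero, derivative_zero, add_zero, add_zero]
  | succ n ih =>
    rintro Q ⟨g, Q', hQ', hQ⟩ k
    obtain ⟨K0, h⟩ := step4 hd hf Q g Q' (fun i => ⟨n, hQ' i⟩) hQ k (ih (Q' 1) (hQ' 1) (k + 1))
    refine ⟨K0, fun K hK => ?_⟩
    obtain ⟨A1, B1, A2, B2, H2, hA1, hB1, hA2, hB2, hH2, _, _, hE⟩ := h K hK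
    exact ⟨fun c => A1 c + kc (d * c + k + 3) * A2 c, fun c => B1 c + kc (d * c + k + 3) * B2 c,
      fun c => chx (gk d k g) + kc (d * c + k + 3) * H2 c,
      pf_add hA1 (pf_mul (pf_kc_lin d k) hA2), pf_add hB1 (pf_mul (pf_kc_lin d k) hB2),
      pf_add (pf_const _) (pf_mul (pf_kc_lin d k) hH2), hE⟩

theorem fil_dec {n : ℕ} {Q : Module.End ℂ (MvPolynomial (Fin 3) ℂ)} (h : Fil n Q) :
    ∃ (g : MvPolynomial (Fin 3) ℂ) (Q' : Fin 3 → Module.End ℂ (MvPolynomial (Fin 3) ℂ)),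
      (∀ i, ∃ n, Fil n (Q' i)) ∧ ∀ p, Q p = g * p + ∑ i, MvPolynomial.pderiv i (Q' i p) := by
  cases n with
  | zero =>
    obtain ⟨g, hg⟩ := h
    refine ⟨g, fun _ => 0, fun i => ⟨0, 0, fun p => ?_⟩, fun p => ?_⟩
    · rw [LinearMap.zero_apply, zero_mul]
    · rw [hg]
      simp
  | succ n =>
    obtain ⟨g, Q', hQ', hQ⟩ := h
    exact ⟨g, Q', fun i => ⟨n, hQ' i⟩, hQ⟩

theorem kh_inj : Function.Injective kh := (C_injective (R := ℂ[X])).comp (C_injective (R := ℂ))

theorem main (hFa : S_Fa) (d : ℕ) (f : MvPolynomial (Fin 3) ℂ) (b : ℂ[X]) (hd : 0 < d)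
    (hf : f.IsHomogeneous d) (hf0 : f ≠ 0) (hb : IsBFunction f b) :
  ∃ (K : ℕ) (A B H : ℂ → ℂ[X][X]), PF kh A ∧ PF kh B ∧ PF kh H ∧
    (∀ c : ℂ, kc (b.eval c) * chx f ^ (K + 1) = kc (d * c + 3) * H c * chx f ^ (K + 2) +
      chx f * (dt (A c) + derivative (B c)) +
      kc (c - K) * (dt (chx f) * A c + derivative (chx f) * B c)) ∧
    (A (-3 / d)).natDegree ≤ d * K + 1 ∧ (B (-3 / d)).natDegree ≤ d * K + 2 := by
  obtain ⟨P, hP⟩ := hb
  have hF0 : chx f ≠ 0 := fun h => hf0 (chx_inj hf h)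
  -- the operators
  have h1 : ∀ m : ℕ, ∃ K0 : ℕ, ∀ K, K0 ≤ K → ∃ A1 B1 A2 B2 H2 : ℂ → ℂ[X][X],
      PF kh A1 ∧ PF kh B1 ∧ PF kh A2 ∧ PF kh B2 ∧ PF kh H2 ∧
      (∀ c, (A1 c).natDegree ≤ d * K + 1) ∧ (∀ c, (B1 c).natDegree ≤ d * K + 2) ∧
      ∀ s : ℕ, K + 1 ≤ s →
        chx (MvPolynomial.homogeneousComponent (d * s)
          ((P m : Module.End ℂ (MvPolynomial (Fin 3) ℂ)) (f ^ (s + 1)))) =
        kc (d * s + 3) * H2 s * chx f ^ (s + 1) +
        dt ((A1 s + kc (d * s + 3) * A2 s) * chx f ^ (s - K)) +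
        derivative ((B1 s + kc (d * s + 3) * B2 s) * chx f ^ (s - K)) := by
    intro m
    obtain ⟨n, hn⟩ := hFa (P m).1 (P m).2
    obtain ⟨g, Q', hQ', hQ⟩ := fil_dec hn
    obtain ⟨n1, hn1⟩ := hQ' 1
    obtain ⟨K0, h⟩ := step4 hd hf _ g Q' hQ' hQ 0 (claim4 hd hf n1 (Q' 1) hn1 (0 + 1))
    refine ⟨K0, fun K hK => ?_⟩
    obtain ⟨A1, B1, A2, B2, H2, hA1, hB1, hA2, hB2, hH2, hAd, hBd, hE⟩ := h K hK
    refine ⟨A1, B1, A2, B2, H2, hA1, hB1, hA2, hB2, hH2, fun c => ?_, fun c => ?_, fun s hs => ?_⟩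
    · exact (hAd c).trans (by omega)
    · exact (hBd c).trans (by omega)
    · have := hE s hs
      have hg : gk d 0 g = 0 := by
        rw [gk, if_neg (by omega)]
      rw [hg, map_zero, zero_add, add_zero, Nat.cast_zero, add_zero] at this
      exact this
  choose K0 hK0 using h1
  set K : ℕ := ∑ m ∈ P.support, K0 m with hK
  have h2 : ∀ m : ℕ, ∃ A1 B1 A2 B2 H2 : ℂ → ℂ[X][X],
      PF kh A1 ∧ PF kh B1 ∧ PF kh A2 ∧ PF kh B2 ∧ PF kh H2 ∧
      (∀ c, (A1 c).natDegree ≤ d * K + 1) ∧ (∀ c, (B1 c).natDegree ≤ d * K + 2) ∧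
      (m ∈ P.support → ∀ s : ℕ, K + 1 ≤ s →
        chx (MvPolynomial.homogeneousComponent (d * s)
          ((P m : Module.End ℂ (MvPolynomial (Fin 3) ℂ)) (f ^ (s + 1)))) =
        kc (d * s + 3) * H2 s * chx f ^ (s + 1) +
        dt ((A1 s + kc (d * s + 3) * A2 s) * chx f ^ (s - K)) +
        derivative ((B1 s + kc (d * s + 3) * B2 s) * chx f ^ (s - K))) := by
    intro m
    by_cases hm : m ∈ P.support
    · obtain ⟨A1, B1, A2, B2, H2, hA1, hB1, hA2, hB2, hH2, hAd, hBd, hE⟩ := hK0 m K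
        (Finset.single_le_sum (f := K0) (fun _ _ => Nat.zero_le _) hm)
      exact ⟨A1, B1, A2, B2, H2, hA1, hB1, hA2, hB2, hH2, hAd, hBd, fun _ => hE⟩
    · refine ⟨fun _ => 0, fun _ => 0, fun _ => 0, fun _ => 0, fun _ => 0, pf_const _, pf_const _,
        pf_const _, pf_const _, pf_const _, fun c => ?_, fun c => ?_, fun h => absurd h hm⟩
      · rw [natDegree_zero]; omega
      · rw [natDegree_zero]; omega
  choose A1 B1 A2 B2 H2 hA1 hB1 hA2 hB2 hH2 hAd hBd hE using h2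
  have hpow : ∀ m : ℕ, PF kh (fun c => kc (c ^ m)) := by
    intro m
    refine pf_congr (pf_poly (κ := kh) (X ^ m)) fun c => ?_
    rw [eval_pow, eval_X]
    rfl
  have hlin : PF kh (fun c => kc (d * c + 3)) := by
    refine pf_congr (pf_kc_lin d 0) fun c => ?_
    rw [Nat.cast_zero, add_zero]
  set A : ℂ → ℂ[X][X] := fun c => ∑ m ∈ P.support, kc (c ^ m) *
    (A1 m c + kc (d * c + 3) * A2 m c) with hAdef
  set B : ℂ → ℂ[X][X] := fun c => ∑ m ∈ P.support, kc (c ^ m) *
    (B1 m c + kc (d * c + 3) * B2 m c) with hBdef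
  set H : ℂ → ℂ[X][X] := fun c => ∑ m ∈ P.support, kc (c ^ m) * H2 m c with hHdef
  have hA : PF kh A := pf_sum _ fun m _ => pf_mul (hpow m) (pf_add (hA1 m) (pf_mul hlin (hA2 m)))
  have hB : PF kh B := pf_sum _ fun m _ => pf_mul (hpow m) (pf_add (hB1 m) (pf_mul hlin (hB2 m)))
  have hH : PF kh H := pf_sum _ fun m _ => pf_mul (hpow m) (hH2 m)
  have hdt : ∀ {v : ℂ → ℂ[X][X]}, PF kh v → PF kh (fun c => dt (v c)) := fun {v} hv =>
    pf_lin (κ' := kh) hv { toFun := dt, map_zero' := dt_zero, map_add' := dt_add }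
      (fun c a => dt_kc c a)
  have hder : ∀ {v : ℂ → ℂ[X][X]}, PF kh v → PF kh (fun c => derivative (v c)) := fun {v} hv =>
    pf_lin (κ' := kh) hv (derivative : ℂ[X][X] →ₗ[ℂ[X]] ℂ[X][X]).toAddMonoidHom
      (fun c a => der_kc c a)
  have hroot : (d : ℂ) * (-3 / d) + 3 = 0 := by
    have : (d : ℂ) ≠ 0 := by exact_mod_cast hd.ne'
    field_simp
    ring
  refine ⟨K, A, B, H, hA, hB, hH, fun c => ?_, ?_, ?_⟩
  · refine pf_eq kh_inj (F := fun c => kc (b.eval c) * chx f ^ (K + 1))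
      (G := fun c => kc (d * c + 3) * H c * chx f ^ (K + 2) +
      chx f * (dt (A c) + derivative (B c)) +
      kc (c - K) * (dt (chx f) * A c + derivative (chx f) * B c)) ?_ ?_ (K + 1) ?_ c
    · exact pf_mul (pf_poly (κ := kh) b) (pf_const _)
    · refine pf_add (pf_add (pf_mul (pf_mul hlin hH) (pf_const _)) (pf_mul (pf_const _)
        (pf_add (hdt hA) (hder hB)))) (pf_mul ?_ (pf_add (pf_mul (pf_const _) hA)
        (pf_mul (pf_const _) hB)))
      refine pf_congr (pf_poly (κ := kh) (X - C (K : ℂ))) fun c => ?_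
      rw [eval_sub, eval_X, eval_C]
      rfl
    · intro s hs
      obtain ⟨m, rfl⟩ : ∃ m, s = K + 1 + m := ⟨s - (K + 1), by omega⟩
      have e1 := hP (K + 1 + m)
      have e2 := congrArg (fun p => chx (MvPolynomial.homogeneousComponent (d * (K + 1 + m)) p)) e1
      beta_reduce at e2
      rw [MvPolynomial.homogeneousComponent_C_mul,
        MvPolynomial.homogeneousComponent_of_mem (hf.pow (K + 1 + m)), if_pos rfl,
        map_mul, chx_C, map_pow, Finsupp.sum, map_sum, map_sum] at e2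
      have e3 : ∀ j ∈ P.support, chx (MvPolynomial.homogeneousComponent (d * (K + 1 + m))
          ((((K + 1 + m : ℕ) : ℂ) ^ j) • (P j : Module.End ℂ (MvPolynomial (Fin 3) ℂ))
            (f ^ (K + 1 + m + 1)))) = kc (((K + 1 + m : ℕ) : ℂ) ^ j) *
          (kc (d * ((K + 1 + m : ℕ) : ℂ) + 3) * H2 j ((K + 1 + m : ℕ) : ℂ) *
            chx f ^ (K + 1 + m + 1) +
          dt ((A1 j ((K + 1 + m : ℕ) : ℂ) + kc (d * ((K + 1 + m : ℕ) : ℂ) + 3) *
            A2 j ((K + 1 + m : ℕ) : ℂ)) * chx f ^ (K + 1 + m - K)) +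
          derivative ((B1 j ((K + 1 + m : ℕ) : ℂ) + kc (d * ((K + 1 + m : ℕ) : ℂ) + 3) *
            B2 j ((K + 1 + m : ℕ) : ℂ)) * chx f ^ (K + 1 + m - K))) := by
        intro j hj
        rw [← hE j hj (K + 1 + m) (by omega), map_smul, MvPolynomial.smul_eq_C_mul, map_mul,
          chx_C]
      rw [Finset.sum_congr rfl e3] at e2
      have hs1 : K + 1 + m - K = m + 1 := by omega
      rw [hs1] at e2
      have e4 : ∑ j ∈ P.support, kc (((K + 1 + m : ℕ) : ℂ) ^ j) *
          (kc (d * ((K + 1 + m : ℕ) : ℂ) + 3) * H2 j ((K + 1 + m : ℕ) : ℂ) *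
            chx f ^ (K + 1 + m + 1) +
          dt ((A1 j ((K + 1 + m : ℕ) : ℂ) + kc (d * ((K + 1 + m : ℕ) : ℂ) + 3) *
            A2 j ((K + 1 + m : ℕ) : ℂ)) * chx f ^ (m + 1)) +
          derivative ((B1 j ((K + 1 + m : ℕ) : ℂ) + kc (d * ((K + 1 + m : ℕ) : ℂ) + 3) *
            B2 j ((K + 1 + m : ℕ) : ℂ)) * chx f ^ (m + 1))) =
          kc (d * ((K + 1 + m : ℕ) : ℂ) + 3) * H ((K + 1 + m : ℕ) : ℂ) * chx f ^ (K + 1 + m + 1) +
          dt (A ((K + 1 + m : ℕ) : ℂ) * chx f ^ (m + 1)) +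
          derivative (B ((K + 1 + m : ℕ) : ℂ) * chx f ^ (m + 1)) := by
        have hdsum : ∀ (F : ℕ → ℂ[X][X]), dt (∑ j ∈ P.support, F j) =
            ∑ j ∈ P.support, dt (F j) := fun F =>
          map_sum ({ toFun := dt, map_zero' := dt_zero, map_add' := dt_add } :
            ℂ[X][X] →+ ℂ[X][X]) F P.support
        rw [hAdef, hBdef, hHdef]
        beta_reduce
        rw [Finset.sum_mul, Finset.sum_mul, hdsum, derivative_sum, Finset.mul_sum, Finset.sum_mul,
          ← Finset.sum_add_distrib, ← Finset.sum_add_distrib]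
        refine Finset.sum_congr rfl fun j _ => ?_
        rw [mul_assoc (kc _) (A1 j _ + _), mul_assoc (kc _) (B1 j _ + _), dt_kc, der_kc]
        ring
      rw [e4] at e2
      have hdpow : ∀ n : ℕ, dt (chx f ^ (n + 1)) = (n + 1 : ℕ) * chx f ^ n * dt (chx f) := by
        intro n
        induction n with
        | zero => rw [pow_one, pow_zero]; push_cast; ring
        | succ n ih => rw [pow_succ, dt_mul, ih]; push_cast; ring
      rw [dt_mul, hdpow, derivative_mul, derivative_pow_succ] at e2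
      have hk : kc ((((K + 1 + m : ℕ) : ℂ)) - K) = ((m + 1 : ℕ) : ℂ[X][X]) := by
        rw [← kc_nat]
        congr 1
        push_cast
        ring
      apply mul_left_cancel₀ (pow_ne_zero m hF0)
      rw [hk]
      have e5 : (C ((m : ℂ[X]) + 1) : ℂ[X][X]) = (m : ℂ[X][X]) + 1 := by
        simp
      have hm1 : ((m + 1 : ℕ) : ℂ[X][X]) = (m : ℂ[X][X]) + 1 := by push_cast; ring
      rw [e5, hm1] at e2
      rw [hm1]
      linear_combination e2
  · rw [hAdef]
    beta_reduce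
    refine natDegree_sum_le_of_forall_le _ _ fun m _ => ?_
    rw [hroot]
    have : kc 0 = 0 := by simp [kc]
    rw [this, zero_mul, add_zero, kc]
    exact (natDegree_C_mul_le _ _).trans (hAd m _)
  · rw [hBdef]
    beta_reduce
    refine natDegree_sum_le_of_forall_le _ _ fun m _ => ?_
    rw [hroot]
    have : kc 0 = 0 := by simp [kc]
    rw [this, zero_mul, add_zero, kc]
    exact (natDegree_C_mul_le _ _).trans (hBd m _)

end Pool.Agent.H942.LP.FN

namespace Pool.Agent.H942.LP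

theorem t_F (h : S_Fa) : S_F := FN.main h

end Pool.Agent.H942.LP
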