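import Pool.Agent.H942.LP.DefF

set_option autoImplicit false

/-! # Every operator of the Weyl algebra can be written with all derivatives on the left -/

namespace Pool.Agent.H942.LP

open Polynomial Pool.Agent.Helper748.TP Pool.Agent.H628R4.TP

namespace FaN

/-- the operators on polynomials -/
abbrev E3 : Type := Module.End ℂ (MvPolynomial (Fin 3) ℂ)

lemma fil_zero' (n : ℕ) : Fil n (0 : E3) := by
  induction n with
  | zero => exact ⟨0, fun p => by rw [LinearMap.zero_apply, zero_mul]⟩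
  | succ n ih =>
    refine ⟨0, fun _ => 0, fun _ => ih, fun p => ?_⟩
    simp

lemma fil_succ (n : ℕ) : ∀ Q : E3, Fil n Q → Fil (n + 1) Q := by
  induction n with
  | zero =>
    rintro Q ⟨g, hg⟩
    refine ⟨g, fun _ => 0, fun _ => fil_zero' 0, fun p => ?_⟩
    rw [hg]
    simp
  | succ n ih =>
    rintro Q ⟨g, Q', hQ', hQ⟩
    exact ⟨g, Q', fun i => ih _ (hQ' i), hQ⟩

lemma fil_mono {n m : ℕ} (h : n ≤ m) {Q : E3} (hQ : Fil n Q) : Fil m Q := by
  induction m, h using Nat.le_induction with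
  | base => exact hQ
  | succ m _ ih => exact fil_succ m Q ih

lemma fil_add (n : ℕ) : ∀ Q R : E3, Fil n Q → Fil n R → Fil n (Q + R) := by
  induction n with
  | zero =>
    rintro Q R ⟨g, hg⟩ ⟨g', hg'⟩
    refine ⟨g + g', fun p => ?_⟩
    rw [LinearMap.add_apply, hg, hg', add_mul]
  | succ n ih =>
    rintro Q R ⟨g, Q', hQ', hQ⟩ ⟨h, R', hR', hR⟩
    refine ⟨g + h, fun i => Q' i + R' i, fun i => ih _ _ (hQ' i) (hR' i), fun p => ?_⟩
    rw [LinearMap.add_apply, hQ, hR, add_mul]
    simp only [LinearMap.add_apply, map_add, Finset.sum_add_distrib]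
    ring

lemma fil_smul (n : ℕ) (c : ℂ) : ∀ Q : E3, Fil n Q → Fil n (c • Q) := by
  induction n with
  | zero =>
    rintro Q ⟨g, hg⟩
    refine ⟨c • g, fun p => ?_⟩
    rw [LinearMap.smul_apply, hg, smul_mul_assoc]
  | succ n ih =>
    rintro Q ⟨g, Q', hQ', hQ⟩
    refine ⟨c • g, fun i => c • Q' i, fun i => ih _ (hQ' i), fun p => ?_⟩
    rw [LinearMap.smul_apply, hQ, smul_add, smul_mul_assoc, Finset.smul_sum]
    congr 1
    refine Finset.sum_congr rfl fun i _ => ?_
    rw [LinearMap.smul_apply, Derivation.map_smul]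

/-- multiplication by a variable -/
noncomputable def mx (j : Fin 3) : E3 := LinearMap.mulLeft ℂ (MvPolynomial.X j)

/-- a partial derivative -/
noncomputable def pd (j : Fin 3) : E3 :=
  ((MvPolynomial.pderiv j : Derivation ℂ (MvPolynomial (Fin 3) ℂ) (MvPolynomial (Fin 3) ℂ)) :
    MvPolynomial (Fin 3) ℂ →ₗ[ℂ] MvPolynomial (Fin 3) ℂ)

lemma mx_apply (j : Fin 3) (p : MvPolynomial (Fin 3) ℂ) : mx j p = MvPolynomial.X j * p := rfl

lemma pd_apply (j : Fin 3) (p : MvPolynomial (Fin 3) ℂ) : pd j p = MvPolynomial.pderiv j p := rfl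

lemma fil_mx (j : Fin 3) (n : ℕ) : ∀ Q : E3, Fil n Q → Fil n (mx j * Q) := by
  induction n with
  | zero =>
    rintro Q ⟨g, hg⟩
    refine ⟨MvPolynomial.X j * g, fun p => ?_⟩
    rw [Module.End.mul_apply, hg, mx_apply, mul_assoc]
  | succ n ih =>
    rintro Q ⟨g, Q', hQ', hQ⟩
    have h1 : Fil (n + 1) (mx j * Q + Q' j) := by
      refine ⟨MvPolynomial.X j * g, fun i => mx j * Q' i, fun i => ih _ (hQ' i), fun p => ?_⟩
      rw [LinearMap.add_apply, Module.End.mul_apply, hQ, mx_apply, mul_add, Finset.mul_sum,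
        mul_assoc, add_assoc]
      congr 1
      have h2 : ∀ i, MvPolynomial.pderiv i ((mx j * Q' i) p) =
          MvPolynomial.X j * MvPolynomial.pderiv i (Q' i p) +
            (if i = j then Q' i p else 0) := by
        intro i
        rw [Module.End.mul_apply, mx_apply, Derivation.leibniz, smul_eq_mul, smul_eq_mul]
        congr 1
        by_cases hij : i = j
        · rw [if_pos hij, hij, MvPolynomial.pderiv_X_self, mul_one]
        · rw [if_neg hij, MvPolynomial.pderiv_X_of_ne (Ne.symm hij), mul_zero]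
      rw [Finset.sum_congr rfl fun i _ => h2 i, Finset.sum_add_distrib]
      congr 1
      rw [Finset.sum_ite_eq' Finset.univ j, if_pos (Finset.mem_univ j)]
    have h2 : Fil (n + 1) ((-1 : ℂ) • Q' j) := fil_smul _ _ _ (fil_succ _ _ (hQ' j))
    have h3 := fil_add _ _ _ h1 h2
    have h4 : mx j * Q + Q' j + (-1 : ℂ) • Q' j = mx j * Q := by
      rw [neg_one_smul ℂ (Q' j)]
      abel
    rwa [h4] at h3

lemma fil_pd (j : Fin 3) (n : ℕ) (Q : E3) (hQ : Fil n Q) : Fil (n + 1) (pd j * Q) := by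
  refine ⟨0, fun i => if i = j then Q else 0, fun i => ?_, fun p => ?_⟩
  · by_cases hij : i = j
    · simp only [if_pos hij]
      exact hQ
    · simp only [if_neg hij]
      exact fil_zero' n
  · rw [Module.End.mul_apply, pd_apply, zero_mul, zero_add, Finset.sum_eq_single j]
    · change _ = MvPolynomial.pderiv j ((if j = j then Q else 0) p)
      rw [if_pos rfl]
    · intro i _ hij
      change MvPolynomial.pderiv i ((if i = j then Q else 0) p) = 0
      rw [if_neg hij, LinearMap.zero_apply, map_zero]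
    · intro h
      exact absurd (Finset.mem_univ j) h

end FaN

open FaN in
theorem t_Fa : S_Fa := by
  intro Q hQ
  have key : ∀ R ∈ weylS (Fin 3), ∀ (n : ℕ) (Q : E3), Fil n Q → ∃ m, Fil m (R * Q) := by
    intro R hR
    unfold weylS at hR
    induction hR using Algebra.adjoin_induction with
    | mem R hR =>
      intro n Q hQ
      rcases hR with ⟨j, rfl⟩ | ⟨j, rfl⟩
      · exact ⟨n, fil_mx j n Q hQ⟩
      · exact ⟨n + 1, fil_pd j n Q hQ⟩
    | algebraMap c =>
      intro n Q hQ
      refine ⟨n, ?_⟩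
      rw [← Algebra.smul_def]
      exact fil_smul n c Q hQ
    | add R R' _ _ h1 h2 =>
      intro n Q hQ
      obtain ⟨m1, h1⟩ := h1 n Q hQ
      obtain ⟨m2, h2⟩ := h2 n Q hQ
      refine ⟨max m1 m2, ?_⟩
      rw [add_mul]
      exact fil_add _ _ _ (fil_mono (le_max_left _ _) h1) (fil_mono (le_max_right _ _) h2)
    | mul R R' _ _ h1 h2 =>
      intro n Q hQ
      obtain ⟨m2, h2⟩ := h2 n Q hQ
      obtain ⟨m1, h1⟩ := h1 m2 _ h2
      refine ⟨m1, ?_⟩
      rw [mul_assoc]
      exact h1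
  obtain ⟨m, hm⟩ := key Q hQ 0 1 ⟨1, fun p => by rw [Module.End.one_apply, one_mul]⟩
  rw [mul_one] at hm
  exact ⟨m, hm⟩

end Pool.Agent.H942.LP
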