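import Pool.Agent.H942.LP.DefL

set_option autoImplicit false

/-! # The Lipschitz lemma: proof from its algebraic part -/

namespace Pool.Agent.H942.LP.LN

open Finset Filter Topology

/-- local representation of a meromorphic function -/
lemma rep {f : ℂ → ℂ} (hf : MeromorphicAt f 0) {ρ : ℤ}
    (h : (ρ : WithTop ℤ) ≤ meromorphicOrderAt f 0) :
    ∃ F : ℂ → ℂ, AnalyticAt ℂ F 0 ∧ (∀ᶠ u in 𝓝[≠] (0 : ℂ), f u = u ^ ρ * F u) ∧
      (meromorphicOrderAt f 0 = ρ → F 0 ≠ 0) := by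
  rcases eq_or_ne (meromorphicOrderAt f 0) ⊤ with htop | htop
  · refine ⟨fun _ => 0, analyticAt_const, ?_, ?_⟩
    · filter_upwards [meromorphicOrderAt_eq_top_iff.1 htop] with u hu
      rw [hu, mul_zero]
    · intro h1
      rw [htop] at h1
      exact absurd h1 (WithTop.top_ne_coe)
  · obtain ⟨n, hn⟩ := WithTop.ne_top_iff_exists.1 htop
    obtain ⟨g, hg, hg0, hfg⟩ := (meromorphicOrderAt_eq_int_iff hf).1 hn.symm
    have hρn : ρ ≤ n := by
      rw [← hn] at h
      exact_mod_cast h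
    obtain ⟨m, hm⟩ : ∃ m : ℕ, n = ρ + m := ⟨(n - ρ).toNat, by omega⟩
    refine ⟨fun u => u ^ m * g u, (analyticAt_id.pow m).mul hg, ?_, ?_⟩
    · filter_upwards [hfg, self_mem_nhdsWithin] with u hu hu0
      have hu0' : u ≠ 0 := hu0
      rw [hu, sub_zero, smul_eq_mul, hm, zpow_add₀ hu0', zpow_natCast]
      ring
    · intro h1
      rw [← hn] at h1
      have h2 : n = ρ := by exact_mod_cast h1
      have h3 : m = 0 := by omega
      simp only [h3, pow_zero, one_mul]
      exact hg0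

/-- the derivative of a represented function -/
lemma deriv_rep {f F : ℂ → ℂ} {ρ : ℤ} (hF : AnalyticAt ℂ F 0)
    (h : ∀ᶠ u in 𝓝[≠] (0 : ℂ), f u = u ^ ρ * F u) :
    ∀ᶠ u in 𝓝[≠] (0 : ℂ), deriv f u = ρ * u ^ (ρ - 1) * F u + u ^ ρ * deriv F u := by
  have h1 := eventually_eventually_nhdsWithin.2 h
  have h2 : ∀ᶠ u in 𝓝[≠] (0 : ℂ), AnalyticAt ℂ F u :=
    hF.eventually_analyticAt.filter_mono nhdsWithin_le_nhds
  filter_upwards [h1, h2, self_mem_nhdsWithin] with u hu hFu hu0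
  have hu0' : u ≠ 0 := hu0
  have h3 : f =ᶠ[𝓝 u] fun v => v ^ ρ * F v := by
    have : 𝓝[≠] (0 : ℂ) ≤ 𝓝[≠] (0 : ℂ) := le_refl _
    have hopen : 𝓝[{(0 : ℂ)}ᶜ] u = 𝓝 u := isOpen_compl_singleton.nhdsWithin_eq hu0
    rw [hopen] at hu
    exact hu
  rw [h3.deriv_eq]
  exact ((hasDerivAt_zpow ρ u (Or.inl hu0')).mul hFu.differentiableAt.hasDerivAt).deriv

/-- the limit of the function -/
lemma lim_rep {f F : ℂ → ℂ} {ρ : ℤ} (hF : AnalyticAt ℂ F 0)
    (h : ∀ᶠ u in 𝓝[≠] (0 : ℂ), f u = u ^ ρ * F u) :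
    Tendsto (fun u => u ^ (-ρ) * f u) (𝓝[≠] 0) (𝓝 (F 0)) := by
  have h1 : Tendsto F (𝓝[≠] 0) (𝓝 (F 0)) :=
    hF.continuousAt.tendsto.mono_left nhdsWithin_le_nhds
  refine h1.congr' ?_
  filter_upwards [h, self_mem_nhdsWithin] with u hu hu0
  have hu0' : u ≠ 0 := hu0
  rw [hu, ← mul_assoc, ← zpow_add₀ hu0']
  simp

/-- the limit of the derivative -/
lemma lim_deriv {f F : ℂ → ℂ} {ρ : ℤ} (hF : AnalyticAt ℂ F 0)
    (h : ∀ᶠ u in 𝓝[≠] (0 : ℂ), f u = u ^ ρ * F u) :
    Tendsto (fun u => u ^ (1 - ρ) * deriv f u) (𝓝[≠] 0) (𝓝 (ρ * F 0)) := by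
  have hc : Tendsto F (𝓝[≠] 0) (𝓝 (F 0)) :=
    hF.continuousAt.tendsto.mono_left nhdsWithin_le_nhds
  have hc' : Tendsto (deriv F) (𝓝[≠] 0) (𝓝 (deriv F 0)) :=
    hF.deriv.continuousAt.tendsto.mono_left nhdsWithin_le_nhds
  have hid : Tendsto (fun u : ℂ => u) (𝓝[≠] 0) (𝓝 0) :=
    tendsto_id.mono_left nhdsWithin_le_nhds
  have h1 : Tendsto (fun u => (ρ : ℂ) * F u + u * deriv F u) (𝓝[≠] 0) (𝓝 (ρ * F 0)) := by
    have := (hc.const_mul (ρ : ℂ)).add (hid.mul hc')
    simpa using this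
  refine h1.congr' ?_
  filter_upwards [deriv_rep hF h, self_mem_nhdsWithin] with u hu hu0
  have hu0' : u ≠ 0 := hu0
  have e1 : u ^ (1 - ρ) * u ^ (ρ - 1) = 1 := by
    rw [← zpow_add₀ hu0']
    simp
  have e2 : u ^ (1 - ρ) * u ^ ρ = u := by
    rw [← zpow_add₀ hu0']
    simp
  rw [hu]
  calc (ρ : ℂ) * F u + u * deriv F u =
        ρ * (u ^ (1 - ρ) * u ^ (ρ - 1)) * F u + (u ^ (1 - ρ) * u ^ ρ) * deriv F u := by
        rw [e1, e2, mul_one]
    _ = _ := by ring

/-- a function which is small -/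
lemma lim_zero {f F : ℂ → ℂ} {ρ κ : ℤ} (hF : ContinuousAt F 0) (hρ : ρ < κ)
    (h : ∀ᶠ u in 𝓝[≠] (0 : ℂ), f u = u ^ κ * F u) :
    Tendsto (fun u => u ^ (-ρ) * f u) (𝓝[≠] 0) (𝓝 0) := by
  obtain ⟨m, hm⟩ : ∃ m : ℕ, κ = ρ + 1 + m := ⟨(κ - ρ - 1).toNat, by omega⟩
  have hid : Tendsto (fun u : ℂ => u) (𝓝[≠] 0) (𝓝 0) :=
    tendsto_id.mono_left nhdsWithin_le_nhds
  have hc : Tendsto F (𝓝[≠] 0) (𝓝 (F 0)) := hF.tendsto.mono_left nhdsWithin_le_nhds
  have h1 : Tendsto (fun u => u * u ^ m * F u) (𝓝[≠] 0) (𝓝 0) := by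
    have := (hid.mul (hid.pow m)).mul hc
    simpa using this
  refine h1.congr' ?_
  filter_upwards [h, self_mem_nhdsWithin] with u hu hu0
  have hu0' : u ≠ 0 := hu0
  have e1 : u ^ (-ρ) * u ^ κ = u * u ^ m := by
    rw [← zpow_add₀ hu0', hm, show -ρ + (ρ + 1 + (m : ℤ)) = 1 + (m : ℤ) by ring,
      zpow_add₀ hu0', zpow_one, zpow_natCast]
  rw [hu, ← mul_assoc, e1]

/-- representation of an analytic function -/
lemma arep {f : ℂ → ℂ} (hf : AnalyticAt ℂ f 0) (hne : ∀ᶠ u in 𝓝[≠] (0 : ℂ), f u ≠ 0) :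
    analyticOrderAt f 0 = (analyticOrderNatAt f 0 : ℕ) ∧
    ∃ A : ℂ → ℂ, AnalyticAt ℂ A 0 ∧ A 0 ≠ 0 ∧
      ∀ᶠ u in 𝓝[≠] (0 : ℂ), f u = u ^ ((analyticOrderNatAt f 0 : ℕ) : ℤ) * A u := by
  have htop : analyticOrderAt f 0 ≠ ⊤ := by
    intro h1
    have h2 : ∀ᶠ u in 𝓝[≠] (0 : ℂ), f u = 0 :=
      (analyticOrderAt_eq_top.1 h1).filter_mono nhdsWithin_le_nhds
    obtain ⟨u, hu1, hu2⟩ := (hne.and h2).exists
    exact hu1 hu2
  refine ⟨(Nat.cast_analyticOrderNatAt htop).symm, ?_⟩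
  obtain ⟨A, hA, hA0, hfA⟩ := hf.analyticOrderAt_ne_top.1 htop
  refine ⟨A, hA, hA0, ?_⟩
  filter_upwards [hfA.filter_mono nhdsWithin_le_nhds] with u hu
  rw [hu, sub_zero, smul_eq_mul, zpow_natCast]

lemma ne_of_ne {A : ℂ → ℂ} (hA : AnalyticAt ℂ A 0) (hA0 : A 0 ≠ 0) :
    ∀ᶠ u in 𝓝[≠] (0 : ℂ), A u ≠ 0 :=
  (hA.continuousAt.eventually_ne hA0).filter_mono nhdsWithin_le_nhds

/-- the limit of the logarithmic derivative -/
lemma lim_log {f A : ℂ → ℂ} {κ : ℤ} (hA : AnalyticAt ℂ A 0) (hA0 : A 0 ≠ 0)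
    (h : ∀ᶠ u in 𝓝[≠] (0 : ℂ), f u = u ^ κ * A u) :
    Tendsto (fun u => u * (deriv f u / f u)) (𝓝[≠] 0) (𝓝 (κ : ℂ)) := by
  have hid : Tendsto (fun u : ℂ => u) (𝓝[≠] 0) (𝓝 0) :=
    tendsto_id.mono_left nhdsWithin_le_nhds
  have hc : Tendsto A (𝓝[≠] 0) (𝓝 (A 0)) :=
    hA.continuousAt.tendsto.mono_left nhdsWithin_le_nhds
  have hc' : Tendsto (deriv A) (𝓝[≠] 0) (𝓝 (deriv A 0)) :=
    hA.deriv.continuousAt.tendsto.mono_left nhdsWithin_le_nhds
  have h1 : Tendsto (fun u => (κ : ℂ) + u * (deriv A u / A u)) (𝓝[≠] 0) (𝓝 (κ : ℂ)) := by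
    have := (hid.mul (hc'.div hc hA0)).const_add (κ : ℂ)
    simpa using this
  refine h1.congr' ?_
  filter_upwards [deriv_rep hA h, h, ne_of_ne hA hA0, self_mem_nhdsWithin] with u hu1 hu2 hu3 hu0
  have hu0' : u ≠ 0 := hu0
  have hz : u ^ κ ≠ 0 := zpow_ne_zero _ hu0'
  rw [hu1, hu2, zpow_sub_one₀ hu0']
  field_simp

/-- the difference of two logarithmic derivatives -/
lemma log_diff {f g A B C : ℂ → ℂ} {κ κ' : ℤ} (hA : AnalyticAt ℂ A 0) (hA0 : A 0 ≠ 0)
    (hB : AnalyticAt ℂ B 0) (hB0 : B 0 ≠ 0) (hC : AnalyticAt ℂ C 0)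
    (hf : ∀ᶠ u in 𝓝[≠] (0 : ℂ), f u = u ^ κ * A u)
    (hg : ∀ᶠ u in 𝓝[≠] (0 : ℂ), g u = u ^ κ * B u)
    (hfg : ∀ᶠ u in 𝓝[≠] (0 : ℂ), f u - g u = u ^ κ' * C u)
    (hdf : ∀ᶠ u in 𝓝[≠] (0 : ℂ), DifferentiableAt ℂ f u)
    (hdg : ∀ᶠ u in 𝓝[≠] (0 : ℂ), DifferentiableAt ℂ g u) :
    ∃ H : ℂ → ℂ, ContinuousAt H 0 ∧ ∀ᶠ u in 𝓝[≠] (0 : ℂ),
      u * (deriv f u / f u - deriv g u / g u) = u ^ (κ' - κ) * H u := by
  refine ⟨fun u => ((κ' * C u + u * deriv C u) * B u - (κ * B u + u * deriv B u) * C u) /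
    (A u * B u), ?_, ?_⟩
  · have c1 := hA.continuousAt
    have c2 := hB.continuousAt
    have c3 := hC.continuousAt
    have c4 := hB.deriv.continuousAt
    have c5 := hC.deriv.continuousAt
    refine ContinuousAt.div ?_ (c1.mul c2) (mul_ne_zero hA0 hB0)
    exact (((continuousAt_const.mul c3).add (continuousAt_id.mul c5)).mul c2).sub
      (((continuousAt_const.mul c2).add (continuousAt_id.mul c4)).mul c3)
  · filter_upwards [hf, hg, hfg, deriv_rep hB hg, deriv_rep hC hfg, ne_of_ne hA hA0,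
      ne_of_ne hB hB0, hdf, hdg, self_mem_nhdsWithin] with u h1 h2 h3 h4 h5 h6 h7 h8 h9 hu0
    have hu0' : u ≠ 0 := hu0
    have hz : u ^ κ ≠ 0 := zpow_ne_zero _ hu0'
    have hz' : u ^ κ' ≠ 0 := zpow_ne_zero _ hu0'
    have e1 : deriv (fun v => f v - g v) u = deriv f u - deriv g u := deriv_fun_sub h8 h9
    rw [e1] at h5
    have e2 : deriv f u = deriv g u + (κ' * u ^ (κ' - 1) * C u + u ^ κ' * deriv C u) := by
      rw [← h5]
      ring
    have e3 : f u = g u + u ^ κ' * C u := by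
      rw [← h3]
      ring
    have e4 : deriv f u / f u - deriv g u / g u =
        (deriv f u * g u - deriv g u * f u) / (f u * g u) := by
      have hf0 : f u ≠ 0 := by rw [h1]; exact mul_ne_zero hz h6
      have hg0 : g u ≠ 0 := by rw [h2]; exact mul_ne_zero hz h7
      field_simp
    have e5 : deriv f u * g u - deriv g u * f u =
        (κ' * u ^ (κ' - 1) * C u + u ^ κ' * deriv C u) * g u -
          deriv g u * (u ^ κ' * C u) := by
      rw [e2, e3]
      ring
    rw [e4, e5, h1, h2, h4, zpow_sub_one₀ hu0', zpow_sub_one₀ hu0', zpow_sub₀ hu0']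
    field_simp

/-- if the order is large then the quotient has a limit -/
lemma quot_lim {f g A : ℂ → ℂ} {κ : ℤ} (hf : MeromorphicAt f 0)
    (hκ : (κ : WithTop ℤ) ≤ meromorphicOrderAt f 0) (hA : AnalyticAt ℂ A 0) (hA0 : A 0 ≠ 0)
    (hg : ∀ᶠ u in 𝓝[≠] (0 : ℂ), g u = u ^ κ * A u) :
    ∃ L, Tendsto (fun u => f u / g u) (𝓝[≠] 0) (𝓝 L) := by
  obtain ⟨F, hF, hfF, -⟩ := rep hf hκ
  refine ⟨F 0 / A 0, ?_⟩
  have h1 : Tendsto (fun u => F u / A u) (𝓝[≠] 0) (𝓝 (F 0 / A 0)) :=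
    (hF.continuousAt.tendsto.mono_left nhdsWithin_le_nhds).div
      (hA.continuousAt.tendsto.mono_left nhdsWithin_le_nhds) hA0
  refine h1.congr' ?_
  filter_upwards [hfF, hg, self_mem_nhdsWithin] with u h2 h3 hu0
  have hu0' : u ≠ 0 := hu0
  have hz : u ^ κ ≠ 0 := zpow_ne_zero _ hu0'
  rw [h2, h3, mul_div_mul_left _ _ hz]

/-- splitting of the sum -/
lemma split_sum {N : ℕ} (B : Finset (Fin N)) (j : Fin N) (hj : j ∈ B) (f : Fin N → ℂ) :
    ∑ i ∈ univ.erase j, f i = ∑ i ∈ B.erase j, f i + ∑ i ∈ Bᶜ, f i := by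
  have hd : Disjoint (B.erase j) Bᶜ := by
    rw [Finset.disjoint_left]
    intro i hi hi'
    exact (mem_compl.1 hi') (mem_erase.1 hi).2
  rw [← sum_union hd]
  congr 1
  ext i
  simp only [mem_erase, mem_univ, and_true, mem_union, mem_compl]
  constructor
  · intro h
    by_cases hi : i ∈ B
    · exact Or.inl ⟨h, hi⟩
    · exact Or.inr hi
  · rintro (h | h)
    · exact h.1
    · rintro rfl
      exact h hj

end Pool.Agent.H942.LP.LN

namespace Pool.Agent.H942.LP

open Finset Filter Topology LN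

theorem t_L (h : S_La) : S_L := by
  intro N a y R n s hs hn ha hinj hy hR heq
  have hne : ∀ i j, i ≠ j → ∀ᶠ u in 𝓝[≠] (0 : ℂ), a i u - a j u ≠ 0 := by
    intro i j hij
    filter_upwards [hinj] with u hu h0
    exact hij (hu (sub_eq_zero.1 h0))
  obtain ⟨κ, hκ⟩ : ∃ κ : Fin N → Fin N → ℕ,
    κ = fun i j => analyticOrderNatAt (fun u => a i u - a j u) 0 := ⟨_, rfl⟩
  have hAn : ∀ i j, AnalyticAt ℂ (fun u => a i u - a j u) 0 := fun i j => (ha i).sub (ha j)
  have hord : ∀ i j, i ≠ j → analyticOrderAt (fun u => a i u - a j u) 0 = (κ i j : ℕ) := by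
    intro i j hij
    rw [hκ]
    exact (arep (hAn i j) (hne i j hij)).1
  have hA : ∀ i j, i ≠ j → ∃ A : ℂ → ℂ, AnalyticAt ℂ A 0 ∧ A 0 ≠ 0 ∧
      ∀ᶠ u in 𝓝[≠] (0 : ℂ), a i u - a j u = u ^ ((κ i j : ℕ) : ℤ) * A u := by
    intro i j hij
    rw [hκ]
    exact (arep (hAn i j) (hne i j hij)).2
  choose! A hA1 hA2 hA3 using hA
  have hsymm : ∀ i j, κ i j = κ j i := by
    intro i j
    rw [hκ]
    simp only [analyticOrderNatAt]
    have : (fun u => a j u - a i u) = -(fun u => a i u - a j u) := by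
      funext u
      simp
    rw [this, analyticOrderAt_neg]
  have hultra : ∀ i j k, i ≠ j → j ≠ k → i ≠ k → min (κ i j) (κ j k) ≤ κ i k := by
    intro i j k hij hjk hik
    have h1 := le_analyticOrderAt_add (f := fun u => a i u - a j u)
      (g := fun u => a j u - a k u) (z₀ := 0)
    have h2 : (fun u => a i u - a j u) + (fun u => a j u - a k u) = fun u => a i u - a k u := by
      funext u
      simp
    rw [h2, hord i j hij, hord j k hjk, hord i k hik] at h1
    rcases le_total (κ i j) (κ j k) with h3 | h3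
    · rw [min_eq_left h3]
      rw [min_eq_left (show ((κ i j : ℕ) : ℕ∞) ≤ ((κ j k : ℕ) : ℕ∞) by exact_mod_cast h3)] at h1
      exact_mod_cast h1
    · rw [min_eq_right h3]
      rw [min_eq_right (show ((κ j k : ℕ) : ℕ∞) ≤ ((κ i j : ℕ) : ℕ∞) by exact_mod_cast h3)] at h1
      exact_mod_cast h1
  obtain ⟨η, hη⟩ : ∃ η : Fin N → Fin N → WithTop ℤ,
    η = fun i j => meromorphicOrderAt (fun u => y i u - y j u) 0 := ⟨_, rfl⟩
  have hym : ∀ i j, MeromorphicAt (fun u => y i u - y j u) 0 := fun i j => (hy i).sub (hy j)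
  have hηs : ∀ i j, η i j = η j i := by
    intro i j
    rw [hη]
    simp only
    have : (fun u => y j u - y i u) = -(fun u => y i u - y j u) := by
      funext u
      simp
    rw [this, meromorphicOrderAt_neg]
  -- the main claim
  have key : ∀ i j, i ≠ j → (((κ i j : ℕ) : ℤ) : WithTop ℤ) ≤ η i j := by
    by_contra hcon
    push Not at hcon
    obtain ⟨i1, j1, hij1, hlt1⟩ := hcon
    obtain ⟨S, hS⟩ : ∃ S : Finset (Fin N × Fin N), S = univ.filter fun p =>
      p.1 ≠ p.2 ∧ η p.1 p.2 < (((κ p.1 p.2 : ℕ) : ℤ) : WithTop ℤ) := ⟨_, rfl⟩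
    have hSne : S.Nonempty := ⟨(i1, j1), by
      rw [hS, mem_filter]
      exact ⟨mem_univ _, hij1, hlt1⟩⟩
    obtain ⟨p, hp, hmin⟩ := exists_min_image S (fun p => η p.1 p.2) hSne
    obtain ⟨i0, j0⟩ := p
    rw [hS, mem_filter] at hp
    obtain ⟨-, hij0, hlt0⟩ := hp
    simp only at hij0 hlt0 hmin
    obtain ⟨ρ, hρ⟩ := WithTop.ne_top_iff_exists.1 (ne_top_of_lt hlt0)
    have hρ0 : ρ < ((κ i0 j0 : ℕ) : ℤ) := by
      rw [← hρ] at hlt0
      exact_mod_cast hlt0
    have hmin' : ∀ i j, i ≠ j → η i j < (((κ i j : ℕ) : ℤ) : WithTop ℤ) →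
        (ρ : WithTop ℤ) ≤ η i j := by
      intro i j hij hlt
      rw [hρ]
      apply hmin (i, j)
      rw [hS, mem_filter]
      exact ⟨mem_univ _, hij, hlt⟩
    obtain ⟨B, hB⟩ : ∃ B : Finset (Fin N),
      B = univ.filter fun j => j = i0 ∨ ρ < ((κ i0 j : ℕ) : ℤ) := ⟨_, rfl⟩
    have hmB : ∀ j, j ∈ B ↔ (j = i0 ∨ ρ < ((κ i0 j : ℕ) : ℤ)) := by
      intro j
      rw [hB, mem_filter]
      simp
    have hi0 : i0 ∈ B := (hmB i0).2 (Or.inl rfl)
    have hj0 : j0 ∈ B := (hmB j0).2 (Or.inr hρ0)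
    have hB1 : ∀ j ∈ B, ∀ k ∈ B, j ≠ k → ρ < ((κ j k : ℕ) : ℤ) := by
      intro j hj k hk hjk
      rcases (hmB j).1 hj with rfl | hj'
      · rcases (hmB k).1 hk with rfl | hk'
        · exact absurd rfl hjk
        · exact hk'
      · rcases (hmB k).1 hk with rfl | hk'
        · rw [hsymm]
          exact hj'
        · by_cases h1 : j = i0
          · rw [h1]
            exact hk'
          · by_cases h2 : k = i0
            · rw [h2, hsymm]
              exact hj'
            · have h3 := hultra j i0 k h1 (Ne.symm h2) hjk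
              rw [hsymm j i0] at h3
              have h4 : ρ < ((min (κ i0 j) (κ i0 k) : ℕ) : ℤ) := by
                rw [Nat.cast_min]
                exact lt_min hj' hk'
              have h5 : ((min (κ i0 j) (κ i0 k) : ℕ) : ℤ) ≤ ((κ j k : ℕ) : ℤ) := by
                exact_mod_cast h3
              exact lt_of_lt_of_le h4 h5
    have hout : ∀ i, i ∉ B → i ≠ i0 ∧ ((κ i0 i : ℕ) : ℤ) ≤ ρ := by
      intro i hi
      have h1 : ¬ (i = i0 ∨ ρ < ((κ i0 i : ℕ) : ℤ)) := fun h2 => hi ((hmB i).2 h2)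
      push Not at h1
      exact h1
    have hB0 : ∀ i, i ∉ B → ∀ j ∈ B, κ j i = κ i0 i := by
      intro i hi j hj
      obtain ⟨hi1, hi2⟩ := hout i hi
      rcases (hmB j).1 hj with rfl | hj'
      · rfl
      · by_cases h1 : j = i0
        · rw [h1]
        · have hji : j ≠ i := fun h2 => hi (h2 ▸ hj)
          have h3 := hultra j i0 i h1 (Ne.symm hi1) hji
          have h4 := hultra i0 j i (Ne.symm h1) hji (Ne.symm hi1)
          rw [hsymm j i0] at h3
          have h5 : κ i0 i < κ i0 j := by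
            have : ((κ i0 i : ℕ) : ℤ) < ((κ i0 j : ℕ) : ℤ) := lt_of_le_of_lt hi2 hj'
            exact_mod_cast this
          rw [min_eq_right h5.le] at h3
          rcases min_le_iff.1 h4 with h6 | h6 <;> omega
    have hB2 : ∀ i ∉ B, ∀ j ∈ B, ∀ k ∈ B, κ j i = κ k i := by
      intro i hi j hj k hk
      rw [hB0 i hi j hj, hB0 i hi k hk]
    -- the leading coefficients
    have hY : ∀ j ∈ B, ∃ F : ℂ → ℂ, AnalyticAt ℂ F 0 ∧
        (∀ᶠ u in 𝓝[≠] (0 : ℂ), y j u - y i0 u = u ^ ρ * F u) ∧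
        (meromorphicOrderAt (fun u => y j u - y i0 u) 0 = ρ → F 0 ≠ 0) := by
      intro j hj
      apply rep (hym j i0)
      by_cases hj1 : j = i0
      · have : meromorphicOrderAt (fun u => y j u - y i0 u) 0 = ⊤ := by
          rw [meromorphicOrderAt_eq_top_iff]
          filter_upwards with u
          rw [hj1, sub_self]
        rw [this]
        exact le_top
      · have e1 : meromorphicOrderAt (fun u => y j u - y i0 u) 0 = η j i0 := by rw [hη]
        rw [e1]
        by_cases h2 : η j i0 < (((κ j i0 : ℕ) : ℤ) : WithTop ℤ)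
        · exact hmin' j i0 hj1 h2
        · refine le_trans ?_ (not_lt.1 h2)
          exact_mod_cast (hB1 j hj i0 hi0 hj1).le
    choose! Y hY1 hY2 hY3 using hY
    obtain ⟨g, hg⟩ : ∃ g : Fin N → Fin N → ℂ, g = fun j k => Y j 0 - Y k 0 := ⟨_, rfl⟩
    have hY00 : Y i0 0 = 0 := by
      have h1 := lim_rep (hY1 i0 hi0) (hY2 i0 hi0)
      have h2 : Tendsto (fun u : ℂ => u ^ (-ρ) * (y i0 u - y i0 u)) (𝓝[≠] 0) (𝓝 0) := by
        simp only [sub_self, mul_zero]
        exact tendsto_const_nhds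
      exact tendsto_nhds_unique h1 h2
    have hfin : g i0 j0 = 0 := by
      refine h N B κ n g ρ s hs hn hsymm hultra hB1 hB2 ?_ ?_ i0 hi0 j0 hj0
      · intro i j k _ _ _
        rw [hg]
        ring
      · -- the limit of the equations
        intro j hj k hk hjk
        have hdy : ∀ j, ∀ᶠ u in 𝓝[≠] (0 : ℂ), DifferentiableAt ℂ (y j) u := by
          intro j
          filter_upwards [(hy j).eventually_analyticAt] with u hu
          exact hu.differentiableAt
        have hda : ∀ j, ∀ᶠ u in 𝓝[≠] (0 : ℂ), DifferentiableAt ℂ (a j) u := by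
          intro j
          filter_upwards [(ha j).eventually_analyticAt.filter_mono nhdsWithin_le_nhds] with u hu
          exact hu.differentiableAt
        obtain ⟨Λ, hΛ⟩ : ∃ Λ : Fin N → Fin N → ℂ → ℂ, Λ = fun j i u =>
          (deriv (a j) u - deriv (a i) u) / (a j u - a i u) := ⟨_, rfl⟩
        -- (F1)
        have hP : ∀ j ∈ B, ∀ k ∈ B,
            Tendsto (fun u : ℂ => u ^ (-ρ) * (y j u - y k u)) (𝓝[≠] 0) (𝓝 (g j k)) := by
          intro j hj k hk
          rw [hg]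
          refine ((lim_rep (hY1 j hj) (hY2 j hj)).sub (lim_rep (hY1 k hk) (hY2 k hk))).congr ?_
          intro u
          ring
        have hD : Tendsto (fun u : ℂ => u ^ (1 - ρ) * (deriv (y j) u - deriv (y k) u))
            (𝓝[≠] 0) (𝓝 (ρ * g j k)) := by
          have h1 := (lim_deriv (hY1 j hj) (hY2 j hj)).sub (lim_deriv (hY1 k hk) (hY2 k hk))
          rw [hg]
          simp only
          rw [mul_sub]
          refine h1.congr' ?_
          filter_upwards [hdy j, hdy k, hdy i0] with u h2 h3 h4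
          rw [deriv_fun_sub h2 h4, deriv_fun_sub h3 h4]
          ring
        -- (F2)
        have hL : ∀ j i, j ≠ i →
            Tendsto (fun u : ℂ => u * Λ j i u) (𝓝[≠] 0) (𝓝 ((κ j i : ℕ) : ℂ)) := by
          intro j i hji
          have h1 := lim_log (hA1 j i hji) (hA2 j i hji) (hA3 j i hji)
          rw [Int.cast_natCast] at h1
          refine h1.congr' ?_
          filter_upwards [hda j, hda i] with u h2 h3
          rw [hΛ, deriv_fun_sub h2 h3]
        -- (F3)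
        have hF3 : ∀ i ∉ B, Tendsto (fun u : ℂ => u ^ (-ρ) * ((y k u - y i u) *
            (u * (Λ j i u - Λ k i u)))) (𝓝[≠] 0) (𝓝 0) := by
          intro i hi
          have hji : j ≠ i := fun h2 => hi (h2 ▸ hj)
          have hki : k ≠ i := fun h2 => hi (h2 ▸ hk)
          have hκe : κ j i = κ k i := hB2 i hi j hj k hk
          have hA3' := hA3 j i hji
          rw [hκe] at hA3'
          have hsub : ∀ᶠ u in 𝓝[≠] (0 : ℂ), (a j u - a i u) - (a k u - a i u) =
              u ^ ((κ j k : ℕ) : ℤ) * A j k u := by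
            filter_upwards [hA3 j k hjk] with u hu
            rw [← hu]
            ring
          obtain ⟨H, hH1, hH2⟩ := log_diff (hA1 j i hji) (hA2 j i hji) (hA1 k i hki)
            (hA2 k i hki) (hA1 j k hjk) hA3' (hA3 k i hki) hsub
            (by filter_upwards [hda j, hda i] with u h2 h3 using h2.sub h3)
            (by filter_upwards [hda k, hda i] with u h2 h3 using h2.sub h3)
          have hηk : (((κ k i : ℕ) : ℤ) : WithTop ℤ) ≤
              meromorphicOrderAt (fun u => y k u - y i u) 0 := by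
            have e1 : meromorphicOrderAt (fun u => y k u - y i u) 0 = η k i := by rw [hη]
            rw [e1]
            by_contra h2
            have h2' := not_le.1 h2
            have h3 := hmin' k i hki h2'
            have h4 := lt_of_le_of_lt h3 h2'
            have h5 : ρ < ((κ k i : ℕ) : ℤ) := by exact_mod_cast h4
            rw [hB0 i hi k hk] at h5
            exact absurd (hout i hi).2 (not_le.2 h5)
          obtain ⟨Z, hZ, hZ2, -⟩ := rep (hym k i) hηk
          refine lim_zero (F := fun u => Z u * H u) (hZ.continuousAt.mul hH1)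
            (hB1 j hj k hk hjk) ?_
          filter_upwards [hZ2, hH2, hda j, hda i, hda k, self_mem_nhdsWithin] with
            u h2 h3 h4 h5 h6 hu0
          have hu0' : u ≠ 0 := hu0
          rw [deriv_fun_sub h4 h5, deriv_fun_sub h6 h5] at h3
          rw [hΛ]
          simp only
          rw [h2, h3, zpow_sub₀ hu0']
          have hz : u ^ ((κ k i : ℕ) : ℤ) ≠ 0 := zpow_ne_zero _ hu0'
          field_simp
        -- (F4)
        have hF4 : Tendsto (fun u : ℂ => u ^ (1 - ρ) * (R j u - R k u)) (𝓝[≠] 0) (𝓝 0) := by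
          obtain ⟨L, hL⟩ := hR j k hjk
          have h1 := lim_zero (hA1 j k hjk).continuousAt (hB1 j hj k hk hjk) (hA3 j k hjk)
          have h2 := h1.mul hL
          rw [zero_mul] at h2
          refine h2.congr' ?_
          filter_upwards [hne j k hjk, self_mem_nhdsWithin] with u h3 hu0
          have hu0' : u ≠ 0 := hu0
          have e1 : u ^ (1 - ρ) = u * u ^ (-ρ) := by
            rw [sub_eq_add_neg, zpow_add₀ hu0', zpow_one]
          rw [e1]
          field_simp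
        -- the total
        have hT1 : Tendsto (fun u : ℂ => ∑ i ∈ B.erase j, (n i : ℂ) *
            ((u ^ (-ρ) * (y j u - y i u)) * (u * Λ j i u))) (𝓝[≠] 0)
            (𝓝 (∑ i ∈ B.erase j, (n i : ℂ) * (g j i * ((κ j i : ℕ) : ℂ)))) := by
          refine tendsto_finsetSum _ fun i hi => ?_
          have h1 := mem_erase.1 hi
          exact ((hP j hj i h1.2).mul (hL j i h1.1.symm)).const_mul _
        have hT2 : Tendsto (fun u : ℂ => ∑ i ∈ B.erase k, (n i : ℂ) *
            ((u ^ (-ρ) * (y k u - y i u)) * (u * Λ k i u))) (𝓝[≠] 0)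
            (𝓝 (∑ i ∈ B.erase k, (n i : ℂ) * (g k i * ((κ k i : ℕ) : ℂ)))) := by
          refine tendsto_finsetSum _ fun i hi => ?_
          have h1 := mem_erase.1 hi
          exact ((hP k hk i h1.2).mul (hL k i h1.1.symm)).const_mul _
        have hT3 : Tendsto (fun u : ℂ => ∑ i ∈ Bᶜ, (n i : ℂ) *
            ((u ^ (-ρ) * (y j u - y k u)) * (u * Λ j i u) +
              u ^ (-ρ) * ((y k u - y i u) * (u * (Λ j i u - Λ k i u))))) (𝓝[≠] 0)
            (𝓝 (∑ i ∈ Bᶜ, (n i : ℂ) * (g j k * ((κ j i : ℕ) : ℂ) + 0))) := by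
          refine tendsto_finsetSum _ fun i hi => ?_
          have hi' := mem_compl.1 hi
          have hji : j ≠ i := fun h2 => hi' (h2 ▸ hj)
          exact (((hP j hj k hk).mul (hL j i hji)).add (hF3 i hi')).const_mul _
        have hT := (hD.add (((hT1.sub hT2).add hT3).const_mul (s : ℂ))).sub hF4
        have hzero : Tendsto (fun _ : ℂ => (0 : ℂ)) (𝓝[≠] (0 : ℂ)) (𝓝 0) := tendsto_const_nhds
        have hEq := tendsto_nhds_unique_of_eventuallyEq hT hzero ?_
        · rw [sub_zero] at hEq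
          rw [← hEq]
          congr 3
          · congr 1
            · exact sum_congr rfl fun i _ => by ring
            · exact sum_congr rfl fun i _ => by ring
          · exact sum_congr rfl fun i _ => by ring
        · filter_upwards [heq j, heq k, self_mem_nhdsWithin] with u h1 h2 hu0
          have hu0' : u ≠ 0 := hu0
          have e1 : u ^ (1 - ρ) = u * u ^ (-ρ) := by
            rw [sub_eq_add_neg, zpow_add₀ hu0', zpow_one]
          rw [split_sum B j hj] at h1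
          rw [split_sum B k hk] at h2
          rw [← h1, ← h2, e1]
          obtain ⟨z, hz⟩ : ∃ z : ℂ, z = u ^ (-ρ) := ⟨_, rfl⟩
          rw [← hz]
          have s1 : ∑ i ∈ B.erase j, (n i : ℂ) * ((z * (y j u - y i u)) * (u * Λ j i u)) =
              (u * z) * ∑ i ∈ B.erase j, (n i : ℂ) * (y j u - y i u) * Λ j i u := by
            rw [mul_sum]
            exact sum_congr rfl fun i _ => by ring
          have s2 : ∑ i ∈ B.erase k, (n i : ℂ) * ((z * (y k u - y i u)) * (u * Λ k i u)) =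
              (u * z) * ∑ i ∈ B.erase k, (n i : ℂ) * (y k u - y i u) * Λ k i u := by
            rw [mul_sum]
            exact sum_congr rfl fun i _ => by ring
          have s3 : ∑ i ∈ Bᶜ, (n i : ℂ) * ((z * (y j u - y k u)) * (u * Λ j i u) +
              z * ((y k u - y i u) * (u * (Λ j i u - Λ k i u)))) =
              (u * z) * (∑ i ∈ Bᶜ, (n i : ℂ) * (y j u - y i u) * Λ j i u -
                ∑ i ∈ Bᶜ, (n i : ℂ) * (y k u - y i u) * Λ k i u) := by
            rw [← sum_sub_distrib, mul_sum]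
            exact sum_congr rfl fun i _ => by ring
          have r : ∀ (T : Finset (Fin N)) (l : Fin N), ∑ i ∈ T, (s : ℂ) * n i *
              (y l u - y i u) * ((deriv (a l) u - deriv (a i) u) / (a l u - a i u)) =
              (s : ℂ) * ∑ i ∈ T, (n i : ℂ) * (y l u - y i u) * Λ l i u := by
            intro T l
            rw [mul_sum, hΛ]
            exact sum_congr rfl fun i _ => by ring
          rw [s1, s2, s3, r, r, r, r]
          ring
    rw [hg] at hfin
    simp only [hY00, zero_sub, neg_eq_zero] at hfin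
    refine hY3 j0 hj0 ?_ hfin
    have e1 : meromorphicOrderAt (fun u => y j0 u - y i0 u) 0 = η j0 i0 := by rw [hη]
    rw [e1, hηs, hρ]
  intro i j hij
  have h1 := key i j hij
  rw [hη] at h1
  exact quot_lim (hym i j) h1 (hA1 i j hij) (hA2 i j hij) (hA3 i j hij)

end Pool.Agent.H942.LP
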