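import Pool.Agent.H942.LP.DefL

set_option autoImplicit false
set_option linter.unusedSectionVars false
set_option linter.unusedVariables false

/-! # The algebraic part of the Lipschitz lemma -/

namespace Pool.Agent.H942.LP.LaN

open Finset

variable {N : ℕ}

/-- The comparison term by term. -/
theorem key (B : Finset (Fin N)) (κ : Fin N → Fin N → ℕ) (g : Fin N → Fin N → ℂ)
    (hsym : ∀ i j, κ i j = κ j i)
    (hul : ∀ i j k, i ≠ j → j ≠ k → i ≠ k → min (κ i j) (κ j k) ≤ κ i k)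
    (hg : ∀ i j k, i ∈ B → j ∈ B → k ∈ B → g i j + g j k = g i k)
    (j k : Fin N) (hj : j ∈ B) (hk : k ∈ B) (hjk : j ≠ k)
    (hmax : ∀ a ∈ B, ∀ b ∈ B, g a b ≠ 0 → κ a b ≤ κ j k) (i : Fin N) (hi : i ∈ B) :
    ∃ m : ℕ, (κ j i : ℂ) * g j i - κ k i * g k i = m * g j k ∧ (i = j → m = κ j k) := by
  have h0 : ∀ a ∈ B, g a a = 0 := fun a ha => by
    have := hg a a a ha ha ha
    linear_combination this
  have hneg : g k j = - g j k := by
    have := hg j k j hj hk hj
    rw [h0 j hj] at this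
    linear_combination this
  by_cases h1 : i = j
  · refine ⟨κ j k, ?_, fun _ => rfl⟩
    rw [h1, h0 j hj, hneg, hsym k j]
    ring
  by_cases h2 : i = k
  · refine ⟨κ j k, ?_, fun h => rfl⟩
    rw [h2, h0 k hk]
    ring
  have u1 := hul k j i (Ne.symm hjk) (Ne.symm h1) (Ne.symm h2)
  have u2 := hul j k i hjk (Ne.symm h2) (Ne.symm h1)
  have u3 := hul j i k (Ne.symm h1) h2 hjk
  have e1 := hsym k j
  have e2 := hsym i k
  have e3 : g j k + g k i = g j i := hg j k i hj hk hi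
  have m1 : g j i ≠ 0 → κ j i ≤ κ j k := hmax j hj i hi
  have m2 : g k i ≠ 0 → κ k i ≤ κ j k := hmax k hk i hi
  by_cases h3 : κ j k < κ j i
  · have z : g j i = 0 := by
      by_contra h
      exact absurd (m1 h) (by omega)
    have e : κ k i = κ j k := by omega
    refine ⟨κ j k, ?_, fun h => absurd h h1⟩
    rw [e, z]
    rw [z] at e3
    linear_combination (-(κ j k : ℂ)) * e3
  by_cases h4 : κ j k < κ k i
  · have z : g k i = 0 := by
      by_contra h
      exact absurd (m2 h) (by omega)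
    have e : κ j i = κ j k := by omega
    refine ⟨κ j k, ?_, fun h => absurd h h1⟩
    rw [e, z]
    rw [z] at e3
    linear_combination (-(κ j k : ℂ)) * e3
  have e : κ k i = κ j i := by omega
  refine ⟨κ j i, ?_, fun h => absurd h h1⟩
  rw [e]
  linear_combination (-(κ j i : ℂ)) * e3

/-- An irrational number satisfies no relation `ρ + s M = 0` with `M ≥ 1`. -/
theorem irr {s : ℝ} (hs : Irrational s) (ρ : ℤ) (M : ℕ) (h : (ρ : ℝ) + s * M = 0) :
    M = 0 ∧ ρ = 0 := by
  by_cases hM : M = 0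
  · refine ⟨hM, ?_⟩
    rw [hM] at h
    simpa using h
  · exfalso
    have hM' : (M : ℝ) ≠ 0 := by exact_mod_cast hM
    apply hs
    refine ⟨-(ρ : ℚ) / M, ?_⟩
    push_cast
    rw [div_eq_iff hM']
    linarith

end Pool.Agent.H942.LP.LaN

namespace Pool.Agent.H942.LP

open Finset

theorem t_La : S_La := by
  intro N B κ n g ρ s hs hn hsym hul hρ hout hg heq
  by_contra hcon
  have hex : ∃ j0 ∈ B, ∃ k0 ∈ B, g j0 k0 ≠ 0 := by
    by_contra h
    apply hcon
    intro j hj k hk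
    by_contra hne
    exact h ⟨j, hj, k, hk, hne⟩
  obtain ⟨j0, hj0, k0, hk0, hne0⟩ := hex
  obtain ⟨p, hp, hpm⟩ := Finset.exists_max_image
    ((B ×ˢ B).filter fun q : Fin N × Fin N => g q.1 q.2 ≠ 0) (fun q => κ q.1 q.2)
    ⟨(j0, k0), by
      rw [Finset.mem_filter, Finset.mem_product]
      exact ⟨⟨hj0, hk0⟩, hne0⟩⟩
  rw [Finset.mem_filter, Finset.mem_product] at hp
  obtain ⟨⟨hj, hk⟩, hne⟩ := hp
  obtain ⟨j, k⟩ := p
  simp only at hj hk hne hpm
  have h0 : ∀ a ∈ B, g a a = 0 := fun a ha => by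
    have := hg a a a ha ha ha
    linear_combination this
  have hjk : j ≠ k := by
    intro h
    rw [h] at hne
    exact hne (h0 k hk)
  have hmax : ∀ a ∈ B, ∀ b ∈ B, g a b ≠ 0 → κ a b ≤ κ j k := by
    intro a ha b hb hab
    have := hpm (a, b) (by
      rw [Finset.mem_filter, Finset.mem_product]
      exact ⟨⟨ha, hb⟩, hab⟩)
    exact this
  have hkey := LaN.key B κ g hsym hul hg j k hj hk hjk hmax
  choose! m hm hmj using hkey
  have h := heq j hj k hk hjk
  rw [Finset.sum_erase B (by rw [h0 j hj, mul_zero]),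
    Finset.sum_erase B (by rw [h0 k hk, mul_zero]), ← Finset.sum_sub_distrib] at h
  have s1 : ∑ i ∈ B, ((n i : ℂ) * κ j i * g j i - n i * κ k i * g k i) =
      ((∑ i ∈ B, n i * m i : ℕ) : ℂ) * g j k := by
    rw [Nat.cast_sum, Finset.sum_mul]
    refine Finset.sum_congr rfl fun i hi => ?_
    push_cast
    linear_combination (n i : ℂ) * hm i hi
  have s2 : ∑ i ∈ Bᶜ, (n i : ℂ) * κ j i * g j k =
      ((∑ i ∈ Bᶜ, n i * κ j i : ℕ) : ℂ) * g j k := by
    rw [Nat.cast_sum, Finset.sum_mul]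
    refine Finset.sum_congr rfl fun i hi => ?_
    push_cast
    ring
  rw [s1, s2] at h
  have h2 : ((ρ : ℂ) + (s : ℂ) * ((∑ i ∈ B, n i * m i + ∑ i ∈ Bᶜ, n i * κ j i : ℕ) : ℂ)) *
      g j k = 0 := by
    rw [Nat.cast_add]
    linear_combination h
  have h3 := (mul_eq_zero.mp h2).resolve_right hne
  have h4 : (ρ : ℝ) + s * ((∑ i ∈ B, n i * m i + ∑ i ∈ Bᶜ, n i * κ j i : ℕ) : ℝ) = 0 := by
    exact_mod_cast h3
  obtain ⟨hM, hρ0⟩ := LaN.irr hs ρ _ h4
  have h5 := hρ j hj k hk hjk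
  have h6 : n j * m j ≤ ∑ i ∈ B, n i * m i :=
    Finset.single_le_sum (f := fun i => n i * m i) (fun i _ => Nat.zero_le _) hj
  have h7 : m j = κ j k := hmj j hj rfl
  have h8 : 1 ≤ n j := hn j
  have h9 : 0 < n j * m j := Nat.mul_pos h8 (by omega)
  omega

end Pool.Agent.H942.LP
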