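import Pool.Agent.H942.LP.DefR

set_option autoImplicit false
set_option linter.unusedSectionVars false
set_option linter.unusedVariables false

/-! # Uniform reduction to simple poles (helper118, for helper942) -/

namespace Pool.Agent.H942.LP

open Polynomial Finset Pool.Agent.Helper748.TP Pool.Agent.H941.TF

namespace RN

section PF

variable {A : Type} [CommRing A] {κ : ℂ →+* A} {φ ψ : ℂ → A}

theorem pf_add (h1 : PF κ φ) (h2 : PF κ ψ) : PF κ (fun c => φ c + ψ c) := by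
  obtain ⟨P, hP⟩ := h1
  obtain ⟨Q, hQ⟩ := h2
  exact ⟨P + Q, fun c => by rw [eval_add, ← hP, ← hQ]⟩

theorem pf_sub (h1 : PF κ φ) (h2 : PF κ ψ) : PF κ (fun c => φ c - ψ c) := by
  obtain ⟨P, hP⟩ := h1
  obtain ⟨Q, hQ⟩ := h2
  exact ⟨P - Q, fun c => by rw [eval_sub, ← hP, ← hQ]⟩

theorem pf_mul (h1 : PF κ φ) (h2 : PF κ ψ) : PF κ (fun c => φ c * ψ c) := by
  obtain ⟨P, hP⟩ := h1
  obtain ⟨Q, hQ⟩ := h2
  exact ⟨P * Q, fun c => by rw [eval_mul, ← hP, ← hQ]⟩

theorem pf_const (a : A) : PF κ (fun _ => a) := ⟨C a, fun c => by rw [eval_C]⟩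

theorem pf_id : PF κ (fun c => κ c) := ⟨X, fun c => by rw [eval_X]⟩

theorem pf_pol {f : ℂ → ℂ} (hf : PF (RingHom.id ℂ) f) : PF κ (fun c => κ (f c)) := by
  obtain ⟨P, hP⟩ := hf
  refine ⟨P.map κ, fun c => ?_⟩
  beta_reduce
  rw [hP, eval_map, eval₂_at_apply]
  rfl

/-- maps which are linear over the constants -/
def Lin (κ : ℂ →+* A) (T : A → A) : Prop :=
  (∀ p q, T (p + q) = T p + T q) ∧ ∀ a p, T (κ a * p) = κ a * T p

theorem Lin.zero {T : A → A} (h : Lin κ T) : T 0 = 0 := by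
  have := h.1 0 0
  rw [add_zero] at this
  exact left_eq_add.1 this

theorem Lin.sum {T : A → A} (h : Lin κ T) (s : Finset ℕ) (f : ℕ → A) :
    T (∑ i ∈ s, f i) = ∑ i ∈ s, T (f i) := by
  classical
  induction s using Finset.induction_on with
  | empty => rw [Finset.sum_empty, Finset.sum_empty, h.zero]
  | insert i s hi ih => rw [Finset.sum_insert hi, Finset.sum_insert hi, h.1, ih]

theorem pf_lin {T : A → A} (h : Lin κ T) (h1 : PF κ φ) : PF κ (fun c => T (φ c)) := by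
  obtain ⟨P, hP⟩ := h1
  refine ⟨∑ i ∈ range (P.natDegree + 1), C (T (P.coeff i)) * X ^ i, fun c => ?_⟩
  beta_reduce
  rw [hP, eval_eq_sum_range, h.sum, eval_finsetSum]
  refine Finset.sum_congr rfl fun i _ => ?_
  rw [eval_mul, eval_C, eval_pow, eval_X, ← map_pow, mul_comm (P.coeff i), h.2, mul_comm]

end PF

theorem kK_apply (a : ℂ) : kK a = C (io (C a)) := rfl

theorem map_kc' (a : ℂ) : (kc a).map io = kK a := by rw [map_kc, kK_apply]

theorem dk_kK (a : ℂ) (p : Kt[X]) : dk (kK a * p) = kK a * dk p := by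
  rw [dk_mul, kK_apply, dk_C, D_io, derivative_C, map_zero, C_0, zero_mul, zero_add]

theorem der_kK (a : ℂ) (p : Kt[X]) : derivative (kK a * p) = kK a * derivative p := by
  rw [kK_apply, derivative_C_mul]

theorem lin_dk : Lin kK dk := ⟨dk_add, dk_kK⟩

theorem lin_der : Lin kK (fun p : Kt[X] => derivative p) :=
  ⟨fun p q => derivative_add, der_kK⟩

theorem mod_kK {q : Kt[X]} (hq : q.Monic) (a : ℂ) (p : Kt[X]) :
    (kK a * p) %ₘ q = kK a * (p %ₘ q) ∧ (kK a * p) /ₘ q = kK a * (p /ₘ q) := by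
  have h := div_modByMonic_unique (f := kK a * p) (g := q) (kK a * (p /ₘ q)) (kK a * (p %ₘ q)) hq
    ⟨by linear_combination kK a * (modByMonic_add_div p q), by
      rw [kK_apply]
      exact lt_of_le_of_lt (deg_C_mul _ _) (degree_modByMonic_lt _ hq)⟩
  exact ⟨h.2, h.1⟩

theorem mod_add {q : Kt[X]} (hq : q.Monic) (p r : Kt[X]) :
    (p + r) %ₘ q = p %ₘ q + r %ₘ q ∧ (p + r) /ₘ q = p /ₘ q + r /ₘ q := by
  have h := div_modByMonic_unique (f := p + r) (g := q) (p /ₘ q + r /ₘ q) (p %ₘ q + r %ₘ q) hq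
    ⟨by linear_combination (modByMonic_add_div p q) + (modByMonic_add_div r q),
      lt_of_le_of_lt (degree_add_le _ _)
        (max_lt (degree_modByMonic_lt _ hq) (degree_modByMonic_lt _ hq))⟩
  exact ⟨h.2, h.1⟩

theorem lin_mod {q : Kt[X]} (hq : q.Monic) : Lin kK (fun p => p %ₘ q) :=
  ⟨fun p r => (mod_add hq p r).1, fun a p => (mod_kK hq a p).1⟩

theorem lin_div {q : Kt[X]} (hq : q.Monic) : Lin kK (fun p => p /ₘ q) :=
  ⟨fun p r => (mod_add hq p r).2, fun a p => (mod_kK hq a p).2⟩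

/-- the operator -/
noncomputable def Op (Q h l : Kt[X]) (n : ℕ) (P R : Kt[X]) : Kt[X] :=
  Q * dk P + (l - (n : Kt[X]) * dk Q) * P + Q * derivative R +
    (h - (n : Kt[X]) * derivative Q) * R

theorem Op_gauge {Q h l : Kt[X]}
    (hi : dk h * Q - h * dk Q = derivative l * Q - l * derivative Q) {m : ℕ}
    (P R Z : Kt[X]) :
    Op Q h l (m + 1) (P - gx Q h m Z) (R + gt Q l 0 m Z) = Op Q h l (m + 1) P R := by
  have h1 : derivative (C 0 : Kt[X]) = 0 := derivative_C
  have h2 : ∀ n : ℕ, derivative (n : Kt[X]) = 0 := fun n => derivative_natCast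
  have e1 : dk (gx Q h m Z) = dk Q * derivative Z + Q * derivative (dk Z) +
      (dk h - (m : Kt[X]) * derivative (dk Q)) * Z + (h - (m : Kt[X]) * derivative Q) * dk Z := by
    rw [gx, dk_add, dk_mul, dk_mul, dk_sub, dk_mul, dk_natCast, dk_der, dk_der]
    ring
  have e2 : derivative (gt Q l 0 m Z) = derivative Q * dk Z + Q * derivative (dk Z) +
      (derivative l + C 0 * derivative Q - (m : Kt[X]) * derivative (dk Q)) * Z +
      (l + C 0 * Q - (m : Kt[X]) * dk Q) * derivative Z := by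
    rw [gt, derivative_add, derivative_mul, derivative_mul, derivative_sub, derivative_add,
      derivative_mul, derivative_mul, h1, h2]
    ring
  rw [Op, Op, dk_sub, derivative_add, e1, e2, gx, gt, C_0]
  push_cast
  linear_combination (-Z) * hi

theorem Op_mul (Q h l : Kt[X]) (m : ℕ) (P R : Kt[X]) :
    Op Q h l (m + 1) (Q * P) (Q * R) = Q * Op Q h l m P R := by
  rw [Op, Op, dk_mul, derivative_mul]
  push_cast
  ring

theorem Op_kK (Q h l : Kt[X]) (n : ℕ) (P R : Kt[X]) (a : ℂ) :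
    Op Q h l n (kK a * P) (kK a * R) = kK a * Op Q h l n P R := by
  rw [Op, Op, dk_kK, der_kK]
  ring

theorem kK_inv {a : ℂ} (ha : a ≠ 0) : kK a⁻¹ * kK a = 1 := by
  rw [← map_mul, inv_mul_cancel₀ ha, map_one]

/-- the step at a fixed parameter -/
theorem step1 {q h l : Kt[X]}
    (hi : dk h * q - h * dk q = derivative l * q - l * derivative q) (hq : q.Monic)
    (hN : 0 < q.natDegree) (hh : h.degree < (q.natDegree : WithBot ℕ))
    (hl : l.degree < (q.natDegree : WithBot ℕ)) {m : ℕ} (hm : 1 ≤ m) {b b' : Kt[X]} {a a' : ℂ}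
    (hb : q ∣ b * (h - (m : Kt[X]) * derivative q) - kK a)
    (hb' : q ∣ b' * (h - ((m + 1 : ℕ) : Kt[X]) * derivative q) - kK a') (ha' : a' ≠ 0)
    {P R u w v : Kt[X]} (hC : Op q h l (m + 1) P R = u * q ^ (m + 2)) (hP : PP q (m + 1) P w)
    (hR : PP q (m + 1) R v) :
    Op q h l m ((kK a * P - gx q h m ((b * P) %ₘ q)) /ₘ q)
      ((kK a * R + gt q l 0 m ((b * P) %ₘ q)) /ₘ q) = kK a * u * q ^ (m + 1) ∧
    PP q m ((kK a * P - gx q h m ((b * P) %ₘ q)) /ₘ q) (kK a * w) ∧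
    PP q m ((kK a * R + gt q l 0 m ((b * P) %ₘ q)) /ₘ q) (kK a * v) := by
  set Z : Kt[X] := (b * P) %ₘ q with hZ
  have hZd : Z.degree < (q.natDegree : WithBot ℕ) := by
    rw [← degree_eq_natDegree hq.ne_zero]
    exact degree_modByMonic_lt _ hq
  have hZ2 : Z + q * ((b * P) /ₘ q) = b * P := modByMonic_add_div _ q
  obtain ⟨e, he⟩ := hb
  have hd1 : q ∣ kK a * P - gx q h m Z := by
    refine ⟨-e * P + (h - (m : Kt[X]) * derivative q) * ((b * P) /ₘ q) - derivative Z, ?_⟩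
    rw [gx]
    linear_combination (-P) * he - (h - (m : Kt[X]) * derivative q) * hZ2
  have hC2 : Op q h l (m + 1) (kK a * P - gx q h m Z) (kK a * R + gt q l 0 m Z) =
      kK a * u * q ^ (m + 2) := by
    rw [Op_gauge hi, Op_kK, hC]
    ring
  set P1 := (kK a * P - gx q h m Z) /ₘ q with hP1d
  set R1 := (kK a * R + gt q l 0 m Z) /ₘ q with hR1d
  have hP1 : kK a * P - gx q h m Z = q * P1 := by
    have h1 := modByMonic_add_div (kK a * P - gx q h m Z) q
    rw [(modByMonic_eq_zero_iff_dvd hq).2 hd1, zero_add] at h1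
    exact h1.symm
  have hcop : IsCoprime q (h - ((m + 1 : ℕ) : Kt[X]) * derivative q) := by
    obtain ⟨e', he'⟩ := hb'
    refine ⟨-(kK a'⁻¹) * e', kK a'⁻¹ * b', ?_⟩
    linear_combination kK a'⁻¹ * he' + kK_inv ha'
  have hd2 : q ∣ kK a * R + gt q l 0 m Z := by
    refine hcop.dvd_of_dvd_mul_left ?_
    rw [hP1, Op] at hC2
    refine ⟨kK a * u * q ^ (m + 1) - dk (q * P1) -
      (l - ((m + 1 : ℕ) : Kt[X]) * dk q) * P1 -
      derivative (kK a * R + gt q l 0 m Z), ?_⟩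
    linear_combination hC2
  have hR1 : kK a * R + gt q l 0 m Z = q * R1 := by
    have h1 := modByMonic_add_div (kK a * R + gt q l 0 m Z) q
    rw [(modByMonic_eq_zero_iff_dvd hq).2 hd2, zero_add] at h1
    exact h1.symm
  have hka : ∀ {n : ℕ} {r : Kt[X]}, r.degree < ((n : ℕ) : WithBot ℕ) →
      (kK a * r).degree < ((n : ℕ) : WithBot ℕ) := by
    intro n r hr
    rw [kK_apply]
    exact lt_of_le_of_lt (deg_C_mul _ _) hr
  refine ⟨?_, ?_, ?_⟩
  · rw [hP1, hR1, Op_mul] at hC2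
    refine mul_left_cancel₀ hq.ne_zero ?_
    linear_combination hC2
  · obtain ⟨r, hr, hrd⟩ := hP
    refine ⟨P1 - kK a * w * q ^ m, by ring, deg_lt_of_mul hq ?_⟩
    have h1 : q * (P1 - kK a * w * q ^ m) = kK a * r - gx q h m Z := by
      linear_combination -hP1 + kK a * hr
    rw [h1]
    refine lt_of_le_of_lt (degree_sub_le _ _) (max_lt (hka hrd) ?_)
    refine lt_of_lt_of_le (deg_gx hh hZd) ?_
    have : 2 * q.natDegree ≤ (m + 1) * q.natDegree := Nat.mul_le_mul_right _ (by omega)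
    exact_mod_cast this
  · obtain ⟨r, hr, hrd⟩ := hR
    refine ⟨R1 - kK a * v * q ^ m, by ring, deg_lt_of_mul hq ?_⟩
    have h1 : q * (R1 - kK a * v * q ^ m) = kK a * r + gt q l 0 m Z := by
      linear_combination -hR1 + kK a * hr
    rw [h1]
    refine lt_of_le_of_lt (degree_add_le _ _) (max_lt (hka hrd) ?_)
    refine lt_of_lt_of_le (deg_gt hl hZd) ?_
    have : 2 * q.natDegree ≤ (m + 1) * q.natDegree := Nat.mul_le_mul_right _ (by omega)
    exact_mod_cast this

/-- the constants of the steps -/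
noncomputable def del (δ m : ℕ) (c : ℂ) : ℂ := ∏ b ∈ Finset.range δ, (c * ((b : ℂ) + 1) - m)

theorem pf_del (δ m : ℕ) : PF (RingHom.id ℂ) (del δ m) := by
  refine ⟨∏ b ∈ Finset.range δ, (X * C ((b : ℂ) + 1) - C (m : ℂ)), fun c => ?_⟩
  rw [eval_prod, del]
  refine Finset.prod_congr rfl fun b _ => ?_
  rw [eval_sub, eval_mul, eval_X, eval_C, eval_C]
  rfl

/-- the iteration -/
theorem red {q x y : Kt[X]} (hq : q.Monic) (hN : 0 < q.natDegree)
    (hi : ∀ c : ℂ, dk (kK c * x) * q - (kK c * x) * dk q =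
      derivative (kK c * y) * q - (kK c * y) * derivative q)
    (hxd : ∀ c : ℂ, (kK c * x).degree < (q.natDegree : WithBot ℕ))
    (hyd : ∀ c : ℂ, (kK c * y).degree < (q.natDegree : WithBot ℕ)) (δ : ℕ)
    (hβ : ∀ m : ℕ, ∃ β : ℂ → Kt[X], PF kK β ∧ ∀ c : ℂ, q ∣
      β c * (kK c * x - (m : Kt[X]) * derivative q) - kK (del δ m c)) (S : Set ℂ)
    (hS : ∀ c ∈ S, ∀ m, del δ m c ≠ 0) (n : ℕ) :
    ∀ (P R u w v : ℂ → Kt[X]), PF kK P → PF kK R →
      (∀ c ∈ S, Op q (kK c * x) (kK c * y) (n + 1) (P c) (R c) = u c * q ^ (n + 2)) →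
      (∀ c ∈ S, PP q (n + 1) (P c) (w c)) → (∀ c ∈ S, PP q (n + 1) (R c) (v c)) →
      ∃ (Δ : ℂ → ℂ) (P' R' : ℂ → Kt[X]), PF kK P' ∧ PF kK R' ∧ (∀ c ∈ S, Δ c ≠ 0) ∧
        ∀ c ∈ S, Op q (kK c * x) (kK c * y) 1 (P' c) (R' c) = kK (Δ c) * u c * q ^ 2 ∧
          PP q 1 (P' c) (kK (Δ c) * w c) ∧ PP q 1 (R' c) (kK (Δ c) * v c) := by
  induction n with
  | zero =>
    intro P R u w v hP hR hC hPP hRR
    refine ⟨fun _ => 1, P, R, hP, hR, fun c _ => one_ne_zero, fun c hc => ?_⟩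
    rw [map_one, one_mul, one_mul, one_mul]
    exact ⟨hC c hc, hPP c hc, hRR c hc⟩
  | succ n ih =>
    intro P R u w v hP hR hC hPP hRR
    obtain ⟨β, hβP, hβd⟩ := hβ (n + 1)
    obtain ⟨β', hβP', hβd'⟩ := hβ (n + 1 + 1)
    have hst : ∀ c ∈ S, _ := fun c hc => step1 (hi c) hq hN (hxd c) (hyd c) (m := n + 1)
      (by omega) (hβd c) (hβd' c) (hS c hc _) (hC c hc) (hPP c hc) (hRR c hc)
    set Z : ℂ → Kt[X] := fun c => (β c * P c) %ₘ q with hZ
    have hZP : PF kK Z := pf_lin (lin_mod hq) (pf_mul hβP hP)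
    have hdelP : PF kK (fun c => kK (del δ (n + 1) c)) := pf_pol (pf_del δ (n + 1))
    have hgx : PF kK (fun c => gx q (kK c * x) (n + 1) (Z c)) := by
      unfold gx
      exact pf_add (pf_mul (pf_const q) (pf_lin lin_der hZP))
        (pf_mul (pf_sub (pf_mul pf_id (pf_const x)) (pf_const _)) hZP)
    have hgt : PF kK (fun c => gt q (kK c * y) 0 (n + 1) (Z c)) := by
      unfold gt
      exact pf_add (pf_mul (pf_const q) (pf_lin lin_dk hZP))
        (pf_mul (pf_sub (pf_add (pf_mul pf_id (pf_const y)) (pf_const _)) (pf_const _)) hZP)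
    have hP1 : PF kK (fun c => (kK (del δ (n + 1) c) * P c -
        gx q (kK c * x) (n + 1) (Z c)) /ₘ q) :=
      pf_lin (lin_div hq) (pf_sub (pf_mul hdelP hP) hgx)
    have hR1 : PF kK (fun c => (kK (del δ (n + 1) c) * R c +
        gt q (kK c * y) 0 (n + 1) (Z c)) /ₘ q) :=
      pf_lin (lin_div hq) (pf_add (pf_mul hdelP hR) hgt)
    obtain ⟨Δ, P', R', h1, h2, h3, h4⟩ := ih _ _ (fun c => kK (del δ (n + 1) c) * u c)
      (fun c => kK (del δ (n + 1) c) * w c) (fun c => kK (del δ (n + 1) c) * v c) hP1 hR1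
      (fun c hc => (hst c hc).1) (fun c hc => (hst c hc).2.1) (fun c hc => (hst c hc).2.2)
    refine ⟨fun c => Δ c * del δ (n + 1) c, P', R', h1, h2,
      fun c hc => mul_ne_zero (h3 c hc) (hS c hc _), fun c hc => ?_⟩
    obtain ⟨h5, h6, h7⟩ := h4 c hc
    have h8 : ∀ z : Kt[X], kK (Δ c * del δ (n + 1) c) * z =
        kK (Δ c) * (kK (del δ (n + 1) c) * z) := fun z => by rw [map_mul, mul_assoc]
    rw [h8, h8, h8]
    exact ⟨h5, h6, h7⟩

/-- clearing the denominators of a family -/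
theorem clear_pf {P : ℂ → Kt[X]} (hP : PF kK P) : ∃ (d : ℂ[X]) (p : ℂ → ℂ[X][X]), d ≠ 0 ∧
    PF kh p ∧ ∀ c, (p c).map io = C (io d) * P c := by
  obtain ⟨F, hF⟩ := hP
  have key : ∀ n : ℕ, ∃ (d : ℂ[X]) (p : ℂ → ℂ[X][X]), d ≠ 0 ∧ PF kh p ∧
      ∀ c, (p c).map io = C (io d) * ∑ i ∈ range n, F.coeff i * kK c ^ i := by
    intro n
    induction n with
    | zero =>
      refine ⟨1, fun _ => 0, one_ne_zero, pf_const 0, fun c => ?_⟩
      rw [Finset.sum_range_zero, mul_zero, Polynomial.map_zero]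
    | succ n ih =>
      obtain ⟨d, p, hd, hp, h⟩ := ih
      obtain ⟨d2, p2, hd2, h2⟩ := clear (F.coeff n)
      refine ⟨d * d2, fun c => C d2 * p c + C d * p2 * kh (c ^ n), mul_ne_zero hd hd2,
        pf_add (pf_mul (pf_const _) hp) (pf_mul (pf_const _) (pf_pol ⟨X ^ n, fun c => by
          rw [eval_pow, eval_X]; rfl⟩)), fun c => ?_⟩
      have h3 : (kh (c ^ n)).map io = kK c ^ n := by
        rw [← map_pow]
        exact map_kc' (c ^ n)
      rw [Polynomial.map_add, Polynomial.map_mul, Polynomial.map_mul, Polynomial.map_mul, h, h2, h3,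
        map_C, map_C, Finset.sum_range_succ, map_mul, C_mul]
      ring
  obtain ⟨d, p, hd, hp, h⟩ := key (F.natDegree + 1)
  refine ⟨d, p, hd, hp, fun c => ?_⟩
  rw [h, hF, eval_eq_sum_range]

theorem pow_dt (f : ℂ[X][X]) (K : ℕ) : f * dt (f ^ K) = (K : ℂ[X][X]) * f ^ K * dt f := by
  induction K with
  | zero =>
    have : dt (1 : ℂ[X][X]) = 0 := by rw [← C_1, dt_C, derivative_one, C_0]
    rw [pow_zero, this, Nat.cast_zero]
    ring
  | succ K ih =>
    rw [pow_succ, dt_mul]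
    push_cast
    linear_combination f * ih

theorem pow_dx (f : ℂ[X][X]) (K : ℕ) :
    f * derivative (f ^ K) = (K : ℂ[X][X]) * f ^ K * derivative f := by
  induction K with
  | zero => rw [pow_zero, derivative_one, Nat.cast_zero]; ring
  | succ K ih =>
    rw [pow_succ, derivative_mul]
    push_cast
    linear_combination f * ih

/-- the first equation -/
theorem base {Q γ hx ht A B U V W : ℂ[X][X]} {s : ℂ} {K M : ℕ} (hγ : γ ≠ 0)
    (hxE : derivative γ * Q = γ * hx) (htE : dt γ * Q = γ * ht) (hV : γ * V = Q ^ M)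
    (hW : W = V ^ K * Q)
    (hE : U * γ ^ (K + 1) = γ * (dt A + derivative B) +
      kc (s - K) * (dt γ * A + derivative γ * B)) :
    U * Q ^ (M * K + 2) = Q * dt (A * W) +
      (kc s * ht - ((M * K + 1 : ℕ) : ℂ[X][X]) * dt Q) * (A * W) + Q * derivative (B * W) +
      (kc s * hx - ((M * K + 1 : ℕ) : ℂ[X][X]) * derivative Q) * (B * W) := by
  have hsK : kc (s - K) = kc s - (K : ℂ[X][X]) := by
    have h1 := kc_add (s - K) K
    rw [sub_add_cancel, kc_nat] at h1
    rw [h1]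
    ring
  rw [hsK] at hE
  have E2 : U * γ ^ K * Q = Q * (dt A + derivative B) +
      (kc s - (K : ℂ[X][X])) * (ht * A + hx * B) := by
    refine mul_left_cancel₀ hγ ?_
    rw [pow_succ] at hE
    linear_combination Q * hE + (kc s - (K : ℂ[X][X])) * (A * htE + B * hxE)
  have hA : γ ^ K * W = Q ^ (M * K + 1) := by
    have h1 := congrArg (fun z => z ^ K) hV
    beta_reduce at h1
    rw [mul_pow, ← pow_mul] at h1
    rw [hW, pow_succ]
    linear_combination Q * h1
  have hAx : (K : ℂ[X][X]) * hx * W + Q * derivative W =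
      ((M * K + 1 : ℕ) : ℂ[X][X]) * W * derivative Q := by
    have h1 := congrArg derivative hA
    have h2 := pow_dx γ K
    have h3 := pow_dx Q (M * K + 1)
    rw [derivative_mul] at h1
    have h6 : γ * (γ ^ K * ((K : ℂ[X][X]) * hx * W + Q * derivative W)) =
        γ * (γ ^ K * (((M * K + 1 : ℕ) : ℂ[X][X]) * W * derivative Q)) := by
      linear_combination γ * Q * h1 - Q * W * h2 - (K : ℂ[X][X]) * γ ^ K * W * hxE + γ * h3 -
        γ * ((M * K + 1 : ℕ) : ℂ[X][X]) * derivative Q * hA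
    exact mul_left_cancel₀ (pow_ne_zero K hγ) (mul_left_cancel₀ hγ h6)
  have hAt : (K : ℂ[X][X]) * ht * W + Q * dt W =
      ((M * K + 1 : ℕ) : ℂ[X][X]) * W * dt Q := by
    have h1 := congrArg dt hA
    have h2 := pow_dt γ K
    have h3 := pow_dt Q (M * K + 1)
    rw [dt_mul] at h1
    have h6 : γ * (γ ^ K * ((K : ℂ[X][X]) * ht * W + Q * dt W)) =
        γ * (γ ^ K * (((M * K + 1 : ℕ) : ℂ[X][X]) * W * dt Q)) := by
      linear_combination γ * Q * h1 - Q * W * h2 - (K : ℂ[X][X]) * γ ^ K * W * htE + γ * h3 -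
        γ * ((M * K + 1 : ℕ) : ℂ[X][X]) * dt Q * hA
    exact mul_left_cancel₀ (pow_ne_zero K hγ) (mul_left_cancel₀ hγ h6)
  rw [dt_mul, derivative_mul]
  linear_combination (-U * Q) * hA + W * E2 - A * hAt - B * hAx

theorem PP_map {Q : ℂ[X][X]} (hQ : Q.Monic) (n : ℕ) (p : ℂ[X][X]) :
    PP (Q.map io) n (p.map io) ((p /ₘ (Q ^ n)).map io) := by
  refine ⟨(p %ₘ (Q ^ n)).map io, ?_, ?_⟩
  · have h1 := congrArg (Polynomial.map io) (modByMonic_add_div p (Q ^ n))
    rw [Polynomial.map_add, Polynomial.map_mul, Polynomial.map_pow] at h1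
    linear_combination -h1
  · refine lt_of_le_of_lt degree_map_le ?_
    rw [natDegree_map_eq_of_injective io_inj, ← hQ.natDegree_pow,
      ← degree_eq_natDegree (hQ.pow n).ne_zero]
    exact degree_modByMonic_lt _ (hQ.pow n)

theorem deg_kK_mul {N : ℕ} {p : ℂ[X][X]} (hN : 1 ≤ N) (hp : p.natDegree ≤ N - 1) (c : ℂ) :
    (kK c * p.map io).degree < (N : WithBot ℕ) := by
  rw [kK_apply]
  refine lt_of_le_of_lt (deg_C_mul _ _) (lt_of_le_of_lt degree_map_le ?_)
  refine lt_of_le_of_lt degree_le_natDegree ?_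
  have : p.natDegree < N := by omega
  exact_mod_cast this

/-- the first equation over `ℂ(t)` -/
theorem base_map {Q γ hx ht A B U V W : ℂ[X][X]} {s : ℂ} {K M : ℕ} (hγ : γ ≠ 0)
    (hxE : derivative γ * Q = γ * hx) (htE : dt γ * Q = γ * ht) (hV : γ * V = Q ^ M)
    (hW : W = V ^ K * Q)
    (hE : U * γ ^ (K + 1) = γ * (dt A + derivative B) +
      kc (s - K) * (dt γ * A + derivative γ * B)) :
    Op (Q.map io) (kK s * hx.map io) (kK s * ht.map io) (M * K + 1) ((A * W).map io)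
      ((B * W).map io) = U.map io * (Q.map io) ^ (M * K + 2) := by
  have h1 := congrArg (Polynomial.map io) (base hγ hxE htE hV hW hE)
  rw [Op, dk_map, dk_map, derivative_map, derivative_map]
  simp only [Polynomial.map_add, Polynomial.map_sub, Polynomial.map_mul, Polynomial.map_pow,
    map_kc', Polynomial.map_natCast] at h1 ⊢
  linear_combination -h1

/-- the equation after clearing the denominators -/
theorem fin_eq {Q hx ht p r U : ℂ[X][X]} {d : ℂ[X]} {s a : ℂ} {P R : Kt[X]}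
    (hp : p.map io = C (io d) * P) (hr : r.map io = C (io d) * R)
    (hC : Op (Q.map io) (kK s * hx.map io) (kK s * ht.map io) 1 P R =
      kK a * U.map io * (Q.map io) ^ 2) :
    C d ^ 2 * (kc a * U) * Q ^ 2 = Q * (C d * dt p - C (derivative d) * p) +
      C d * (kc s * ht - dt Q) * p + C d * (Q * derivative r) +
      C d * (kc s * hx - derivative Q) * r := by
  apply map_injective io io_inj
  have h1 : (dt p).map io = C (io (derivative d)) * P + C (io d) * dk P := by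
    rw [← dk_map, hp, dk_mul, dk_C, D_io]
  have h2 : (derivative r).map io = C (io d) * derivative R := by
    rw [← derivative_map, hr, derivative_C_mul]
  simp only [Polynomial.map_add, Polynomial.map_sub, Polynomial.map_mul, Polynomial.map_pow,
    map_C, map_kc']
  rw [h1, h2, hp, hr]
  rw [Op, dk_map, derivative_map] at hC
  simp only [Nat.cast_one, one_mul] at hC
  change C (io d) ^ 2 * _ * _ = Q.map io * (C (io d) * _ - C (io (derivative d)) * _) +
    C (io d) * _ * _ + C (io d) * _ + C (io d) * _ * _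
  linear_combination (-(C (io d)) ^ 2) * hC

/-- the degrees -/
theorem fin_deg {Q p W : ℂ[X][X]} {d : ℂ[X]} {N j : ℕ} (hN : 1 ≤ N) (hQ : Q.natDegree = N)
    (hd : (p - C d * W * Q).degree < (N : WithBot ℕ)) (hW : W.natDegree ≤ j) :
    p.natDegree ≤ N + j := by
  have h1 : p = (p - C d * W * Q) + C d * W * Q := by ring
  rw [h1]
  refine (natDegree_add_le _ _).trans (max_le ?_ ?_)
  · exact (natDegree_le_of_degree_le hd.le).trans (Nat.le_add_right _ _)
  · refine natDegree_mul_le.trans ?_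
    have h2 : (C d * W).natDegree ≤ j := (natDegree_C_mul_le _ _).trans hW
    omega

/-- the degree of the polynomial part -/
theorem deg_w {Q V γ A : ℂ[X][X]} {N M K δ j : ℕ} (hQ : Q.Monic) (hQN : Q.natDegree = N)
    (hγ : γ ≠ 0) (hV : γ * V = Q ^ M) (hδ : γ.natDegree = δ) (hA : A.natDegree ≤ δ * K + j) :
    ((A * (V ^ K * Q)) /ₘ (Q ^ (M * K + 1))).natDegree ≤ j := by
  have hV0 : V ≠ 0 := by
    intro h0
    rw [h0, mul_zero] at hV
    exact (hQ.pow M).ne_zero hV.symm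
  have h1 : δ + V.natDegree = M * N := by
    have h2 := congrArg natDegree hV
    rw [natDegree_mul hγ hV0, hQ.natDegree_pow, hδ, hQN] at h2
    exact h2
  rw [natDegree_divByMonic _ (hQ.pow _), hQ.natDegree_pow, hQN]
  have h3 : (A * (V ^ K * Q)).natDegree ≤ (δ * K + j) + (K * V.natDegree + N) := by
    refine natDegree_mul_le.trans (Nat.add_le_add hA ?_)
    refine natDegree_mul_le.trans (Nat.add_le_add natDegree_pow_le hQN.le)
  have h4 : (M * K + 1) * N = δ * K + K * V.natDegree + N := by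
    calc (M * K + 1) * N = K * (M * N) + N := by ring
      _ = K * (δ + V.natDegree) + N := by rw [h1]
      _ = _ := by ring
  rw [h4]
  omega

end RN

/-- **R**. -/
theorem t_R (h : S_Ra) : S_R := by
  intro N Q γ hx ht D0 M hC K δ A B U hA hB hδ hE
  obtain ⟨V, hV⟩ := hC.dvd'
  have hV' : γ * V = Q ^ M := hV.symm
  have hQ := hC.monic
  have hQk : (Q.map io).Monic := hQ.map io
  have hnd : (Q.map io).natDegree = N := by
    rw [natDegree_map_eq_of_injective io_inj, hC.deg]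
  have hN : 0 < (Q.map io).natDegree := by
    rw [hnd]
    exact hC.pos
  have hi : ∀ c : ℂ, dk (kK c * hx.map io) * (Q.map io) - (kK c * hx.map io) * dk (Q.map io) =
      derivative (kK c * ht.map io) * (Q.map io) - (kK c * ht.map io) * derivative (Q.map io) := by
    intro c
    have h1 := integ_map c hC.γ0 hC.hxE hC.htE
    rw [Polynomial.map_mul, Polynomial.map_mul, RN.map_kc'] at h1
    exact h1
  set S : Set ℂ := {c | ∃ s : ℝ, s < 0 ∧ c = s} with hS
  have hSd : ∀ c ∈ S, ∀ m, RN.del γ.natDegree m c ≠ 0 := by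
    rintro c ⟨s, hs, rfl⟩ m
    rw [RN.del, Finset.prod_ne_zero_iff]
    intro b _ h0
    have h1 : (s : ℂ) * ((b : ℂ) + 1) - m = ((s * ((b : ℝ) + 1) - m : ℝ) : ℂ) := by
      push_cast
      ring
    rw [h1] at h0
    have h2 : s * ((b : ℝ) + 1) - m = 0 := by exact_mod_cast h0
    have h3 : (0 : ℝ) < (b : ℝ) + 1 := by positivity
    have h4 : (0 : ℝ) ≤ m := Nat.cast_nonneg m
    nlinarith
  have hβ : ∀ m : ℕ, ∃ β : ℂ → Kt[X], PF kK β ∧ ∀ c : ℂ, Q.map io ∣
      β c * (kK c * hx.map io - (m : Kt[X]) * derivative (Q.map io)) -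
        kK (RN.del γ.natDegree m c) := by
    intro m
    obtain ⟨β, h1, h2⟩ := h N Q γ hx ht D0 M hC m
    refine ⟨β, h1, fun c => ?_⟩
    have h3 := h2 c
    rw [Polynomial.map_mul, RN.map_kc'] at h3
    exact h3
  set W : ℂ[X][X] := V ^ K * Q with hW
  have hPk : ∀ {A : ℂ → ℂ[X][X]}, PF kh A → PF kK (fun c => (A c * W).map io) := by
    intro A hA
    obtain ⟨F, hF⟩ := RN.pf_mul hA (RN.pf_const (κ := kh) W)
    refine ⟨F.map (mapRingHom io), fun c => ?_⟩
    have h1 := hF c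
    beta_reduce at h1 ⊢
    rw [h1]
    have h2 : kK c = mapRingHom io (kh c) := (RN.map_kc' c).symm
    rw [h2, eval_map, eval₂_at_apply]
    rfl
  obtain ⟨Δ, P', R', hP', hR', hΔ, hfin⟩ := RN.red hQk hN hi
    (fun c => by rw [hnd]; exact RN.deg_kK_mul hC.pos hC.hxd c)
    (fun c => by rw [hnd]; exact RN.deg_kK_mul hC.pos hC.htd c) γ.natDegree hβ S hSd (M * K)
    (fun c => (A c * W).map io) (fun c => (B c * W).map io) (fun c => (U c).map io)
    (fun c => ((A c * W) /ₘ (Q ^ (M * K + 1))).map io)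
    (fun c => ((B c * W) /ₘ (Q ^ (M * K + 1))).map io) (hPk hA) (hPk hB)
    (fun c _ => RN.base_map hC.γ0 hC.hxE hC.htE hV' hW (hE c))
    (fun c _ => RN.PP_map hQ _ _) (fun c _ => RN.PP_map hQ _ _)
  obtain ⟨d1, p1, hd1, hp1, hp1'⟩ := RN.clear_pf hP'
  obtain ⟨d2, r1, hd2, hr1, hr1'⟩ := RN.clear_pf hR'
  have hp : ∀ c, (C d2 * p1 c).map io = C (io (d1 * d2)) * P' c := fun c => by
    rw [Polynomial.map_mul, map_C, hp1', map_mul, C_mul]
    ring
  have hr : ∀ c, (C d1 * r1 c).map io = C (io (d1 * d2)) * R' c := fun c => by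
    rw [Polynomial.map_mul, map_C, hr1', map_mul, C_mul]
    ring
  have hpd : ∀ {p w : ℂ[X][X]} {P : Kt[X]} {a : ℂ}, p.map io = C (io (d1 * d2)) * P →
      PP (Q.map io) 1 P (kK a * w.map io) →
      (p - C (d1 * d2) * (kc a * w) * Q).degree < (N : WithBot ℕ) := by
    intro p w P a h1 h2
    obtain ⟨r, hr, hrd⟩ := h2
    rw [one_mul, hnd] at hrd
    have h3 : (p - C (d1 * d2) * (kc a * w) * Q).map io = C (io (d1 * d2)) * r := by
      rw [Polynomial.map_sub, Polynomial.map_mul, Polynomial.map_mul, Polynomial.map_mul, map_C,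
        RN.map_kc', h1, hr]
      ring
    rw [← degree_map_eq_of_injective io_inj, h3]
    exact lt_of_le_of_lt (deg_C_mul _ _) hrd
  refine ⟨d1 * d2, Δ, fun c => C d2 * p1 c, fun c => C d1 * r1 c,
    fun c => kc (Δ c) * ((A c * W) /ₘ (Q ^ (M * K + 1))),
    fun c => kc (Δ c) * ((B c * W) /ₘ (Q ^ (M * K + 1))), mul_ne_zero hd1 hd2,
    RN.pf_mul (RN.pf_const _) hp1, fun s hs => ?_⟩
  have hsS : (s : ℂ) ∈ S := ⟨s, hs, rfl⟩
  obtain ⟨h1, h2, h3⟩ := hfin s hsS
  have e1 := hpd (hp s) h2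
  have e2 := hpd (hr s) h3
  refine ⟨hΔ s hsS, ⟨RN.fin_eq (hp s) (hr s) h1, e1, e2⟩, fun hd => ?_, fun hd => ?_⟩
  · refine RN.fin_deg hC.pos hC.deg e1 ((natDegree_C_mul_le _ _).trans ?_)
    exact RN.deg_w hQ hC.deg hC.γ0 hV' hδ hd
  · refine RN.fin_deg hC.pos hC.deg e2 ((natDegree_C_mul_le _ _).trans ?_)
    exact RN.deg_w hQ hC.deg hC.γ0 hV' hδ hd

end Pool.Agent.H942.LP
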