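import Pool.Agent.H942.LP.DefR

set_option autoImplicit false
set_option linter.unusedSectionVars false
set_option linter.unusedVariables false

/-! # A polynomial family of inverses modulo `Q` (`S_Ra`) -/

namespace Pool.Agent.H942.LP

open Polynomial Finset Pool.Agent.Helper748.TP Pool.Agent.H941.TF

namespace RaN

theorem fam {R : Type} [CommRing R] (κ : ℂ →+* R) (n m : ℕ) (Qb Q' h ι a : R)
    (h1 : a * Qb + ι * Q' = 1) (h2 : Qb ∣ ∏ b ∈ Finset.range n, ((b : R) + 1 - ι * h)) :
    ∃ P : R[X], ∀ c : ℂ, Qb ∣ P.eval (κ c) * (κ c * h - (m : R) * Q') -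
      κ (∏ b ∈ Finset.range n, (c * ((b : ℂ) + 1) - m)) := by
  set F : R[X][X] := ∏ b ∈ Finset.range n, (C (X * C ((b : R) + 1)) - X) with hF
  have hFe : ∀ w : R[X], F.eval w = ∏ b ∈ Finset.range n, (X * C ((b : R) + 1) - w) := by
    intro w
    rw [hF, eval_prod]
    refine Finset.prod_congr rfl fun b _ => ?_
    rw [eval_sub, eval_C, eval_X]
  obtain ⟨G, hG⟩ := sub_dvd_eval_sub (m : R[X]) (X * C (ι * h)) F
  rw [hFe, hFe] at hG
  refine ⟨-(G * C ι), fun c => ?_⟩
  have hGc := congrArg (eval (κ c)) hG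
  rw [eval_sub, eval_prod, eval_prod, eval_mul, eval_sub, eval_natCast, eval_mul, eval_X,
    eval_C] at hGc
  have e1 : ∏ b ∈ Finset.range n, eval (κ c) (X * C ((b : R) + 1) - (m : R[X])) =
      κ (∏ b ∈ Finset.range n, (c * ((b : ℂ) + 1) - m)) := by
    rw [map_prod]
    refine Finset.prod_congr rfl fun b _ => ?_
    rw [eval_sub, eval_mul, eval_X, eval_C, eval_natCast, map_sub, map_mul, map_add, map_one,
      map_natCast, map_natCast]
  have e2 : ∏ b ∈ Finset.range n, eval (κ c) (X * C ((b : R) + 1) - X * C (ι * h)) =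
      κ c ^ n * ∏ b ∈ Finset.range n, ((b : R) + 1 - ι * h) := by
    have e3 : κ c ^ n = ∏ _b ∈ Finset.range n, κ c := by
      rw [Finset.prod_const, Finset.card_range]
    rw [e3, ← Finset.prod_mul_distrib]
    refine Finset.prod_congr rfl fun b _ => ?_
    rw [eval_sub, eval_mul, eval_mul, eval_X, eval_C, eval_C]
    ring
  rw [e1, e2] at hGc
  obtain ⟨u, hu⟩ := h2
  rw [hu] at hGc
  refine ⟨-(κ c ^ n * u) - eval (κ c) G * m * a, ?_⟩
  rw [eval_neg, eval_mul, eval_C]
  linear_combination -hGc + (eval (κ c) G * m) * h1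

section fieldA

variable {A : Type} [Field A]

/-- the residue of the logarithmic derivative is the multiplicity -/
theorem mult_val [CharZero A] {Q γ h : A[X]} (hγ : γ ≠ 0) (he : derivative γ * Q = γ * h) {a : A}
    (ha : Q.eval a = 0) :
    h.eval a = (γ.rootMultiplicity a : A) * (derivative Q).eval a := by
  obtain ⟨g, hg, hga⟩ := exists_eq_pow_rootMultiplicity_mul_and_not_dvd γ hγ a
  set n := γ.rootMultiplicity a with hn
  obtain ⟨q, hq⟩ := dvd_iff_isRoot.2 ha
  have hga' : g.eval a ≠ 0 := fun h0 => hga (dvd_iff_isRoot.2 h0)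
  have hQ' : (derivative Q).eval a = q.eval a := by
    rw [hq, derivative_mul, derivative_X_sub_C, eval_add, eval_mul, eval_mul, eval_sub, eval_X,
      eval_C, sub_self, zero_mul, add_zero, eval_one, one_mul]
  have hX : (X - C a : A[X]) ^ n ≠ 0 := pow_ne_zero _ (X_sub_C_ne_zero a)
  have h1 : (X - C a) ^ n * ((n : A[X]) * g * q + (X - C a) * derivative g * q) =
      (X - C a) ^ n * (g * h) := by
    have h2 := he
    rw [hg, hq, derivative_mul, derivative_pow, derivative_X_sub_C, mul_one] at h2
    rcases Nat.eq_zero_or_pos n with h0 | h0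
    · rw [h0] at h2 ⊢
      simp only [Nat.cast_zero, C_0, zero_mul, pow_zero, one_mul] at h2 ⊢
      linear_combination h2
    · have h3 : (X - C a : A[X]) ^ n = (X - C a) ^ (n - 1) * (X - C a) := by
        rw [← pow_succ]
        exact congrArg _ (by omega)
      have h4 : (C (n : A) : A[X]) = (n : A[X]) := by simp
      rw [h4] at h2
      linear_combination h2 + (n : A[X]) * g * q * h3
  have h2 := mul_left_cancel₀ hX h1
  have h3 := congrArg (eval a) h2
  rw [eval_add, eval_mul, eval_mul, eval_mul, eval_mul, eval_mul, eval_sub, eval_X, eval_C,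
    sub_self, zero_mul, zero_mul, add_zero, eval_natCast] at h3
  rw [hQ']
  apply mul_left_cancel₀ hga'
  linear_combination -h3

theorem dvd_prod [CharZero A] [IsAlgClosed A] {Q γ h : A[X]} (hQ : Q.Monic)
    (hsep : IsCoprime Q (derivative Q))
    (hγ : γ ≠ 0) (hd : Q ∣ γ) (he : derivative γ * Q = γ * h) :
    Q ∣ ∏ b ∈ Finset.range γ.natDegree, (h - ((b : A[X]) + 1) * derivative Q) := by
  by_cases hF : ∏ b ∈ Finset.range γ.natDegree, (h - ((b : A[X]) + 1) * derivative Q) = 0
  · rw [hF]
    exact dvd_zero _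
  have hsp : Q.Splits := IsAlgClosed.splits Q
  have h1 : Q = (Q.roots.map fun a => X - C a).prod := by
    have := hsp.eq_prod_roots
    rwa [hQ.leadingCoeff, C_1, one_mul] at this
  have hnd : Q.roots.Nodup := nodup_roots hsep
  suffices h2 : (Q.roots.map fun a => X - C a).prod ∣
      ∏ b ∈ Finset.range γ.natDegree, (h - ((b : A[X]) + 1) * derivative Q) by
    rwa [← h1] at h2
  rw [Multiset.prod_X_sub_C_dvd_iff_le_roots hF, Multiset.le_iff_subset hnd]
  intro a ha
  have ha' : Q.eval a = 0 := (mem_roots hQ.ne_zero).1 ha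
  rw [mem_roots hF, IsRoot, eval_prod]
  have hm := mult_val hγ he ha'
  have hroot : γ.IsRoot a := by
    obtain ⟨u, hu⟩ := hd
    rw [IsRoot, hu, eval_mul, ha', zero_mul]
  have hpos : 0 < γ.rootMultiplicity a := (rootMultiplicity_pos hγ).2 hroot
  have hle : γ.rootMultiplicity a ≤ γ.natDegree := by
    have h3 := natDegree_le_of_dvd (pow_rootMultiplicity_dvd γ a) hγ
    rwa [natDegree_pow, natDegree_X_sub_C, mul_one] at h3
  refine Finset.prod_eq_zero (i := γ.rootMultiplicity a - 1) (Finset.mem_range.2 (by omega)) ?_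
  rw [eval_sub, eval_mul, eval_add, eval_natCast, eval_one, hm]
  have h5 : ((γ.rootMultiplicity a - 1 : ℕ) : A) + 1 = (γ.rootMultiplicity a : A) := by
    rw [← Nat.cast_succ]
    exact congrArg _ (by omega)
  rw [h5, sub_self]

end fieldA

end RaN

open RaN

theorem t_Ra : S_Ra := by
  intro N Q γ hx ht D0 M hcur m
  obtain ⟨α, β, hαβ⟩ := hcur.disc
  have hD0 : io D0 ≠ 0 := fun h => hcur.D00 (io_inj (h.trans (map_zero io).symm))
  -- coprimality over the field
  have hcop : C (io D0) = α.map io * Q.map io + β.map io * derivative (Q.map io) := by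
    have := congrArg (Polynomial.map io) hαβ
    rwa [Polynomial.map_add, Polynomial.map_mul, Polynomial.map_mul, map_C, ← derivative_map] at this
  have hinv : (C (io D0)⁻¹ : Kt[X]) * C (io D0) = 1 := by
    rw [← C_mul, inv_mul_cancel₀ hD0, C_1]
  have hbez : (C (io D0)⁻¹ * α.map io) * Q.map io + (C (io D0)⁻¹ * β.map io) *
      derivative (Q.map io) = 1 := by
    rw [← hinv, hcop]
    ring
  have hγk : γ.map io ≠ 0 := (Polynomial.map_ne_zero_iff io_inj).2 hcur.γ0
  have hE : derivative (γ.map io) * Q.map io = γ.map io * hx.map io := by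
    rw [derivative_map, ← Polynomial.map_mul, ← Polynomial.map_mul, hcur.hxE]
  have hdv : Q.map io ∣ γ.map io := Polynomial.map_dvd io hcur.dvd
  have hdeg : (γ.map io).natDegree = γ.natDegree := natDegree_map_eq_of_injective io_inj _
  -- divisibility over the algebraic closure
  have hdiv : Q.map io ∣ ∏ b ∈ Finset.range γ.natDegree,
      (hx.map io - ((b : Kt[X]) + 1) * derivative (Q.map io)) := by
    set j : Kt →+* AlgebraicClosure Kt := algebraMap Kt (AlgebraicClosure Kt) with hj
    rw [← Polynomial.map_dvd_map' j]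
    have hcz : CharZero (AlgebraicClosure Kt) := by
      have : CharZero Kt := charZero_of_injective_algebraMap (R := ℂ[X]) (A := Kt) io_inj
      exact charZero_of_injective_algebraMap (algebraMap Kt (AlgebraicClosure Kt)).injective
    have h1 := dvd_prod (A := AlgebraicClosure Kt) (Q := (Q.map io).map j) (γ := (γ.map io).map j)
      (h := (hx.map io).map j) ((hcur.monic.map io).map j) ?_ ?_ ?_ ?_
    · rw [natDegree_map_eq_of_injective j.injective, hdeg] at h1
      rw [Polynomial.map_prod]
      refine h1.trans (dvd_of_eq (Finset.prod_congr rfl fun b _ => ?_))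
      rw [Polynomial.map_sub, Polynomial.map_mul, Polynomial.map_add, Polynomial.map_natCast,
        Polynomial.map_one, derivative_map]
    · rw [derivative_map]
      refine ⟨(C (io D0)⁻¹ * α.map io).map j, (C (io D0)⁻¹ * β.map io).map j, ?_⟩
      rw [← Polynomial.map_mul, ← Polynomial.map_mul, ← Polynomial.map_add, hbez,
        Polynomial.map_one]
    · exact (Polynomial.map_ne_zero_iff j.injective).2 hγk
    · exact Polynomial.map_dvd j hdv
    · rw [derivative_map, ← Polynomial.map_mul, ← Polynomial.map_mul, hE]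
  -- multiply by the inverse of the derivative
  set ι : Kt[X] := C (io D0)⁻¹ * β.map io with hι
  set a : Kt[X] := C (io D0)⁻¹ * α.map io with ha
  have hdiv2 : Q.map io ∣ ∏ b ∈ Finset.range γ.natDegree, ((b : Kt[X]) + 1 - ι * hx.map io) := by
    have hmod : ∀ s : Finset ℕ, Q.map io ∣ (∏ b ∈ s, ((b : Kt[X]) + 1 - ι * hx.map io)) -
        (-ι) ^ s.card * ∏ b ∈ s, (hx.map io - ((b : Kt[X]) + 1) * derivative (Q.map io)) := by
      intro s
      induction s using Finset.induction_on with
      | empty => simp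
      | insert b s hb ih =>
        obtain ⟨u, hu⟩ := ih
        rw [Finset.prod_insert hb, Finset.prod_insert hb, Finset.card_insert_of_notMem hb]
        refine ⟨((b : Kt[X]) + 1 - ι * hx.map io) * u + ((b : Kt[X]) + 1) * a * ((-ι) ^ s.card *
          ∏ b ∈ s, (hx.map io - ((b : Kt[X]) + 1) * derivative (Q.map io))), ?_⟩
        linear_combination ((b : Kt[X]) + 1 - ι * hx.map io) * hu -
          ((b : Kt[X]) + 1) * ((-ι) ^ s.card *
          ∏ b ∈ s, (hx.map io - ((b : Kt[X]) + 1) * derivative (Q.map io))) * hbez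
    have h1 := hmod (Finset.range γ.natDegree)
    have h2 := (dvd_sub_left (Dvd.dvd.mul_left hdiv ((-ι) ^ (Finset.range γ.natDegree).card))).1 h1
    exact h2
  obtain ⟨P, hP⟩ := fam kK γ.natDegree m (Q.map io) (derivative (Q.map io)) (hx.map io) ι a hbez hdiv2
  refine ⟨fun c => P.eval (kK c), ⟨P, fun c => rfl⟩, fun c => ?_⟩
  have h1 := hP c
  have h2 : (kc c * hx).map io = kK c * hx.map io := by
    rw [Polynomial.map_mul, map_kc]
    rfl
  rw [h2]
  exact h1

end Pool.Agent.H942.LP
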