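import Pool.Agent.H942.LP.N
import Pool.Agent.H942.LP.F
import Pool.Agent.H942.LP.Fa
import Pool.Agent.H942.LP.R
import Pool.Agent.H942.LP.Ra
import Pool.Agent.H942.LP.L
import Pool.Agent.H942.LP.La
import Pool.Agent.H941.NC.Core

set_option autoImplicit false
set_option linter.unusedSectionVars false
set_option linter.unusedVariables false

/-! # The normal form of the primitive, with the Lipschitz property -/

namespace Pool.Agent.H942.LP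

open Polynomial Finset Filter Topology Pool.Agent.Helper748.TP Pool.Agent.H941.TF
  Pool.Agent.H941.SC Pool.Agent.H941.NC Pool.Agent.H628R4.TP

/-- the Lipschitz property of the residues -/
def Lip (N : ℕ) (Q hx : ℂ[X][X]) (σ : ℝ) (d : ℂ[X]) (p : ℂ[X][X]) : Prop :=
  ∀ (b : ℂ) (m : ℕ) (a : Fin N → ℂ → ℂ), 0 < m → (∀ j, AnalyticAt ℂ (a j) 0) →
    Par N Q (fun u => b + u ^ m) a → ∀ i j, i ≠ j → ∃ L, Tendsto (fun u =>
      (yy σ hx d p (b + u ^ m) (a i u) - yy σ hx d p (b + u ^ m) (a j u)) / (a i u - a j u))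
      (𝓝[≠] 0) (𝓝 L)

/-- **The normal form of the primitive, with the Lipschitz property.** -/
theorem out {N d M : ℕ} {F : MvPolynomial (Fin 3) ℂ} {Q hx ht : ℂ[X][X]} {D0 : ℂ[X]}
    (CC : Cur N Q (ch F) hx ht D0 M) (hN2 : 2 ≤ N) (hFh : F.IsHomogeneous d) (hd : 0 < d)
    (hF0 : F ≠ 0) (hFδ : (ch F).natDegree = d) {bf : ℂ[X]} (hbf : IsBFunction F bf) {σ : ℝ}
    (hσ : σ < 0) (hsσ : (-3 / d : ℂ) = (σ : ℂ)) (hz3 : (d : ℂ) * σ + 3 = 0)
    (hb0 : bf.eval (-3 / d : ℂ) ≠ 0) (hlc3 : (kc (σ : ℂ) * hx).coeff (N - 1) = -3) :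
    ∃ (d' : ℂ[X]) (p r q : ℂ[X][X]), Dat N Q (ch F) hx ht σ (VV N Q (kc (σ : ℂ) * hx)) d' p r q ∧
      Lip N Q hx σ d' p := by
  obtain ⟨K', A, B, H, hA, hB, hH, hABH, hAd, hBd⟩ := t_F t_Fa d F bf hd hFh hF0 hbf
  have hchx : ∀ P, chx P = ch P := fun P => rfl
  simp only [hchx] at hABH
  generalize hU' : (fun c : ℂ => kc (bf.eval c) - kc (d * c + 3) * H c * ch F) = U
  have hU'c : ∀ c : ℂ, U c = kc (bf.eval c) - kc (d * c + 3) * H c * ch F := fun c => by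
    rw [← hU']
  obtain ⟨dd, Δ, pp, rr, WW, VV', hdd, hpp, hall⟩ := t_R t_Ra _ _ _ _ _ _ _ CC K' d A B
    U hA hB hFδ (fun c => by
      rw [hU'c]
      linear_combination hABH c)
  obtain ⟨hΔ, hFm', hpd, hrd⟩ := hall σ hσ
  have hU : kc (Δ σ) * U σ = kc (Δ σ * bf.eval (σ : ℂ)) := by
    rw [hU'c, hz3, kc_mul]
    have : (kc 0 : ℂ[X][X]) = 0 := by simp [kc]
    rw [this]
    ring
  rw [hU] at hFm'
  rw [hsσ] at hb0 hAd hBd
  have hβ : Δ σ * bf.eval (σ : ℂ) ≠ 0 := mul_ne_zero hΔ hb0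
  obtain ⟨d', p, r, q, Zn, a0, b0, hb00, DD, hrel⟩ := hFm'.norm CC hN2 hβ hdd (hpd hAd)
    (hrd hBd) hlc3
  refine ⟨d', p, r, q, DD, ?_⟩
  have hDr0 : ∀ t ∉ D0.roots.toFinset, D0.eval t ≠ 0 := by
    intro t ht h
    rw [Multiset.mem_toFinset, Polynomial.mem_roots CC.D00] at ht
    exact ht h
  obtain ⟨α, β, hαβ⟩ := CC.disc
  intro b m a hm ha P i j hij
  have hT : AnalyticAt ℂ (fun u : ℂ => b + u ^ m) 0 := by fun_prop
  have hev : ∀ w : ℂ[X], w ≠ 0 → ∀ᶠ u in 𝓝[≠] (0 : ℂ), w.eval (b + u ^ m) ≠ 0 := by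
    intro w hw
    filter_upwards [ev_notin w.roots.toFinset b hm] with u hu h
    apply hu
    rw [Multiset.mem_toFinset, Polynomial.mem_roots hw]
    exact h
  obtain ⟨l, hl⟩ := lip_all (Δ := Δ) (p := pp) (r := rr) (W := WW) (V := VV') (U := U) (t_L t_La)
    CC hpp (fun s hs => (hall s hs).2.1) P hT ha (hev dd hdd) hσ hij
  have hTt := hT.continuousAt.tendsto.mono_left (nhdsWithin_le_nhds (s := {(0 : ℂ)}ᶜ))
  have hat : ∀ j, Tendsto (a j) (𝓝[≠] 0) (𝓝 (a j 0)) := fun j =>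
    (ha j).continuousAt.tendsto.mono_left nhdsWithin_le_nhds
  have hne : ∀ᶠ u in 𝓝[≠] (0 : ℂ), a i u ≠ a j u := by
    filter_upwards [P.inj] with u hu h'
    exact hij (hu h')
  obtain ⟨lz, hlz⟩ := dq Zn hTt (hat i) (hat j) hne
  refine ⟨_, ((hl.const_mul (Δ σ * bf.eval (σ : ℂ))⁻¹).sub hlz).congr' ?_⟩
  filter_upwards [P.root, hev dd hdd, hev d' DD.d0, hev b0 hb00,
    ev_notin D0.roots.toFinset b hm, hne] with u k1 k2 k3 k4 k5 k6
  have hQ0 : ∀ j, ev2 Q (b + u ^ m) (a j u) = 0 := by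
    intro j
    rw [ev2, k1]
    exact eval_nod (x := fun j => a j u) j
  have hh0' : ∀ j, ev2 (kc (σ : ℂ) * hx) (b + u ^ m) (a j u) ≠ 0 := fun j =>
    hneQ DD CC.dvd' hσ (sep_of_disc hαβ (hDr0 _ k5)) (hQ0 j)
  rw [hrel _ _ k2 k3 k4 (hQ0 i) (hh0' i), hrel _ _ k2 k3 k4 (hQ0 j) (hh0' j)]
  have k7 : a i u - a j u ≠ 0 := sub_ne_zero.2 k6
  rw [← mul_div_assoc, ← sub_div]
  congr 1
  ring

end Pool.Agent.H942.LP
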