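import Pool.Agent.H942.LP.DefZ

set_option autoImplicit false
set_option linter.unusedSectionVars false
set_option linter.unusedVariables false

/-! # A Lipschitz function on a curve along a branch which is not vertical -/

namespace Pool.Agent.H942.LP

open Finset Filter Topology Polynomial Pool.Agent.Helper748.TP Pool.Agent.Helper748.MC
  Pool.Agent.H941.TF Pool.Agent.H941.SC Pool.Agent.H941.NC

namespace MoN

/-- a rotation of the punctured disc -/
theorem rot {ζ : ℂ} (hζ : ζ ≠ 0) : Tendsto (fun u : ℂ => ζ * u) (𝓝[≠] 0) (𝓝[≠] 0) := by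
  rw [tendsto_nhdsWithin_iff]
  constructor
  · have h : ContinuousAt (fun u : ℂ => ζ * u) 0 := by fun_prop
    have h1 := h.tendsto
    rw [mul_zero] at h1
    exact h1.mono_left nhdsWithin_le_nhds
  · filter_upwards [ev_ne] with u hu
    exact mul_ne_zero hζ hu

/-- the order of a function from the order of its derivative -/
theorem der_ord {a : ℂ → ℂ} (ha : AnalyticAt ℂ a 0) {m : ℕ} (hm : 0 < m)
    (hd : ∃ l, Tendsto (fun u => deriv a u / u ^ (m - 1)) (𝓝[≠] 0) (𝓝 l)) :
    ∃ h : ℂ → ℂ, AnalyticAt ℂ h 0 ∧ ∀ᶠ u in 𝓝 (0 : ℂ), a u = a 0 + u ^ m * h u := by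
  have hξ : AnalyticAt ℂ (fun u => a u - a 0) 0 := ha.sub analyticAt_const
  by_cases h0 : ∀ᶠ u in 𝓝 (0 : ℂ), a u - a 0 = 0
  · refine ⟨fun _ => 0, analyticAt_const, ?_⟩
    filter_upwards [h0] with u hu
    linear_combination hu
  obtain ⟨s, h, hh, hh0, hs⟩ := hξ.exists_eventuallyEq_pow_smul_nonzero_iff.2 h0
  have hs' : ∀ᶠ u in 𝓝 (0 : ℂ), a u - a 0 = u ^ s * h u := by
    filter_upwards [hs] with u hu
    rw [hu, sub_zero, smul_eq_mul]
  have hms : m ≤ s := by
    by_contra hlt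
    push Not at hlt
    have hs1 : 0 < s := by
      rcases Nat.eq_zero_or_pos s with h1 | h1
      · exfalso
        have h2 := hs'.self_of_nhds
        rw [h1, pow_zero, one_mul, sub_self] at h2
        exact hh0 h2.symm
      · exact h1
    have hder : ∀ᶠ u in 𝓝[≠] (0 : ℂ), deriv a u = u ^ (s - 1) * (s * h u + u * deriv h u) := by
      have h3 : ∀ᶠ u in 𝓝 (0 : ℂ), ∀ᶠ v in 𝓝 u, a v - a 0 = v ^ s * h v := hs'.eventually_nhds
      filter_upwards [h3.filter_mono nhdsWithin_le_nhds,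
        hh.eventually_analyticAt.filter_mono nhdsWithin_le_nhds, ev_ne] with u hu hu1 hu2
      have h4 : a =ᶠ[𝓝 u] fun v => a 0 + v ^ s * h v := by
        filter_upwards [hu] with v hv
        rw [← hv]
        ring
      have h5 : HasDerivAt (fun v => a 0 + v ^ s * h v)
          ((s : ℂ) * u ^ (s - 1) * h u + u ^ s * deriv h u) u :=
        ((hasDerivAt_pow s u).mul hu1.differentiableAt.hasDerivAt).const_add (a 0)
      rw [h4.deriv_eq, h5.deriv]
      have e2 : u ^ s = u ^ (s - 1) * u := by rw [← pow_succ]; congr 1; omega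
      rw [e2]
      ring
    obtain ⟨l, hl⟩ := hd
    have h6 : Tendsto (fun u : ℂ => u ^ (m - s)) (𝓝[≠] 0) (𝓝 0) := by
      have h2 : Tendsto (fun u : ℂ => u ^ (m - s)) (𝓝 0) (𝓝 (0 ^ (m - s))) :=
        (continuous_pow (m - s)).tendsto 0
      rw [zero_pow (by omega)] at h2
      exact h2.mono_left nhdsWithin_le_nhds
    have h7 := hl.mul h6
    rw [mul_zero] at h7
    have h8 : Tendsto (fun u : ℂ => (s : ℂ) * h u + u * deriv h u) (𝓝[≠] 0)
        (𝓝 ((s : ℂ) * h 0 + 0 * deriv h 0)) := by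
      have h9 : ContinuousAt (fun u : ℂ => (s : ℂ) * h u + u * deriv h u) 0 :=
        (continuousAt_const.mul hh.continuousAt).add (continuousAt_id.mul hh.deriv.continuousAt)
      exact h9.tendsto.mono_left nhdsWithin_le_nhds
    have h10 := tendsto_nhds_unique (h7.congr' (by
      filter_upwards [hder, ev_ne] with u hu hu0
      have e : u ^ (m - 1) = u ^ (s - 1) * u ^ (m - s) := by rw [← pow_add]; congr 1; omega
      rw [hu, e]
      have e1 : u ^ (s - 1) ≠ 0 := pow_ne_zero _ hu0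
      have e2 : u ^ (m - s) ≠ 0 := pow_ne_zero _ hu0
      field_simp)) h8
    rw [zero_mul, add_zero] at h10
    rcases mul_eq_zero.1 h10.symm with h11 | h11
    · exact hs1.ne' (by exact_mod_cast h11)
    · exact hh0 h11
  obtain ⟨d, rfl⟩ := Nat.exists_eq_add_of_le hms
  refine ⟨fun u => u ^ d * h u, (analyticAt_id.pow d).mul hh, ?_⟩
  filter_upwards [hs'] with u hu
  have e : u ^ (m + d) = u ^ m * u ^ d := pow_add u m d
  rw [e] at hu
  linear_combination hu

/-- the difference of the values at `ζ u` and `u` -/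
theorem diff {a : ℂ → ℂ} (ha : AnalyticAt ℂ a 0) {m r : ℕ} (hrm : r < m)
    (hd : ∃ l, Tendsto (fun u => deriv a u / u ^ (m - 1)) (𝓝[≠] 0) (𝓝 l)) {ζ : ℂ}
    (hζ : ζ ≠ 0) :
    Tendsto (fun u => (a (ζ * u) - a u) / u ^ r) (𝓝[≠] 0) (𝓝 0) := by
  obtain ⟨h, hh, h1⟩ := der_ord ha (by omega) hd
  have hr := rot hζ
  have hh' : Tendsto h (𝓝[≠] 0) (𝓝 (h 0)) :=
    hh.continuousAt.tendsto.mono_left nhdsWithin_le_nhds
  have h6 : Tendsto (fun u : ℂ => u ^ (m - r)) (𝓝[≠] 0) (𝓝 0) := by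
    have h2 : Tendsto (fun u : ℂ => u ^ (m - r)) (𝓝 0) (𝓝 (0 ^ (m - r))) :=
      (continuous_pow (m - r)).tendsto 0
    rw [zero_pow (by omega)] at h2
    exact h2.mono_left nhdsWithin_le_nhds
  have h7 := h6.mul (((hh'.comp hr).const_mul (ζ ^ m)).sub hh')
  rw [zero_mul] at h7
  refine h7.congr' ?_
  have h1' := h1.filter_mono (nhdsWithin_le_nhds (s := ({0} : Set ℂ)ᶜ))
  filter_upwards [h1', hr.eventually h1', ev_ne] with u hu hu' hu0
  rw [hu, hu', Function.comp_apply]
  have e : u ^ m = u ^ r * u ^ (m - r) := by rw [← pow_add]; congr 1; omega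
  have e1 : u ^ r ≠ 0 := pow_ne_zero _ hu0
  rw [mul_pow, e]
  field_simp
  ring

/-- the branch is permuted by the monodromy -/
theorem perm {N : ℕ} {Q : ℂ[X][X]} {b : ℂ} {m : ℕ} {a : Fin N → ℂ → ℂ}
    (P : Par N Q (fun u => b + u ^ m) a) (ha : ∀ j, AnalyticAt ℂ (a j) 0) {ζ : ℂ} (hζ : ζ ≠ 0)
    (hζm : ζ ^ m = 1) (j : Fin N) :
    ∃ l, ∀ᶠ u in 𝓝[≠] (0 : ℂ), a j (ζ * u) = a l u := by
  have hr := rot hζ
  have haj : AnalyticAt ℂ (fun u => a j (ζ * u)) 0 := by
    have h1 : AnalyticAt ℂ (fun u : ℂ => ζ * u) 0 := analyticAt_const.mul analyticAt_id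
    have h2 : AnalyticAt ℂ (a j) ((fun u : ℂ => ζ * u) 0) := by
      show AnalyticAt ℂ (a j) (ζ * 0)
      rw [mul_zero]
      exact ha j
    exact h2.comp h1
  by_contra hcon
  push Not at hcon
  have h1 : ∀ l, ∀ᶠ u in 𝓝[≠] (0 : ℂ), a j (ζ * u) - a l u ≠ 0 := by
    intro l
    have h2 : MeromorphicAt (fun u => a j (ζ * u) - a l u) 0 := (haj.sub (ha l)).meromorphicAt
    rcases h2.eventually_eq_zero_or_eventually_ne_zero with h3 | h3
    · exfalso
      have h4 := hcon l
      exact h4 (h3.mono fun u hu => by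
        intro h5
        exact h5 (sub_eq_zero.1 hu))
    · exact h3
  have h2 := Filter.eventually_all.2 h1
  obtain ⟨u, hu, hu1, hu2⟩ := (h2.and (P.root.and (hr.eventually P.root))).exists
  have e : b + (ζ * u) ^ m = b + u ^ m := by rw [mul_pow, hζm, one_mul]
  rw [e, hu1] at hu2
  have h3 := eval_nod (x := fun l => a l (ζ * u)) j
  rw [← hu2, nod, eval_prod, Finset.prod_eq_zero_iff] at h3
  obtain ⟨l, _, hl⟩ := h3
  rw [eval_sub, eval_X, eval_C] at hl
  exact hu l hl

end MoN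

open MoN in
/-- **Mo** -/
theorem t_Mo : S_Mo := by
  intro N Q A H b m a L hm ha P hL hdq j hder
  set v : Fin N → ℂ → ℂ := fun j u =>
    ev2 A (b + u ^ m) (a j u) / ev2 H (b + u ^ m) (a j u) with hv
  have hvm : MeromorphicAt (v j) 0 :=
    (mero_ev2 A P.hT (P.ha j)).div (mero_ev2 H P.hT (P.ha j))
  -- the analytic extension
  set V : ℂ → ℂ := Function.update (v j) 0 (L j) with hV
  have hVv : ∀ᶠ u in 𝓝[≠] (0 : ℂ), V u = v j u := by
    filter_upwards [ev_ne] with u hu
    rw [hV, Function.update_of_ne hu]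
  have hV0 : V 0 = L j := by rw [hV, Function.update_self]
  have hVt : Tendsto V (𝓝[≠] 0) (𝓝 (V 0)) := by
    rw [hV0]
    refine (hL j).congr' ?_
    filter_upwards [hVv] with u hu
    exact hu.symm
  have hVc : ContinuousAt V 0 := continuousAt_iff_punctured_nhds.2 hVt
  have hVm : MeromorphicAt V 0 := hvm.congr (by
    filter_upwards [hVv] with u hu
    exact hu.symm)
  have hVa : AnalyticAt ℂ V 0 := hVm.analyticAt hVc
  have hfa : AnalyticAt ℂ (fun u => V u - L j) 0 := hVa.sub analyticAt_const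
  by_cases h0 : ∀ᶠ u in 𝓝 (0 : ℂ), V u - L j = 0
  · refine ⟨0, ?_⟩
    refine (tendsto_const_nhds (x := (0 : ℂ))).congr' ?_
    filter_upwards [hVv, h0.filter_mono nhdsWithin_le_nhds] with u hu hu1
    rw [hu] at hu1
    show (0 : ℂ) = (v j u - L j) / u ^ m
    rw [hu1, zero_div]
  obtain ⟨r, g, hg, hg0, hr⟩ := hfa.exists_eventuallyEq_pow_smul_nonzero_iff.2 h0
  have hr' : ∀ᶠ u in 𝓝 (0 : ℂ), V u - L j = u ^ r * g u := by
    filter_upwards [hr] with u hu
    rw [hu, sub_zero, smul_eq_mul]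
  have hgt : Tendsto g (𝓝[≠] 0) (𝓝 (g 0)) :=
    hg.continuousAt.tendsto.mono_left nhdsWithin_le_nhds
  have hmr : m ≤ r := by
    by_contra hlt
    push Not at hlt
    have hr1 : 0 < r := by
      rcases Nat.eq_zero_or_pos r with h1 | h1
      · exfalso
        have h2 := hr'.self_of_nhds
        rw [h1, pow_zero, one_mul, hV0, sub_self] at h2
        exact hg0 h2.symm
      · exact h1
    have hprim := Complex.isPrimitiveRoot_exp m hm.ne'
    set ζ : ℂ := Complex.exp (2 * Real.pi * Complex.I / m) with hζd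
    have hζ : ζ ≠ 0 := Complex.exp_ne_zero _
    have hζm : ζ ^ m = 1 := hprim.pow_eq_one
    have hζr : ζ ^ r ≠ 1 := hprim.pow_ne_one_of_pos_of_lt hr1.ne' hlt
    have hrot := rot hζ
    obtain ⟨l, hl⟩ := perm P ha hζ hζm j
    -- the two limits of the difference
    have hvl : ∀ᶠ u in 𝓝[≠] (0 : ℂ), v j (ζ * u) = v l u := by
      filter_upwards [hl] with u hu
      show ev2 A (b + (ζ * u) ^ m) (a j (ζ * u)) / ev2 H (b + (ζ * u) ^ m) (a j (ζ * u)) =
        ev2 A (b + u ^ m) (a l u) / ev2 H (b + u ^ m) (a l u)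
      rw [hu, mul_pow, hζm, one_mul]
    have hA : Tendsto (fun u => (V (ζ * u) - V u) / u ^ r) (𝓝[≠] 0)
        (𝓝 (ζ ^ r * g 0 - g 0)) := by
      have h1 := ((hgt.comp hrot).const_mul (ζ ^ r)).sub hgt
      refine h1.congr' ?_
      have h2 := hr'.filter_mono (nhdsWithin_le_nhds (s := ({0} : Set ℂ)ᶜ))
      filter_upwards [h2, hrot.eventually h2, ev_ne] with u hu hu' hu0
      have e : V (ζ * u) - V u = (ζ * u) ^ r * g (ζ * u) - u ^ r * g u := by
        rw [← hu, ← hu']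
        ring
      have e1 : u ^ r ≠ 0 := pow_ne_zero _ hu0
      rw [e, Function.comp_apply, mul_pow]
      field_simp
    have hB : Tendsto (fun u => (V (ζ * u) - V u) / u ^ r) (𝓝[≠] 0) (𝓝 0) := by
      by_cases hlj : l = j
      · refine (tendsto_const_nhds (x := (0 : ℂ))).congr' ?_
        filter_upwards [hVv, hrot.eventually hVv, hvl] with u h1 h2 h3
        rw [h2, h1, h3, hlj, sub_self, zero_div]
      · obtain ⟨l', hl'⟩ := hdq l j hlj
        have h4 := hl'.mul (diff (ha j) hlt hder hζ)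
        rw [mul_zero] at h4
        refine h4.congr' ?_
        filter_upwards [hVv, hrot.eventually hVv, hvl, hl, P.inj] with u h1 h2 h3 h5 h6
        have h7 : a l u - a j u ≠ 0 := sub_ne_zero.2 fun h => hlj (h6 h)
        rw [h2, h1, h3, h5]
        show (v l u - v j u) / (a l u - a j u) * ((a l u - a j u) / u ^ r) = _
        rw [div_mul_div_cancel₀ h7]
    have hC := tendsto_nhds_unique hA hB
    have hD : (ζ ^ r - 1) * g 0 = 0 := by linear_combination hC
    rcases mul_eq_zero.1 hD with h1 | h1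
    · exact hζr (sub_eq_zero.1 h1)
    · exact hg0 h1
  obtain ⟨d, rfl⟩ := Nat.exists_eq_add_of_le hmr
  refine ⟨0 ^ d * g 0, ?_⟩
  have h1 : Tendsto (fun u : ℂ => u ^ d * g u) (𝓝[≠] 0) (𝓝 (0 ^ d * g 0)) :=
    (((continuous_pow d).tendsto 0).mono_left nhdsWithin_le_nhds).mul hgt
  refine h1.congr' ?_
  filter_upwards [hVv, hr'.filter_mono nhdsWithin_le_nhds, ev_ne] with u hu hu1 hu0
  rw [hu] at hu1
  show _ = (v j u - L j) / u ^ m
  have e1 : u ^ m ≠ 0 := pow_ne_zero _ hu0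
  rw [hu1, pow_add]
  field_simp

end Pool.Agent.H942.LP
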