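import Pool.Agent.H942.LP.DefG
import Pool.Agent.H942.LP.Mo

set_option autoImplicit false
set_option linter.unusedSectionVars false
set_option linter.unusedVariables false

/-! # Polynomials in a power of the ideal of a point along a branch -/

namespace Pool.Agent.H942.LP

open Finset Filter Topology Polynomial Pool.Agent.Helper748.TP Pool.Agent.Helper748.MC
  Pool.Agent.H941.TF Pool.Agent.H941.SC Pool.Agent.H941.NC

namespace FPN

theorem lim_of {t x : ℂ} {m : ℕ} {a h : ℂ → ℂ} (hm : 0 < m) (ha : AnalyticAt ℂ a 0) (ha0 : a 0 = x)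
    (hh : AnalyticAt ℂ h 0) (hah : ∀ᶠ u in 𝓝 (0 : ℂ), a u = a 0 + u ^ m * h u) (k : ℕ) :
    ∀ g : ℂ[X][X], g ∈ mId t x ^ k →
      ∃ l, Tendsto (fun u => ev2 g (t + u ^ m) (a u) / (u ^ m) ^ k) (𝓝[≠] 0) (𝓝 l) := by
  have hc : ∀ P : ℂ[X][X], Tendsto (fun u => ev2 P (t + u ^ m) (a u)) (𝓝[≠] 0)
      (𝓝 (ev2 P (t + 0 ^ m) (a 0))) := by
    intro P
    have hT : AnalyticAt ℂ (fun u : ℂ => t + u ^ m) 0 :=
      analyticAt_const.add (analyticAt_id.pow m)
    exact (an_ev2 P hT ha).continuousAt.tendsto.mono_left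
      (nhdsWithin_le_nhds (s := ({0}ᶜ : Set ℂ)))
  induction k with
  | zero =>
    intro g _
    refine ⟨_, (hc g).congr fun u => ?_⟩
    rw [pow_zero, div_one]
  | succ k ih =>
    intro g hg
    have hg : g ∈ mId t x ^ k * mId t x := by
      have e := pow_succ (mId t x) k
      exact e ▸ hg
    refine Submodule.mul_induction_on hg ?_ ?_
    · intro f hf g hg
      obtain ⟨l, hl⟩ := ih f hf
      obtain ⟨p, q, rfl⟩ := Ideal.mem_span_pair.1 hg
      have hhc : Tendsto h (𝓝[≠] 0) (𝓝 (h 0)) :=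
        hh.continuousAt.tendsto.mono_left nhdsWithin_le_nhds
      refine ⟨_, (hl.mul ((hc p).add ((hc q).mul hhc))).congr' ?_⟩
      filter_upwards [hah.filter_mono nhdsWithin_le_nhds, ev_ne] with u hu hu0
      have h6 : ev2 (C (X - C t)) (t + u ^ m) (a u) = u ^ m := by
        rw [ev2_C, eval_sub, eval_X, eval_C, add_sub_cancel_left]
      have h7 : ev2 (X - C (C x)) (t + u ^ m) (a u) = u ^ m * h u := by
        rw [ev2_sub, ev2_X, ev2_C, eval_C, hu, ha0, add_sub_cancel_left]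
      have hu1 : u ^ m ≠ 0 := pow_ne_zero m hu0
      rw [ev2_mul, ev2_add, ev2_mul, ev2_mul, h6, h7, pow_succ]
      field_simp
    · rintro f g ⟨c, h1⟩ ⟨c', h1'⟩
      refine ⟨c + c', (h1.add h1').congr fun u => ?_⟩
      rw [ev2_add, add_div]

end FPN

theorem t_FP : S_FP := by
  intro F g k t x hF hg
  refine Or.inr (Or.inr (Or.inr fun m a hm ha ha0 hroot hder => ?_))
  obtain ⟨h1, h2⟩ := hF m a hm ha ha0 hroot hder
  refine ⟨h1, ?_⟩
  obtain ⟨h, hh, hah⟩ := MoN.der_ord ha hm h1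
  obtain ⟨l, hl⟩ := FPN.lim_of (t := t) (x := x) hm ha ha0 hh hah k g hg
  have h3 := h2.mul hl
  rw [zero_mul] at h3
  refine h3.congr' ?_
  filter_upwards [ev_ne, hder] with u hu hu1
  have hu2 : u ^ m ≠ 0 := pow_ne_zero m hu
  rw [pow_add]
  field_simp

end Pool.Agent.H942.LP
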