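import Pool.Agent.H942.LP.DefG

set_option autoImplicit false
set_option linter.unusedSectionVars false
set_option linter.unusedVariables false

/-! # The residue argument: the fraction is a polynomial on the curve -/

namespace Pool.Agent.H942.LP

open Finset Filter Topology Polynomial Pool.Agent.Helper748.TP Pool.Agent.Helper748.MC
  Pool.Agent.H941.TF Pool.Agent.H941.SC Pool.Agent.H941.NC

/-- **The fraction `A / H` is a polynomial on the curve `F = 0`**, if it is bounded and Lipschitz, grows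
at most like a polynomial of degree `3`, and the forms of degree `e - 6` separate the bad points. -/
theorem gs (tSt1 : S_St1) (tRg : S_Rg) (tAl : S_Al) {N e : ℕ}
    {Q F A H : ℂ[X][X]} {D0 : ℂ[X]} (hQm : Q.Monic) (hQN : Q.natDegree = N) (hFm : F.Monic)
    (hFd : F.natDegree = e) (hFQ : F ∣ Q) (he : 1 ≤ e) (TF : TD (e : ℤ) F) (hD0 : D0 ≠ 0)
    (hsep : ∀ t, D0.eval t ≠ 0 → (evt t Q).Separable ∧ ∀ x, ev2 Q t x = 0 → ev2 H t x ≠ 0)
    (hlip : ∀ b, LipAt N Q A H b)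
    (hgrow : ∀ (δ : ℂ[X]) (W : ℂ[X][X]), δ ≠ 0 → W.degree < (e : WithBot ℕ) →
      F ∣ C δ * A - H * W → TD (3 + δ.natDegree : ℤ) W)
    (hst : ∀ (b : ℂ) (u : ℂ[X][X]), ∃ g, TD ((e : ℤ) - 6) g ∧
      (∀ t x, ev2 F t x = 0 → t ≠ b → PtOk F g t x ∨
        ∃ c W0, ev2 c t x ≠ 0 ∧ F ∣ c * A - H * W0) ∧
      ∀ x, ev2 F b x = 0 → PtOk F (g - u) b x ∨
        ∃ c W0, ev2 c b x ≠ 0 ∧ F ∣ c * A - H * W0) :
    ∃ W, F ∣ A - H * W := by
  have hsepF : ∀ t, D0.eval t ≠ 0 → (evt t F).Separable ∧ ∀ x, ev2 F t x = 0 → ev2 H t x ≠ 0 :=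
    fun t ht => ⟨(hsep t ht).1.of_dvd (map_dvd (evt t) hFQ), fun x h0 =>
      (hsep t ht).2 x (ev2_dvd hFQ h0)⟩
  have hB' : ∀ t ∉ D0.roots.toFinset, D0.eval t ≠ 0 := by
    intro t ht h
    rw [Multiset.mem_toFinset, mem_roots hD0] at ht
    exact ht h
  have h1 := tSt1 F A H 1 D0 hFm hD0 hsepF fun b δ W hδb hW => ?_
  · obtain ⟨W, hW⟩ := h1
    exact ⟨W, by rwa [one_mul] at hW⟩
  rw [one_mul] at hW
  by_cases hδ : δ = 0
  · subst hδ
    rw [C_0, zero_mul, zero_sub] at hW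
    have hW : F ∣ H * W := by
      obtain ⟨w, hw⟩ := hW
      exact ⟨-w, by linear_combination -hw⟩
    refine map_dvd (evt b) (dvd_of_ev hFm (B := D0.roots.toFinset) fun t ht =>
      ⟨(hsepF t (hB' t ht)).1, fun x h0 => ?_⟩)
    have h2 := ev2_dvd hW h0
    rw [ev2_mul] at h2
    exact (mul_eq_zero.1 h2).resolve_left ((hsepF t (hB' t ht)).2 x h0)
  · have hW' : F ∣ C δ * A - H * (W %ₘ F) := by
      obtain ⟨w, hw⟩ := hW
      refine ⟨w + H * (W /ₘ F), ?_⟩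
      have h3 := modByMonic_add_div W F
      linear_combination hw - H * h3
    have hdeg : (W %ₘ F).degree < (e : WithBot ℕ) := by
      have := degree_modByMonic_lt W hFm
      rwa [degree_eq_natDegree hFm.ne_zero, hFd] at this
    have h2 := tAl F (W %ₘ F) δ b e hFm hFd he TF hδ (hgrow δ _ hδ hdeg hW') (fun u => by
      obtain ⟨g, Tg, h3, h4⟩ := hst b u
      refine ⟨g, Tg, fun b' hb' => ?_, ?_⟩
      · exact tRg N e Q F A H g (W %ₘ F) δ D0 b' hQm hQN hFm hFd hFQ hD0 hsep (hlip b')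
          (fun x h0 => h3 b' x h0 hb') hδ hW'
      · exact tRg N e Q F A H (g - u) (W %ₘ F) δ D0 b hQm hQN hFm hFd hFQ hD0 hsep (hlip b)
          (fun x h0 => h4 x h0) hδ hW') hδb
    have h5 : W = (W %ₘ F) + F * (W /ₘ F) := (modByMonic_add_div W F).symm
    rw [h5, map_add, map_mul]
    exact dvd_add h2 (dvd_mul_right _ _)

/-- the separating polynomials -/
def Sep (e : ℕ) (s : Finset (ℂ × ℂ)) (k : ℂ × ℂ → ℕ) : Prop :=
  ∀ (b : ℂ) (u : ℂ[X][X]), ∃ g : ℂ[X][X], TD ((e : ℤ) - 6) g ∧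
    (∀ p ∈ s, p.1 = b → g - u ∈ mId p.1 p.2 ^ k p) ∧ ∀ p ∈ s, p.1 ≠ b → g ∈ mId p.1 p.2 ^ k p

theorem sep_in (tIn : S_In) {e : ℕ} {s : Finset (ℂ × ℂ)} {k : ℂ × ℂ → ℕ}
    (hk : ∑ p ∈ s, k p + 5 ≤ e) : Sep e s k := by
  intro b u
  obtain ⟨g, Tg, h⟩ := tIn s k u b
  exact ⟨g, Tg.mono (by omega), h⟩

theorem sep_of (tFP : S_FP) {e : ℕ} {F : ℂ[X][X]} {R : ℂ → ℂ → Prop}
    {s : Finset (ℂ × ℂ)} {k : ℂ × ℂ → ℕ} (hk : Sep e s k)
    (hpt : ∀ t x, ev2 F t x = 0 → (∀ g, PtOk F g t x) ∨ R t x ∨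
      ((t, x) ∈ s ∧ FatOk F (k (t, x)) t x)) (b : ℂ) (u : ℂ[X][X]) :
    ∃ g, TD ((e : ℤ) - 6) g ∧ (∀ t x, ev2 F t x = 0 → t ≠ b → PtOk F g t x ∨ R t x) ∧
      ∀ x, ev2 F b x = 0 → PtOk F (g - u) b x ∨ R b x := by
  obtain ⟨g, Tg, h1, h2⟩ := hk b u
  refine ⟨g, Tg, fun t x h0 hb => ?_, fun x h0 => ?_⟩
  · rcases hpt t x h0 with h | h | ⟨hs, h⟩
    · exact Or.inl (h g)
    · exact Or.inr h
    · exact Or.inl (tFP F g _ t x h (h2 (t, x) hs hb))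
  · rcases hpt b x h0 with h | h | ⟨hs, h⟩
    · exact Or.inl (h _)
    · exact Or.inr h
    · exact Or.inl (tFP F _ _ b x h (h1 (b, x) hs rfl))

end Pool.Agent.H942.LP
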