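import Pool.Agent.H942.LP.M
import Pool.Agent.H942.LP.E

set_option autoImplicit false
set_option linter.unusedSectionVars false
set_option linter.unusedVariables false

/-! # The root `-3/d`, in coordinates -/

namespace Pool.Agent.H942.LP

open MvPolynomial Pool.Agent.Helper748.MC Pool.Agent.Helper748.TP Pool.Agent.H941.TF
  Pool.Agent.H941.SC Pool.Agent.H941.NC Pool.Agent.H628R4.TP

/-- **The root `-3/d`, in coordinates.** -/
theorem coreL {ι : Type} [Fintype ι] [DecidableEq ι] {k d K n0 : ℕ} {ee : ι → ℕ} {nn : Fin k → ℕ}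
    {F G : MvPolynomial (Fin 3) ℂ} {h : ι → MvPolynomial (Fin 3) ℂ}
    {g : Fin k → MvPolynomial (Fin 3) ℂ} (hFh : F.IsHomogeneous d) (hd : 0 < d)
    (hh : ∀ i, (h i).IsHomogeneous (ee i)) (hG : G.IsHomogeneous n0)
    (hg : ∀ j, (g j).IsHomogeneous (nn j))
    (he : 4 ≤ ∑ i, ee i) (hirr : ∀ j, Irreducible (g j))
    (hSF : (∏ i, h i) * (G * ∏ j, g j) ∣ F) (hFS : F ∣ ((∏ i, h i) * (G * ∏ j, g j)) ^ K)
    (hsm : ∀ i, ∀ z : Fin 3 → ℂ, z ≠ 0 → eval z (h i) = 0 → ∃ l, eval z (pderiv l (h i)) ≠ 0)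
    (htr : ∀ i j, i ≠ j → ∀ z : Fin 3 → ℂ, z ≠ 0 → eval z (h i) = 0 → eval z (h j) = 0 →
      ∀ c : ℂ, ∃ l, eval z (pderiv l (h j)) ≠ c * eval z (pderiv l (h i)))
    (htwo : ∀ i j l, i ≠ j → l ≠ i → l ≠ j → ∀ z : Fin 3 → ℂ, z ≠ 0 → eval z (h i) = 0 →
      eval z (h j) = 0 → eval z (h l) ≠ 0)
    (hgd : ∀ t x : ℂ, eval ![t, 1, x] G = 0 → eval ![t, 1, x] (∏ i, h i) = 0 →
      eval ![t, 1, x] (pderiv 2 (∏ i, h i)) ≠ 0)
    (si : (aeval ![(1 : Polynomial ℂ), 0, Polynomial.X] ((∏ i, h i) * (G * ∏ j, g j))).Separable)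
    (ni : (aeval ![(1 : Polynomial ℂ), 0, Polynomial.X]
      ((∏ i, h i) * (G * ∏ j, g j))).natDegree = ∑ i, ee i + (n0 + ∑ j, nn j))
    (τ : Fin k → Finset ℂ) (hτ : ∀ j, 3 * nn j < (τ j).card)
    (hτ0 : ∀ j, ∀ t ∈ τ j, ∃ x : ℂ, eval ![t, 1, x] (g j) = 0 ∧
      eval ![t, 1, x] ((∏ i, h i) * (G * ∏ l ∈ Finset.univ.filter (· < j), g l)) = 0)
    (bf : Polynomial ℂ) (hbf : IsBFunction F bf) (hb0 : bf.eval (-3 / d : ℂ) ≠ 0) : False := by
  classical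
  have hdc : (d : ℂ) ≠ 0 := Nat.cast_ne_zero.2 hd.ne'
  have hds : (d : ℂ) * (-3 / d) = -3 := by field_simp
  have hσ := neg3 hd
  set σ : ℝ := -3 / d with hσd
  have hsσ : (-3 / d : ℂ) = (σ : ℂ) := by
    rw [hσd]
    push_cast
    rfl
  set e := ∑ i, ee i with hee
  set n := n0 + ∑ j, nn j with hnn
  set S : MvPolynomial (Fin 3) ℂ := (∏ i, h i) * (G * ∏ j, g j) with hS
  have hShom : S.IsHomogeneous (e + n) :=
    (IsHomogeneous.prod _ _ _ fun i _ => hh i).mul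
      (hG.mul (IsHomogeneous.prod _ _ _ fun j _ => hg j))
  clear_value S
  have hS0 := ev_top hShom (by omega) ni
  have hh0 : ∀ i, eval ![0, 0, 1] (h i) ≠ 0 := by
    intro i h0
    apply hS0
    rw [hS, map_mul, map_prod, Finset.prod_eq_zero (Finset.mem_univ i) h0, zero_mul]
  have hg0 : ∀ j, eval ![0, 0, 1] (g j) ≠ 0 := by
    intro j h0
    apply hS0
    rw [hS, map_mul, map_mul, map_prod (eval _) g, Finset.prod_eq_zero (Finset.mem_univ j) h0,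
      mul_zero, mul_zero]
  have hG0 : eval ![0, 0, 1] G ≠ 0 := by
    intro h0
    apply hS0
    rw [hS, map_mul, map_mul, h0, zero_mul, mul_zero]
  rw [← aeval_sw, ← evt_ch] at si ni
  obtain ⟨v, hv⟩ := hFS
  have hF0 : eval ![0, 0, 1] F ≠ 0 := by
    intro h0
    have h2 := congrArg (eval ![0, 0, 1]) hv
    rw [map_pow, map_mul, h0, zero_mul] at h2
    exact pow_ne_zero K hS0 h2
  set c := fun i => (eval ![0, 0, 1] (h i))⁻¹ with hc
  set c' := fun j => (eval ![0, 0, 1] (g j))⁻¹ with hc'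
  set cG := (eval ![0, 0, 1] G)⁻¹ with hcG
  set cS := (eval ![0, 0, 1] S)⁻¹ with hcS
  have hcS0 : cS ≠ 0 := inv_ne_zero hS0
  have hcc : cS = (∏ i, c i) * (cG * ∏ j, c' j) := by
    rw [hcS, hS, map_mul, map_mul, map_prod, map_prod, mul_inv, mul_inv, Finset.prod_inv_distrib,
      Finset.prod_inv_distrib]
  set Φ : ι → Polynomial (Polynomial ℂ) := fun i => kc (c i) * ch (h i) with hΦ
  set Γ : Fin k → Polynomial (Polynomial ℂ) := fun j => kc (c' j) * ch (g j) with hΓ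
  set Ψ : Polynomial (Polynomial ℂ) := kc cG * ch G with hΨ
  have Ψm : Ψ.Monic ∧ Ψ.natDegree = n0 := monic_ch hG hG0
  have iΨ0 : Inf Ψ (kc cG * ch (sw G)) n0 := inf_ch hG hG0
  have Φm : ∀ i, (Φ i).Monic ∧ (Φ i).natDegree = ee i := fun i => monic_ch (hh i) (hh0 i)
  have Γm : ∀ j, (Γ j).Monic ∧ (Γ j).natDegree = nn j := fun j => monic_ch (hg j) (hg0 j)
  have iΦ : ∀ i, Inf (Φ i) (kc (c i) * ch (sw (h i))) (ee i) := fun i => inf_ch (hh i) (hh0 i)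
  have iΓ : ∀ j, Inf (Γ j) (kc (c' j) * ch (sw (g j))) (nn j) := fun j => inf_ch (hg j) (hg0 j)
  have hQS : (∏ i, Φ i) * (Ψ * ∏ j, Γ j) = kc cS * ch S := by
    rw [hΦ, hΓ, hΨ, ch_prod, ch_prod, hcc, kc_mul, kc_mul, hS, map_mul, map_mul]
    ring
  have hFm : (∏ i, Φ i).Monic := Polynomial.monic_prod_of_monic _ _ fun i _ => (Φm i).1
  have hΓm' : (∏ j, Γ j).Monic := Polynomial.monic_prod_of_monic _ _ fun i _ => (Γm i).1
  have hΨm : (Ψ * ∏ j, Γ j).Monic := Ψm.1.mul hΓm'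
  have hFd : (∏ i, Φ i).natDegree = e := by
    rw [Polynomial.natDegree_prod_of_monic _ _ fun i _ => (Φm i).1]
    exact Finset.sum_congr rfl fun i _ => (Φm i).2
  have hΨd : (Ψ * ∏ j, Γ j).natDegree = n := by
    rw [Ψm.1.natDegree_mul hΓm', Ψm.2, Polynomial.natDegree_prod_of_monic _ _ fun i _ => (Γm i).1]
    exact congrArg (n0 + ·) (Finset.sum_congr rfl fun i _ => (Γm i).2)
  have iΦ' := Inf_prod Finset.univ iΦ
  have iΨ' := iΨ0.mul (Inf_prod Finset.univ iΓ)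
  have hQm : ((∏ i, Φ i) * (Ψ * ∏ j, Γ j)).Monic := hFm.mul hΨm
  have hQd : ((∏ i, Φ i) * (Ψ * ∏ j, Γ j)).natDegree = e + n := by
    rw [hFm.natDegree_mul hΨm, hFd, hΨd]
  have TQ : TD ((e + n : ℕ) : ℤ) ((∏ i, Φ i) * (Ψ * ∏ j, Γ j)) := by
    rw [hQS]
    exact (TD_ch hShom).kc_mul _
  have hsi : (evt 0 ((∏ i, kc (c i) * ch (sw (h i))) * ((kc cG * ch (sw G)) *
      ∏ j, kc (c' j) * ch (sw (g j))))).Separable := by
    have h1 : (∏ i, kc (c i) * ch (sw (h i))) * ((kc cG * ch (sw G)) *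
        ∏ j, kc (c' j) * ch (sw (g j))) = kc cS * ch (sw S) := by
      rw [ch_prod, ch_prod, hcc, kc_mul, kc_mul, hS, map_mul sw, map_mul sw, map_mul ch,
        map_mul ch, map_prod sw, map_prod sw]
      ring
    rw [h1, map_mul, evt_kc]
    exact si.unit_mul (Polynomial.isUnit_C.2 hcS0.isUnit)
  -- the discriminant
  have hdisc : ∃ (D0 : Polynomial ℂ) (α β : Polynomial (Polynomial ℂ)), D0 ≠ 0 ∧
      Polynomial.C D0 = α * ((∏ i, Φ i) * (Ψ * ∏ j, Γ j)) +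
        β * Polynomial.derivative ((∏ i, Φ i) * (Ψ * ∏ j, Γ j)) := by
    obtain ⟨X', -, -, -, P⟩ := (iΦ'.mul iΨ').par hQm hQd (by omega) hsi
    obtain ⟨u, h1, h2⟩ := (P.root.and P.inj).exists
    refine disc' (t₀ := u⁻¹) hQm (by rw [hQd]; omega) ?_
    rw [h1, nod]
    exact Polynomial.separable_prod_X_sub_C_iff.2 h2
  obtain ⟨D0, α, β', hD0, hαβ⟩ := hdisc
  -- the logarithmic derivatives
  have hprime : ∀ p, Prime p → p ∣ F → p ∣ S := fun p hp hpg =>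
    hp.dvd_of_dvd_pow (hpg.trans ⟨v, hv⟩)
  obtain ⟨w2, hw2⟩ := log_dvd (g := F) (G := S) 2 hprime
  obtain ⟨w0, hw0⟩ := log_dvd (g := F) (G := S) 0 hprime
  have e2 := congrArg ch hw2
  have e0 := congrArg ch hw0
  rw [map_mul, map_mul, ch_pderiv2] at e2
  rw [map_mul, map_mul, ch_pderiv0] at e0
  have HxE : Polynomial.derivative (ch F) * ((∏ i, Φ i) * (Ψ * ∏ j, Γ j)) = ch F * (kc cS * ch w2) := by
    rw [hQS]
    linear_combination kc cS * e2
  have HtE : dt (ch F) * ((∏ i, Φ i) * (Ψ * ∏ j, Γ j)) = ch F * (kc cS * ch w0) := by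
    rw [hQS]
    linear_combination kc cS * e0
  have hcSi : (kc cS * kc cS⁻¹ : Polynomial (Polynomial ℂ)) = 1 := by
    rw [← kc_mul, mul_inv_cancel₀ hcS0, kc_one]
  have hQF : (∏ i, Φ i) * (Ψ * ∏ j, Γ j) ∣ ch F := by
    obtain ⟨y, hy⟩ := hSF
    refine ⟨kc cS⁻¹ * ch y, ?_⟩
    rw [hQS, hy, map_mul]
    linear_combination (-(ch S * ch y)) * hcSi
  have hFQ : ch F ∣ ((∏ i, Φ i) * (Ψ * ∏ j, Γ j)) ^ K := by
    refine ⟨kc cS ^ K * ch v, ?_⟩
    have h2 := congrArg ch hv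
    rw [map_pow, map_mul] at h2
    rw [hQS, mul_pow]
    linear_combination kc cS ^ K * h2
  set hxQ := kc cS * ch w2 with hhx
  set htQ := kc cS * ch w0 with hht
  obtain ⟨Fd, Fc⟩ := ch_top hFh
  have hFδ : (ch F).natDegree = d := by
    refine le_antisymm Fd (Polynomial.le_natDegree_of_ne_zero ?_)
    rw [Fc]
    exact Polynomial.C_ne_zero.2 hF0
  have hchF0 : ch F ≠ 0 := by
    intro h
    rw [h, Polynomial.natDegree_zero] at hFδ
    omega
  obtain ⟨hxn, hxlc⟩ := lead_h hchF0 HxE hQd (by omega) hFδ (by omega)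
  have hQN : ((∏ i, Φ i) * (Ψ * ∏ j, Γ j)).coeff (e + n) = 1 := by
    rw [← hQd]
    exact hQm
  rw [hQN, mul_one] at hxlc
  have hxlc' : hxQ.coeff (e + n - 1) = Polynomial.C (d : ℂ) := by
    rw [hxlc]
    simp
  have htn : htQ.natDegree ≤ e + n - 1 := htd_aux hchF0 hQm hQd (by omega) hFδ Fc HtE
  -- the equation
  have hσdr : σ * d = -3 := by
    rw [hσd]
    have : (d : ℝ) ≠ 0 := by exact_mod_cast hd.ne'
    field_simp
  have hlc3 : (kc (σ : ℂ) * hxQ).coeff (e + n - 1) = -3 := by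
    rw [kc, Polynomial.coeff_C_mul, hxlc', ← Polynomial.C_mul]
    have h1 : (σ : ℂ) * d = -3 := by
      have : ((σ * d : ℝ) : ℂ) = ((-3 : ℝ) : ℂ) := by rw [hσdr]
      push_cast at this
      exact this
    rw [h1, Polynomial.C_neg, map_ofNat (Polynomial.C : ℂ →+* Polynomial ℂ) 3]
  have CC : Cur (e + n) ((∏ i, Φ i) * (Ψ * ∏ j, Γ j)) (ch F) hxQ htQ D0 K :=
    ⟨hQm, hQd, by omega, hchF0, hQF, hFQ, HxE, HtE, hxn, htn, hD0, α, β', hαβ⟩
  have hF00 : F ≠ 0 := by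
    rintro rfl
    exact hF0 (map_zero _)
  have hz3 : (d : ℂ) * σ + 3 = 0 := by
    have : ((σ * d + 3 : ℝ) : ℂ) = 0 := by
      rw [hσdr]
      norm_num
    push_cast at this
    linear_combination this
  obtain ⟨d', p, r, q, DD, hlip⟩ := out CC (by omega) hFh hd hF00 hFδ hbf hσ hsσ hz3 hb0 hlc3
  -- the curves
  have hDr : ∀ t ∉ D0.roots.toFinset, D0.eval t ≠ 0 := by
    intro t ht h
    rw [Multiset.mem_toFinset, Polynomial.mem_roots hD0] at ht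
    exact ht h
  have hci : ∀ i, c i ≠ 0 := fun i => inv_ne_zero (hh0 i)
  have hcj : ∀ j, c' j ≠ 0 := fun j => inv_ne_zero (hg0 j)
  have v0 : ∀ i t x, ev2 (Φ i) t x = c i * eval ![t, 1, x] (h i) := fun i t x => by
    rw [hΦ]
    beta_reduce
    rw [ev2_mul, ev2_kc, ev_ch]
  have v1 : ∀ i t x, ev2 (dt (Φ i)) t x = c i * eval ![t, 1, x] (pderiv 0 (h i)) :=
    fun i t x => by
      rw [hΦ]
      beta_reduce
      rw [dt_kc, ← ch_pderiv0, ev2_mul, ev2_kc, ev_ch]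
  have v2 : ∀ i t x, ev2 (Polynomial.derivative (Φ i)) t x =
      c i * eval ![t, 1, x] (pderiv 2 (h i)) := fun i t x => by
    rw [hΦ]
    beta_reduce
    rw [der_kc, ← ch_pderiv2, ev2_mul, ev2_kc, ev_ch]
  have v3 : ∀ j t x, ev2 (Γ j) t x = c' j * eval ![t, 1, x] (g j) := fun j t x => by
    rw [hΓ]
    beta_reduce
    rw [ev2_mul, ev2_kc, ev_ch]
  have SS : Snc Φ D0.roots.toFinset := by
    refine ⟨fun i => (Φm i).1, ?_, ?_, ?_, ?_⟩
    · intro i t x a1 a2 a3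
      rw [v0] at a1
      rw [v1] at a2
      rw [v2] at a3
      exact sm_aff (hh i) (hsm i) t x ((mul_eq_zero.1 a1).resolve_left (hci i))
        ((mul_eq_zero.1 a2).resolve_left (hci i)) ((mul_eq_zero.1 a3).resolve_left (hci i))
    · intro i j hij t x a1 a2 a3
      rw [v0] at a1 a2
      rw [v1, v2, v1, v2] at a3
      have b1 := (mul_eq_zero.1 a1).resolve_left (hci i)
      have b2 := (mul_eq_zero.1 a2).resolve_left (hci j)
      refine tr_aff (hh i) (hh j) (hsm i) (htr i j hij) t x b1 b2 ?_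
      refine (mul_eq_zero.1 ?_).resolve_left (mul_ne_zero (hci i) (hci j))
      linear_combination a3
    · intro i j l hij hli hlj t x a1 a2 a3
      rw [v0] at a1 a2 a3
      exact htwo i j l hij hli hlj _ (pt_ne t x) ((mul_eq_zero.1 a1).resolve_left (hci i))
        ((mul_eq_zero.1 a2).resolve_left (hci j)) ((mul_eq_zero.1 a3).resolve_left (hci l))
    · intro t ht
      exact (sep_of_disc hαβ (hDr t ht)).of_dvd (map_dvd (evt t) ⟨_, rfl⟩)
  have hΓirr : ∀ j, Irreducible (Γ j) := by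
    intro j
    have hu : IsUnit (kc (c' j) : Polynomial (Polynomial ℂ)) := by
      rw [kc]
      exact ((isUnit_iff_ne_zero.2 (hcj j)).map Polynomial.C).map Polynomial.C
    have h1 : ¬ IsUnit (ch (g j)) := by
      intro h1
      have h2 : IsUnit (Γ j) := hu.mul h1
      have h3 := (Γm j).1.isUnit_iff.1 h2
      have h4 := (Γm j).2
      rw [h3, Polynomial.natDegree_one] at h4
      have := irr_pos (hg j) (hirr j)
      omega
    exact (irreducible_isUnit_mul hu).2 (irr_ch (hg j) (hirr j) h1)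
  have hcG0 : cG ≠ 0 := inv_ne_zero hG0
  have hPc : (∏ i, c i) ≠ 0 := Finset.prod_ne_zero_iff.2 fun i _ => hci i
  have hPΦ : ∏ i, Φ i = kc (∏ i, c i) * ch (∏ i, h i) := by rw [hΦ, ch_prod]
  refine mainL (Γ := Γ) (nn := nn) (Ψ := Ψ) SS he hσ hD0 hαβ hFd TQ iΦ' iΓ rfl iΨ0 Ψm.1 hsi
    (fun j => (Γm j).1) hΓirr τ hτ ?_ ?_ hlip DD rfl hFQ hxlc' hσdr
  rotate_left
  · intro t x a1 a2
    rw [hΨ, ev2_mul, ev2_kc, ev_ch] at a1
    rw [hPΦ, ev2_mul, ev2_kc, ev_ch] at a2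
    rw [hPΦ, der_kc, ← ch_pderiv2, ev2_mul, ev2_kc, ev_ch]
    exact mul_ne_zero hPc (hgd t x ((mul_eq_zero.1 a1).resolve_left hcG0)
      ((mul_eq_zero.1 a2).resolve_left hPc))
  intro j t ht
  obtain ⟨x, hx1, hx2⟩ := hτ0 j t ht
  refine ⟨x, by rw [v3, hx1, mul_zero], ?_⟩
  have h1 : (∏ i, Φ i) * (Ψ * ∏ l ∈ Finset.univ.filter (· < j), Γ l) =
      kc ((∏ i, c i) * (cG * ∏ l ∈ Finset.univ.filter (· < j), c' l)) *
        ch ((∏ i, h i) * (G * ∏ l ∈ Finset.univ.filter (· < j), g l)) := by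
    rw [hΦ, hΓ, hΨ, ch_prod, ch_prod, kc_mul, kc_mul, map_mul, map_mul]
    ring
  rw [h1, ev2_mul, ev_ch, hx2, mul_zero]

end Pool.Agent.H942.LP
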