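import Pool.Agent.H942.LP.O2

set_option autoImplicit false
set_option linter.unusedSectionVars false
set_option linter.unusedVariables false

/-! # The Lipschitz property for all negative exponents, by interpolation -/

namespace Pool.Agent.H942.LP

open Polynomial Finset Filter Topology Pool.Agent.Helper748.TP Pool.Agent.H941.TF

theorem interp {n : ℕ} {φ : ℕ → ℂ → ℂ} {f : Filter ℂ} {v : Fin n → ℂ}
    (hv : Function.Injective v)
    (h : ∀ m, ∃ L, Tendsto (fun u => ∑ k ∈ range n, v m ^ k * φ k u) f (𝓝 L)) (σ : ℂ) :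
    ∃ L, Tendsto (fun u => ∑ k ∈ range n, σ ^ k * φ k u) f (𝓝 L) := by
  choose L hL using h
  refine ⟨∑ m, L m * (Lagrange.basis univ v m).eval σ,
    (tendsto_finsetSum univ fun m _ => (hL m).mul_const
      ((Lagrange.basis univ v m).eval σ)).congr fun u => ?_⟩
  set P : ℂ[X] := ∑ k ∈ range n, C (φ k u) * X ^ k with hP
  have hPd : P.degree < (#(univ : Finset (Fin n)) : WithBot ℕ) := by
    rw [card_univ, Fintype.card_fin]
    rw [degree_lt_iff_coeff_zero]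
    intro m hm
    rw [hP, finsetSum_coeff]
    refine Finset.sum_eq_zero fun k hk => ?_
    have := mem_range.1 hk
    rw [coeff_C_mul, coeff_X_pow, if_neg (by omega), mul_zero]
  have hPe : ∀ c, P.eval c = ∑ k ∈ range n, c ^ k * φ k u := by
    intro c
    rw [hP, eval_finsetSum]
    refine Finset.sum_congr rfl fun k _ => ?_
    rw [eval_mul, eval_C, eval_pow, eval_X, mul_comm]
  have h2 := Lagrange.eq_interpolate (v := v) (s := univ) (fun a _ b _ h => hv h) hPd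
  rw [← hPe, h2, Lagrange.interpolate_apply, eval_finsetSum]
  refine Finset.sum_congr rfl fun m _ => ?_
  rw [eval_mul, eval_C, ← hPe]

theorem evt_kh (t c : ℂ) : evt t (kh c) = C c := evt_kc t c

theorem ev2_eval (P : ℂ[X][X][X]) (c t x : ℂ) :
    ev2 (P.eval (kh c)) t x = ∑ k ∈ range (P.natDegree + 1), c ^ k * ev2 (P.coeff k) t x := by
  rw [ev2, eval_eq_sum_range (p := P), map_sum, eval_finsetSum]
  refine Finset.sum_congr rfl fun k _ => ?_
  rw [map_mul, map_pow, evt_kh, eval_mul, eval_pow, eval_C, mul_comm]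
  rfl

/-- negative irrational numbers -/
theorem irr (n : ℕ) : ∃ v : Fin n → ℝ, Function.Injective v ∧ ∀ m, v m < 0 ∧ Irrational (v m) := by
  refine ⟨fun m => -(√2 + (m : ℕ)), fun a b h => ?_, fun m => ⟨?_, ?_⟩⟩
  · have h1 : ((a : ℕ) : ℝ) = ((b : ℕ) : ℝ) := by
      beta_reduce at h
      linarith
    exact Fin.ext (by exact_mod_cast h1)
  · have h1 : (0 : ℝ) < √2 := Real.sqrt_pos.2 (by norm_num)
    have h2 : (0 : ℝ) ≤ ((m : ℕ) : ℝ) := Nat.cast_nonneg _
    linarith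
  · exact (irrational_sqrt_two.add_natCast _).neg

section
variable {N : ℕ} {Q γ hx ht : ℂ[X][X]} {D0 : ℂ[X]} {M : ℕ} {d : ℂ[X]}

/-- **The Lipschitz property for all negative exponents.** -/
theorem lip_all (hL : S_L) (D : Cur N Q γ hx ht D0 M) {Δ : ℂ → ℂ} {p r W V U : ℂ → ℂ[X][X]}
    (hp : PF kh p)
    (hF : ∀ s : ℝ, s < 0 → Fm N Q hx ht d s (kc (Δ s) * U s) (p s) (r s) (W s) (V s))
    {T : ℂ → ℂ} {a : Fin N → ℂ → ℂ} (P : Par N Q T a)
    (hT : AnalyticAt ℂ T 0) (ha : ∀ j, AnalyticAt ℂ (a j) 0)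
    (hTd : ∀ᶠ u in 𝓝[≠] (0 : ℂ), d.eval (T u) ≠ 0) {σ : ℝ} (hσ : σ < 0) {i j : Fin N}
    (hij : i ≠ j) :
    ∃ L, Tendsto (fun u => (yy σ hx d (p σ) (T u) (a i u) - yy σ hx d (p σ) (T u) (a j u)) /
      (a i u - a j u)) (𝓝[≠] 0) (𝓝 L) := by
  obtain ⟨P0, hP0⟩ := hp
  set n := P0.natDegree + 1 with hn
  obtain ⟨v, hv, hvm⟩ := irr n
  set φ : ℕ → ℂ → ℂ := fun k u => (ev2 (P0.coeff k) (T u) (a i u) /
    (d.eval (T u) * ev2 hx (T u) (a i u)) - ev2 (P0.coeff k) (T u) (a j u) /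
    (d.eval (T u) * ev2 hx (T u) (a j u))) / (a i u - a j u) with hφ
  have key : ∀ s : ℝ, s < 0 → ∀ u, (s : ℂ) * ((yy s hx d (p s) (T u) (a i u) -
      yy s hx d (p s) (T u) (a j u)) / (a i u - a j u)) =
      ∑ k ∈ range n, (s : ℂ) ^ k * φ k u := by
    intro s hs u
    have hs0 : (s : ℂ) ≠ 0 := by exact_mod_cast hs.ne
    have h1 : ∀ x, (s : ℂ) * yy s hx d (p s) (T u) x = ∑ k ∈ range n, (s : ℂ) ^ k *
        (ev2 (P0.coeff k) (T u) x / (d.eval (T u) * ev2 hx (T u) x)) := by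
      intro x
      have h2 : ev2 (kc (s : ℂ) * hx) (T u) x = s * ev2 hx (T u) x := by
        rw [ev2_mul, ev2, evt_kc, eval_C]
      have h3 : ∀ A B w : ℂ, (s : ℂ) * (A / (B * (s * w))) = A / (B * w) := by
        intro A B w
        rw [mul_left_comm B, ← mul_div_assoc, mul_div_mul_left _ _ hs0]
      rw [yy, h2, h3, hP0, ev2_eval, Finset.sum_div]
      exact Finset.sum_congr rfl fun k _ => (mul_div_assoc _ _ _)
    rw [← mul_div_assoc, mul_sub, h1, h1, ← Finset.sum_sub_distrib, Finset.sum_div]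
    refine Finset.sum_congr rfl fun k _ => ?_
    rw [hφ, ← mul_sub, mul_div_assoc]
  obtain ⟨L, hL'⟩ := interp (φ := φ) (f := 𝓝[≠] (0 : ℂ)) (v := fun m => (v m : ℂ))
    (fun a b h => hv (by
      have h' : ((v a : ℝ) : ℂ) = ((v b : ℝ) : ℂ) := h
      exact_mod_cast h')) (fun m => by
      obtain ⟨L, h⟩ := (hF (v m) (hvm m).1).lip hL D (hvm m).1 (hvm m).2 P hT ha hTd hij
      exact ⟨_, (h.const_mul (v m : ℂ)).congr fun u => key _ (hvm m).1 u⟩) σ
  have hs0 : (σ : ℂ) ≠ 0 := by exact_mod_cast hσ.ne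
  refine ⟨(σ : ℂ)⁻¹ * L, (hL'.const_mul (σ : ℂ)⁻¹).congr fun u => ?_⟩
  rw [← key σ hσ u, ← mul_assoc, inv_mul_cancel₀ hs0, one_mul]

end

end Pool.Agent.H942.LP
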