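import Pool.Agent.H942.LP.DefG

set_option autoImplicit false
set_option linter.unusedSectionVars false
set_option linter.unusedVariables false

/-! # Interpolation in fat points of the plane -/

namespace Pool.Agent.H942.LP

open Finset Filter Topology Polynomial Pool.Agent.Helper748.TP Pool.Agent.Helper748.MC
  Pool.Agent.H941.TF Pool.Agent.H941.SC Pool.Agent.H941.NC

namespace InN

theorem mpz {A : Type} [CommRing A] (I : Ideal A) (x : A) : x ∈ I ^ 0 := by
  rw [pow_zero, Ideal.one_eq_top]
  trivial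

theorem mp1 {A : Type} [CommRing A] (I : Ideal A) (x : A) (h : x ∈ I) : x ∈ I ^ (0 + 1) := by
  rw [zero_add, pow_one]
  exact h

theorem mps {A : Type} [CommRing A] (I : Ideal A) (K : ℕ) (x y : A) (hx : x ∈ I ^ K) (hy : y ∈ I) :
    x * y ∈ I ^ (K + 1) := by
  rw [pow_succ]
  exact Ideal.mul_mem_mul hx hy

theorem mps_ind {A : Type} [CommRing A] (I : Ideal A) (K : ℕ) (P : A → Prop)
    (h1 : ∀ a ∈ I ^ K, ∀ b ∈ I, P (a * b)) (h2 : ∀ a b, P a → P b → P (a + b)) :
    ∀ r ∈ I ^ (K + 1), P r := by
  intro r hr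
  rw [pow_succ] at hr
  exact Submodule.mul_induction_on hr h1 h2

theorem td_zero (k : ℤ) : TD k (0 : ℂ[X][X]) := by
  intro i j _
  simp

theorem td_cc (c : ℂ) : TD 0 (Polynomial.C (Polynomial.C c) : ℂ[X][X]) := by
  intro i j hij
  rw [Polynomial.coeff_C]
  split_ifs with h
  · rw [Polynomial.coeff_C]
    split_ifs with h'
    · subst h; subst h'; simp at hij
    · rfl
  · simp

theorem td_one : TD 0 (1 : ℂ[X][X]) := by
  have h := td_cc 1
  rwa [Polynomial.C_1, Polynomial.C_1] at h

theorem td_t (t : ℂ) : TD 1 (Polynomial.C (Polynomial.X - Polynomial.C t) : ℂ[X][X]) := by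
  intro i j hij
  rw [Polynomial.coeff_C]
  split_ifs with h
  · have hj : 1 < j := by subst h; push_cast at hij; omega
    rw [Polynomial.coeff_sub, Polynomial.coeff_X, Polynomial.coeff_C,
      if_neg (by omega), if_neg (by omega), sub_zero]
  · simp

theorem td_x (x : ℂ) : TD 1 (Polynomial.X - Polynomial.C (Polynomial.C x) : ℂ[X][X]) := by
  intro i j hij
  rw [Polynomial.coeff_sub, Polynomial.coeff_X, Polynomial.coeff_C]
  by_cases h1 : 1 = i
  · have hj : j ≠ 0 := by subst h1; push_cast at hij; omega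
    rw [if_pos h1, if_neg (by omega), sub_zero, Polynomial.coeff_one, if_neg hj]
  · rw [if_neg h1]
    by_cases h0 : i = 0
    · rw [if_pos h0, zero_sub, Polynomial.coeff_neg, Polynomial.coeff_C, if_neg, neg_zero]
      subst h0; push_cast at hij; omega
    · rw [if_neg h0, sub_zero, Polynomial.coeff_zero]

theorem td_pow {k : ℤ} {Z : ℂ[X][X]} (h : TD k Z) (n : ℕ) : TD (n * k) (Z ^ n) := by
  induction n with
  | zero => rw [pow_zero]; simpa using td_one
  | succ n ih =>
    rw [pow_succ]
    have := TD.mul ih h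
    refine this.mono (le_of_eq ?_)
    push_cast
    ring

/-- the value at a point -/
noncomputable def ep (t x : ℂ) : ℂ[X][X] →+* ℂ :=
  (Polynomial.evalRingHom t).comp (Polynomial.evalRingHom (Polynomial.C x))

theorem t_mem (t x : ℂ) : Polynomial.C (Polynomial.X - Polynomial.C t) ∈ mId t x :=
  Ideal.subset_span (by simp)

theorem x_mem (t x : ℂ) : Polynomial.X - Polynomial.C (Polynomial.C x) ∈ mId t x :=
  Ideal.subset_span (by simp)

/-- every polynomial is a constant modulo the ideal of the point -/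
theorem sub_mem (t x : ℂ) (α : ℂ[X][X]) :
    α - Polynomial.C (Polynomial.C (ep t x α)) ∈ mId t x := by
  have h1 : Polynomial.X - Polynomial.C (Polynomial.C x) ∣
      α - Polynomial.C (α.eval (Polynomial.C x)) := Polynomial.X_sub_C_dvd_sub_C_eval
  have h2 : Polynomial.X - Polynomial.C t ∣ (α.eval (Polynomial.C x)) -
      Polynomial.C ((α.eval (Polynomial.C x)).eval t) := Polynomial.X_sub_C_dvd_sub_C_eval
  obtain ⟨w, hw⟩ := h1
  obtain ⟨w', hw'⟩ := h2
  have h3 : α - Polynomial.C (Polynomial.C (ep t x α)) =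
      (Polynomial.X - Polynomial.C (Polynomial.C x)) * w +
      Polynomial.C (Polynomial.X - Polynomial.C t) * Polynomial.C w' := by
    rw [← hw, ← Polynomial.C_mul, ← hw', Polynomial.C_sub]
    simp only [ep, RingHom.comp_apply, Polynomial.coe_evalRingHom]
    ring
  rw [h3]
  exact (mId t x).add_mem ((mId t x).mul_mem_right _ (x_mem t x))
    ((mId t x).mul_mem_right _ (t_mem t x))

/-- elements of a power of the ideal are forms modulo the next power -/
theorem form (t x : ℂ) (K : ℕ) : ∀ r ∈ mId t x ^ K, ∃ h : ℂ[X][X], TD (K : ℤ) h ∧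
    h ∈ mId t x ^ K ∧ r - h ∈ mId t x ^ (K + 1) := by
  induction K with
  | zero =>
    intro r _
    refine ⟨Polynomial.C (Polynomial.C (ep t x r)), ?_, mpz _ _, mp1 _ _ (sub_mem t x r)⟩
    simpa using td_cc _
  | succ K ih =>
    refine mps_ind (mId t x) K _ ?_ ?_
    · intro a ha b hb
      obtain ⟨h, h1, h2, h3⟩ := ih a ha
      obtain ⟨α, β, hb⟩ := Ideal.mem_span_pair.1 hb
      have key : ∀ (γ l : ℂ[X][X]), l ∈ mId t x → a * (γ * l) -
          h * Polynomial.C (Polynomial.C (ep t x γ)) * l ∈ mId t x ^ (K + 1 + 1) := by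
        intro γ l hl
        have e : a * (γ * l) - h * Polynomial.C (Polynomial.C (ep t x γ)) * l =
            ((a - h) * γ + h * (γ - Polynomial.C (Polynomial.C (ep t x γ)))) * l := by ring
        rw [e]
        exact mps _ _ _ _ (Ideal.add_mem _ (Ideal.mul_mem_right _ _ h3)
          (mps _ _ _ _ h2 (sub_mem t x γ))) hl
      refine ⟨h * Polynomial.C (Polynomial.C (ep t x α)) *
        Polynomial.C (Polynomial.X - Polynomial.C t) +
        h * Polynomial.C (Polynomial.C (ep t x β)) *
        (Polynomial.X - Polynomial.C (Polynomial.C x)), ?_, ?_, ?_⟩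
      · refine TD.add ?_ ?_
        · refine (TD.mul (TD.mul h1 (td_cc _)) (td_t t)).mono (le_of_eq ?_)
          push_cast; ring
        · refine (TD.mul (TD.mul h1 (td_cc _)) (td_x x)).mono (le_of_eq ?_)
          push_cast; ring
      · refine Ideal.add_mem _ ?_ ?_
        · exact mps _ _ _ _ (Ideal.mul_mem_right _ _ h2) (t_mem t x)
        · exact mps _ _ _ _ (Ideal.mul_mem_right _ _ h2) (x_mem t x)
      · rw [← hb]
        have e : a * (α * Polynomial.C (Polynomial.X - Polynomial.C t) +
            β * (Polynomial.X - Polynomial.C (Polynomial.C x))) -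
            (h * Polynomial.C (Polynomial.C (ep t x α)) *
            Polynomial.C (Polynomial.X - Polynomial.C t) +
            h * Polynomial.C (Polynomial.C (ep t x β)) *
            (Polynomial.X - Polynomial.C (Polynomial.C x))) =
            (a * (α * Polynomial.C (Polynomial.X - Polynomial.C t)) -
              h * Polynomial.C (Polynomial.C (ep t x α)) *
              Polynomial.C (Polynomial.X - Polynomial.C t)) +
            (a * (β * (Polynomial.X - Polynomial.C (Polynomial.C x))) -
              h * Polynomial.C (Polynomial.C (ep t x β)) *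
              (Polynomial.X - Polynomial.C (Polynomial.C x))) := by ring
        rw [e]
        exact Ideal.add_mem _ (key α _ (t_mem t x)) (key β _ (x_mem t x))
    · rintro y z ⟨h, h1, h2, h3⟩ ⟨h', h1', h2', h3'⟩
      refine ⟨h + h', h1.add h1', Ideal.add_mem _ h2 h2', ?_⟩
      have e : y + z - (h + h') = (y - h) + (z - h') := by ring
      rw [e]
      exact Ideal.add_mem _ h3 h3'

/-- division by a polynomial which does not vanish at the point -/
theorem divide (t x : ℂ) (L w : ℂ[X][X]) (hL : ep t x L ≠ 0) (K : ℕ) :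
    ∃ c : ℂ[X][X], TD ((K : ℤ) - 1) c ∧ c * L - w ∈ mId t x ^ K := by
  induction K with
  | zero =>
    exact ⟨0, td_zero _, mpz _ _⟩
  | succ K ih =>
    obtain ⟨c, hc, hcw⟩ := ih
    obtain ⟨h, h1, h2, h3⟩ := form t x K _ hcw
    obtain ⟨v, hv⟩ : ∃ v : ℂ, v = ep t x L := ⟨_, rfl⟩
    have hv0 : v ≠ 0 := by rw [hv]; exact hL
    obtain ⟨V, hV⟩ : ∃ V : ℂ[X][X], V = Polynomial.C (Polynomial.C v) := ⟨_, rfl⟩
    obtain ⟨V', hV'⟩ : ∃ V' : ℂ[X][X], V' = Polynomial.C (Polynomial.C v⁻¹) := ⟨_, rfl⟩
    have hVV : V' * V = 1 := by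
      rw [hV, hV', ← Polynomial.C_mul, ← Polynomial.C_mul, inv_mul_cancel₀ hv0,
        Polynomial.C_1, Polynomial.C_1]
    refine ⟨c - V' * h, ?_, ?_⟩
    · refine TD.sub (hc.mono (by push_cast; omega)) ?_
      rw [hV']
      refine (TD.mul (td_cc _) h1).mono (le_of_eq ?_)
      push_cast
      ring
    · have e : (c - V' * h) * L - w = (c * L - w - h) - V' * (h * (L - V)) := by
        linear_combination (-h) * hVV
      rw [e]
      refine Ideal.sub_mem _ h3 (Ideal.mul_mem_left _ _ ?_)
      refine mps _ _ _ _ h2 ?_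
      rw [hV, hv]
      exact sub_mem t x L

/-- a polynomial of degree `1` which vanishes at `q` but not at `p` -/
noncomputable def lq (p q : ℂ × ℂ) : ℂ[X][X] :=
  if q.1 = p.1 then Polynomial.X - Polynomial.C (Polynomial.C q.2)
  else Polynomial.C (Polynomial.X - Polynomial.C q.1)

theorem lq_td (p q : ℂ × ℂ) : TD 1 (lq p q) := by
  rw [lq]
  split_ifs
  · exact td_x _
  · exact td_t _

theorem lq_mem (p q : ℂ × ℂ) : lq p q ∈ mId q.1 q.2 := by
  rw [lq]
  split_ifs
  · exact x_mem _ _
  · exact t_mem _ _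

theorem lq_ne (p q : ℂ × ℂ) (h : q ≠ p) : ep p.1 p.2 (lq p q) ≠ 0 := by
  rw [lq]
  split_ifs with h1
  · have h2 : q.2 ≠ p.2 := fun h2 => h (Prod.ext h1 h2)
    simp only [ep, RingHom.comp_apply, Polynomial.coe_evalRingHom, Polynomial.eval_sub,
      Polynomial.eval_X, Polynomial.eval_C]
    exact sub_ne_zero.2 (Ne.symm h2)
  · simp only [ep, RingHom.comp_apply, Polynomial.coe_evalRingHom, Polynomial.eval_sub,
      Polynomial.eval_X, Polynomial.eval_C]
    exact sub_ne_zero.2 (Ne.symm h1)

theorem interp (s : Finset (ℂ × ℂ)) (k : ℂ × ℂ → ℕ) (u : ℂ × ℂ → ℂ[X][X]) :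
    ∃ g : ℂ[X][X], TD (((∑ p ∈ s, k p : ℕ) : ℤ) - 1) g ∧
      ∀ p ∈ s, g - u p ∈ mId p.1 p.2 ^ k p := by
  classical
  induction s using Finset.induction_on with
  | empty =>
    refine ⟨0, td_zero _, ?_⟩
    intro p hp
    exact absurd hp (Finset.notMem_empty p)
  | insert p s hps ih =>
    obtain ⟨g, hg, hgu⟩ := ih
    obtain ⟨L, hL⟩ : ∃ L : ℂ[X][X], L = ∏ q ∈ s, lq p q ^ k q := ⟨_, rfl⟩
    have hL0 : ep p.1 p.2 L ≠ 0 := by
      rw [hL, map_prod, Finset.prod_ne_zero_iff]
      intro q hq
      rw [map_pow]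
      refine pow_ne_zero _ (lq_ne p q ?_)
      rintro rfl
      exact hps hq
    have hLTD : ∀ s' : Finset (ℂ × ℂ), TD ((∑ q ∈ s', k q : ℕ) : ℤ) (∏ q ∈ s', lq p q ^ k q) := by
      intro s'
      induction s' using Finset.induction_on with
      | empty => simpa using td_one
      | insert q s' hq ih' =>
        rw [Finset.prod_insert hq, Finset.sum_insert hq]
        refine (TD.mul (td_pow (lq_td p q) (k q)) ih').mono (le_of_eq ?_)
        push_cast
        ring
    have hLm : ∀ q ∈ s, L ∈ mId q.1 q.2 ^ k q := by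
      intro q hq
      obtain ⟨w, hw⟩ : lq p q ^ k q ∣ L := by
        rw [hL]
        exact Finset.dvd_prod_of_mem (fun q => lq p q ^ k q) hq
      rw [hw]
      exact Ideal.mul_mem_right _ _ (Ideal.pow_mem_pow (lq_mem p q) _)
    obtain ⟨c, hc, hcL⟩ := divide p.1 p.2 L (u p - g) hL0 (k p)
    refine ⟨g + c * L, ?_, ?_⟩
    · rw [Finset.sum_insert hps]
      refine TD.add (hg.mono ?_) ?_
      · push_cast
        omega
      · rw [hL]
        refine (TD.mul hc (hLTD s)).mono (le_of_eq ?_)
        push_cast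
        ring
    · intro q hq
      rcases Finset.mem_insert.1 hq with rfl | hq
      · have e : g + c * L - u q = c * L - (u q - g) := by ring
        rw [e]
        exact hcL
      · have e : g + c * L - u q = (g - u q) + c * L := by ring
        rw [e]
        exact Ideal.add_mem _ (hgu q hq) (Ideal.mul_mem_left _ _ (hLm q hq))

end InN

theorem t_In : S_In := by
  classical
  intro s k u b
  obtain ⟨g, hg, hgu⟩ := InN.interp s k (fun p => if p.1 = b then u else 0)
  refine ⟨g, hg, ?_, ?_⟩
  · intro p hp hpb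
    have h := hgu p hp
    rwa [if_pos hpb] at h
  · intro p hp hpb
    have h := hgu p hp
    rwa [if_neg hpb, sub_zero] at h

end Pool.Agent.H942.LP
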