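import Pool.Agent.H942.LP.Gs

set_option autoImplicit false
set_option linter.unusedSectionVars false
set_option linter.unusedVariables false

/-! # There is no primitive: arbitrary singularities -/

namespace Pool.Agent.H942.LP

open Polynomial Finset Filter Topology Metric Pool.Agent.Helper748.TP Pool.Agent.H941.TF
  Pool.Agent.H941.SC Pool.Agent.H941.NC Pool.Agent.H941.ND Pool.Agent.H941.QH

section
variable {k : ℕ} {Γ Γi : Fin k → ℂ[X][X]} {nn : Fin k → ℕ}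
  {F Φi hxQ htQ γ' V p r q : ℂ[X][X]} {D0 d : ℂ[X]} {σ : ℝ} {e n : ℕ}

/-- **There is no primitive.** -/
theorem main3 (tSt1 : S_St1) (tSt2 : S_St2') (tZq : S_Zq) (tPs : S_Ps') (tRg : S_Rg)
    (tAl : S_Al)
    (hFm : F.Monic) (he : 3 < e) (hσ : σ < 0) (hD0 : D0 ≠ 0)
    {α β : ℂ[X][X]}
    (hαβ : C D0 = α * (F * ∏ j, Γ j) + β * derivative (F * ∏ j, Γ j))
    (hFd : F.natDegree = e) (TFe : TD (e : ℤ) F)
    (TQ : TD ((e + n : ℕ) : ℤ) (F * ∏ j, Γ j))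
    (iΦ : Inf F Φi e) (iΓ : ∀ j, Inf (Γ j) (Γi j) (nn j)) (hn : ∑ j, nn j = n)
    (hsi : (evt 0 (Φi * ∏ j, Γi j)).Separable)
    (hΓm : ∀ j, (Γ j).Monic)
    (hst : (∃ (κ : ℕ) (g1 g2 : ℂ[X][X]), 2 * κ + 3 < e ∧ IsRelPrime g1 g2 ∧ TD (κ : ℤ) g1 ∧
        TD (κ : ℤ) g2 ∧ ∀ t x, ev2 F t x = 0 → (PtOk F g1 t x ∧ PtOk F g2 t x) ∨
          QP (F * ∏ j, Γ j) (kc (σ : ℂ) * hxQ) (kc (σ : ℂ) * htQ) t x) ∨
      ∀ (b : ℂ) (u : ℂ[X][X]), ∃ g, TD ((e : ℤ) - 6) g ∧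
        (∀ t x, ev2 F t x = 0 → t ≠ b → PtOk F g t x ∨
          QP (F * ∏ j, Γ j) (kc (σ : ℂ) * hxQ) (kc (σ : ℂ) * htQ) t x) ∧
        ∀ x, ev2 F b x = 0 → PtOk F (g - u) b x ∨
          QP (F * ∏ j, Γ j) (kc (σ : ℂ) * hxQ) (kc (σ : ℂ) * htQ) b x)
    (hchn : ∀ j, (Irreducible (Γ j) ∧ ∃ τ : Finset ℂ, 3 * nn j < τ.card ∧
        ∀ t ∈ τ, ∃ x, ev2 (Γ j) t x = 0 ∧ ev2 (F * ∏ l ∈ univ.filter (· < j), Γ l) t x = 0) ∨
      ∃ m0, 1 ≤ m0 ∧ 3 * m0 < e + ∑ l ∈ univ.filter (· < j), nn l ∧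
        ∀ t x, ev2 (Γ j) t x = 0 → ev2 (F * ∏ l ∈ univ.filter (· < j), Γ l) t x = 0 →
          (∃ i ≤ m0, ev2 (derivative^[i] (F * ∏ l ∈ univ.filter (· < j), Γ l)) t x ≠ 0) ∨
          QP (F * ∏ j, Γ j) (kc (σ : ℂ) * hxQ) (kc (σ : ℂ) * htQ) t x)
    (hlip : ∀ (b : ℂ) (m : ℕ) (a : Fin (e + n) → ℂ → ℂ), 0 < m → (∀ j, AnalyticAt ℂ (a j) 0) →
      Par (e + n) (F * ∏ j, Γ j) (fun u => b + u ^ m) a → ∀ i j, i ≠ j →
      ∃ L, Tendsto (fun u => (yy σ hxQ d p (b + u ^ m) (a i u) -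
        yy σ hxQ d p (b + u ^ m) (a j u)) / (a i u - a j u)) (𝓝[≠] 0) (𝓝 L))
    (D : Dat (e + n) (F * ∏ j, Γ j) γ' hxQ htQ σ V d p r q)
    (hV : V = VV (e + n) (F * ∏ j, Γ j) (kc (σ : ℂ) * hxQ)) {M : ℕ}
    (hγ : γ' ∣ (F * ∏ j, Γ j) ^ M)
    {δ : ℕ} (hlc : hxQ.coeff (e + n - 1) = C (δ : ℂ)) (hsum : σ * δ = -3)
    (hfin : ∀ a6 c6 : ℂ[X][X],
      F * ∏ j, Γ j ∣ dt (F * ∏ j, Γ j) * a6 + derivative (F * ∏ j, Γ j) * c6 →
      a6.natDegree ≤ 1 → c6.natDegree ≤ 2 → TD 2 a6 →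
      (F * ∏ j, Γ j) = (F * ∏ j, Γ j) * (dt a6 + derivative c6) + kc (σ : ℂ) * htQ * a6 +
        kc (σ : ℂ) * hxQ * c6 → False) : False := by
  classical
  have hN2 : 2 ≤ e + n := by omega
  have hhc : (kc (σ : ℂ) * hxQ).coeff (e + n - 1) = -3 := by
    rw [kc, coeff_C_mul, hlc, ← C_mul]
    have h1 : (σ : ℂ) * δ = -3 := by
      have : ((σ * δ : ℝ) : ℂ) = ((-3 : ℝ) : ℂ) := by rw [hsum]
      push_cast at this
      exact this
    rw [h1, C_neg, map_ofNat (C : ℂ →+* ℂ[X]) 3]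
  have hhd : (kc (σ : ℂ) * hxQ).natDegree ≤ e + n - 1 := (natDegree_C_mul_le _ _).trans D.hxd
  have hQm := D.monic
  have hQN := D.deg
  have hB : ∀ t ∉ D0.roots.toFinset, D0.eval t ≠ 0 := by
    intro t ht h
    rw [Multiset.mem_toFinset, mem_roots hD0] at ht
    exact ht h
  have hB' : ∀ t, D0.eval t ≠ 0 → t ∉ D0.roots.toFinset := by
    intro t ht h
    rw [Multiset.mem_toFinset, mem_roots hD0] at h
    exact ht h
  have hsep : ∀ t ∉ D0.roots.toFinset, (evt t (F * ∏ j, Γ j)).Separable := fun t ht =>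
    sep_of_disc hαβ (hB t ht)
  have hhne : ∀ t ∉ D0.roots.toFinset, ∀ x, ev2 (F * ∏ j, Γ j) t x = 0 →
      ev2 (kc (σ : ℂ) * hxQ) t x ≠ 0 := fun t ht x h0 => hneQ D hγ hσ (hsep t ht) h0
  have iΨ : Inf (∏ j, Γ j) (∏ j, Γi j) n := by
    have := Inf_prod univ iΓ
    rwa [hn] at this
  -- infinity
  have iQ : Inf (F * ∏ j, Γ j) (Φi * ∏ j, Γi j) (e + n) := iΦ.mul iΨ
  obtain ⟨X', hX, hX0, hXr, P⟩ := iQ.par hQm hQN (by omega) hsi
  have hdinf : ∀ᶠ u in 𝓝[≠] (0 : ℂ), d.eval u⁻¹ ≠ 0 := by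
    filter_upwards [ev_notin' d.roots.toFinset] with u hu h
    apply hu
    rw [Multiset.mem_toFinset, mem_roots D.d0]
    exact h
  obtain ⟨b, hb, hbe, -, -⟩ := D.system hN2 hσ hγ P hdinf
  have TH : TD (((e + n : ℕ) : ℤ) - 1) (kc (σ : ℂ) * hxQ) := TDh iQ (by omega) hX hX0 hhd hbe
  have TV : TD 1 V := by
    rw [hV]
    exact TD_VV hN2 TQ TH
  have hyi := lim_inf' D hN2 hσ hγ P hX hX0 hdinf hlc hsum TV
  obtain ⟨p1, ρ, hp1, hp1d, hρd, hE⟩ := poly D hN2 hσ hγ hD0 hαβ hhc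
    (by rw [hV]; exact natDegree_VV _ _ _)
  have hreg : ∀ t x, QP (F * ∏ j, Γ j) (kc (σ : ℂ) * hxQ) (kc (σ : ℂ) * htQ) t x →
      ∃ c W, ev2 c t x ≠ 0 ∧ F * ∏ j, Γ j ∣ c * p1 - kc (σ : ℂ) * hxQ * W := fun t x h =>
    h.reg hQm (integ (σ : ℂ) D.γ0 D.hxE D.htE) hE hsep hhne
      (fun t ht x h0 => relQ D hγ hσ (hsep t ht) h0 hE)
      (fun t ht x h0 a c h => tanQ D hγ hσ (hsep t ht) h0 h)
  have hinf : ∀ x : ℂ → ℂ, AnalyticAt ℂ x 0 →
      (∀ᶠ u in 𝓝 (0 : ℂ), ev2 (Φi * ∏ j, Γi j) u (x u) = 0) →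
      (∃ L, Tendsto (fun u => u ^ (3 : ℤ) * (ev2 p1 u⁻¹ (x u / u) /
        ev2 (kc (σ : ℂ) * hxQ) u⁻¹ (x u / u))) (𝓝[≠] 0) (𝓝 L)) ∧
      ∀ᶠ u in 𝓝[≠] (0 : ℂ), ev2 (kc (σ : ℂ) * hxQ) u⁻¹ (x u / u) ≠ 0 := by
    intro x hxa hx0
    obtain ⟨j, hj⟩ := root_uniq hX hX0 hXr hxa.continuousAt hx0
    have hj' := hj.filter_mono (nhdsWithin_le_nhds (s := {0}ᶜ))
    obtain ⟨L, hL⟩ := hyi j
    refine ⟨⟨L, hL.congr' ?_⟩, ?_⟩
    · filter_upwards [hj', hdinf] with u h1 h2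
      rw [yyQ D hp1 _ h2, h1]
      rfl
    · filter_upwards [hj', hbe, P.root, P.inj] with u h1 h2 h3 h4
      rw [h1, h2 j]
      have h5 := der_nod_ne h4 j
      have h6 : ev2 (derivative (F * ∏ j, Γ j)) u⁻¹ (X' j u / u) ≠ 0 := by
        rw [ev2, evt_der, h3]
        exact h5
      exact mul_ne_zero (by exact_mod_cast (hb j).ne) h6
  have hXroot : ∀ j, ∀ᶠ u in 𝓝 (0 : ℂ), ev2 (Φi * ∏ j, Γi j) u (X' j u) = 0 := by
    intro j
    filter_upwards [hXr] with u hu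
    rw [ev2, hu]
    exact eval_nod (x := fun j => X' j u) j
  have TP : TD (((e + n : ℕ) : ℤ) + 2) p1 := by
    refine TD_of_lim (fun j => (hX j).continuousAt.tendsto.mono_left nhdsWithin_le_nhds) hX0
      (lt_of_le' (by omega) (hp1d.trans (by omega))) fun j => ?_
    obtain ⟨⟨L, hL⟩, hne⟩ := hinf (X' j) (hX j) (hXroot j)
    obtain ⟨l, hl⟩ := TH.lim ((hX j).continuousAt.tendsto.mono_left (nhdsWithin_le_nhds (s := {0}ᶜ)))
    refine ⟨_, (hL.mul hl).congr' ?_⟩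
    filter_upwards [hne, ev_ne] with u h1 h2
    rw [show (((e + n : ℕ) : ℤ) + 2) = 3 + (((e + n : ℕ) : ℤ) - 1) by ring, zpow_add₀ h2]
    have h13 : ∀ A B' w1 w2 : ℂ, B' ≠ 0 → w1 * (A / B') * (w2 * B') = w1 * w2 * A := by
      intro A B' w1 w2 i1
      field_simp
    exact h13 _ _ _ _ h1
  have hFQ : F ∣ F * ∏ j, Γ j := ⟨_, rfl⟩
  -- the roots of `F` near infinity
  have hsΦ : (evt 0 Φi).Separable := by
    have h := hsi
    rw [map_mul] at h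
    exact h.of_mul_left
  obtain ⟨XH, hXH, hXH0, hXHr, PH⟩ := iΦ.par hFm hFd (by omega) hsΦ
  have hXHroot : ∀ j, ∀ᶠ u in 𝓝 (0 : ℂ), ev2 Φi u (XH j u) = 0 := by
    intro j
    filter_upwards [hXHr] with u hu
    rw [ev2, hu]
    exact eval_nod (x := fun j => XH j u) j
  have hXHroot' : ∀ j, ∀ᶠ u in 𝓝 (0 : ℂ), ev2 (Φi * ∏ j, Γi j) u (XH j u) = 0 := by
    intro j
    filter_upwards [hXHroot j] with u hu
    rw [ev2_mul, hu, zero_mul]
  have hXHΦ : ∀ j, ∀ᶠ u in 𝓝[≠] (0 : ℂ), ev2 F u⁻¹ (XH j u / u) = 0 := by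
    intro j
    filter_upwards [(hXHroot j).filter_mono nhdsWithin_le_nhds, ev_ne] with u h1 h2
    rw [iΦ.rel u _ h2] at h1
    exact (mul_eq_zero.1 h1).resolve_left (pow_ne_zero _ h2)
  have hred : ∀ {c Y : ℂ[X][X]}, F ∣ c * p1 - kc (σ : ℂ) * hxQ * Y →
      F ∣ c * p1 - kc (σ : ℂ) * hxQ * (Y %ₘ F) := by
    intro c Y hY
    obtain ⟨w, hw⟩ := hY
    refine ⟨w + kc (σ : ℂ) * hxQ * (Y /ₘ F), ?_⟩
    have h3 := modByMonic_add_div Y F
    linear_combination hw - kc (σ : ℂ) * hxQ * h3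
  have hdegF : ∀ Y : ℂ[X][X], (Y %ₘ F).degree < (e : WithBot ℕ) := by
    intro Y
    have := degree_modByMonic_lt Y hFm
    rwa [degree_eq_natDegree hFm.ne_zero, hFd] at this
  have hLA : ∀ b, LipAt (e + n) (F * ∏ j, Γ j) p1 (kc (σ : ℂ) * hxQ) b := by
    intro b
    obtain ⟨m, a, L, hm, ha, Pf, hd, hL, hLL⟩ := fin_pt2 D hN2 hσ hγ hD0 hαβ b
    refine ⟨m, a, L, hm, ha, Pf, fun j => (hL j).congr' ?_, fun i j hij => ?_⟩
    · filter_upwards [hd] with u hu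
      exact yyQ D hp1 _ hu
    · obtain ⟨l, hl⟩ := hlip b m a hm ha Pf i j hij
      refine ⟨l, hl.congr' ?_⟩
      filter_upwards [hd] with u hu
      rw [yyQ D hp1 _ hu, yyQ D hp1 _ hu]
  have hregF : ∀ t x, QP (F * ∏ j, Γ j) (kc (σ : ℂ) * hxQ) (kc (σ : ℂ) * htQ) t x →
      ∃ c W, ev2 c t x ≠ 0 ∧ F ∣ c * p1 - kc (σ : ℂ) * hxQ * W := fun t x h => by
    obtain ⟨c, W0, hc, hcW⟩ := hreg t x h
    exact ⟨c, W0, hc, hFQ.trans hcW⟩
  have hsepF : ∀ t, D0.eval t ≠ 0 → (evt t F).Separable ∧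
      ∀ x, ev2 F t x = 0 → ev2 (kc (σ : ℂ) * hxQ) t x ≠ 0 := fun t ht => by
    have h1 := hsep t (hB' t ht)
    rw [map_mul] at h1
    exact ⟨h1.of_mul_left, fun x h0 => hhne t (hB' t ht) x (ev2_dvd hFQ h0)⟩
  -- the growth of numerators
  have hgr : ∀ (c : ℂ[X][X]) (κ : ℤ) (W : ℂ[X][X]), TD κ c → W.degree < (e : WithBot ℕ) →
      F ∣ c * p1 - kc (σ : ℂ) * hxQ * W → TD (κ + 3) W := by
    intro g κ W Tg hWd hW
    refine TD_of_lim (fun j => (hXH j).continuousAt.tendsto.mono_left nhdsWithin_le_nhds) hXH0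
      hWd fun j => ?_
    obtain ⟨⟨L, hL⟩, hne⟩ := hinf (XH j) (hXH j) (hXHroot' j)
    obtain ⟨l, hl⟩ := Tg.lim ((hXH j).continuousAt.tendsto.mono_left
      (nhdsWithin_le_nhds (s := {0}ᶜ)))
    refine ⟨_, (hl.mul hL).congr' ?_⟩
    filter_upwards [hne, hXHΦ j, ev_ne] with u h1 h2 h4
    have h3 := ev2_dvd hW h2
    rw [ev2_sub, ev2_mul, ev2_mul (kc (σ : ℂ) * hxQ)] at h3
    rw [zpow_add₀ h4]
    have h13 : ∀ A B' G W1 w1 w2 : ℂ, B' ≠ 0 → G * A - B' * W1 = 0 →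
        w1 * G * (w2 * (A / B')) = w1 * w2 * W1 := by
      intro A B' G W1 w1 w2 i1 i2
      field_simp
      linear_combination w1 * w2 * i2
    exact h13 _ _ _ _ _ _ h1 h3
  obtain ⟨W0, hW0⟩ : ∃ W0, F ∣ p1 - kc (σ : ℂ) * hxQ * W0 := by
    rcases hst with ⟨κ, g1, g2, hκ, hrel12, Tg1, Tg2, hpt⟩ | hst
    · -- the two numerators
      have hnum : ∀ g : ℂ[X][X], TD (κ : ℤ) g → (∀ t x, ev2 F t x = 0 → PtOk F g t x ∨
          QP (F * ∏ j, Γ j) (kc (σ : ℂ) * hxQ) (kc (σ : ℂ) * htQ) t x) →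
          ∃ W, TD (κ + 3 : ℤ) W ∧ F ∣ g * p1 - kc (σ : ℂ) * hxQ * W := by
        intro g Tg hg
        obtain ⟨W, hW⟩ := tSt1 F p1 (kc (σ : ℂ) * hxQ) g D0 hFm hD0 hsepF
          fun b δ' W hδ hW => tSt2 (e + n) (F * ∏ j, Γ j) F p1 (kc (σ : ℂ) * hxQ) g W δ' b D0
            hQm hQN hFm hFQ hD0 (fun t ht => ⟨hsep t (hB' t ht),
              fun x h0 => hhne t (hB' t ht) x h0⟩) (hLA b)
            (fun x h0 => (hg b x h0).imp_right (hregF b x)) hδ hW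
        exact ⟨W %ₘ F, hgr g κ _ Tg (hdegF W) (hred hW), hred hW⟩
      obtain ⟨W1, TW1, hW1⟩ := hnum g1 Tg1 fun t x h0 => (hpt t x h0).imp_left fun h => h.1
      obtain ⟨W2, TW2, hW2⟩ := hnum g2 Tg2 fun t x h0 => (hpt t x h0).imp_left fun h => h.2
      exact tZq F p1 (kc (σ : ℂ) * hxQ) g1 g2 W1 W2 D0 e κ hFm hFd hD0 hsepF hrel12 Tg1 Tg2
        TW1 TW2 hκ hW1 hW2
    · refine gs tSt1 tRg tAl hQm hQN hFm hFd hFQ (by omega) TFe hD0
        (fun t ht => ⟨hsep t (hB' t ht), fun x h0 => hhne t (hB' t ht) x h0⟩) hLA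
        (fun δ W hδ hWd hW => ?_) fun b u => ?_
      · have h1 := hgr (C δ) δ.natDegree W (fun i j hij => ?_) hWd hW
        · exact h1.mono (by omega)
        · rw [coeff_C]
          split_ifs with h0
          · subst h0
            exact coeff_eq_zero_of_natDegree_lt (by push_cast at hij; omega)
          · exact coeff_zero _
      · obtain ⟨g, Tg, h1, h2⟩ := hst b u
        exact ⟨g, Tg, fun t x h0 hb => (h1 t x h0 hb).imp_right (hregF t x),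
          fun x h0 => (h2 x h0).imp_right (hregF b x)⟩
  have hZF : F ∣ p1 - kc (σ : ℂ) * hxQ * (W0 %ₘ F) := by
    have h1 := hred (c := 1) (Y := W0) (by rwa [one_mul])
    rwa [one_mul] at h1
  have hZd := hdegF W0
  set Z := W0 %ₘ F with hZ
  clear_value Z
  have TZ : TD 3 Z := by
    refine TD_of_lim (fun j => (hXH j).continuousAt.tendsto.mono_left nhdsWithin_le_nhds) hXH0
      hZd fun j => ?_
    obtain ⟨⟨L, hL⟩, hne⟩ := hinf (XH j) (hXH j) (hXHroot' j)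
    refine ⟨L, hL.congr' ?_⟩
    filter_upwards [hne, hXHΦ j] with u h1 h2
    have h3 := ev2_dvd hZF h2
    rw [ev2_sub, ev2_mul (kc (σ : ℂ) * hxQ)] at h3
    congr 1
    rw [div_eq_iff h1]
    linear_combination h3
  -- the chain
  have hch : ∀ j : Fin k, ∀ t ∉ D0.roots.toFinset, ∀ x, ev2 (Γ j) t x = 0 →
      ev2 (p1 - kc (σ : ℂ) * hxQ * Z) t x = 0 := by
    intro j
    refine WellFounded.induction (C := fun j : Fin k => ∀ t ∉ D0.roots.toFinset, ∀ x,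
      ev2 (Γ j) t x = 0 → ev2 (p1 - kc (σ : ℂ) * hxQ * Z) t x = 0) (wellFounded_lt) j ?_
    intro j ih
    set A := F * ∏ l ∈ univ.filter (· < j), Γ l with hA
    have hAdvd : A ∣ F * ∏ l ∈ univ.erase j, Γ l := by
      refine mul_dvd_mul_left _ (Finset.prod_dvd_prod_of_subset _ _ _ fun l hl => ?_)
      rw [mem_filter] at hl
      exact mem_erase.2 ⟨hl.2.ne, mem_univ l⟩
    have hAm : A.Monic := hFm.mul (monic_prod_of_monic _ _ fun i _ => hΓm i)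
    have hΓR : Γ j * (F * ∏ l ∈ univ.erase j, Γ l) = F * ∏ j, Γ j := by
      rw [← Finset.mul_prod_erase univ Γ (mem_univ j)]
      ring
    have hΓRi : Γi j * (Φi * ∏ l ∈ univ.erase j, Γi l) = Φi * ∏ j, Γi j := by
      rw [← Finset.mul_prod_erase univ Γi (mem_univ j)]
      ring
    have hnn : nn j + (e + ∑ l ∈ univ.erase j, nn l) = e + n := by
      rw [← hn, ← Finset.add_sum_erase univ nn (mem_univ j)]
      ring
    have hAz : ∀ t ∉ D0.roots.toFinset, ∀ x, ev2 A t x = 0 →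
        ev2 (p1 - kc (σ : ℂ) * hxQ * Z) t x = 0 := by
      intro t ht x h0
      rw [hA, ev2_mul] at h0
      rcases mul_eq_zero.1 h0 with h1 | h1
      · exact ev2_dvd hZF h1
      · rw [ev2_prod, Finset.prod_eq_zero_iff] at h1
        obtain ⟨l, hl, hl0⟩ := h1
        rw [mem_filter] at hl
        exact ih l hl.2 t ht x hl0
    rcases hchn j with ⟨hirr, τ, hτ, hτ0⟩ | ⟨m0, hm1, hm0, hmeet⟩
    · exact step D hN2 hσ hγ hD0 hαβ hp1 TZ (Γ := Γ j) (R := F * ∏ l ∈ univ.erase j, Γ l)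
        (A := A) (Γi := Γi j) (Ri := Φi * ∏ l ∈ univ.erase j, Γi l) (Qi := Φi * ∏ j, Γi j)
        (n' := nn j) (n'' := e + ∑ l ∈ univ.erase j, nn l) hΓR hAdvd hAm (hΓm j) hirr (iΓ j)
        (iΦ.mul (Inf_prod _ iΓ)) hnn hΓRi hsi hAz (fun x h1 h2 => (hinf x h1 h2).1) hτ hτ0
    · have hsplit : ∀ (G : Fin k → ℂ[X][X]), (∏ l ∈ univ.erase j, G l) =
          (∏ l ∈ univ.filter (· < j), G l) * ∏ l ∈ univ.filter (j < ·), G l := by
        intro G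
        rw [← Finset.prod_union]
        · refine Finset.prod_congr ?_ fun _ _ => rfl
          ext l
          simp only [mem_erase, mem_univ, and_true, mem_union, mem_filter, true_and]
          exact ⟨fun h => lt_or_gt_of_ne h, fun h => h.elim ne_of_lt fun h => ne_of_gt h⟩
        · rw [Finset.disjoint_left]
          intro l h1 h2
          rw [mem_filter] at h1 h2
          exact lt_asymm h1.2 h2.2
      have hsplit' : (∑ l ∈ univ.erase j, nn l) =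
          (∑ l ∈ univ.filter (· < j), nn l) + ∑ l ∈ univ.filter (j < ·), nn l := by
        rw [← Finset.sum_union]
        · refine Finset.sum_congr ?_ fun _ _ => rfl
          ext l
          simp only [mem_erase, mem_univ, and_true, mem_union, mem_filter, true_and]
          exact ⟨fun h => lt_or_gt_of_ne h, fun h => h.elim ne_of_lt fun h => ne_of_gt h⟩
        · rw [Finset.disjoint_left]
          intro l h1 h2
          rw [mem_filter] at h1 h2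
          exact lt_asymm h1.2 h2.2
      have hAsep : ∀ t ∉ D0.roots.toFinset, (evt t A).Separable := by
        intro t ht
        have h1 := hsep t ht
        rw [← hΓR, map_mul] at h1
        exact h1.of_mul_right.of_dvd (map_dvd (evt t) hAdvd)
      have hAF : A ∣ p1 - kc (σ : ℂ) * hxQ * Z := dvd_of_ev hAm (B := D0.roots.toFinset)
        fun t ht => ⟨hAsep t ht, hAz t ht⟩
      refine tPs (e + n) (F * ∏ j, Γ j) γ' hxQ htQ V p r q σ d D0 D hN2 hσ M hγ hD0 α β hαβ p1 Z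
        hp1 TZ A (Γ j) (∏ l ∈ univ.filter (j < ·), Γ l) (Φi * ∏ l ∈ univ.filter (· < j), Γi l)
        (Γi j) (∏ l ∈ univ.filter (j < ·), Γi l) (Φi * ∏ j, Γi j)
        (e + ∑ l ∈ univ.filter (· < j), nn l) (nn j) (∑ l ∈ univ.filter (j < ·), nn l) m0 ?_ hAm
        (iΦ.mul (Inf_prod _ iΓ)) (iΓ j) (Inf_prod _ iΓ) hm1 hm0 ?_ ?_ hsi hAF ?_ hlip
        fun x h1 h2 => (hinf x h1 h2).1
      · rw [← hΓR, hsplit, hA]
        ring
      · rw [← hnn, hsplit']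
        ring
      · rw [← hΓRi, hsplit]
        ring
      · intro t x h1 h2
        exact (hmeet t x h1 h2).imp_right fun h => hreg t x h
  have hρ1 : ρ.natDegree ≤ e + n + 1 := by
    have hV1 : V.natDegree ≤ 1 := by rw [hV]; exact natDegree_VV _ _ _
    have h3 : ρ = (ρ - V * (F * ∏ j, Γ j)) + V * (F * ∏ j, Γ j) := by ring
    rw [h3]
    refine (natDegree_add_le _ _).trans (max_le (by omega) (natDegree_mul_le.trans ?_))
    omega
  refine Pool.Agent.H941.QH.endgame (by omega) hσ hD0 hαβ TQ iΦ iΨ hsi D hγ hhc TH hp1d hρ1 TP TZ hE ?_ hfin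
  intro t ht x h0
  rw [ev2_mul] at h0
  rcases mul_eq_zero.1 h0 with h1 | h1
  · exact ev2_dvd hZF h1
  · rw [ev2_prod, Finset.prod_eq_zero_iff] at h1
    obtain ⟨l, -, hl0⟩ := h1
    exact hch l t ht x hl0

end

end Pool.Agent.H942.LP
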