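import Pool.Agent.H942.LP.DefM

/-!
# A form with a second torus has no big curve with small multiplicities
-/

set_option autoImplicit false
set_option linter.unusedSectionVars false
set_option linter.unusedVariables false

namespace Pool.Agent.H942.LP

open MvPolynomial Filter Topology Pool.Agent.Helper748.MC Pool.Agent.Helper748.TP
  Pool.Agent.H941.TF Pool.Agent.H941.SC Pool.Agent.H941.NC

namespace MFN

theorem lin_inj (A : Matrix (Fin 3) (Fin 3) ℂ) (hA : A.det ≠ 0) (p : MvPolynomial (Fin 3) ℂ)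
    (hp : p ≠ 0) : lin A p ≠ 0 := by
  intro h
  apply hp
  apply (linE A hA).injective
  rw [map_zero]
  exact h

/-- the weight of a monomial -/
def mfwt (u : Fin 3 → ℕ) (α : Fin 3 →₀ ℕ) : ℕ := ∑ i, α i * u i

theorem mfwt_zero (u : Fin 3 → ℕ) : mfwt u 0 = 0 := by simp [mfwt]

theorem mfwt_add (u : Fin 3 → ℕ) (α β : Fin 3 →₀ ℕ) : mfwt u (α + β) = mfwt u α + mfwt u β := by
  simp only [mfwt, Finsupp.add_apply, add_mul, Finset.sum_add_distrib]

theorem mfwt_single (u : Fin 3 → ℕ) (i : Fin 3) (k : ℕ) :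
    mfwt u (Finsupp.single i k) = k * u i := by
  unfold mfwt
  rw [Finset.sum_eq_single i]
  · rw [Finsupp.single_eq_same]
  · intro j _ hj
    rw [Finsupp.single_eq_of_ne hj, zero_mul]
  · intro h; exact absurd (Finset.mem_univ i) h

/-- the grading by weights -/
noncomputable def mfgr (u : Fin 3 → ℕ) :
    MvPolynomial (Fin 3) ℂ →ₐ[ℂ] Polynomial (MvPolynomial (Fin 3) ℂ) :=
  aeval fun i => Polynomial.monomial (u i) (X i)

theorem mfgr_C (u : Fin 3 → ℕ) (a : ℂ) : mfgr u (C a) = Polynomial.C (C a) := by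
  rw [mfgr, aeval_C]
  rfl

theorem mfgr_monomial (u : Fin 3 → ℕ) (s : Fin 3 →₀ ℕ) : ∀ a : ℂ,
    mfgr u (monomial s a) = Polynomial.monomial (mfwt u s) (monomial s a) := by
  induction s using Finsupp.induction_linear with
  | zero =>
    intro a
    rw [mfwt_zero, Polynomial.monomial_zero_left]
    exact mfgr_C u a
  | add s t hs ht =>
    intro a
    have h1 : (monomial (s + t) a : MvPolynomial (Fin 3) ℂ) = monomial s a * monomial t 1 := by
      rw [monomial_mul, mul_one]
    rw [h1, map_mul, hs, ht, Polynomial.monomial_mul_monomial, mfwt_add]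
  | single i k =>
    intro a
    have h1 : (monomial (Finsupp.single i k) a : MvPolynomial (Fin 3) ℂ) = C a * X i ^ k := by
      rw [C_mul_X_pow_eq_monomial]
    rw [h1, map_mul, map_pow, mfgr_C, mfwt_single]
    have h2 : mfgr u (X i) = Polynomial.monomial (u i) (X i) := by rw [mfgr, aeval_X]
    rw [h2, Polynomial.monomial_pow, Polynomial.C_mul_monomial, mul_comm (u i) k]

theorem mfgr_coeff (u : Fin 3 → ℕ) (p : MvPolynomial (Fin 3) ℂ) (n : ℕ) (α : Fin 3 →₀ ℕ) :
    coeff α ((mfgr u p).coeff n) = if mfwt u α = n then coeff α p else 0 := by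
  induction p using MvPolynomial.induction_on' with
  | monomial s a =>
    rw [mfgr_monomial, Polynomial.coeff_monomial]
    by_cases h1 : mfwt u s = n
    · rw [if_pos h1]
      by_cases h2 : mfwt u α = n
      · rw [if_pos h2]
      · rw [if_neg h2, coeff_monomial, if_neg]
        rintro rfl
        exact h2 h1
    · rw [if_neg h1, coeff_zero]
      by_cases h2 : mfwt u α = n
      · rw [if_pos h2, coeff_monomial, if_neg]
        rintro rfl
        exact h1 h2
      · rw [if_neg h2]
  | add p q hp hq =>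
    rw [map_add, Polynomial.coeff_add, coeff_add, hp, hq, coeff_add]
    split_ifs
    · rfl
    · rw [add_zero]

theorem mfgr_ne (u : Fin 3 → ℕ) (p : MvPolynomial (Fin 3) ℂ) (hp : p ≠ 0) : mfgr u p ≠ 0 := by
  obtain ⟨α, hα⟩ := MvPolynomial.ne_zero_iff.1 hp
  intro h
  apply hα
  have h1 := mfgr_coeff u p (mfwt u α) α
  rw [if_pos rfl, h, Polynomial.coeff_zero, coeff_zero] at h1
  exact h1.symm

/-- a divisor of a weighted homogeneous polynomial is weighted homogeneous -/
theorem dvd_wt (u : Fin 3 → ℕ) (p f : MvPolynomial (Fin 3) ℂ) (hf : f ≠ 0) (D : ℕ)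
    (hD : ∀ α ∈ f.support, mfwt u α = D) (hpf : p ∣ f) (α β : Fin 3 →₀ ℕ) (hα : α ∈ p.support)
    (hβ : β ∈ p.support) : mfwt u α = mfwt u β := by
  obtain ⟨k, rfl⟩ := hpf
  have hp0 : p ≠ 0 := left_ne_zero_of_mul hf
  have hk0 : k ≠ 0 := right_ne_zero_of_mul hf
  have h1 : mfgr u (p * k) = Polynomial.monomial D (p * k) := by
    ext n β
    rw [mfgr_coeff, Polynomial.coeff_monomial]
    by_cases h2 : D = n
    · rw [if_pos h2]
      by_cases h3 : mfwt u β = n
      · rw [if_pos h3]
      · rw [if_neg h3]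
        by_contra h4
        exact h3 ((hD β (mem_support_iff.2 (Ne.symm h4))).trans h2)
    · rw [if_neg h2, coeff_zero]
      by_cases h3 : mfwt u β = n
      · rw [if_pos h3]
        by_contra h4
        exact h2 ((hD β (mem_support_iff.2 h4)).symm.trans h3)
      · rw [if_neg h3]
  rw [map_mul] at h1
  have g1 := Polynomial.natDegree_mul (mfgr_ne u p hp0) (mfgr_ne u k hk0)
  have g2 := Polynomial.natTrailingDegree_mul (mfgr_ne u p hp0) (mfgr_ne u k hk0)
  rw [h1, Polynomial.natDegree_monomial_eq _ hf] at g1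
  rw [h1, Polynomial.natTrailingDegree_monomial hf] at g2
  have g3 := Polynomial.natTrailingDegree_le_natDegree (mfgr u p)
  have g4 := Polynomial.natTrailingDegree_le_natDegree (mfgr u k)
  have key : ∀ γ ∈ p.support, mfwt u γ = (mfgr u p).natDegree := by
    intro γ hγ
    have h5 : (mfgr u p).coeff (mfwt u γ) ≠ 0 := by
      intro h6
      have h7 := mfgr_coeff u p (mfwt u γ) γ
      rw [if_pos rfl, h6, coeff_zero] at h7
      exact (mem_support_iff.1 hγ) h7.symm
    have h8 := Polynomial.le_natDegree_of_ne_zero h5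
    have h9 := Polynomial.natTrailingDegree_le_of_ne_zero h5
    omega
  rw [key α hα, key β hβ]

/-- unit vector -/
def mfev (p : Fin 3) : Fin 3 → ℂ := Pi.single p 1

theorem tay_lin (B : Matrix (Fin 3) (Fin 3) ℂ) (z : Fin 3 → ℂ) (H : MvPolynomial (Fin 3) ℂ) :
    tay z (lin B H) = lin B (tay (fun i => ∑ j, B i j * z j) H) := by
  have h : (tay z).comp (lin B) = (lin B).comp (tay (fun i => ∑ j, B i j * z j)) := by
    apply algHom_ext
    intro i
    rw [AlgHom.comp_apply, AlgHom.comp_apply, lin_X, map_sum]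
    have h1 : tay (fun i => ∑ j, B i j * z j) (X i) = C (∑ j, B i j * z j) + X i := by
      rw [tay, aeval_X]
    rw [h1, map_add, lin_C, lin_X, map_sum, ← Finset.sum_add_distrib]
    refine Finset.sum_congr rfl fun j _ => ?_
    have h2 : tay z (X j) = C (z j) + X j := by rw [tay, aeval_X]
    have h3 : tay z (C (B i j)) = C (B i j) := by rw [algHom_C, algebraMap_eq]
    rw [map_mul, h2, h3, C_mul]
    ring
  exact congrArg (fun φ => φ H) h

theorem hc_lin (B : Matrix (Fin 3) (Fin 3) ℂ) (k : ℕ) (P : MvPolynomial (Fin 3) ℂ) :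
    homogeneousComponent k (lin B P) = lin B (homogeneousComponent k P) := by
  have h1 : lin B P = ∑ i ∈ Finset.range (P.totalDegree + 1),
      lin B (homogeneousComponent i P) := by
    rw [← map_sum, sum_homogeneousComponent]
  rw [h1, map_sum]
  have h2 : ∀ i, homogeneousComponent k (lin B (homogeneousComponent i P)) =
      if i = k then lin B (homogeneousComponent k P) else 0 := by
    intro i
    have h3 : (lin B (homogeneousComponent i P)).IsHomogeneous i :=
      lin_homog B (homogeneousComponent_isHomogeneous i P)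
    rw [homogeneousComponent_of_mem ((mem_homogeneousSubmodule _ _).2 h3)]
    by_cases h4 : i = k
    · subst h4; simp
    · rw [if_neg h4, if_neg]
      exact fun h => h4 h.symm
  rw [Finset.sum_congr rfl fun i _ => h2 i, Finset.sum_ite_eq' (Finset.range _) k]
  by_cases h5 : k ∈ Finset.range (P.totalDegree + 1)
  · rw [if_pos h5]
  · rw [if_neg h5, homogeneousComponent_eq_zero, map_zero]
    rw [Finset.mem_range] at h5
    omega

/-- a monomial with small degree in the other variables -/
theorem low_monomial (p : Fin 3) (k : ℕ) (α : Fin 3 →₀ ℕ) (c : ℂ)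
    (hk : k + α p < ∑ i, α i) : homogeneousComponent k (tay (mfev p) (monomial α c)) = 0 := by
  have h1 : tay (mfev p) (monomial α c) = (C c * (1 + X p) ^ α p) *
      ∏ i ∈ Finset.univ.erase p, X i ^ α i := by
    rw [tay, aeval_monomial, algebraMap_eq]
    rw [Finsupp.prod_fintype _ _ (fun i => pow_zero _)]
    rw [← Finset.mul_prod_erase Finset.univ _ (Finset.mem_univ p), ← mul_assoc]
    congr 1
    · rw [mfev, Pi.single_eq_same, C_1]
    · refine Finset.prod_congr rfl fun i hi => ?_
      rw [mfev, Pi.single_eq_of_ne (Finset.ne_of_mem_erase hi), C_0, zero_add]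
  have h2 : (∏ i ∈ Finset.univ.erase p, (X i : MvPolynomial (Fin 3) ℂ) ^ α i).IsHomogeneous
      (∑ i ∈ Finset.univ.erase p, α i) :=
    IsHomogeneous.prod _ _ _ fun i _ => isHomogeneous_X_pow i _
  have h3 : α p + ∑ i ∈ Finset.univ.erase p, α i = ∑ i, α i :=
    Finset.add_sum_erase Finset.univ _ (Finset.mem_univ p)
  rw [h1]
  ext β
  rw [coeff_homogeneousComponent, coeff_zero]
  split_ifs with hβ
  · rw [coeff_mul]
    apply Finset.sum_eq_zero
    intro x hx
    have hx := Finset.HasAntidiagonal.mem_antidiagonal.1 hx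
    by_contra hne
    have h4 : coeff x.2 (∏ i ∈ Finset.univ.erase p, (X i : MvPolynomial (Fin 3) ℂ) ^ α i) ≠ 0 :=
      right_ne_zero_of_mul hne
    have h5 : x.2.degree = ∑ i ∈ Finset.univ.erase p, α i := by
      by_contra h6
      exact h4 (h2.coeff_eq_zero h6)
    have h7 : β.degree = x.1.degree + x.2.degree := by
      rw [← hx, map_add]
    omega
  · rfl

/-- a monomial with a mfhigh power of `x_p` -/
theorem mfhigh (H' : MvPolynomial (Fin 3) ℂ) (e M : ℕ) (hH : H'.IsHomogeneous e)
    (p : Fin 3) (k : ℕ) (hk : k ≤ M) (hne : homogeneousComponent k (tay (mfev p) H') ≠ 0) :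
    ∃ α ∈ H'.support, e ≤ α p + M := by
  by_contra hcon
  push Not at hcon
  apply hne
  have h1 : H' = ∑ α ∈ H'.support, monomial α (coeff α H') := (support_sum_monomial_coeff H').symm
  rw [h1, map_sum, map_sum]
  apply Finset.sum_eq_zero
  intro α hα
  apply low_monomial
  have h2 : α.degree = e := by
    rw [Finsupp.degree_eq_weight_one]
    exact hH (mem_support_iff.1 hα)
  have h3 : α.degree = ∑ i, α i := by
    rw [Finsupp.degree_eq_sum]
  have := hcon α hα
  omega

theorem deg_sum (α : Fin 3 →₀ ℕ) {P : MvPolynomial (Fin 3) ℂ} {e : ℕ} (hP : P.IsHomogeneous e)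
    (hα : α ∈ P.support) : ∑ i, α i = e := by
  have h2 : α.degree = e := by
    rw [Finsupp.degree_eq_weight_one]
    exact hP (mem_support_iff.1 hα)
  rw [← h2, Finsupp.degree_eq_sum]

theorem tay_zero (z : Fin 3 → ℂ) (P : MvPolynomial (Fin 3) ℂ) :
    coeff 0 (tay z P) = eval z P := by
  induction P using MvPolynomial.induction_on with
  | C a => rw [tay, aeval_C, algebraMap_eq, coeff_C, if_pos rfl, eval_C]
  | add p q hp hq => rw [map_add, coeff_add, hp, hq, map_add]
  | mul_X p i hp =>
    have h1 : tay z (X i) = C (z i) + X i := by rw [tay, aeval_X]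
    rw [map_mul, h1, ← constantCoeff_eq, map_mul, map_add, constantCoeff_C, constantCoeff_X,
      add_zero, constantCoeff_eq, hp, map_mul, eval_X]

end MFN

open MFN in
theorem t_MF : S_MF := by
  intro f H d e M B w hB hf hd hf0 hH hHf heM hmult hw hw0
  have hf' := lin_homog B hf
  have hH' := lin_homog B hH
  have hf0' := lin_inj B hB f hf0
  have hH0 : H ≠ 0 := ne_zero_of_dvd_ne_zero hf0 hHf
  have hH0' := lin_inj B hB H hH0
  have hdvd : lin B H ∣ lin B f := map_dvd (lin B) hHf
  obtain ⟨q, -, hq⟩ := Finset.exists_min_image (Finset.univ : Finset (Fin 3)) w ⟨0, Finset.mem_univ _⟩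
  obtain ⟨p, -, hp⟩ := Finset.exists_max_image (Finset.univ : Finset (Fin 3)) w ⟨0, Finset.mem_univ _⟩
  have hq' : ∀ i, w q ≤ w i := fun i => hq i (Finset.mem_univ i)
  have hp' : ∀ i, w i ≤ w p := fun i => hp i (Finset.mem_univ i)
  -- shifted weights
  let u : Fin 3 → ℕ := fun i => (w i - w q).toNat
  have hu : ∀ i, (u i : ℤ) = w i - w q := fun i => Int.toNat_of_nonneg (by have := hq' i; omega)
  have hwt : ∀ α : Fin 3 →₀ ℕ, (mfwt u α : ℤ) = ∑ i, (α i : ℤ) * w i - (∑ i, α i : ℕ) * w q := by
    intro α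
    unfold mfwt
    push_cast
    rw [Finset.sum_mul, ← Finset.sum_sub_distrib]
    refine Finset.sum_congr rfl fun i _ => ?_
    rw [hu i]
    ring
  have hD : ∀ α ∈ (lin B f).support, mfwt u α = (-(d : ℤ) * w q).toNat := by
    intro α hα
    have h1 := hwt α
    rw [hw α hα, deg_sum α hf' hα] at h1
    have h2 : (0 : ℤ) ≤ mfwt u α := by positivity
    have h3 : (mfwt u α : ℤ) = -(d : ℤ) * w q := by rw [h1]; ring
    omega
  have hsame : ∀ α ∈ (lin B H).support, ∀ β ∈ (lin B H).support,
      ∑ i, (α i : ℤ) * w i = ∑ i, (β i : ℤ) * w i := by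
    intro α hα β hβ
    have h1 := dvd_wt u (lin B H) (lin B f) hf0' _ hD hdvd α β hα hβ
    have h2 := hwt α
    have h3 := hwt β
    rw [deg_sum α hH' hα] at h2
    rw [deg_sum β hH' hβ] at h3
    rw [h1] at h2
    linarith
  -- mfhigh powers
  have hhigh : ∀ l : Fin 3, ∃ α ∈ (lin B H).support, e ≤ α l + M := by
    intro l
    have hev : (mfev l) ≠ 0 := by
      intro h
      have := congrFun h l
      rw [mfev, Pi.single_eq_same] at this
      exact one_ne_zero this
    have hz : (fun i => ∑ j, B i j * mfev l j) ≠ 0 :=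
      fun h => hev (Matrix.eq_zero_of_mulVec_eq_zero hB h)
    by_cases h0 : eval (fun i => ∑ j, B i j * mfev l j) H = 0
    · obtain ⟨k, hk, hne⟩ := hmult _ hz h0
      apply mfhigh (lin B H) e M hH' l k hk
      rw [tay_lin, hc_lin]
      exact lin_inj B hB _ hne
    · rw [← eval_lin] at h0
      apply mfhigh (lin B H) e M hH' l 0 (Nat.zero_le _)
      rw [homogeneousComponent_zero]
      intro h1
      apply h0
      have h2 : coeff 0 (tay (mfev l) (lin B H)) = 0 := by
        have := congrArg (coeff 0) h1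
        rwa [coeff_C, if_pos rfl, coeff_zero] at this
      rw [← tay_zero, h2]
  obtain ⟨α, hα, hαp⟩ := hhigh p
  obtain ⟨β, hβ, hβq⟩ := hhigh q
  have e1 := deg_sum α hH' hα
  have e2 := deg_sum β hH' hβ
  -- lower bound
  have b1 : ((e : ℤ) - M) * w p + M * w q ≤ ∑ i, (α i : ℤ) * w i := by
    have h1 : ∑ i, (α i : ℤ) * w i = ∑ i, (α i : ℤ) * (w i - w q) + e * w q := by
      have : ((∑ i, α i : ℕ) : ℤ) = e := by exact_mod_cast e1
      rw [← this]
      push_cast
      rw [Finset.sum_mul, ← Finset.sum_add_distrib]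
      refine Finset.sum_congr rfl fun i _ => ?_
      ring
    have h2 : (α p : ℤ) * (w p - w q) ≤ ∑ i, (α i : ℤ) * (w i - w q) :=
      Finset.single_le_sum (f := fun i => (α i : ℤ) * (w i - w q))
        (fun i _ => mul_nonneg (by positivity) (by have := hq' i; omega)) (Finset.mem_univ p)
    have h3 : ((e : ℤ) - M) * (w p - w q) ≤ (α p : ℤ) * (w p - w q) := by
      apply mul_le_mul_of_nonneg_right
      · omega
      · have := hq' p; omega
    rw [h1]
    linarith
  have b2 : ∑ i, (β i : ℤ) * w i ≤ ((e : ℤ) - M) * w q + M * w p := by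
    have h1 : ∑ i, (β i : ℤ) * w i = e * w p - ∑ i, (β i : ℤ) * (w p - w i) := by
      have : ((∑ i, β i : ℕ) : ℤ) = e := by exact_mod_cast e2
      rw [← this]
      push_cast
      rw [Finset.sum_mul, ← Finset.sum_sub_distrib]
      refine Finset.sum_congr rfl fun i _ => ?_
      ring
    have h2 : (β q : ℤ) * (w p - w q) ≤ ∑ i, (β i : ℤ) * (w p - w i) :=
      Finset.single_le_sum (f := fun i => (β i : ℤ) * (w p - w i))
        (fun i _ => mul_nonneg (by positivity) (by have := hp' i; omega)) (Finset.mem_univ q)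
    have h3 : ((e : ℤ) - M) * (w p - w q) ≤ (β q : ℤ) * (w p - w q) := by
      apply mul_le_mul_of_nonneg_right
      · omega
      · have := hq' p; omega
    rw [h1]
    linarith
  have b3 := hsame α hα β hβ
  have b4 : ((e : ℤ) - 2 * M) * (w p - w q) ≤ 0 := by linarith
  have b5 : w p ≤ w q := by
    by_contra hlt
    have : (0 : ℤ) < ((e : ℤ) - 2 * M) * (w p - w q) := mul_pos (by omega) (by omega)
    omega
  have hall : ∀ i, w i = w q := fun i => le_antisymm ((hp' i).trans b5) (hq' i)
  obtain ⟨γ, hγ⟩ := MvPolynomial.ne_zero_iff.1 hf0'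
  have hγ' := mem_support_iff.2 hγ
  have h1 := hw γ hγ'
  rw [Finset.sum_congr rfl fun i _ => by rw [hall i], ← Finset.sum_mul] at h1
  have h2 : (∑ i, (γ i : ℤ)) = d := by exact_mod_cast deg_sum γ hf' hγ'
  rw [h2] at h1
  have h3 : w q = 0 := by
    rcases mul_eq_zero.1 h1 with h | h
    · omega
    · exact h
  apply hw0
  apply Finset.sum_eq_zero
  intro i _
  rw [hall i, h3]

end Pool.Agent.H942.LP
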