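import Pool.Agent.H942.LP.I
import Pool.Agent.H941.SC.Stage

set_option autoImplicit false
set_option linter.unusedSectionVars false
set_option linter.unusedVariables false

/-! # The normal form of the primitive, with control of the residues -/

namespace Pool.Agent.H942.LP

open Polynomial Finset Filter Topology Pool.Agent.Helper748.TP Pool.Agent.H941.TF
  Pool.Agent.H941.SC

theorem ev2_kc' (c t x : ℂ) : ev2 (kc c) t x = c := by rw [ev2, evt_kc, eval_C]

theorem ev2_Cc (c : ℂ[X]) (t x : ℂ) : ev2 (C c) t x = c.eval t := by rw [ev2, evt_C, eval_C]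

theorem ev2_sub' (P Q : ℂ[X][X]) (t x : ℂ) : ev2 (P - Q) t x = ev2 P t x - ev2 Q t x := by
  rw [ev2, map_sub, eval_sub]; rfl

/-- the gauge with coefficients in `ℂ[t][x]` -/
theorem gauge2 {Q h S : ℂ[X][X]} {N : ℕ} (hQ : Q.Monic) (hN : Q.natDegree = N) (hN2 : 2 ≤ N)
    (hh : h.natDegree ≤ N - 1) (hhc : h.coeff (N - 1) = -3) (hS : S.natDegree ≤ N + 1) :
    ∃ Z : ℂ[X][X], Z.natDegree ≤ 2 ∧ (S - (Q * derivative Z + h * Z)).natDegree ≤ N - 1 := by
  have hQN : Q.coeff N = 1 := by rw [← hN]; exact hQ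
  have step : ∀ (n : ℕ) (S : ℂ[X][X]), n = 1 ∨ n = 2 → S.natDegree ≤ N - 1 + n →
      ∃ Z : ℂ[X][X], Z.natDegree ≤ n ∧ (S - (Q * derivative Z + h * Z)).natDegree ≤ N - 2 + n := by
    intro n S hn hS
    obtain ⟨w, hw⟩ : ∃ w : ℂ, w * ((n : ℂ) - 3) = 1 := by
      refine ⟨((n : ℂ) - 3)⁻¹, inv_mul_cancel₀ ?_⟩
      rcases hn with rfl | rfl <;> norm_num
    have hZn : (C (S.coeff (N - 1 + n) * C w) * X ^ n : ℂ[X][X]).natDegree ≤ n :=
      natDegree_C_mul_X_pow_le _ _
    refine ⟨C (S.coeff (N - 1 + n) * C w) * X ^ n, hZn, ?_⟩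
    have h2 := deg_op (Q := Q) (g := h) hN.le (by omega) hh hZn
    have h3 := lead_op (Q := Q) (g := h) hN.le hQN (by omega) hh hhc hZn
    rw [coeff_C_mul, coeff_X_pow, if_pos rfl, mul_one] at h3
    rw [natDegree_le_iff_coeff_eq_zero]
    intro k hk
    rcases (by omega : k = N - 1 + n ∨ N - 1 + n < k) with h4 | h4
    · rw [h4, coeff_sub, h3]
      have h5 : (C w : ℂ[X]) * ((n : ℂ[X]) - 3) = 1 := by
        have h6 : ((n : ℂ[X]) - 3) = C ((n : ℂ) - 3) := by
          rw [C_sub, map_ofNat (C : ℂ →+* ℂ[X]) 3]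
          simp
        rw [h6, ← C_mul, hw, C_1]
      linear_combination (-S.coeff (N - 1 + n)) * h5
    · rw [coeff_sub, coeff_eq_zero_of_natDegree_lt (lt_of_le_of_lt hS h4),
        coeff_eq_zero_of_natDegree_lt (lt_of_le_of_lt h2 h4), sub_zero]
  obtain ⟨Z2, g2, h2⟩ := step 2 S (Or.inr rfl) (by omega)
  obtain ⟨Z1, g1, h1⟩ := step 1 _ (Or.inl rfl) (le_trans h2 (by omega))
  refine ⟨Z2 + Z1, (natDegree_add_le _ _).trans (by omega), ?_⟩
  have e : S - (Q * derivative (Z2 + Z1) + h * (Z2 + Z1)) =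
      S - (Q * derivative Z2 + h * Z2) - (Q * derivative Z1 + h * Z1) := by
    rw [derivative_add]
    ring
  rw [e]
  omega

/-- from the primitive over `ℂ(t)` to `Dat` -/
theorem mkDat {Qp γ hx ht : ℂ[X][X]} {s : ℂ} {N : ℕ} (hγ : γ ≠ 0) (hQ : Qp.Monic)
    (hxE : derivative γ * Qp = γ * hx) (htE : dt γ * Qp = γ * ht)
    (hQγ : Qp ∣ γ) (hN : Qp.natDegree = N) (hN2 : 2 ≤ N)
    (hxd : hx.natDegree ≤ N - 1) (htd : ht.natDegree ≤ N - 1)
    (hc : (kc s * hx).coeff (N - 1) = -3) {P1 R1 : Kt[X]}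
    (a1 : Cl (Qp.map io) ((kc s * hx).map io) ((kc s * ht).map io) 0 1 P1 R1)
    (b1 : P1.natDegree ≤ N - 2) (c1 : R1.natDegree ≤ N + 2) :
    ∃ (d : ℂ[X]) (p r q : ℂ[X][X]), Dat N Qp γ hx ht s (VV N Qp (kc s * hx)) d p r q ∧
      p.map io = C (io d) * P1 := by
  have : CharZero Kt := charZero_of_injective_algebraMap (R := ℂ[X]) io_inj
  have hQk : (Qp.map io).Monic := hQ.map io
  have hnd : (Qp.map io).natDegree = N := by
    rw [natDegree_map_eq_of_injective io_inj, hN]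
  have hhp : (kc s * hx).natDegree ≤ N - 1 := (natDegree_C_mul_le _ _).trans hxd
  have hlp : (kc s * ht).natDegree ≤ N - 1 := (natDegree_C_mul_le _ _).trans htd
  have hhk : ((kc s * hx).map io).natDegree ≤ N - 1 := natDegree_map_le.trans hhp
  have hlk : ((kc s * ht).map io).natDegree ≤ N - 1 := natDegree_map_le.trans hlp
  have hck : ((kc s * hx).map io).coeff (N - 1) = -3 := by
    rw [coeff_map, hc, RingHom.map_neg, map_ofNat io 3]
  obtain ⟨r1, hr1, hr1d⟩ := nf2 hQk hnd hN2 hhk hck hlk a1 b1 c1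
  obtain ⟨d1, p2, hd1, hp2⟩ := clear P1
  obtain ⟨d2, q2, hd2, hq2⟩ := clear r1
  set d : ℂ[X] := d1 * d2 with hd
  have hd0 : d ≠ 0 := mul_ne_zero hd1 hd2
  have hdk : io d ≠ 0 := fun h0 => hd0 (io_inj (by rw [h0, map_zero]))
  set p : ℂ[X][X] := C d2 * p2 with hpd
  set q : ℂ[X][X] := C d1 * q2 with hqd
  set V := VV N Qp (kc s * hx) with hVV
  set r : ℂ[X][X] := C d * V * Qp + q with hrd
  have hp3 : p.map io = C (io d) * P1 := by
    rw [hpd, Polynomial.map_mul, map_C, hp2, hd, RingHom.map_mul, C_mul]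
    ring
  have hq3 : q.map io = C (io d) * r1 := by
    rw [hqd, Polynomial.map_mul, map_C, hq2, hd, RingHom.map_mul, C_mul]
    ring
  have hV3 : V.map io = C (-((Qp.map io).coeff (N - 1)) / 2 -
      ((kc s * hx).map io).coeff (N - 2) / 6) - C (1 / 2) * X := by
    have h2 : io (C (1 / 2)) = 1 / 2 := by
      have h3 : (2 : Kt) * io (C (1 / 2)) = 1 := by
        have h4 : (2 : Kt) = io (C 2) := by
          rw [map_ofNat (C : ℂ →+* ℂ[X]) 2, map_ofNat io 2]
        rw [h4, ← RingHom.map_mul, ← C_mul, mul_one_div_cancel (two_ne_zero), C_1, RingHom.map_one]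
      field_simp
      linear_combination h3
    have h6 : io (C (1 / 6)) = 1 / 6 := by
      have h3 : (6 : Kt) * io (C (1 / 6)) = 1 := by
        have h4 : (6 : Kt) = io (C 6) := by
          rw [map_ofNat (C : ℂ →+* ℂ[X]) 6, map_ofNat io 6]
        rw [h4, ← RingHom.map_mul, ← C_mul, mul_one_div_cancel (by norm_num), C_1, RingHom.map_one]
      field_simp
      linear_combination h3
    rw [hVV, VV, Polynomial.map_sub, map_C, Polynomial.map_mul, map_C, map_X, h2, coeff_map,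
      coeff_map, RingHom.map_sub, RingHom.map_neg, RingHom.map_mul, RingHom.map_mul, h2, h6]
    congr 2
    ring
  have hr3 : r.map io = C (io d) * R1 := by
    rw [hrd, Polynomial.map_add, Polynomial.map_mul, Polynomial.map_mul, map_C, hq3, hV3, hr1]
    ring
  refine ⟨d, p, r, q, ⟨hQ, hN, hγ, hQγ, hxE, htE, hxd, htd, hd0, ?_, rfl, ?_, ?_⟩, hp3⟩
  · rw [← natDegree_map_eq_of_injective io_inj, hp3]
    exact (natDegree_C_mul_le _ _).trans b1
  · rw [← natDegree_map_eq_of_injective io_inj, hq3]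
    exact (natDegree_C_mul_le _ _).trans hr1d
  · apply map_injective io io_inj
    have hP' : P1 = C (io d)⁻¹ * p.map io := by
      rw [hp3, ← mul_assoc, ← C_mul, inv_mul_cancel₀ hdk, C_1, one_mul]
    have hR' : R1 = C (io d)⁻¹ * r.map io := by
      rw [hr3, ← mul_assoc, ← C_mul, inv_mul_cancel₀ hdk, C_1, one_mul]
    have i1 : (C (io d)⁻¹ * C (io d) : Kt[X]) = 1 := by rw [← C_mul, inv_mul_cancel₀ hdk, C_1]
    have a2 := a1
    rw [Cl, hP', hR', dk_mul, dk_C, D_inv hdk, D_io, derivative_C_mul, dk_map, dk_map, C_0,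
      derivative_map, derivative_map] at a2
    simp only [Polynomial.map_add, Polynomial.map_sub, Polynomial.map_mul, Polynomial.map_pow,
      map_C] at a2 ⊢
    simp only [C_mul, C_neg, C_pow, Nat.cast_one, one_mul] at a2
    linear_combination (C (io d) ^ 2) * a2 +
      (-(Qp.map io * C (io (derivative d)) * p.map io * (C (io d)⁻¹ * C (io d) + 1)) +
        Qp.map io * C (io d) * (dt p).map io +
        C (io d) * ((kc s).map io * ht.map io - (dt Qp).map io) * p.map io +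
        C (io d) * Qp.map io * (derivative r).map io +
        C (io d) * ((kc s).map io * hx.map io - (derivative Qp).map io) * r.map io) * i1

section
variable {N : ℕ} {Q γ hx ht : ℂ[X][X]} {D0 : ℂ[X]} {M : ℕ} {d : ℂ[X]} {s : ℂ}
  {U p r W V : ℂ[X][X]}

/-- scaling -/
theorem Fm.scale {β : ℂ} (hβ : β ≠ 0) (F : Fm N Q hx ht d s (kc β) p r W V) :
    Fm N Q hx ht d s 1 (kc β⁻¹ * p) (kc β⁻¹ * r) (kc β⁻¹ * W) (kc β⁻¹ * V) := by
  have h1 : (kc β⁻¹ * kc β : ℂ[X][X]) = 1 := by rw [← kc_mul, inv_mul_cancel₀ hβ, kc_one]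
  refine ⟨?_, ?_, ?_⟩
  · rw [dt_kc, der_kc]
    linear_combination kc β⁻¹ * F.eq - C d ^ 2 * Q ^ 2 * h1
  · have h2 : kc β⁻¹ * p - C d * (kc β⁻¹ * W) * Q = kc β⁻¹ * (p - C d * W * Q) := by ring
    rw [h2]
    exact lt_of_le_of_lt (degC_mul _ _) F.pd
  · have h2 : kc β⁻¹ * r - C d * (kc β⁻¹ * V) * Q = kc β⁻¹ * (r - C d * V * Q) := by ring
    rw [h2]
    exact lt_of_le_of_lt (degC_mul _ _) F.rd

/-- the equation over `ℂ(t)` -/
theorem Fm.cl (hd : d ≠ 0) (F : Fm N Q hx ht d s 1 p r W V) :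
    Cl (Q.map io) ((kc s * hx).map io) ((kc s * ht).map io) 0 1 (C (io d)⁻¹ * p.map io)
      (C (io d)⁻¹ * r.map io) := by
  have hdk : io d ≠ 0 := fun h0 => hd (io_inj (by rw [h0, map_zero]))
  have i1 : (C (io d)⁻¹ * C (io d) : Kt[X]) = 1 := by rw [← C_mul, inv_mul_cancel₀ hdk, C_1]
  have h1 := congrArg (Polynomial.map io) F.eq
  rw [Cl, dk_mul, dk_C, D_inv hdk, D_io, derivative_C_mul, dk_map, dk_map, C_0,
    derivative_map, derivative_map]
  simp only [Polynomial.map_add, Polynomial.map_sub, Polynomial.map_mul, Polynomial.map_pow,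
    map_C, Polynomial.map_one] at h1 ⊢
  simp only [C_mul, C_neg, C_pow, Nat.cast_one, one_mul]
  linear_combination (C (io d)⁻¹) ^ 2 * h1 +
    (-((Q.map io) ^ 2 * (C (io d)⁻¹ * C (io d) + 1)) +
      Q.map io * C (io d)⁻¹ * (dt p).map io +
      C (io d)⁻¹ * ((kc s).map io * ht.map io - (dt Q).map io) * p.map io +
      C (io d)⁻¹ * Q.map io * (derivative r).map io +
      C (io d)⁻¹ * ((kc s).map io * hx.map io - (derivative Q).map io) * r.map io) * i1

/-- **The normal form**, with the relation between the residues. -/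
theorem Fm.norm (D : Cur N Q γ hx ht D0 M) (hN2 : 2 ≤ N) {β : ℂ} (hβ : β ≠ 0)
    (F : Fm N Q hx ht d s (kc β) p r W V) (hd : d ≠ 0) (hpn : p.natDegree ≤ N + 1)
    (hrn : r.natDegree ≤ N + 2) (hc : (kc s * hx).coeff (N - 1) = -3) :
    ∃ (d' : ℂ[X]) (p' r' q' Z : ℂ[X][X]) (a0 b0 : ℂ[X]), b0 ≠ 0 ∧
      Dat N Q γ hx ht s (VV N Q (kc s * hx)) d' p' r' q' ∧
      ∀ t x, d.eval t ≠ 0 → d'.eval t ≠ 0 → b0.eval t ≠ 0 → ev2 Q t x = 0 →
        ev2 (kc s * hx) t x ≠ 0 → yy s hx d' p' t x =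
          β⁻¹ * yy s hx d p t x - ev2 Z t x - a0.eval t / b0.eval t := by
  have : CharZero Kt := charZero_of_injective_algebraMap (R := ℂ[X]) io_inj
  have hQ := D.monic
  have hN := D.deg
  have hQk : (Q.map io).Monic := hQ.map io
  have hnd : (Q.map io).natDegree = N := by
    rw [natDegree_map_eq_of_injective io_inj, hN]
  have hdk : io d ≠ 0 := fun h0 => hd (io_inj (by rw [h0, map_zero]))
  have hhp : (kc s * hx).natDegree ≤ N - 1 := (natDegree_C_mul_le _ _).trans D.hxd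
  have hlp : (kc s * ht).natDegree ≤ N - 1 := (natDegree_C_mul_le _ _).trans D.htd
  have hhk : ((kc s * hx).map io).natDegree ≤ N - 1 := natDegree_map_le.trans hhp
  have hlk : ((kc s * ht).map io).natDegree ≤ N - 1 := natDegree_map_le.trans hlp
  have hck : ((kc s * hx).map io).coeff (N - 1) = -3 := by
    rw [coeff_map, hc, RingHom.map_neg, map_ofNat io 3]
  have F1 := F.scale hβ
  set p0 := kc β⁻¹ * p with hp0
  set r0 := kc β⁻¹ * r with hr0
  set W0 := kc β⁻¹ * W with hW0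
  set V0 := kc β⁻¹ * V with hV0
  have hp0n : p0.natDegree ≤ N + 1 := (natDegree_C_mul_le _ _).trans hpn
  have hr0n : r0.natDegree ≤ N + 2 := (natDegree_C_mul_le _ _).trans hrn
  -- the polynomial part
  set q0 := p0 - C d * W0 * Q with hq0
  have hq0d : q0.natDegree ≤ N - 1 := by
    by_cases h0 : q0 = 0
    · rw [h0, natDegree_zero]; exact Nat.zero_le _
    · have := (natDegree_lt_iff_degree_lt h0).2 F1.pd
      omega
  have hS : (W0 * Q).natDegree ≤ N + 1 := by
    have h1 : C d * (W0 * Q) = p0 - q0 := by rw [hq0]; ring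
    have h2 : (C d * (W0 * Q)).natDegree ≤ N + 1 := by
      rw [h1]
      exact (natDegree_sub_le _ _).trans (max_le hp0n (by omega))
    rwa [natDegree_C_mul hd] at h2
  obtain ⟨Z, hZ2, hZ⟩ := gauge2 hQ hN hN2 hhp hc hS
  have hi := integ_map s D.γ0 D.hxE D.htE
  have C1 := (F1.cl hd).gauge (m := 0) hi (Z.map io)
  set P1 := C (io d)⁻¹ * p0.map io - gx (Q.map io) ((kc s * hx).map io) 0 (Z.map io) with hP1
  set R1 := C (io d)⁻¹ * r0.map io + gt (Q.map io) ((kc s * ht).map io) 0 0 (Z.map io) with hR1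
  have i1 : (C (io d)⁻¹ * C (io d) : Kt[X]) = 1 := by rw [← C_mul, inv_mul_cancel₀ hdk, C_1]
  have hP1e : P1 = (W0 * Q - (Q * derivative Z + kc s * hx * Z)).map io +
      C (io d)⁻¹ * q0.map io := by
    rw [hP1, gx, hq0]
    simp only [Polynomial.map_sub, Polynomial.map_mul, Polynomial.map_add, map_C, Nat.cast_zero,
      derivative_map]
    linear_combination (W0.map io * Q.map io) * i1
  have hP1d : P1.natDegree ≤ N - 1 := by
    rw [hP1e]
    refine (natDegree_add_le _ _).trans (max_le (natDegree_map_le.trans hZ) ?_)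
    exact (natDegree_C_mul_le _ _).trans (natDegree_map_le.trans hq0d)
  have hZk : (Z.map io).natDegree ≤ 2 := natDegree_map_le.trans hZ2
  have gtd : ∀ Y : Kt[X], Y.natDegree ≤ 2 →
      (gt (Q.map io) ((kc s * ht).map io) 0 0 Y).natDegree ≤ N + 2 := by
    intro Y hY
    rw [gt, C_0, Nat.cast_zero]
    refine (natDegree_add_le _ _).trans (max_le ?_ ?_)
    · have := natDegree_dk_le Y
      exact natDegree_mul_le.trans (by omega)
    · refine natDegree_mul_le.trans ?_
      have : ((kc s * ht).map io + 0 * Q.map io - 0 * dk (Q.map io)).natDegree ≤ N - 1 := by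
        rw [zero_mul, zero_mul, add_zero, sub_zero]
        exact hlk
      omega
  have hR1d : R1.natDegree ≤ N + 2 := by
    rw [hR1]
    refine (natDegree_add_le _ _).trans (max_le ?_ (gtd _ hZk))
    exact (natDegree_C_mul_le _ _).trans (natDegree_map_le.trans hr0n)
  -- the last coefficient
  set z0 : Kt := P1.coeff (N - 1) / (-3) with hz0
  have C2 := C1.gauge (m := 0) hi (C z0)
  have hgx : gx (Q.map io) ((kc s * hx).map io) 0 (C z0) = (kc s * hx).map io * C z0 := by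
    rw [gx, Nat.cast_zero, derivative_C]; ring
  have hP2d : (P1 - gx (Q.map io) ((kc s * hx).map io) 0 (C z0)).natDegree ≤ N - 2 := by
    rw [hgx, natDegree_le_iff_coeff_eq_zero]
    intro k hk
    rw [coeff_sub, coeff_mul_C]
    rcases (by omega : k = N - 1 ∨ N - 1 < k) with h4 | h4
    · rw [h4, hck, hz0]
      ring
    · rw [coeff_eq_zero_of_natDegree_lt (lt_of_le_of_lt hP1d h4),
        coeff_eq_zero_of_natDegree_lt (lt_of_le_of_lt hhk h4), zero_mul, sub_zero]
  have hR2d : (R1 + gt (Q.map io) ((kc s * ht).map io) 0 0 (C z0)).natDegree ≤ N + 2 := by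
    refine (natDegree_add_le _ _).trans (max_le hR1d (gtd _ ?_))
    rw [natDegree_C]; omega
  obtain ⟨d', p', r', q', DD, hp'⟩ := mkDat D.γ0 hQ D.hxE D.htE D.dvd hN hN2 D.hxd D.htd hc C2
    hP2d hR2d
  obtain ⟨a0, b0, hb0, hab⟩ := IsFractionRing.div_surjective (A := ℂ[X]) z0
  have hb0' : b0 ≠ 0 := nonZeroDivisors.ne_zero hb0
  have hb0k : io b0 ≠ 0 := fun h0 => hb0' (io_inj (by rw [h0, map_zero]))
  refine ⟨d', p', r', q', Z, a0, b0, hb0', DD, ?_⟩
  -- the relation between the numerators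
  have hrel : C (d * b0) * p' = C (d' * b0) * p0 - C (d * d' * b0) * (Q * derivative Z +
      kc s * hx * Z) - C (d * d' * a0) * (kc s * hx) := by
    apply map_injective io io_inj
    have i2 : (C z0 * C (io b0) : Kt[X]) = C (io a0) := by
      rw [← C_mul, ← hab, div_mul_cancel₀ _ hb0k]
    have i3 : (C (io d) * C (io d)⁻¹ : Kt[X]) = 1 := by rw [mul_comm]; exact i1
    simp only [Polynomial.map_sub, Polynomial.map_mul, Polynomial.map_add, map_C, RingHom.map_mul,
      C_mul]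
    rw [hp', hgx, hP1, gx]
    simp only [Polynomial.map_mul, Nat.cast_zero, derivative_map]
    linear_combination (C (io d') * C (io b0) * p0.map io) * i3 -
      (C (io d) * C (io d') * ((kc s).map io * hx.map io)) * i2
  intro t x hdt hdt' hbt hQ0 hh0
  have h1 := congrArg (fun P => ev2 P t x) hrel
  beta_reduce at h1
  rw [ev2_sub', ev2_sub', ev2_mul (C (d * b0)), ev2_mul (C (d' * b0)), ev2_mul (C (d * d' * b0)),
    ev2_mul (C (d * d' * a0)), ev2_add, ev2_mul Q, hQ0, ev2_mul _ Z, ev2_Cc, ev2_Cc, ev2_Cc,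
    ev2_Cc, hp0, ev2_mul (kc β⁻¹), ev2_kc'] at h1
  simp only [eval_mul] at h1
  rw [yy, yy]
  field_simp
  have h2 : β⁻¹ * β = 1 := inv_mul_cancel₀ hβ
  linear_combination β * h1 + (d'.eval t * b0.eval t * ev2 p t x) * h2

end

end Pool.Agent.H942.LP
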