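import Pool.Agent.H942.LP.DefW

set_option autoImplicit false
set_option linter.unusedSectionVars false
set_option linter.unusedVariables false

/-! # A branch of a plane curve with a non-vertical tangent cone -/

namespace Pool.Agent.H942.LP

open Finset Filter Topology Polynomial Pool.Agent.Helper748.TP Pool.Agent.H941.TF
  Pool.Agent.H941.SC Pool.Agent.H941.NC

namespace NVN

/-- the coefficient of `(X - x) ^ k` as a limit -/
theorem key (t x : ℂ) (T a : ℂ → ℂ) (l : Filter ℂ)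
    (hc : ∀ P : ℂ[X][X], Tendsto (fun u => ev2 P (T u) (a u)) l (𝓝 (ev2 P t x)))
    (hq : Tendsto (fun u => (T u - t) / (a u - x)) l (𝓝 0)) (hne : ∀ᶠ u in l, a u - x ≠ 0)
    (k : ℕ) : ∀ F : ℂ[X][X],
      F ∈ (Ideal.span {C (X - C t), X - C (C x)} : Ideal ℂ[X][X]) ^ k → ∃ c : ℂ,
        Tendsto (fun u => ev2 F (T u) (a u) / (a u - x) ^ k) l (𝓝 c) ∧
        ∃ R : ℂ[X], evt t F = (X - C x) ^ k * R ∧ R.eval x = c := by
  induction k with
  | zero =>
    intro F _
    refine ⟨ev2 F t x, ?_, evt t F, ?_, rfl⟩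
    · simp only [pow_zero, div_one]
      exact hc F
    · rw [pow_zero, one_mul]
  | succ k ih =>
    intro F hF
    have hF : F ∈ (Ideal.span {C (X - C t), X - C (C x)} : Ideal ℂ[X][X]) ^ k *
        (Ideal.span {C (X - C t), X - C (C x)} : Ideal ℂ[X][X]) := by
      have e := pow_succ (Ideal.span {C (X - C t), X - C (C x)} : Ideal ℂ[X][X]) k
      exact e ▸ hF
    refine Submodule.mul_induction_on hF ?_ ?_
    · intro f hf g hg
      obtain ⟨c, h1, R, h2, h3⟩ := ih f hf
      obtain ⟨p, q, rfl⟩ := Ideal.mem_span_pair.1 hg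
      refine ⟨c * ev2 q t x, ?_, R * evt t q, ?_, ?_⟩
      · have h4 : Tendsto (fun u => ev2 p (T u) (a u) * ((T u - t) / (a u - x)) +
            ev2 q (T u) (a u)) l (𝓝 (ev2 q t x)) := by
          have h5 := ((hc p).mul hq).add (hc q)
          rwa [mul_zero, zero_add] at h5
        refine (h1.mul h4).congr' ?_
        filter_upwards [hne] with u hu
        have h6 : ev2 (C (X - C t)) (T u) (a u) = T u - t := by
          rw [ev2_C, eval_sub, eval_X, eval_C]
        have h7 : ev2 (X - C (C x)) (T u) (a u) = a u - x := by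
          rw [ev2_sub, ev2_X, ev2_C, eval_C]
        rw [ev2_mul, ev2_add, ev2_mul, ev2_mul, h6, h7, pow_succ]
        field_simp
      · have h6 : evt t (C (X - C t)) = 0 := by
          rw [evt_C, eval_sub, eval_X, eval_C, sub_self, C_0]
        have h7 : evt t (X - C (C x)) = X - C x := by
          rw [map_sub, evt_C, eval_C, evt, coe_mapRingHom, map_X]
        rw [map_mul, map_add, map_mul, map_mul, h6, h7, h2, mul_zero, zero_add, pow_succ]
        ring
      · rw [eval_mul, h3]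
        rfl
    · rintro f g ⟨c, h1, R, h2, h3⟩ ⟨c', h1', R', h2', h3'⟩
      refine ⟨c + c', ?_, R + R', ?_, ?_⟩
      · refine (h1.add h1').congr fun u => ?_
        rw [ev2_add, add_div]
      · rw [map_add, h2, h2', mul_add]
      · rw [eval_add, h3, h3']

theorem evt_iter (t : ℂ) (k : ℕ) (F : ℂ[X][X]) :
    evt t (derivative^[k] F) = derivative^[k] (evt t F) := by
  rw [evt, coe_mapRingHom, iterate_derivative_map]

end NVN

open NVN in
theorem t_NV : S_NV := by
  intro F t x k hF hd m a hm ha ha0 hz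
  have hξ : AnalyticAt ℂ (fun u => a u - x) 0 := ha.sub analyticAt_const
  by_cases h0 : ∀ᶠ u in 𝓝 (0 : ℂ), a u - x = 0
  · refine ⟨0, ?_⟩
    refine (tendsto_const_nhds (x := (0 : ℂ))).congr' ?_
    have h1 : ∀ᶠ u in 𝓝 (0 : ℂ), ∀ᶠ v in 𝓝 u, a v - x = 0 := h0.eventually_nhds
    filter_upwards [h1.filter_mono nhdsWithin_le_nhds] with u hu
    have h2 : a =ᶠ[𝓝 u] fun _ => x := by
      filter_upwards [hu] with v hv
      exact sub_eq_zero.1 hv
    rw [h2.deriv_eq, deriv_const, zero_div]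
  obtain ⟨r, h, hh, hh0, hr⟩ := hξ.exists_eventuallyEq_pow_smul_nonzero_iff.2 h0
  have hr' : ∀ᶠ u in 𝓝 (0 : ℂ), a u - x = u ^ r * h u := by
    filter_upwards [hr] with u hu
    rw [hu, sub_zero, smul_eq_mul]
  have hhc : Tendsto h (𝓝[≠] 0) (𝓝 (h 0)) :=
    hh.continuousAt.tendsto.mono_left nhdsWithin_le_nhds
  have hhne : ∀ᶠ u in 𝓝 (0 : ℂ), h u ≠ 0 := hh.continuousAt.eventually_ne hh0
  have hrm : m ≤ r := by
    by_contra hlt
    push Not at hlt
    have hT : AnalyticAt ℂ (fun u : ℂ => t + u ^ m) 0 :=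
      analyticAt_const.add (analyticAt_id.pow m)
    have hc : ∀ P : ℂ[X][X], Tendsto (fun u => ev2 P (t + u ^ m) (a u)) (𝓝[≠] 0)
        (𝓝 (ev2 P t x)) := by
      intro P
      have h1 := (an_ev2 P hT ha).continuousAt.tendsto.mono_left
        (nhdsWithin_le_nhds (s := ({0}ᶜ : Set ℂ)))
      simp only [ha0, zero_pow hm.ne', add_zero] at h1
      exact h1
    have hne : ∀ᶠ u in 𝓝[≠] (0 : ℂ), a u - x ≠ 0 := by
      filter_upwards [hr'.filter_mono nhdsWithin_le_nhds, hhne.filter_mono nhdsWithin_le_nhds,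
        self_mem_nhdsWithin] with u hu hu1 hu2
      rw [hu]
      exact mul_ne_zero (pow_ne_zero r hu2) hu1
    have hq : Tendsto (fun u => ((t + u ^ m) - t) / (a u - x)) (𝓝[≠] 0) (𝓝 0) := by
      have h1 : Tendsto (fun u : ℂ => u ^ (m - r) / h u) (𝓝[≠] 0) (𝓝 (0 / h 0)) := by
        refine Tendsto.div ?_ hhc hh0
        have h2 : Tendsto (fun u : ℂ => u ^ (m - r)) (𝓝 0) (𝓝 (0 ^ (m - r))) :=
          (continuous_pow (m - r)).tendsto 0
        rw [zero_pow (by omega)] at h2
        exact h2.mono_left nhdsWithin_le_nhds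
      rw [zero_div] at h1
      refine h1.congr' ?_
      filter_upwards [hr'.filter_mono nhdsWithin_le_nhds, hhne.filter_mono nhdsWithin_le_nhds,
        self_mem_nhdsWithin] with u hu hu1 hu2
      have hu3 : u ≠ 0 := hu2
      have e : u ^ m = u ^ r * u ^ (m - r) := by rw [← pow_add]; congr 1; omega
      rw [hu, add_sub_cancel_left, e]
      field_simp
    obtain ⟨c, h1, R, h2, h3⟩ := key t x _ a (𝓝[≠] 0) hc hq hne k F hF
    have h4 : c = 0 := by
      refine tendsto_nhds_unique h1 ?_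
      refine (tendsto_const_nhds (x := (0 : ℂ))).congr' ?_
      filter_upwards [hz] with u hu
      rw [hu, zero_div]
    apply hd
    have h5 : (X - C x) ^ (k + 1) ∣ evt t F := by
      rw [h2, pow_succ]
      refine mul_dvd_mul_left _ ?_
      rw [dvd_iff_isRoot, IsRoot.def, h3, h4]
    have h6 := pow_sub_dvd_iterate_derivative_of_pow_dvd k h5
    rw [Nat.add_sub_cancel_left, pow_one, dvd_iff_isRoot, IsRoot.def, ← evt_iter] at h6
    exact h6
  -- the derivative
  obtain ⟨s, rfl⟩ := Nat.exists_eq_add_of_le hrm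
  refine ⟨((m + s : ℕ) : ℂ) * 0 ^ s * h 0 + 0 ^ (s + 1) * deriv h 0, ?_⟩
  have h1 : Tendsto (fun u : ℂ => ((m + s : ℕ) : ℂ) * u ^ s * h u + u ^ (s + 1) * deriv h u)
      (𝓝[≠] 0) (𝓝 (((m + s : ℕ) : ℂ) * 0 ^ s * h 0 + 0 ^ (s + 1) * deriv h 0)) := by
    have h2 : ContinuousAt (fun u : ℂ => ((m + s : ℕ) : ℂ) * u ^ s * h u +
        u ^ (s + 1) * deriv h u) 0 :=
      ((continuousAt_const.mul (continuousAt_id.pow s)).mul hh.continuousAt).add
        ((continuousAt_id.pow (s + 1)).mul hh.deriv.continuousAt)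
    exact h2.tendsto.mono_left nhdsWithin_le_nhds
  refine h1.congr' ?_
  have h3 : ∀ᶠ u in 𝓝 (0 : ℂ), ∀ᶠ v in 𝓝 u, a v - x = v ^ (m + s) * h v := hr'.eventually_nhds
  filter_upwards [h3.filter_mono nhdsWithin_le_nhds,
    hh.eventually_analyticAt.filter_mono nhdsWithin_le_nhds, self_mem_nhdsWithin] with u hu hu1 hu2
  have hu3 : u ≠ 0 := hu2
  have h4 : a =ᶠ[𝓝 u] fun v => x + v ^ (m + s) * h v := by
    filter_upwards [hu] with v hv
    rw [← hv]
    ring
  have h5 : HasDerivAt (fun v => x + v ^ (m + s) * h v)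
      (((m + s : ℕ) : ℂ) * u ^ (m + s - 1) * h u + u ^ (m + s) * deriv h u) u := by
    have h6 := ((hasDerivAt_pow (m + s) u).mul hu1.differentiableAt.hasDerivAt).const_add x
    exact h6
  rw [h4.deriv_eq, h5.deriv, eq_div_iff (pow_ne_zero _ hu3)]
  have e1 : u ^ (m + s - 1) = u ^ s * u ^ (m - 1) := by rw [← pow_add]; congr 1; omega
  have e2 : u ^ (m + s) = u ^ (s + 1) * u ^ (m - 1) := by rw [← pow_add]; congr 1; omega
  rw [e1, e2]
  ring

end Pool.Agent.H942.LP
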