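import Pool.Agent.H942.LP.DefR
import Pool.Agent.H941.TF.Par

set_option autoImplicit false
set_option linter.unusedSectionVars false
set_option linter.unusedVariables false

/-! # The differential system of a primitive with polynomial parts -/

namespace Pool.Agent.H942.LP

open Polynomial Finset Filter Topology Pool.Agent.Helper748.TP Pool.Agent.H941.TF

section
variable {N : ℕ} {Q γ hx ht : ℂ[X][X]} {D0 : ℂ[X]} {M : ℕ} {d : ℂ[X]} {c : ℂ}
  {U p r W V : ℂ[X][X]}

/-- The differential equation along a family of roots. -/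
theorem Fm.ode (D : Cur N Q γ hx ht D0 M) (F : Fm N Q hx ht d c U p r W V) {T : ℂ → ℂ}
    {a : Fin N → ℂ → ℂ} {T' u : ℂ}
    {a' b : Fin N → ℂ} (hT : HasDerivAt T T' u) (ha : ∀ j, HasDerivAt (a j) (a' j) u)
    (hroot : ∀ᶠ v in 𝓝 u, evt (T v) Q = nod fun j => a j v)
    (hinj : Function.Injective fun j => a j u) (hd : d.eval (T u) ≠ 0)
    (hb : ∀ᶠ v in 𝓝 u, ∀ j, ev2 (kc c * hx) (T v) (a j v) = b j * ev2 (derivative Q) (T v) (a j v))
    (hb0 : ∀ j, b j ≠ 0) (hb1 : ∀ j, b j ≠ 1) (j : Fin N) :
    deriv (fun v => yy c hx d p (T v) (a j v)) u +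
      ∑ i ∈ univ.erase j, b i * (yy c hx d p (T u) (a j u) - yy c hx d p (T u) (a i u)) *
        ((a' j - a' i) / (a j u - a i u)) =
      a' j * ev2 W (T u) (a j u) - T' * ev2 V (T u) (a j u) := by
  have hN := D.pos
  have hru := hroot.self_of_nhds
  have hbu := hb.self_of_nhds
  set t := T u with ht'
  set x : Fin N → ℂ := fun j => a j u with hxdef
  have hq0 : ∀ i, ev2 (derivative Q) t (x i) ≠ 0 := by
    intro i
    rw [ev2, evt_der, hru]
    exact der_nod_ne hinj i
  have hQ0 : ∀ i, ev2 Q t (x i) = 0 := by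
    intro i
    rw [ev2, hru]
    exact eval_nod i
  have hQt : ∀ i, T' * ev2 (dt Q) t (x i) = -(a' i * ev2 (derivative Q) t (x i)) := by
    intro i
    have h1 := (hasDerivAt_ev2 Q hT (ha i)).deriv
    have h2 : (fun v => ev2 Q (T v) (a i v)) =ᶠ[𝓝 u] fun _ => 0 := by
      filter_upwards [hroot] with v hv
      rw [ev2, hv]
      exact eval_nod (x := fun j => a j v) i
    rw [h2.deriv_eq, deriv_const] at h1
    linear_combination -h1
  have hlb : ∀ i, ev2 (kc c * ht) t (x i) = b i * ev2 (dt Q) t (x i) := by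
    intro i
    have h1 := congrArg (fun P => ev2 P t (x i)) (integ c D.γ0 D.hxE D.htE)
    have h2 : ∀ P P' : ℂ[X][X], ev2 (P - P') t (x i) = ev2 P t (x i) - ev2 P' t (x i) :=
      fun P P' => by rw [ev2, map_sub, eval_sub]; rfl
    beta_reduce at h1
    rw [h2, h2, ev2_mul _ Q, ev2_mul _ Q, ev2_mul _ (dt Q), ev2_mul _ (derivative Q), hQ0] at h1
    have h3 : ev2 (kc c * hx) t (x i) = b i * ev2 (derivative Q) t (x i) := hbu i
    rw [h3] at h1
    refine mul_right_cancel₀ (hq0 i) ?_
    linear_combination h1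
  -- the derivative of `y`
  have hnum : HasDerivAt (fun v => ev2 p (T v) (a j v) / d.eval (T v))
      (((T' * ev2 (dt p) t (x j) + a' j * ev2 (derivative p) t (x j)) * d.eval t -
        ev2 p t (x j) * ((derivative d).eval t * T')) / d.eval t ^ 2) u := by
    have h1 := hasDerivAt_ev2 p hT (ha j)
    have h2 : HasDerivAt (fun v => d.eval (T v)) ((derivative d).eval t * T') u :=
      (d.hasDerivAt t).comp u hT
    exact h1.fun_div h2 hd
  have hden := hasDerivAt_ev2 (derivative Q) hT (ha j)
  have hyd : deriv (fun v => yy c hx d p (T v) (a j v)) u =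
      ((((T' * ev2 (dt p) t (x j) + a' j * ev2 (derivative p) t (x j)) * d.eval t -
        ev2 p t (x j) * ((derivative d).eval t * T')) / d.eval t ^ 2) *
          (b j * ev2 (derivative Q) t (x j)) - (ev2 p t (x j) / d.eval t) *
          (b j * (T' * ev2 (dt (derivative Q)) t (x j) +
            a' j * ev2 (derivative (derivative Q)) t (x j)))) /
            (b j * ev2 (derivative Q) t (x j)) ^ 2 := by
    have h1 := (hnum.fun_div (hden.const_mul (b j)) (mul_ne_zero (hb0 j) (hq0 j))).deriv
    rw [← h1]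
    apply EventuallyEq.deriv_eq
    filter_upwards [hb] with v hv
    rw [yy, hv j, div_div]
  have hyv : ∀ i, yy c hx d p t (x i) = ev2 p t (x i) / d.eval t /
      (b i * ev2 (derivative Q) t (x i)) := by
    intro i
    rw [yy, hbu i, div_div]
  have h3d : (C (d.eval t)⁻¹ * C (d.eval t) : ℂ[X]) = 1 := by
    rw [← C_mul, inv_mul_cancel₀ hd, C_1]
  have key := point (N := N) (x := x) (x' := a') hinj (Q := evt t Q) (Qt := evt t (dt Q))
    (P := C (d.eval t)⁻¹ * evt t (p - C d * W * Q))
    (Pt := C ((d.eval t)⁻¹ ^ 2) * (C (d.eval t) * evt t (dt p) -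
        C ((derivative d).eval t) * evt t p) + (evt t (kc c * ht) - evt t (dt Q)) * evt t W +
        derivative (evt t V) * evt t Q + evt t (kc c * hx) * evt t V + (1 - evt t U) * evt t Q)
    (R := C (d.eval t)⁻¹ * evt t (r - C d * V * Q)) (h := evt t (kc c * hx))
    (l := evt t (kc c * ht))
    (rP := C (d.eval t)⁻¹ * evt t (p - C d * W * Q)) (E := 0) (T' := T') (w := 0) (b := b)
    (y := fun i => yy c hx d p t (x i)) hru ?_ ?_ ?_ ?_ ?_ ?_ ?_ ?_ ?_ ?_ hb0 hb1 j
  · have hq := hq0 j
    have hbj := hb0 j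
    have c1 : (evt t (dt Q)).eval (x j) = ev2 (dt Q) t (x j) := rfl
    have c2 : (derivative (evt t Q)).eval (x j) = ev2 (derivative Q) t (x j) := by
      rw [ev2, evt_der]
    have c3 : (derivative (evt t (dt Q))).eval (x j) = ev2 (dt (derivative Q)) t (x j) := by
      rw [ev2, dt_der, evt_der]
    have c4 : (derivative (derivative (evt t Q))).eval (x j) =
        ev2 (derivative (derivative Q)) t (x j) := by
      rw [ev2, evt_der, evt_der]
    have cQ : (evt t Q).eval (x j) = 0 := hQ0 j
    have cW : (evt t W).eval (x j) = ev2 W t (x j) := rfl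
    have cV : (evt t V).eval (x j) = ev2 V t (x j) := rfl
    have e1 : evt t (p - C d * W * Q) = evt t p - C (d.eval t) * evt t W * evt t Q := by
      rw [map_sub, map_mul, map_mul, evt_C]
    have c5 : (derivative (C (d.eval t)⁻¹ * evt t (p - C d * W * Q))).eval (x j) =
        (d.eval t)⁻¹ * ev2 (derivative p) t (x j) - ev2 W t (x j) * ev2 (derivative Q) t (x j) := by
      have c8 : (derivative (evt t p)).eval (x j) = ev2 (derivative p) t (x j) := by
        rw [ev2, evt_der]
      rw [e1, derivative_C_mul, derivative_sub, derivative_mul, derivative_mul, derivative_C]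
      simp only [eval_mul, eval_C, eval_sub, eval_add, cQ, c2, cW, c8, mul_zero, zero_add]
      field_simp
    have c6 : (C (d.eval t)⁻¹ * evt t (p - C d * W * Q)).eval (x j) =
        (d.eval t)⁻¹ * ev2 p t (x j) := by
      rw [e1, eval_mul, eval_C, eval_sub, eval_mul, cQ, mul_zero, sub_zero]; rfl
    have hlj := hlb j
    have hhj : ev2 (kc c * hx) t (x j) = b j * ev2 (derivative Q) t (x j) := hbu j
    have c7 : (C ((d.eval t)⁻¹ ^ 2) * (C (d.eval t) * evt t (dt p) -
        C ((derivative d).eval t) * evt t p) + (evt t (kc c * ht) - evt t (dt Q)) * evt t W +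
        derivative (evt t V) * evt t Q + evt t (kc c * hx) * evt t V +
        (1 - evt t U) * evt t Q).eval (x j) = (d.eval t)⁻¹ ^ 2 *
        (d.eval t * ev2 (dt p) t (x j) - (derivative d).eval t * ev2 p t (x j)) +
        (b j - 1) * ev2 (dt Q) t (x j) * ev2 W t (x j) +
        b j * ev2 (derivative Q) t (x j) * ev2 V t (x j) := by
      have k1 : (evt t (kc c * ht)).eval (x j) = b j * ev2 (dt Q) t (x j) := hlj
      have k2 : (evt t (kc c * hx)).eval (x j) = b j * ev2 (derivative Q) t (x j) := hhj
      have k3 : (evt t (dt p)).eval (x j) = ev2 (dt p) t (x j) := rfl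
      have k4 : (evt t p).eval (x j) = ev2 p t (x j) := rfl
      simp only [eval_mul, eval_C, eval_sub, eval_add, cQ, cW, cV, c1, k1, k2, k3, k4, mul_zero,
        add_zero]
      ring
    rw [c2, c3, c4, c5, c6, c7, mul_zero, zero_mul, add_zero, mul_zero] at key
    have hS : ∑ i ∈ univ.erase j, b i * (yy c hx d p t (x j) - yy c hx d p t (x i)) *
        ((a' j - a' i) / (x j - x i)) = ∑ i ∈ univ.erase j, b i *
        (yy c hx d p t (a j u) - yy c hx d p t (a i u)) * ((a' j - a' i) / (a j u - a i u)) := rfl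
    rw [hS] at key
    rw [hyd]
    have hT1 := hQt j
    set S := ∑ i ∈ univ.erase j, b i *
        (yy c hx d p t (a j u) - yy c hx d p t (a i u)) * ((a' j - a' i) / (a j u - a i u)) with hSd
    have hxj : a j u = x j := rfl
    rw [hxj]
    have e9 : ((((T' * ev2 (dt p) t (x j) + a' j * ev2 (derivative p) t (x j)) * d.eval t -
        ev2 p t (x j) * ((derivative d).eval t * T')) / d.eval t ^ 2) *
          (b j * ev2 (derivative Q) t (x j)) - (ev2 p t (x j) / d.eval t) *
          (b j * (T' * ev2 (dt (derivative Q)) t (x j) +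
            a' j * ev2 (derivative (derivative Q)) t (x j)))) /
            (b j * ev2 (derivative Q) t (x j)) ^ 2 = ((T' * ((d.eval t)⁻¹ ^ 2 *
        (d.eval t * ev2 (dt p) t (x j) - (derivative d).eval t * ev2 p t (x j)) +
        (b j - 1) * ev2 (dt Q) t (x j) * ev2 W t (x j) +
        b j * ev2 (derivative Q) t (x j) * ev2 V t (x j)) + a' j * ((d.eval t)⁻¹ *
          ev2 (derivative p) t (x j) - ev2 W t (x j) * ev2 (derivative Q) t (x j))) *
          ev2 (derivative Q) t (x j) - (d.eval t)⁻¹ * ev2 p t (x j) *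
          (T' * ev2 (dt (derivative Q)) t (x j) + a' j *
            ev2 (derivative (derivative Q)) t (x j))) / (b j * ev2 (derivative Q) t (x j) ^ 2) +
          (a' j * ev2 W t (x j) - T' * ev2 V t (x j)) := by
      field_simp
      linear_combination (-(d.eval t ^ 2 * ev2 (derivative Q) t (x j) * (b j - 1) *
        ev2 W t (x j))) * hT1
    rw [e9]
    linear_combination key
  · intro i
    have c2 : (derivative (evt t Q)).eval (x i) = ev2 (derivative Q) t (x i) := by
      rw [ev2, evt_der]
    rw [c2]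
    exact hQt i
  · refine evt_deg (lt_of_le_of_lt (degC_mul _ _) ?_) t
    refine lt_of_le_of_lt degree_le_natDegree ?_
    have : hx.natDegree < N := by have := D.hxd; omega
    exact_mod_cast this
  · refine evt_deg (lt_of_le_of_lt (degC_mul _ _) ?_) t
    refine lt_of_le_of_lt degree_le_natDegree ?_
    have : ht.natDegree < N := by have := D.htd; omega
    exact_mod_cast this
  · intro i
    have c2 : (derivative (evt t Q)).eval (x i) = ev2 (derivative Q) t (x i) := by
      rw [ev2, evt_der]
    rw [c2]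
    exact hbu i
  · exact hlb
  · rw [C_0, zero_mul, zero_add]
  · exact lt_of_le_of_lt (degC_mul _ _) (evt_deg F.pd t)
  · exact lt_of_le_of_lt (degC_mul _ _) (evt_deg F.rd t)
  · have h1 := congrArg (evt t) F.eq
    simp only [map_add, map_sub, map_mul (evt t), map_pow, evt_C, evt_kc, evt_der] at h1 ⊢
    simp only [derivative_mul, derivative_sub, derivative_C, C_0, C_pow, zero_mul, zero_add,
      add_zero] at h1 ⊢
    set A := (C (d.eval t)⁻¹ : ℂ[X])
    set B := (C (d.eval t) : ℂ[X])
    set Q1 := evt t Q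
    set p1 := evt t p
    set r1 := evt t r
    set L1 := C c * evt t ht
    set H1 := C c * evt t hx
    have h4 : (A ^ 2 * B ^ 2 : ℂ[X]) = 1 := by rw [← mul_pow, h3d, one_pow]
    have h5 : (A ^ 2 * B : ℂ[X]) = A := by linear_combination A * h3d
    linear_combination A ^ 2 * h1 - evt t U * Q1 ^ 2 * h4 +
      ((L1 - evt t (dt Q)) * p1 + Q1 * derivative r1 + (H1 - derivative Q1) * r1) * h5 +
      ((L1 - evt t (dt Q)) * evt t W * Q1 + Q1 * derivative (evt t V) * Q1 +
        Q1 * evt t V * derivative Q1 + (H1 - derivative Q1) * evt t V * Q1) * h3d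
  · intro i
    have c2 : (derivative (evt t Q)).eval (x i) = ev2 (derivative Q) t (x i) := by
      rw [ev2, evt_der]
    have cQ : (evt t Q).eval (x i) = 0 := hQ0 i
    rw [c2, hyv i, eval_mul, eval_C, map_sub, map_mul, eval_sub, eval_mul, cQ, mul_zero, sub_zero]
    have h1 := hb0 i
    have h2 := hq0 i
    change (d.eval t)⁻¹ * ev2 p t (x i) = _
    field_simp

end

end Pool.Agent.H942.LP
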