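import Pool.Agent.H942.LP.O
import Pool.Agent.H942.LP.DefL
import Pool.Agent.H941.TF.Lim

set_option autoImplicit false
set_option linter.unusedSectionVars false
set_option linter.unusedVariables false

/-! # The Lipschitz property of the residues for irrational exponents -/

namespace Pool.Agent.H942.LP

open Polynomial Finset Filter Topology Pool.Agent.Helper748.TP Pool.Agent.H941.TF

/-- difference quotients of polynomials -/
theorem dq (W : ℂ[X][X]) {T x y : ℂ → ℂ} {f : Filter ℂ} {t₀ x₀ y₀ : ℂ} (hT : Tendsto T f (𝓝 t₀))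
    (hx : Tendsto x f (𝓝 x₀)) (hy : Tendsto y f (𝓝 y₀)) (hne : ∀ᶠ u in f, x u ≠ y u) :
    ∃ L, Tendsto (fun u => (ev2 W (T u) (x u) - ev2 W (T u) (y u)) / (x u - y u)) f (𝓝 L) := by
  induction W using Polynomial.induction_on' with
  | add P Q hP hQ =>
    obtain ⟨L1, h1⟩ := hP
    obtain ⟨L2, h2⟩ := hQ
    refine ⟨L1 + L2, (h1.add h2).congr fun u => ?_⟩
    rw [ev2_add, ev2_add, ← add_div]
    congr 1
    ring
  | monomial n c =>
    have hc : Tendsto (fun u => c.eval (T u)) f (𝓝 (c.eval t₀)) :=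
      (c.continuous.tendsto t₀).comp hT
    have hs : Tendsto (fun u => ∑ i ∈ range n, x u ^ i * y u ^ (n - 1 - i)) f
        (𝓝 (∑ i ∈ range n, x₀ ^ i * y₀ ^ (n - 1 - i))) :=
      tendsto_finsetSum _ fun i _ => (hx.pow i).mul (hy.pow _)
    refine ⟨_, (hc.mul hs).congr' ?_⟩
    filter_upwards [hne] with u hu
    rw [ev2_monomial, ev2_monomial, ← mul_sub, ← Commute.mul_geom_sum₂ (Commute.all _ _)]
    have : x u - y u ≠ 0 := sub_ne_zero.2 hu
    field_simp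

section
variable {N : ℕ} {Q γ hx ht : ℂ[X][X]} {D0 : ℂ[X]} {M : ℕ} {d : ℂ[X]} {s : ℝ}
  {U p r W V : ℂ[X][X]}

/-- **The differential system along a parametrized family of roots.** -/
theorem Fm.system (D : Cur N Q γ hx ht D0 M) (F : Fm N Q hx ht d s U p r W V) (hs : s < 0)
    {T : ℂ → ℂ} {a : Fin N → ℂ → ℂ} (P : Par N Q T a)
    (hTd : ∀ᶠ u in 𝓝[≠] (0 : ℂ), d.eval (T u) ≠ 0) :
    ∃ n : Fin N → ℕ, (∀ j, 1 ≤ n j) ∧
      (∀ᶠ u in 𝓝[≠] (0 : ℂ), ∀ j, ev2 hx (T u) (a j u) =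
        n j * ev2 (derivative Q) (T u) (a j u)) ∧
      (∀ j, MeromorphicAt (fun v => yy s hx d p (T v) (a j v)) 0) ∧
      ∀ j, ∀ᶠ u in 𝓝[≠] (0 : ℂ), deriv (fun v => yy s hx d p (T v) (a j v)) u +
        ∑ i ∈ univ.erase j, (s : ℂ) * n i * (yy s hx d p (T u) (a j u) -
        yy s hx d p (T u) (a i u)) * ((deriv (a j) u - deriv (a i) u) / (a j u - a i u)) =
          deriv (a j) u * ev2 W (T u) (a j u) - deriv T u * ev2 V (T u) (a j u) := by
  obtain ⟨n, hn1, hn⟩ := P.mult D.hxE D.dvd D.dvd'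
  have hb : ∀ᶠ u in 𝓝[≠] (0 : ℂ), ∀ j, ev2 (kc s * hx) (T u) (a j u) =
        ((s : ℂ) * n j) * ev2 (derivative Q) (T u) (a j u) := by
    filter_upwards [hn] with u hu j
    rw [ev2_mul, hu j]
    have : ev2 (kc (s : ℂ)) (T u) (a j u) = s := by rw [ev2, evt_kc, eval_C]
    rw [this]
    ring
  refine ⟨n, hn1, hn, fun j => ?_, fun j => ?_⟩
  · refine (mero_ev2 p P.hT (P.ha j)).div (MeromorphicAt.mul ?_ (mero_ev2 _ P.hT (P.ha j)))
    have h1 := mero_ev2 (C d) P.hT (P.ha j)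
    refine h1.congr (Eventually.of_forall fun v => ?_)
    change ev2 (C d) (T v) (a j v) = _
    rw [ev2, evt_C, eval_C]
  · have hev : ∀ {p : ℂ → Prop}, (∀ᶠ u in 𝓝[≠] (0 : ℂ), p u) →
        ∀ᶠ u in 𝓝[≠] (0 : ℂ), ∀ᶠ v in 𝓝 u, p v := by
      intro p hp
      have h1 := eventually_eventually_nhdsWithin.2 hp
      filter_upwards [h1, self_mem_nhdsWithin] with u hu hu0
      rwa [nhdsWithin_eq_nhds.2 (isOpen_compl_singleton.mem_nhds hu0)] at hu
    have hTa := P.hT.eventually_analyticAt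
    have haa := eventually_all.2 fun j => (P.ha j).eventually_analyticAt
    have hr : ∀ j, ((s : ℂ) * n j) = ((s * n j : ℝ) : ℂ) := fun j => by push_cast; rfl
    filter_upwards [hev P.root, P.inj, hTd, hev hb, hTa, haa] with u h1 h2 h3 h4 h5 h6
    refine Fm.ode D F (T := T) (a := a) (b := fun j => (s : ℂ) * n j)
      (a' := fun j => deriv (a j) u) h5.differentiableAt.hasDerivAt
      (fun j => (h6 j).differentiableAt.hasDerivAt) h1 h2 h3 h4 (fun j => ?_) (fun j => ?_) j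
    · have h7 : (1 : ℝ) ≤ n j := by exact_mod_cast hn1 j
      have h8 : s * n j < 0 := by nlinarith
      rw [hr]
      exact_mod_cast h8.ne
    · have h7 : (1 : ℝ) ≤ n j := by exact_mod_cast hn1 j
      have h8 : s * n j < 1 := by nlinarith
      rw [hr]
      exact_mod_cast h8.ne

/-- **The Lipschitz property for irrational exponents.** -/
theorem Fm.lip (hL : S_L) (D : Cur N Q γ hx ht D0 M) (F : Fm N Q hx ht d s U p r W V) (hs : s < 0)
    (hirr : Irrational s) {T : ℂ → ℂ} {a : Fin N → ℂ → ℂ} (P : Par N Q T a)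
    (hT : AnalyticAt ℂ T 0) (ha : ∀ j, AnalyticAt ℂ (a j) 0)
    (hTd : ∀ᶠ u in 𝓝[≠] (0 : ℂ), d.eval (T u) ≠ 0) {i j : Fin N} (hij : i ≠ j) :
    ∃ L, Tendsto (fun u => (yy s hx d p (T u) (a i u) - yy s hx d p (T u) (a j u)) /
      (a i u - a j u)) (𝓝[≠] 0) (𝓝 L) := by
  obtain ⟨n, hn1, hn, hme, hode⟩ := F.system D hs P hTd
  obtain ⟨c, hc1, -⟩ := ordc ha P.inj
  have hTt : Tendsto T (𝓝[≠] 0) (𝓝 (T 0)) := hT.continuousAt.tendsto.mono_left nhdsWithin_le_nhds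
  have hat : ∀ j, Tendsto (a j) (𝓝[≠] 0) (𝓝 (a j 0)) := fun j =>
    (ha j).continuousAt.tendsto.mono_left nhdsWithin_le_nhds
  have tT' : Tendsto (deriv T) (𝓝[≠] 0) (𝓝 (deriv T 0)) :=
    hT.deriv.continuousAt.tendsto.mono_left nhdsWithin_le_nhds
  have ta' : ∀ j, Tendsto (deriv (a j)) (𝓝[≠] 0) (𝓝 (deriv (a j) 0)) := fun j =>
    (ha j).deriv.continuousAt.tendsto.mono_left nhdsWithin_le_nhds
  have tW : ∀ j, Tendsto (fun u => ev2 W (T u) (a j u)) (𝓝[≠] 0) (𝓝 (ev2 W (T 0) (a j 0))) :=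
    fun j => (hasDerivAt_ev2 W hT.differentiableAt.hasDerivAt
      (ha j).differentiableAt.hasDerivAt).continuousAt.tendsto.mono_left nhdsWithin_le_nhds
  have hne : ∀ i j, i ≠ j → ∀ᶠ u in 𝓝[≠] (0 : ℂ), a i u ≠ a j u := fun i j hij => by
    filter_upwards [P.inj] with u hu h
    exact hij (hu h)
  refine hL N a (fun j u => yy s hx d p (T u) (a j u)) (fun j u => deriv (a j) u *
    ev2 W (T u) (a j u) - deriv T u * ev2 V (T u) (a j u)) n s hirr hn1 ha P.inj hme ?_ hode i j hij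
  intro i j hij
  obtain ⟨LW, hLW⟩ := dq W hTt (hat i) (hat j) (hne i j hij)
  obtain ⟨LV, hLV⟩ := dq V hTt (hat i) (hat j) (hne i j hij)
  refine ⟨_, ((((hc1 i j hij).mul (tW i)).add ((tendsto_u.mul (ta' j)).mul hLW)).sub
    ((tendsto_u.mul tT').mul hLV)).congr' ?_⟩
  filter_upwards [hne i j hij] with u hu
  have : a i u - a j u ≠ 0 := sub_ne_zero.2 hu
  field_simp
  ring

end

end Pool.Agent.H942.LP
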