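import Pool.Agent.H942.LP.DefX

set_option autoImplicit false
set_option linter.unusedSectionVars false
set_option linter.unusedVariables false

/-! # The points of the curve in the chart -/

namespace Pool.Agent.H942.LP

open MvPolynomial Filter Topology Pool.Agent.Helper748.MC Pool.Agent.Helper748.TP
  Pool.Agent.H941.TF Pool.Agent.H941.SC Pool.Agent.H941.NC Pool.Agent.H941.QH

namespace PKN

theorem ev_zero {H : MvPolynomial (Fin 3) ℂ} {e : ℕ} (hH : H.IsHomogeneous e) {z0 : Fin 3 → ℂ}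
    {A : Matrix (Fin 3) (Fin 3) ℂ} {t x c : ℂ}
    (hz : (fun i => ∑ j, A i j * (![t, 1, x] : Fin 3 → ℂ) j) = c • z0) (h0 : eval z0 H = 0) :
    ev2 (ch (lin A H)) t x = 0 := by
  rw [ev_ch, eval_lin, hz]
  have h1 : eval (fun i => c * z0 i) H = 0 := by rw [eval_smul_pt hH, h0, mul_zero]
  exact h1

theorem ev_kc (c t x : ℂ) (F : Polynomial (Polynomial ℂ)) : ev2 (kc c * F) t x = c * ev2 F t x := by
  rw [ev2_mul, ev2_kc]

end PKN

open PKN

theorem t_PK (hNV : S_NV) (hBb : S_Bb) : S_PK := by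
  intro H g e κ k z0 A t x c c1 hH hg hA hc hc1 hz h0 hmem hk hor
  have hF0 := ev_zero hH hz h0
  rcases hor with h2 | hineq
  · obtain rfl | rfl | rfl : k = 0 ∨ k = 1 ∨ k = 2 := by omega
    · exact absurd hF0 hk
    · refine Or.inr (Or.inl ?_)
      rw [der_kc, ev_kc]
      exact mul_ne_zero hc1 hk
    · refine Or.inr (Or.inr (Or.inl ?_))
      rw [der_kc, der_kc, ev_kc]
      exact mul_ne_zero hc1 hk
  · refine Or.inr (Or.inr (Or.inr fun m a hm ha ha0 hroot hder => ?_))
    have hroot' : ∀ᶠ u in 𝓝[≠] (0 : ℂ), ev2 (ch (lin A H)) (t + u ^ m) (a u) = 0 := by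
      filter_upwards [hroot] with u hu
      rw [ev_kc] at hu
      exact (mul_eq_zero.1 hu).resolve_left hc1
    have hder' : ∀ᶠ u in 𝓝[≠] (0 : ℂ),
        ev2 (Polynomial.derivative (ch (lin A H))) (t + u ^ m) (a u) ≠ 0 := by
      filter_upwards [hder] with u hu
      rw [der_kc, ev_kc] at hu
      exact right_ne_zero_of_mul hu
    have h1 := hNV (ch (lin A H)) t x k hmem hk m a hm ha ha0 hroot'
    have hL := hBb H g e κ z0 A t x c hH hg hA hc hz hineq m a hm ha ha0 hroot' hder' h1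
    refine ⟨h1, ?_⟩
    have h2 := hL.div_const c1
    rw [zero_div] at h2
    refine h2.congr fun u => ?_
    rw [der_kc, ev_kc, mul_div_assoc, div_div, mul_comm c1]

end Pool.Agent.H942.LP
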