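import Pool.Agent.H942.LP.DefY

set_option autoImplicit false
set_option linter.unusedSectionVars false
set_option linter.unusedVariables false

/-! # The residues on the other components, with multiplicities (helper539, with an
additional case) -/

namespace Pool.Agent.H942.LP.PsN

open Polynomial Finset Filter Topology Metric Pool.Agent.Helper748.TP Pool.Agent.H941.TF
  Pool.Agent.H941.SC Pool.Agent.H941.NC

/-- limits of products -/
theorem prodlim {ι : Type} (s : Finset ι) {f : Filter ℂ} {g : ι → ℂ → ℂ}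
    (h : ∀ l ∈ s, ∃ L, Tendsto (g l) f (𝓝 L)) :
    ∃ L, Tendsto (fun u => ∏ l ∈ s, g l u) f (𝓝 L) := by
  choose! L hL using h
  exact ⟨_, tendsto_finsetProd s hL⟩

/-- the factorization of a component into the families of its roots -/
theorem fac {N : ℕ} {Q Γ : ℂ[X][X]} {T : ℂ → ℂ} {a : Fin N → ℂ → ℂ} (P : Par N Q T a)
    (hT : AnalyticAt ℂ T 0) (ha : ∀ j, AnalyticAt ℂ (a j) 0) (hΓ : Γ.Monic) (hd : Γ ∣ Q) :
    ∃ J : Finset (Fin N), (∀ l ∈ J, ∀ᶠ u in 𝓝[≠] (0 : ℂ), ev2 Γ (T u) (a l u) = 0) ∧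
      (∀ᶠ u in 𝓝[≠] (0 : ℂ), ∀ ξ, ev2 Γ (T u) ξ = ∏ l ∈ J, (ξ - a l u)) ∧
      evt (T 0) Γ = ∏ l ∈ J, (X - C (a l 0)) := by
  classical
  set J : Finset (Fin N) := univ.filter fun j => ∀ᶠ u in 𝓝[≠] (0 : ℂ), ev2 Γ (T u) (a j u) = 0
    with hJ
  have h1 : ∀ᶠ u in 𝓝[≠] (0 : ℂ), ∀ j, ev2 Γ (T u) (a j u) = 0 ↔ j ∈ J := by
    rw [eventually_all]
    intro j
    rcases fam_ind (Γ := Γ) P j with h | h
    · have hj : j ∈ J := by rw [hJ, mem_filter]; exact ⟨mem_univ j, h⟩
      exact h.mono fun u hu => ⟨fun _ => hj, fun _ => hu⟩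
    · have hj : j ∉ J := by
        rw [hJ, mem_filter]
        rintro ⟨-, h'⟩
        obtain ⟨u, hu1, hu2⟩ := (h.and h').exists
        exact hu1 hu2
      exact h.mono fun u hu => ⟨fun h' => absurd h' hu, fun h' => absurd h' hj⟩
  have h2 : ∀ᶠ u in 𝓝[≠] (0 : ℂ), ∀ ξ, ev2 Γ (T u) ξ = ∏ j ∈ J, (ξ - a j u) := by
    filter_upwards [h1, P.root, P.inj] with u hu hr hi
    intro ξ
    have hdv : evt (T u) Γ ∣ nod fun j => a j u := by
      rw [← hr]
      exact map_dvd (evt (T u)) hd
    have h3 := eq_prod hi (evt_monic hΓ (T u)) hdv J hu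
    rw [ev2, h3, eval_prod]
    exact Finset.prod_congr rfl fun j _ => by rw [eval_sub, eval_X, eval_C]
  refine ⟨J, fun l hl => ?_, h2, ?_⟩
  · rw [hJ, mem_filter] at hl
    exact hl.2
  · apply Polynomial.funext
    intro ξ
    have h3 : Tendsto (fun u => ev2 Γ (T u) ξ) (𝓝[≠] 0) (𝓝 (ev2 Γ (T 0) ξ)) :=
      (hasDerivAt_ev2 Γ hT.differentiableAt.hasDerivAt
        (hasDerivAt_const (0 : ℂ) ξ)).continuousAt.tendsto.mono_left nhdsWithin_le_nhds
    have h4 : Tendsto (fun u => ∏ j ∈ J, (ξ - a j u)) (𝓝[≠] 0) (𝓝 (∏ j ∈ J, (ξ - a j 0))) :=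
      tendsto_finsetProd _ fun j _ => tendsto_const_nhds.sub
        ((ha j).continuousAt.tendsto.mono_left nhdsWithin_le_nhds)
    have h5 := tendsto_nhds_unique (h3.congr' (h2.mono fun u hu => hu ξ)) h4
    change ev2 Γ (T 0) ξ = _
    rw [h5, eval_prod]
    exact Finset.prod_congr rfl fun j _ => by rw [eval_sub, eval_X, eval_C]

theorem evt_iter (F : ℂ[X][X]) (t : ℂ) (k : ℕ) :
    evt t (derivative^[k] F) = derivative^[k] (evt t F) := by
  induction k with
  | zero => rfl
  | succ k ih => rw [Function.iterate_succ_apply', Function.iterate_succ_apply', evt_der, ih]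

/-- the number of the families of roots through a point -/
theorem card_le {N : ℕ} {F : ℂ[X][X]} {b ξ : ℂ} {c : Fin N → ℂ} {J : Finset (Fin N)} {m0 : ℕ}
    (hJ : evt b F = ∏ l ∈ J, (X - C (c l)))
    (h : ∃ k ≤ m0, ev2 (derivative^[k] F) b ξ ≠ 0) :
    (J.filter fun l => c l = ξ).card ≤ m0 := by
  classical
  obtain ⟨k, hk, hne⟩ := h
  by_contra hcon
  push Not at hcon
  apply hne
  have h1 : (X - C ξ) ^ (J.filter fun l => c l = ξ).card ∣ evt b F := by
    rw [hJ, ← Finset.prod_filter_mul_prod_filter_not J (fun l => c l = ξ)]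
    refine Dvd.dvd.mul_right ?_ _
    rw [Finset.prod_congr rfl (fun l hl => by rw [(Finset.mem_filter.1 hl).2] :
      ∀ l ∈ J.filter (fun l => c l = ξ), (X - C (c l)) = X - C ξ), Finset.prod_const]
  have h2 := Polynomial.pow_sub_dvd_iterate_derivative_of_pow_dvd k h1
  rw [← evt_iter] at h2
  have h3 : (X - C ξ) ∣ evt b (derivative^[k] F) :=
    (dvd_pow_self _ (by omega)).trans h2
  rw [ev2]
  exact (dvd_iff_isRoot.1 h3)

end Pool.Agent.H942.LP.PsN

namespace Pool.Agent.H942.LP

open Polynomial Finset Filter Topology Metric Pool.Agent.Helper748.TP Pool.Agent.H941.TF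
  Pool.Agent.H941.SC Pool.Agent.H941.NC

/-- **The residues on the other components, with multiplicities.** -/
theorem t_Ps : S_Ps' := by
  intro N Q γ hx ht V p r q σ d D0 D hN2 hσ M hγ hD0 α β hαβ p1 Z hp1 TZ F Ψ R Fi Ψi Ri Qi e n'
    n'' m0 hFΨR hFm iF iΨ iR hm01 he hnN hQi hs hFz hgood hlip hinf
  classical
  have hQm := D.monic
  have hQN := D.deg
  have hB : ∀ t ∉ D0.roots.toFinset, D0.eval t ≠ 0 := by
    intro t ht h
    rw [Multiset.mem_toFinset, mem_roots hD0] at ht
    exact ht h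
  have hsep : ∀ t ∉ D0.roots.toFinset, (evt t Q).Separable := fun t ht => sep_of_disc hαβ (hB t ht)
  have hΨQ : ∀ t x, ev2 Ψ t x = 0 → ev2 Q t x = 0 := by
    intro t x h
    rw [← hFΨR, ev2_mul, h, zero_mul]
  have hFQ : F ∣ Q := ⟨Ψ * R, by rw [← hFΨR]; ring⟩
  have hne2 : ∀ t ∉ D0.roots.toFinset, ∀ x, ev2 Ψ t x = 0 → ev2 (F * R) t x ≠ 0 := by
    intro t ht x h0
    have h1 := hsep t ht
    rw [← hFΨR, map_mul] at h1
    exact sep_ne h1 h0
  have hFne : ∀ t ∉ D0.roots.toFinset, ∀ x, ev2 Ψ t x = 0 → ev2 F t x ≠ 0 := by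
    intro t ht x h0 h1
    apply hne2 t ht x h0
    rw [ev2_mul, h1, zero_mul]
  set h := kc (σ : ℂ) * hx with hh
  have hhne : ∀ t ∉ D0.roots.toFinset, ∀ x, ev2 Q t x = 0 → ev2 h t x ≠ 0 := fun t ht x h0 =>
    hneQ D hγ hσ (hsep t ht) h0
  set w : ℂ → ℂ → ℂ := fun t x => if ev2 Ψ t x = 0 then
    (ev2 p1 t x / ev2 h t x - ev2 Z t x) ^ m0 / ev2 F t x else 0 with hw
  have iFR : Inf (F * R) (Fi * Ri) (e + n'') := iF.mul iR
  have iQ : Inf Q Qi N := by
    have := iΨ.mul iFR
    rwa [hFΨR, hQi, hnN] at this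
  obtain ⟨X', hX, hX0, hXr, PX⟩ := iQ.par hQm hQN (by omega) hs
  have hXroot : ∀ j, ∀ᶠ u in 𝓝 (0 : ℂ), ev2 Qi u (X' j u) = 0 := by
    intro j
    filter_upwards [hXr] with u hu
    rw [ev2, hu]
    exact eval_nod (x := fun j => X' j u) j
  have hs' : (evt 0 (Ψi * (Fi * Ri))).Separable := by rw [hQi]; exact hs
  have hvan := van (v := w) hQm hQN hαβ hB (fun t ht a ha h0 => by
    have hid : HasDerivAt (fun u : ℂ => u) 1 t := hasDerivAt_id' t
    have hd : ∀ P : ℂ[X][X], DifferentiableAt ℂ (fun u => ev2 P u (a u)) t := fun P =>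
      (hasDerivAt_ev2 P hid ha.hasDerivAt).differentiableAt
    by_cases h1 : ev2 Ψ t (a t) = 0
    · have h2 := hne2 t ht _ h1
      have h3 : ∀ᶠ s in 𝓝 t, ev2 (F * R) s (a s) ≠ 0 := (hd (F * R)).continuousAt.eventually_ne h2
      have h4 : (fun s => w s (a s)) =ᶠ[𝓝 t] fun s => (ev2 p1 s (a s) / ev2 h s (a s) -
          ev2 Z s (a s)) ^ m0 / ev2 F s (a s) := by
        filter_upwards [h0, h3] with s e1 e2
        rw [← hFΨR, ev2_mul] at e1
        simp only [hw, if_pos ((mul_eq_zero.1 e1).resolve_right e2)]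
      exact (((((hd p1).fun_div (hd h) (hhne t ht _ (hΨQ _ _ h1))).fun_sub
        (hd Z)).fun_pow m0).fun_div (hd F) (hFne t ht _ h1)).congr_of_eventuallyEq h4
    · have h3 : ∀ᶠ s in 𝓝 t, ev2 Ψ s (a s) ≠ 0 := (hd Ψ).continuousAt.eventually_ne h1
      have h4 : (fun s => w s (a s)) =ᶠ[𝓝 t] fun _ => 0 := by
        filter_upwards [h3] with s e1
        simp only [hw, if_neg e1]
      exact (differentiableAt_const _).congr_of_eventuallyEq h4)
    (fun b hb => by
      obtain ⟨m, a, L, hm, ha, P, hd, hL, hLL⟩ := fin_pt2 D hN2 hσ hγ hD0 hαβ b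
      have hT : AnalyticAt ℂ (fun u : ℂ => b + u ^ m) 0 := by fun_prop
      have hT0 : b + (0 : ℂ) ^ m = b := by rw [zero_pow hm.ne', add_zero]
      have hTt : Tendsto (fun u : ℂ => b + u ^ m) (𝓝[≠] 0) (𝓝 b) := by
        have := hT.continuousAt.tendsto.mono_left (nhdsWithin_le_nhds (s := {0}ᶜ))
        rwa [hT0] at this
      have hat : ∀ j, Tendsto (a j) (𝓝[≠] 0) (𝓝 (a j 0)) := fun j =>
        (ha j).continuousAt.tendsto.mono_left nhdsWithin_le_nhds
      have hBu := ev_notin D0.roots.toFinset b hm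
      refine ⟨m, a, hm, P, fun j => ?_⟩
      rcases fam_ind (Γ := Ψ) P j with h1 | h1
      · have hw1 : (fun u => (yy σ hx d p (b + u ^ m) (a j u) - ev2 Z (b + u ^ m) (a j u)) ^ m0 /
            ev2 F (b + u ^ m) (a j u)) =ᶠ[𝓝[≠] 0] fun u => w (b + u ^ m) (a j u) := by
          filter_upwards [h1, hd] with u e1 e2
          rw [yyQ D hp1 _ e2]
          simp only [hw, if_pos e1]
          rfl
        by_cases hF0 : ev2 F b (a j 0) = 0
        · -- an intersection with `F = 0`
          have hΨ0 : ev2 Ψ b (a j 0) = 0 := by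
            refine tendsto_nhds_unique (tendP Ψ b hm (ha j)) (tendsto_const_nhds.congr' ?_)
            filter_upwards [h1] with u hu
            exact hu.symm
          rcases hgood b _ hΨ0 hF0 with hF' | ⟨c, W, hc, hcW⟩
          swap
          · obtain ⟨Y, hY⟩ : F ∣ W - c * Z := by
              refine dvd_of_ev hFm (B := D0.roots.toFinset) fun t ht => ?_
              refine ⟨(hsep t ht).of_dvd (map_dvd (evt t) hFQ), fun x h0 => ?_⟩
              have e1 := ev2_dvd hcW (ev2_dvd hFQ h0)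
              have e2 := ev2_dvd hFz h0
              have e3 := hhne t ht x (ev2_dvd hFQ h0)
              rw [ev2_sub, ev2_mul, ev2_mul h] at e1
              rw [ev2_sub, ev2_mul h] at e2
              rw [ev2_sub, ev2_mul c]
              refine (mul_eq_zero.1 ?_).resolve_left e3
              linear_combination ev2 c t x * e2 - e1
            have hDj : Tendsto (fun u => yy σ hx d p (b + u ^ m) (a j u) -
                ev2 Z (b + u ^ m) (a j u)) (𝓝[≠] 0) (𝓝 (L j - ev2 Z b (a j 0))) :=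
              (hL j).sub (tendP Z b hm (ha j))
            have htc := tendP c b hm (ha j)
            refine ⟨_, (((hDj.pow (m0 - 1)).mul ((tendP Y b hm (ha j)).div htc hc)).congr'
              ?_).congr' hw1⟩
            filter_upwards [h1, hd, hBu, htc.eventually_ne hc] with u k1 k2 k3 k4
            have k5 := ev2_dvd hcW (hΨQ _ _ k1)
            have k6 := hhne _ k3 _ (hΨQ _ _ k1)
            have k7 := hFne _ k3 _ k1
            have k8 := congrArg (fun P => ev2 P (b + u ^ m) (a j u)) hY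
            beta_reduce at k8
            rw [ev2_sub, ev2_mul, ev2_mul h] at k5
            rw [ev2_sub, ev2_mul c, ev2_mul] at k8
            have k9 : yy σ hx d p (b + u ^ m) (a j u) - ev2 Z (b + u ^ m) (a j u) =
                ev2 F (b + u ^ m) (a j u) * (ev2 Y (b + u ^ m) (a j u) /
                  ev2 c (b + u ^ m) (a j u)) := by
              rw [yyQ D hp1 _ k2]
              change ev2 p1 (b + u ^ m) (a j u) / ev2 h (b + u ^ m) (a j u) - _ = _
              field_simp
              linear_combination k5 + ev2 h (b + u ^ m) (a j u) * k8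
            obtain ⟨m1, rfl⟩ : ∃ m1, m0 = m1 + 1 := ⟨m0 - 1, by omega⟩
            rw [Nat.add_sub_cancel, pow_succ, mul_div_assoc]
            congr 1
            change ev2 Y (b + u ^ m) (a j u) / ev2 c (b + u ^ m) (a j u) = _
            rw [k9]
            field_simp
          obtain ⟨J, hJ1, hJ2, hJ3⟩ := PsN.fac (Γ := F) P hT ha hFm hFQ
          rw [hT0] at hJ3
          have hcard := PsN.card_le hJ3 hF'
          obtain ⟨s, hs⟩ : ∃ s, s = J.filter fun l => a l 0 = a j 0 := ⟨_, rfl⟩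
          rw [← hs] at hcard
          have hDj : Tendsto (fun u => yy σ hx d p (b + u ^ m) (a j u) -
              ev2 Z (b + u ^ m) (a j u)) (𝓝[≠] 0) (𝓝 (L j - ev2 Z b (a j 0))) :=
            (hL j).sub (tendP Z b hm (ha j))
          obtain ⟨l2, hl2⟩ := PsN.prodlim s (f := 𝓝[≠] (0 : ℂ)) (g := fun l u =>
            (yy σ hx d p (b + u ^ m) (a j u) - ev2 Z (b + u ^ m) (a j u)) / (a j u - a l u)) (by
              intro i hi
              rw [hs, mem_filter] at hi
              obtain ⟨hiJ, hi0⟩ := hi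
              have hi := hJ1 i hiJ
              have hij : j ≠ i := by
                rintro rfl
                obtain ⟨u, k1, k2, k3⟩ := ((h1.and (hi.and hBu))).exists
                exact hFne _ k3 _ k1 k2
              have hne : ∀ᶠ u in 𝓝[≠] (0 : ℂ), a j u ≠ a i u := by
                filter_upwards [P.inj] with u hu h'
                exact hij (hu h')
              have hai : Tendsto (a i) (𝓝[≠] 0) (𝓝 (a j 0)) := by
                have := hat i
                rwa [hi0] at this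
              obtain ⟨l, hl⟩ := hlip b m a hm ha P j i hij
              have hZ := dq' Z hTt (hat j) hai hne
              refine ⟨_, (hl.sub hZ).congr' ?_⟩
              filter_upwards [hi, hd, hBu, hne] with u k1 k2 k3 k4
              have k5 : ev2 (p1 - h * Z) (b + u ^ m) (a i u) = 0 := ev2_dvd hFz k1
              have k6 := hhne _ k3 _ (ev2_dvd hFQ k1)
              rw [ev2_sub, ev2_mul h] at k5
              have k7 : yy σ hx d p (b + u ^ m) (a i u) = ev2 Z (b + u ^ m) (a i u) := by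
                rw [yyQ D hp1 _ k2, div_eq_iff k6]
                linear_combination k5
              rw [k7, ← sub_div]
              congr 1
              ring)
          obtain ⟨l3, hl3, hl30⟩ : ∃ l3 : ℂ, Tendsto (fun u => ∏ l ∈ J.filter
              (fun l => ¬ a l 0 = a j 0), (a j u - a l u)) (𝓝[≠] 0) (𝓝 l3) ∧ l3 ≠ 0 := by
            refine ⟨_, tendsto_finsetProd _ fun l _ => (hat j).sub (hat l), ?_⟩
            rw [Finset.prod_ne_zero_iff]
            intro l hl
            exact sub_ne_zero.2 fun h' => (mem_filter.1 hl).2 h'.symm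
          refine ⟨_, ((((hDj.pow (m0 - s.card)).mul hl2).div hl3 hl30).congr' ?_).congr' hw1⟩
          filter_upwards [hJ2] with u hu
          rw [hu, ← Finset.prod_filter_mul_prod_filter_not J (fun l => a l 0 = a j 0), ← hs]
          change (yy σ hx d p (b + u ^ m) (a j u) - ev2 Z (b + u ^ m) (a j u)) ^ (m0 - s.card) *
            (∏ l ∈ s, (yy σ hx d p (b + u ^ m) (a j u) - ev2 Z (b + u ^ m) (a j u)) /
              (a j u - a l u)) / (∏ l ∈ J.filter (fun l => ¬ a l 0 = a j 0), (a j u - a l u)) = _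
          rw [Finset.prod_div_distrib, Finset.prod_const, ← div_div, ← mul_div_assoc, ← pow_add,
            Nat.sub_add_cancel hcard]
        · have hLj := ((((hL j).sub (tendP Z b hm (ha j))).pow m0).div (tendP F b hm (ha j)) hF0)
          exact ⟨_, hLj.congr' hw1⟩
      · refine ⟨0, tendsto_const_nhds.congr' ?_⟩
        filter_upwards [h1] with u e1
        simp only [hw, if_neg e1])
    ⟨X', PX, fun j => by
      rcases inf_dich iΨ iFR hs' (hX j) (by rw [hQi]; exact hXroot j) with ⟨h1, h2, h3⟩ | h1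
      · obtain ⟨L, hL⟩ := hinf (X' j) (hX j) (hXroot j)
        obtain ⟨l, hl⟩ := tend3 TZ (hX j)
        have hFi : ev2 Fi 0 (X' j 0) ≠ 0 := by
          intro h4
          apply h3
          rw [ev2_mul, h4, zero_mul]
        have hF1 := iF.lim (hX j)
        have hpw : Tendsto (fun u : ℂ => u ^ (e - 3 * m0)) (𝓝[≠] 0) (𝓝 0) := by
          have := ((continuous_pow (e - 3 * m0)).tendsto (0 : ℂ)).mono_left
            (nhdsWithin_le_nhds (s := {0}ᶜ))
          rwa [zero_pow (by omega)] at this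
        have h5 := hpw.mul (((hL.sub hl).pow m0).div hF1 hFi)
        rw [zero_mul] at h5
        refine h5.congr' ?_
        filter_upwards [h1, ev_ne, hF1.eventually_ne hFi] with u e1 e2 e3
        simp only [hw, if_pos e1]
        have e4 := right_ne_zero_of_mul e3
        have e5 : (u : ℂ) ^ (e : ℤ) = u ^ (e - 3 * m0) * (u ^ (3 : ℤ)) ^ m0 := by
          rw [show (3 : ℤ) = ((3 : ℕ) : ℤ) from rfl, zpow_natCast, zpow_natCast, ← pow_mul,
            ← pow_add]
          congr 1
          omega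
        have e6 : (u : ℂ) ^ (e - 3 * m0) ≠ 0 := pow_ne_zero _ e2
        have e7 : (u : ℂ) ^ (3 : ℤ) ≠ 0 := zpow_ne_zero _ e2
        change u ^ (e - 3 * m0) * ((u ^ (3 : ℤ) * (ev2 p1 u⁻¹ (X' j u / u) /
          ev2 h u⁻¹ (X' j u / u)) - u ^ (3 : ℤ) * ev2 Z u⁻¹ (X' j u / u)) ^ m0 /
            (u ^ (e : ℤ) * ev2 F u⁻¹ (X' j u / u))) = _
        rw [e5]
        have e8 : ∀ A B w1 w2 g : ℂ, w1 ≠ 0 → w2 ≠ 0 → g ≠ 0 →
            w1 * ((w2 * A - w2 * B) ^ m0 / (w1 * w2 ^ m0 * g)) = (A - B) ^ m0 / g := by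
          intro A B w1 w2 g i1 i2 i3
          have i4 : w2 ^ m0 ≠ 0 := pow_ne_zero _ i2
          rw [← mul_sub, mul_pow]
          field_simp
        exact e8 _ _ _ _ _ e6 e7 e4
      · refine tendsto_const_nhds.congr' ?_
        filter_upwards [h1] with u e1
        simp only [hw, if_neg e1]⟩
  intro t ht x h0
  have h1 := hvan t ht x (hΨQ t x h0)
  simp only [hw, if_pos h0] at h1
  have h2 := hhne t ht x (hΨQ t x h0)
  have h3 := hFne t ht x h0
  have h4 := eq_zero_of_pow_eq_zero ((div_eq_zero_iff.1 h1).resolve_right h3)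
  rw [ev2_sub, ev2_mul]
  rw [sub_eq_zero, div_eq_iff h2] at h4
  linear_combination h4

end Pool.Agent.H942.LP
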