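import Pool.Agent.H942.LP.DefX
import Pool.Agent.H941.NC.Irr

set_option autoImplicit false

/-! # Dehomogenization of relatively prime forms (helper177)

A common divisor `q` of the affine parts gives the form `hom k q`, which divides the products of the
two forms with a power of the second variable, so it divides this power. -/

namespace Pool.Agent.H942.LP.RPN

open MvPolynomial Pool.Agent.Helper748.MC Pool.Agent.Helper748.TP Pool.Agent.H941.TF
  Pool.Agent.H941.SC Pool.Agent.H941.NC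

theorem ch_X1 : ch (X 1 : MvPolynomial (Fin 3) ℂ) = 1 := by simp [ch]

/-- Relatively prime polynomials and a common factor. -/
theorem dvd_of_dvd {R : Type} [CommRing R] [IsDomain R] [UniqueFactorizationMonoid R]
    {p1 p2 a c : R} (h : IsRelPrime p1 p2) (h1 : a ∣ p1 * c) (h2 : a ∣ p2 * c) : a ∣ c := by
  classical
  letI : GCDMonoid R := UniqueFactorizationMonoid.toGCDMonoid R
  have h3 : a ∣ gcd (p1 * c) (p2 * c) := dvd_gcd h1 h2
  have h4 : Associated (gcd (p1 * c) (p2 * c)) (gcd p1 p2 * c) := gcd_mul_right' c p1 p2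
  have h5 : IsUnit (gcd p1 p2) := h (gcd_dvd_left _ _) (gcd_dvd_right _ _)
  have h6 : a ∣ gcd p1 p2 * c := h3.trans h4.dvd
  exact (h5.dvd_mul_left).1 h6

/-- The form of a divisor of the affine part. -/
theorem hom_dvd {n k l : ℕ} {p : MvPolynomial (Fin 3) ℂ} {q B : Polynomial (Polynomial ℂ)}
    (hp : p.IsHomogeneous n) (hq : TD k q) (hB : TD l B) (h : ch p = q * B) :
    hom k q ∣ p * X 1 ^ (k + l) := by
  refine ⟨hom l B * X 1 ^ n, ?_⟩
  rw [← mul_assoc]
  refine ch_inj (n := n + (k + l)) (hp.mul (isHomogeneous_X_pow 1 _)) ?_ ?_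
  · have h2 := ((hom_homog k q).mul (hom_homog l B)).mul (isHomogeneous_X_pow (R := ℂ)
      (1 : Fin 3) n)
    rwa [add_comm] at h2
  · rw [map_mul, map_mul, map_mul, ch_hom hq, ch_hom hB, map_pow, map_pow, ch_X1, one_pow,
      one_pow, mul_one, mul_one, h]

/-- A linear change of coordinates. -/
theorem rel_lin {A : Matrix (Fin 3) (Fin 3) ℂ} (hA : A.det ≠ 0) {g1 g2 : MvPolynomial (Fin 3) ℂ}
    (h : IsRelPrime g1 g2) : IsRelPrime (lin A g1) (lin A g2) := by
  intro d h1 h2
  have h3 : (linE A hA).symm d ∣ g1 := by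
    have := map_dvd (linE A hA).symm h1
    rwa [show (linE A hA).symm (lin A g1) = g1 from (linE A hA).symm_apply_apply g1] at this
  have h4 : (linE A hA).symm d ∣ g2 := by
    have := map_dvd (linE A hA).symm h2
    rwa [show (linE A hA).symm (lin A g2) = g2 from (linE A hA).symm_apply_apply g2] at this
  have h5 := (h h3 h4).map (linE A hA)
  rwa [(linE A hA).apply_symm_apply] at h5

end Pool.Agent.H942.LP.RPN

namespace Pool.Agent.H942.LP

open MvPolynomial Pool.Agent.Helper748.MC Pool.Agent.Helper748.TP Pool.Agent.H941.TF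
  Pool.Agent.H941.SC Pool.Agent.H941.NC

/-- **RP** -/
theorem t_RP : S_RP := by
  intro g1 g2 κ1 κ2 A hg1 hg2 hrel hA q h1 h2
  obtain ⟨B1, hB1⟩ := h1
  obtain ⟨B2, hB2⟩ := h2
  obtain ⟨k, hk⟩ := TD_ex q
  obtain ⟨l1, hl1⟩ := TD_ex B1
  obtain ⟨l2, hl2⟩ := TD_ex B2
  have h3 := RPN.hom_dvd (lin_homog A hg1) hk hl1 hB1
  have h4 := RPN.hom_dvd (lin_homog A hg2) hk hl2 hB2
  have h5 : hom k q ∣ lin A g1 * X 1 ^ (k + l1 + l2) := by
    refine h3.trans (mul_dvd_mul_left _ (pow_dvd_pow _ ?_))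
    omega
  have h6 : hom k q ∣ lin A g2 * X 1 ^ (k + l1 + l2) := by
    refine h4.trans (mul_dvd_mul_left _ (pow_dvd_pow _ ?_))
    omega
  have h7 := RPN.dvd_of_dvd (RPN.rel_lin hA hrel) h5 h6
  have h8 := map_dvd ch h7
  rw [ch_hom hk, map_pow, RPN.ch_X1, one_pow] at h8
  exact isUnit_of_dvd_one h8

end Pool.Agent.H942.LP
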