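import Pool.Agent.H942.LP.DefW

set_option autoImplicit false
set_option linter.unusedSectionVars false
set_option linter.unusedVariables false

/-! # From the local to the global statement (S_St1) -/

namespace Pool.Agent.H942.LP

open Finset Filter Topology Polynomial Pool.Agent.Helper748.TP Pool.Agent.H941.TF
  Pool.Agent.H941.SC Pool.Agent.H941.NC

namespace SaN

theorem ev2_def (P : ℂ[X][X]) (t x : ℂ) : ev2 P t x = (evt t P).eval x := rfl

/-- the monic polynomial `F` and `H` have a nonzero resultant -/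
theorem exists_rho (F H : ℂ[X][X]) (D0 : ℂ[X]) (hF : F.Monic) (hD : D0 ≠ 0)
    (hpos : 0 < F.natDegree)
    (h : ∀ t, D0.eval t ≠ 0 → ∀ x, ev2 F t x = 0 → ev2 H t x ≠ 0) :
    ∃ (ρ : ℂ[X]) (w w' : ℂ[X][X]), ρ ≠ 0 ∧ C ρ = w * F + w' * H := by
  obtain ⟨α, β, _, _, hab⟩ := Polynomial.exists_mul_add_mul_eq_C_resultant (m := F.natDegree)
    (n := H.natDegree) F H le_rfl le_rfl (Or.inl hpos.ne')
  have hFm : ∀ t, (evt t F).Monic := fun t => by
    rw [evt, coe_mapRingHom]
    exact hF.map _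
  have hFd : ∀ t, (evt t F).natDegree = F.natDegree := fun t => by
    rw [evt, coe_mapRingHom]
    exact hF.natDegree_map _
  have hH0 : H ≠ 0 := by
    obtain ⟨t, ht⟩ := Infinite.exists_notMem_finset D0.roots.toFinset
    have ht' : D0.eval t ≠ 0 := by
      intro h0
      exact ht (by rw [Multiset.mem_toFinset, mem_roots hD]; exact h0)
    obtain ⟨x, hx⟩ := IsAlgClosed.exists_root (evt t F) (by
      rw [degree_eq_natDegree (hFm t).ne_zero, hFd t]
      exact_mod_cast hpos.ne')
    intro hH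
    apply h t ht' x hx
    rw [hH, ev2_def, map_zero, eval_zero]
  have hprod : D0 * H.leadingCoeff ≠ 0 := mul_ne_zero hD (leadingCoeff_ne_zero.2 hH0)
  obtain ⟨t, ht⟩ := Infinite.exists_notMem_finset (D0 * H.leadingCoeff).roots.toFinset
  have ht' : (D0 * H.leadingCoeff).eval t ≠ 0 := by
    intro h0
    exact ht (by rw [Multiset.mem_toFinset, mem_roots hprod]; exact h0)
  rw [eval_mul] at ht'
  have ht1 := left_ne_zero_of_mul ht'
  have ht2 := right_ne_zero_of_mul ht'
  have hHd : (evt t H).natDegree = H.natDegree := by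
    rw [evt, coe_mapRingHom]
    apply natDegree_map_of_leadingCoeff_ne_zero
    rw [coe_evalRingHom]
    exact ht2
  have hcop : IsCoprime (evt t F) (evt t H) := by
    by_contra hnc
    rw [Polynomial.isCoprime_iff_aeval_ne_zero_of_isAlgClosed ℂ ℂ] at hnc
    push Not at hnc
    obtain ⟨x, hx1, hx2⟩ := hnc
    rw [coe_aeval_eq_eval] at hx1 hx2
    exact h t ht1 x hx1 hx2
  refine ⟨Polynomial.resultant F H F.natDegree H.natDegree, α, β, ?_, ?_⟩
  · intro h1
    have h2 := Polynomial.resultant_map_map F H F.natDegree H.natDegree (evalRingHom t)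
    rw [h1, map_zero] at h2
    exact Polynomial.resultant_ne_zero _ _ hcop (by
      show Polynomial.resultant (F.map (evalRingHom t)) (H.map (evalRingHom t)) _ _ = 0
      rw [hFd t, hHd]
      exact h2)
  · rw [← hab]
    ring

/-- a constant of `ℂ[t]` can be cancelled modulo a monic polynomial -/
theorem cancel_C {F Y : ℂ[X][X]} (hF : F.Monic) {c : ℂ[X]} (hc : c ≠ 0) (h : F ∣ C c * Y) :
    F ∣ Y := by
  rw [← modByMonic_eq_zero_iff_dvd hF] at h ⊢
  rw [← smul_eq_C_mul, smul_modByMonic] at h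
  exact (smul_eq_zero.1 h).resolve_left hc

/-- a polynomial which vanishes on the line `t = b` -/
theorem dvd_of_evt_zero {W : ℂ[X][X]} {b : ℂ} (h : evt b W = 0) : C (X - C b) ∣ W := by
  rw [C_dvd_iff_dvd_coeff]
  intro i
  rw [dvd_iff_isRoot, IsRoot, ← Pool.Agent.Helper748.TP.coeff_evt, h, coeff_zero]

theorem descent (F A H g : ℂ[X][X]) (hF : F.Monic)
    (hloc : ∀ (b : ℂ) (δ : ℂ[X]) (W : ℂ[X][X]), δ.eval b = 0 → F ∣ C δ * (g * A) - H * W →
      evt b F ∣ evt b W) :
    ∀ (n : ℕ) (δ : ℂ[X]) (W : ℂ[X][X]), δ ≠ 0 → δ.natDegree = n →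
      F ∣ C δ * (g * A) - H * W → ∃ W', F ∣ g * A - H * W' := by
  intro n
  induction n with
  | zero =>
    intro δ W hδ hn hdvd
    obtain ⟨c, hc⟩ : ∃ c : ℂ, δ = C c := ⟨_, eq_C_of_natDegree_eq_zero hn⟩
    have hc0 : c ≠ 0 := by
      rintro rfl
      exact hδ (by rw [hc, C_0])
    refine ⟨C (C c⁻¹) * W, ?_⟩
    have h1 : g * A - H * (C (C c⁻¹) * W) = C (C c⁻¹) * (C δ * (g * A) - H * W) := by
      have h2 : (C (C c⁻¹) : ℂ[X][X]) * C δ = 1 := by
        rw [hc, ← C_mul, ← C_mul, inv_mul_cancel₀ hc0, C_1, C_1]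
      linear_combination (-(g * A)) * h2
    rw [h1]
    exact hdvd.mul_left _
  | succ n ih =>
    intro δ W hδ hn hdvd
    obtain ⟨b, hb⟩ := IsAlgClosed.exists_root δ (by
      rw [degree_eq_natDegree hδ, hn]
      exact_mod_cast Nat.succ_ne_zero n)
    have h1 := hloc b δ W hb hdvd
    have hFb : (evt b F).Monic := by
      rw [evt, coe_mapRingHom]
      exact hF.map _
    have h2 : evt b (W %ₘ F) = 0 := by
      have h3 : evt b (W %ₘ F) = evt b W %ₘ evt b F := by
        rw [evt, coe_mapRingHom, map_modByMonic _ hF]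
      rw [h3, modByMonic_eq_zero_iff_dvd hFb]
      exact h1
    obtain ⟨W', hW'⟩ := dvd_of_evt_zero h2
    obtain ⟨δ', hδ'⟩ := dvd_iff_isRoot.2 hb
    have hδ0 : δ' ≠ 0 := by
      rintro rfl
      exact hδ (by rw [hδ', mul_zero])
    have hdeg : δ'.natDegree = n := by
      have h3 : δ.natDegree = (X - C b).natDegree + δ'.natDegree := by
        rw [hδ']
        exact natDegree_mul (X_sub_C_ne_zero b) hδ0
      rw [natDegree_X_sub_C] at h3
      omega
    refine ih δ' W' hδ0 hdeg ?_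
    apply cancel_C hF (X_sub_C_ne_zero b)
    have h4 : C (X - C b) * (C δ' * (g * A) - H * W') =
        (C δ * (g * A) - H * W) + F * (H * (W /ₘ F)) := by
      have h5 := modByMonic_add_div W F
      have h6 : (C δ : ℂ[X][X]) = C (X - C b) * C δ' := by rw [← C_mul, ← hδ']
      rw [h6]
      linear_combination H * hW' - H * h5
    rw [h4]
    exact dvd_add hdvd (dvd_mul_right _ _)

end SaN

open SaN in
theorem t_St1 : S_St1 := by
  intro F A H g D0 hF hD hsep hloc
  rcases Nat.eq_zero_or_pos F.natDegree with h0 | hpos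
  · refine ⟨0, ?_⟩
    have h1 : F = 1 := (hF.natDegree_eq_zero).1 h0
    rw [h1]
    exact one_dvd _
  · obtain ⟨ρ, w, w', hρ, he⟩ := exists_rho F H D0 hF hD hpos fun t ht => (hsep t ht).2
    refine descent F A H g hF hloc ρ.natDegree ρ (w' * (g * A)) hρ rfl ⟨w * (g * A), ?_⟩
    rw [he]
    ring

end Pool.Agent.H942.LP
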