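import Pool.Agent.H942.LP.DefG
import Pool.Agent.H942.LP.Sa

set_option autoImplicit false
set_option linter.unusedSectionVars false
set_option linter.unusedVariables false

/-! # The trace has no pole (S_Rg; helper196 for helper942) -/

namespace Pool.Agent.H942.LP

open Finset Filter Topology Polynomial Pool.Agent.Helper748.TP Pool.Agent.H941.TF
  Pool.Agent.H941.SC Pool.Agent.H941.NC

namespace RgN

theorem key (F A H g : ℂ[X][X]) (e : ℕ) (b : ℂ) (hF : F.Monic)
    (hloc : ∀ (δ : ℂ[X]) (W : ℂ[X][X]), δ.eval b = 0 → F ∣ C δ * (g * A) - H * W →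
      evt b F ∣ evt b W) :
    ∀ (K : ℕ) (δ : ℂ[X]) (Y : ℂ[X][X]), δ ≠ 0 → δ.rootMultiplicity b = K →
      F ∣ C δ * (g * A) - H * Y → (X - C b) ^ K ∣ (Y %ₘ F).coeff (e - 1) := by
  intro K
  induction K with
  | zero =>
    intro δ Y _ _ _
    rw [pow_zero]
    exact one_dvd _
  | succ K ih =>
    intro δ Y hδ hK hdvd
    have hb : δ.IsRoot b := (rootMultiplicity_pos hδ).1 (by omega)
    have h1 := hloc δ Y hb hdvd
    have hFb : (evt b F).Monic := by
      rw [evt, coe_mapRingHom]
      exact hF.map _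
    have h2 : evt b (Y %ₘ F) = 0 := by
      have h3 : evt b (Y %ₘ F) = evt b Y %ₘ evt b F := by
        rw [evt, coe_mapRingHom, map_modByMonic _ hF]
      rw [h3, modByMonic_eq_zero_iff_dvd hFb]
      exact h1
    obtain ⟨Y', hY'⟩ := SaN.dvd_of_evt_zero h2
    obtain ⟨δ', hδ'⟩ := dvd_iff_isRoot.2 hb
    have hδ0 : δ' ≠ 0 := by
      rintro rfl
      exact hδ (by rw [hδ', mul_zero])
    have hK' : δ'.rootMultiplicity b = K := by
      have h3 : δ.rootMultiplicity b =
          (X - C b).rootMultiplicity b + δ'.rootMultiplicity b := by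
        rw [hδ']
        exact rootMultiplicity_mul (mul_ne_zero (X_sub_C_ne_zero b) hδ0)
      rw [rootMultiplicity_X_sub_C_self, hK] at h3
      omega
    have hdvd' : F ∣ C δ' * (g * A) - H * Y' := by
      apply SaN.cancel_C hF (X_sub_C_ne_zero b)
      have h4 : C (X - C b) * (C δ' * (g * A) - H * Y') =
          (C δ * (g * A) - H * Y) + F * (H * (Y /ₘ F)) := by
        have h5 := modByMonic_add_div Y F
        have h6 : (C δ : ℂ[X][X]) = C (X - C b) * C δ' := by rw [← C_mul, ← hδ']
        rw [h6]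
        linear_combination H * hY' - H * h5
      rw [h4]
      exact dvd_add hdvd (dvd_mul_right _ _)
    have h7 := ih δ' Y' hδ0 hK' hdvd'
    have h8 : Y' %ₘ F = Y' := by
      rw [modByMonic_eq_self_iff hF]
      have h9 := degree_modByMonic_lt Y hF
      rw [hY', degree_C_mul (X_sub_C_ne_zero b)] at h9
      exact h9
    rw [h8] at h7
    rw [hY', coeff_C_mul, pow_succ']
    exact mul_dvd_mul_left _ h7

end RgN

theorem t_Rg (hSt2 : S_St2') : S_Rg := by
  intro N e Q F A H g W δ D0 b hQ hQN hF hFe hFQ hD0 hsep hLip hpt hδ hdvd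
  refine RgN.key F A H g e b hF (fun δ' W' h1 h2 =>
    hSt2 N Q F A H g W' δ' b D0 hQ hQN hF hFQ hD0 hsep hLip hpt h1 h2)
    (δ.rootMultiplicity b) δ (g * W) hδ rfl ?_
  have h3 : C δ * (g * A) - H * (g * W) = g * (C δ * A - H * W) := by ring
  rw [h3]
  exact hdvd.mul_left g

end Pool.Agent.H942.LP
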