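import Pool.Agent.H942.LP.DefY
import Pool.Agent.H942.LP.DefZ

set_option autoImplicit false
set_option linter.unusedSectionVars false
set_option linter.unusedVariables false

/-! # Lipschitz functions on a plane curve: the local part (helper199, with an additional case) -/

namespace Pool.Agent.H942.LP.SbN

open Finset Filter Topology Polynomial Pool.Agent.Helper748.TP Pool.Agent.H941.TF
  Pool.Agent.H941.SC Pool.Agent.H941.NC Pool.Agent.H942.LP

theorem cf_evt (Q : ℂ[X][X]) (t : ℂ) (i : ℕ) : (evt t Q).coeff i = (Q.coeff i).eval t :=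
  Pool.Agent.Helper748.TP.coeff_evt t Q i

theorem der_evt (F : ℂ[X][X]) (t x : ℂ) :
    (derivative (evt t F)).eval x = ev2 (derivative F) t x := by
  rw [ev2, evt_der]

theorem tend_b (b : ℂ) {m : ℕ} (hm : 0 < m) :
    Tendsto (fun u : ℂ => b + u ^ m) (𝓝[≠] 0) (𝓝 b) := by
  have h7 : ContinuousAt (fun u : ℂ => b + u ^ m) 0 := by fun_prop
  have := h7.tendsto.mono_left (nhdsWithin_le_nhds (s := ({0} : Set ℂ)ᶜ))
  simpa [zero_pow hm.ne'] using this

theorem tend_cf (W : ℂ[X][X]) (b : ℂ) {m : ℕ} (hm : 0 < m) (i : ℕ) :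
    Tendsto (fun u => (evt (b + u ^ m) W).coeff i) (𝓝[≠] 0) (𝓝 ((evt b W).coeff i)) := by
  simp_rw [cf_evt]
  exact ((W.coeff i).continuous.tendsto b).comp (tend_b b hm)

theorem deg_evt (W : ℂ[X][X]) (t : ℂ) : (evt t W).natDegree ≤ W.natDegree := by
  rw [evt, coe_mapRingHom]
  exact natDegree_map_le

theorem tend_δ {δ : ℂ[X]} {b : ℂ} (hδ : δ.eval b = 0) {m : ℕ} (hm : 0 < m) :
    Tendsto (fun u : ℂ => δ.eval (b + u ^ m)) (𝓝[≠] 0) (𝓝 0) := by
  have h := (δ.continuous.tendsto b).comp (tend_b b hm)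
  rw [hδ] at h
  exact h

theorem tend_δ' {δ : ℂ[X]} {b : ℂ} (hδ : δ.eval b = 0) {m : ℕ} (hm : 0 < m) :
    ∃ l, Tendsto (fun u : ℂ => δ.eval (b + u ^ m) / u ^ m) (𝓝[≠] 0) (𝓝 l) := by
  obtain ⟨δ1, h1⟩ := dvd_iff_isRoot.2 (show δ.IsRoot b from hδ)
  refine ⟨δ1.eval b, ?_⟩
  have h2 := (δ1.continuous.tendsto b).comp (tend_b b hm)
  refine h2.congr' ?_
  filter_upwards [ev_ne] with u hu
  have h3 : u ^ m ≠ 0 := pow_ne_zero m hu
  rw [h1, eval_mul, eval_sub, eval_X, eval_C, add_sub_cancel_left]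
  show δ1.eval (b + u ^ m) = _
  field_simp

/-- the polynomial of a component -/
theorem comp {N : ℕ} {Q F : ℂ[X][X]} {b : ℂ} {m : ℕ} (hm : 0 < m) {a : Fin N → ℂ → ℂ}
    (P : Par N Q (fun u => b + u ^ m) a) (ha : ∀ j, AnalyticAt ℂ (a j) 0) (hF : F.Monic)
    (hd : F ∣ Q) : ∃ J : Finset (Fin N),
      (∀ᶠ u in 𝓝[≠] (0 : ℂ), ∀ j, ev2 F (b + u ^ m) (a j u) = 0 ↔ j ∈ J) ∧
      (∀ᶠ u in 𝓝[≠] (0 : ℂ), evt (b + u ^ m) F = ∏ j ∈ J, (X - C (a j u))) ∧
      evt b F = ∏ j ∈ J, (X - C (a j 0)) := by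
  classical
  set J : Finset (Fin N) := univ.filter fun j =>
    ∀ᶠ u in 𝓝[≠] (0 : ℂ), ev2 F (b + u ^ m) (a j u) = 0 with hJ
  have h1 : ∀ᶠ u in 𝓝[≠] (0 : ℂ), ∀ j, ev2 F (b + u ^ m) (a j u) = 0 ↔ j ∈ J := by
    rw [eventually_all]
    intro j
    rcases fam_ind (Γ := F) P j with h | h
    · have hj : j ∈ J := by rw [hJ, mem_filter]; exact ⟨mem_univ j, h⟩
      exact h.mono fun u hu => ⟨fun _ => hj, fun _ => hu⟩
    · have hj : j ∉ J := by
        rw [hJ, mem_filter]
        rintro ⟨-, h'⟩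
        obtain ⟨u, hu1, hu2⟩ := (h.and h').exists
        exact hu1 hu2
      exact h.mono fun u hu => ⟨fun h' => absurd h' hu, fun h' => absurd h' hj⟩
  have h2 : ∀ᶠ u in 𝓝[≠] (0 : ℂ), evt (b + u ^ m) F = ∏ j ∈ J, (X - C (a j u)) := by
    filter_upwards [h1, P.root, P.inj] with u hu hr hi
    have hdv : evt (b + u ^ m) F ∣ nod fun j => a j u := by
      rw [← hr]
      exact map_dvd (evt (b + u ^ m)) hd
    exact eq_prod hi (evt_monic hF _) hdv J hu
  refine ⟨J, h1, h2, ?_⟩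
  refine Polynomial.funext fun x => ?_
  have h3 : Tendsto (fun u => ev2 F (b + u ^ m) x) (𝓝[≠] 0) (𝓝 (ev2 F b x)) :=
    tendP F b hm (a := fun _ => x) analyticAt_const
  have h4 : Tendsto (fun u => ∏ j ∈ J, (x - a j u)) (𝓝[≠] 0) (𝓝 (∏ j ∈ J, (x - a j 0))) :=
    tendsto_finsetProd _ fun j _ => tendsto_const_nhds.sub
      ((ha j).continuousAt.tendsto.mono_left nhdsWithin_le_nhds)
  have h5 : ∀ᶠ u in 𝓝[≠] (0 : ℂ), ev2 F (b + u ^ m) x = ∏ j ∈ J, (x - a j u) := by
    filter_upwards [h2] with u hu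
    rw [ev2, hu, eval_prod]
    exact Finset.prod_congr rfl fun j _ => by rw [eval_sub, eval_X, eval_C]
  have h6 := tendsto_nhds_unique (h3.congr' h5) h4
  rw [eval_prod]
  simp only [eval_sub, eval_X, eval_C]
  exact h6

/-- the derivative of a product of linear factors -/
theorem der_prod {ι : Type} [DecidableEq ι] (J : Finset ι) (x : ι → ℂ) {j : ι} (hj : j ∈ J) :
    (derivative (∏ i ∈ J, (X - C (x i)))).eval (x j) = ∏ i ∈ J.erase j, (x j - x i) := by
  rw [← Finset.mul_prod_erase J _ hj, derivative_mul, derivative_sub, derivative_X, derivative_C,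
    eval_add, eval_mul, eval_mul, eval_sub (p := X), eval_X, eval_C, sub_self, zero_mul, add_zero,
    sub_zero, eval_one, one_mul, eval_prod]
  simp only [eval_sub, eval_X, eval_C]

theorem dvd_of_fibers {ι : Type} [DecidableEq ι] (J : Finset ι) (x : ι → ℂ) (G : ℂ[X])
    (h : ∀ x0 ∈ J.image x, (X - C x0) ^ #(J.filter fun j => x j = x0) ∣ G) :
    ∏ j ∈ J, (X - C (x j)) ∣ G := by
  rw [Finset.prod_comp (fun c => X - C c) x]
  refine Finset.prod_dvd_of_coprime ?_ h
  intro c _ c' _ hne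
  exact (isCoprime_X_sub_C_of_isUnit_sub (sub_ne_zero.2 hne).isUnit).pow

theorem pow_dvd_prod {ι : Type} [DecidableEq ι] (J : Finset ι) (x : ι → ℂ) (x0 : ℂ) :
    (X - C x0) ^ #(J.filter fun j => x j = x0) ∣ ∏ j ∈ J, (X - C (x j)) := by
  have h1 : ∏ j ∈ J.filter (fun j => x j = x0), (X - C (x j)) =
      (X - C x0) ^ #(J.filter fun j => x j = x0) := by
    rw [Finset.prod_congr rfl fun j hj => by rw [(mem_filter.1 hj).2], Finset.prod_const]
  rw [← h1]
  exact Finset.prod_dvd_prod_of_subset _ _ _ (Finset.filter_subset _ _)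

theorem der_zero_of_sq {G : ℂ[X]} {x0 : ℂ} {k : ℕ} (hk : 2 ≤ k) (h : (X - C x0) ^ k ∣ G) :
    (derivative G).eval x0 = 0 := by
  obtain ⟨H, rfl⟩ := (pow_dvd_pow (X - C x0) hk).trans h
  rw [derivative_mul, derivative_X_sub_C_sq]
  simp

theorem der2_zero_of_cube {G : ℂ[X]} {x0 : ℂ} {k : ℕ} (hk : 3 ≤ k) (h : (X - C x0) ^ k ∣ G) :
    (derivative (derivative G)).eval x0 = 0 := by
  obtain ⟨H, rfl⟩ := (pow_dvd_pow (X - C x0) hk).trans h
  have h1 : derivative ((X - C x0) ^ 3 * H) =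
      (X - C x0) ^ 2 * (3 * H + (X - C x0) * derivative H) := by
    rw [derivative_mul, derivative_X_sub_C_pow]
    have e : (C ((3 : ℕ) : ℂ) : ℂ[X]) = 3 := by
      rw [Polynomial.C_eq_natCast]
      norm_num
    rw [e]
    ring
  exact der_zero_of_sq le_rfl (Dvd.intro _ h1.symm)

end Pool.Agent.H942.LP.SbN

namespace Pool.Agent.H942.LP

open Finset Filter Topology Polynomial Pool.Agent.Helper748.TP Pool.Agent.H941.TF
  Pool.Agent.H941.SC Pool.Agent.H941.NC

open SbN in
/-- **St2** -/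
theorem t_St2 (hV2 : S_V2) (hV3 : S_V3) (hS : S_SmV) (hMo : S_Mo) : S_St2' := by
  classical
  intro N Q F A H g W δ b D0 hQm hQN hFm hFQ hD0 hDs hlip hPt hδ hdiv
  have hB : ∀ t ∉ D0.roots.toFinset, D0.eval t ≠ 0 := by
    intro t ht h
    rw [Multiset.mem_toFinset, mem_roots hD0] at ht
    exact ht h
  have hH : ∀ (m : ℕ) (a : Fin N → ℂ → ℂ), 0 < m → Par N Q (fun u => b + u ^ m) a →
      ∀ᶠ u in 𝓝[≠] (0 : ℂ), ∀ j, ev2 H (b + u ^ m) (a j u) ≠ 0 := by
    intro m a hm P
    filter_upwards [P.root, ev_notin D0.roots.toFinset b hm] with u h1 h2 j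
    refine (hDs _ (hB _ h2)).2 _ ?_
    rw [ev2, h1]
    exact eval_nod (x := fun j => a j u) j
  obtain ⟨m, a, L, hm, han, P, hL, hdq⟩ := hlip
  obtain ⟨J, hJ1, hJ2, hJ3⟩ := comp hm P han hFm hFQ
  have hHne := hH m a hm P
  rw [hJ3]
  refine dvd_of_fibers J (fun j => a j 0) _ fun x0 hx0 => ?_
  set s : Finset (Fin N) := J.filter fun j => a j 0 = x0 with hs
  -- the functions
  have hta : ∀ j, Tendsto (a j) (𝓝[≠] 0) (𝓝 (a j 0)) := fun j =>
    (han j).continuousAt.tendsto.mono_left nhdsWithin_le_nhds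
  have htb := tend_b b hm
  have htδ := tend_δ hδ hm
  set v : Fin N → ℂ → ℂ := fun j u =>
    ev2 A (b + u ^ m) (a j u) / ev2 H (b + u ^ m) (a j u) with hv
  have hvL : ∀ j, Tendsto (v j) (𝓝[≠] 0) (𝓝 (L j)) := hL
  have htg : ∀ j, Tendsto (fun u => ev2 g (b + u ^ m) (a j u)) (𝓝[≠] 0) (𝓝 (ev2 g b (a j 0))) :=
    fun j => tendP g b hm (han j)
  have hW : ∀ᶠ u in 𝓝[≠] (0 : ℂ), ∀ j ∈ J, ev2 W (b + u ^ m) (a j u) =
      δ.eval (b + u ^ m) * (ev2 g (b + u ^ m) (a j u) * v j u) := by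
    filter_upwards [hJ1, hHne] with u h1 h2 j hj
    have h3 := ev2_dvd hdiv ((h1 j).2 hj)
    rw [Pool.Agent.H942.LP.ev2_sub', ev2_mul, ev2_mul, ev2_mul, ev2_C] at h3
    have h4 := h2 j
    show _ = δ.eval (b + u ^ m) * (ev2 g (b + u ^ m) (a j u) *
      (ev2 A (b + u ^ m) (a j u) / ev2 H (b + u ^ m) (a j u)))
    field_simp
    linear_combination -h3
  have hW0 : ∀ j ∈ J, Tendsto (fun u => ev2 W (b + u ^ m) (a j u)) (𝓝[≠] 0) (𝓝 0) := by
    intro j hj
    have h1 := htδ.mul ((htg j).mul (hvL j))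
    rw [zero_mul] at h1
    refine h1.congr' ?_
    filter_upwards [hW] with u hu
    exact (hu j hj).symm
  have hne : ∀ i j, i ≠ j → ∀ᶠ u in 𝓝[≠] (0 : ℂ), a i u ≠ a j u := by
    intro i j hij
    filter_upwards [P.inj] with u hu h
    exact hij (hu h)
  have hpow : (X - C x0) ^ #s ∣ evt b F := by
    rw [hJ3]
    exact pow_dvd_prod J (fun j => a j 0) x0
  obtain ⟨j0, hj0J, hj0⟩ := Finset.mem_image.1 hx0
  have hj0s : j0 ∈ s := by rw [hs, mem_filter]; exact ⟨hj0J, hj0⟩
  have hroot : ev2 F b x0 = 0 := by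
    rw [ev2, hJ3, eval_prod]
    refine Finset.prod_eq_zero hj0J ?_
    rw [eval_sub, eval_X, eval_C]
    exact sub_eq_zero.2 hj0.symm
  have hj00 : a j0 0 = x0 := hj0
  -- one root
  have hone : #s ≤ 1 → (X - C x0) ^ #s ∣ evt b W := by
    intro h1
    refine (pow_dvd_pow _ h1).trans ?_
    rw [pow_one, dvd_iff_isRoot]
    show ev2 W b x0 = 0
    have h2 := tendP W b hm (han j0)
    rw [hj00] at h2
    exact tendsto_nhds_unique h2 (hW0 j0 hj0J)
  rcases hPt x0 hroot with (hc | hc | hc | hc) | ⟨c, W1, hc, hcW⟩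
  · -- a smooth point, vertical tangent
    have h1 : (X - C x0) ^ (evt b F).rootMultiplicity x0 ∣ evt b W := by
      refine hS F W b x0 m (a j0) hm hFm (by rw [← hj00]; exact hta j0) ?_ hc ?_
      · filter_upwards [hJ1] with u hu
        exact (hu j0).2 hj0J
      · obtain ⟨l, hl⟩ := tend_δ' hδ hm
        refine ⟨l * (ev2 g b (a j0 0) * L j0), ?_⟩
        refine (hl.mul ((htg j0).mul (hvL j0))).congr' ?_
        filter_upwards [hW] with u hu
        rw [hu j0 hj0J]
        ring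
    refine (pow_dvd_pow _ ?_).trans h1
    rw [le_rootMultiplicity_iff (evt_monic hFm b).ne_zero]
    exact hpow
  · -- a root of multiplicity one
    refine hone ?_
    by_contra h
    refine hc ?_
    rw [← der_evt]
    exact der_zero_of_sq (by omega) hpow
  · -- a root of multiplicity at most two
    have h2 : #s ≤ 2 := by
      by_contra h
      refine hc ?_
      have h3 := der2_zero_of_cube (by omega) hpow
      rw [← evt_der, ← evt_der] at h3
      exact h3
    by_cases h1 : #s ≤ 1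
    · exact hone h1
    · have h3 : #s = 2 := by omega
      obtain ⟨i, j, hij, hsij⟩ := Finset.card_eq_two.1 h3
      have his : i ∈ s := by rw [hsij]; simp
      have hjs : j ∈ s := by rw [hsij]; simp
      rw [hs, mem_filter] at his hjs
      rw [h3]
      have hi0 : Tendsto (a i) (𝓝[≠] 0) (𝓝 x0) := by rw [← his.2]; exact hta i
      have hj0' : Tendsto (a j) (𝓝[≠] 0) (𝓝 x0) := by rw [← hjs.2]; exact hta j
      refine hV3 (a i) (a j) (fun u => evt (b + u ^ m) W) (evt b W) x0 (𝓝[≠] 0) W.natDegree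
        (Eventually.of_forall fun u => deg_evt W _) (tend_cf W b hm) hi0 hj0' (hne i j hij)
        (hW0 i his.1) ?_
      obtain ⟨l, hl⟩ := hdq i j hij
      have hg := dq' g htb hi0 hj0' (hne i j hij)
      have h4 := htδ.mul (((htg i).mul hl).add ((hvL j).mul hg))
      rw [zero_mul] at h4
      refine h4.congr' ?_
      filter_upwards [hW, hne i j hij] with u hu hun
      show _ = (ev2 W (b + u ^ m) (a i u) - ev2 W (b + u ^ m) (a j u)) / (a i u - a j u)
      rw [hu i his.1, hu j hjs.1]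
      have h5 : a i u - a j u ≠ 0 := sub_ne_zero.2 hun
      show δ.eval (b + u ^ m) * (ev2 g (b + u ^ m) (a i u) * ((v i u - v j u) / (a i u - a j u)) +
        v j u * ((ev2 g (b + u ^ m) (a i u) - ev2 g (b + u ^ m) (a j u)) / (a i u - a j u))) = _
      field_simp
      ring
  · -- the other points
    have hLs : ∀ j ∈ s, L j = L j0 := by
      intro j hj
      by_cases hjj : j = j0
      · rw [hjj]
      · obtain ⟨l, hl⟩ := hdq j j0 hjj
        have hj' := hj
        rw [hs, mem_filter] at hj'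
        have h1 : Tendsto (fun u => a j u - a j0 u) (𝓝[≠] 0) (𝓝 0) := by
          have := (hta j).sub (hta j0)
          rwa [hj'.2, hj00, sub_self] at this
        have h2 := hl.mul h1
        rw [mul_zero] at h2
        have h3 : Tendsto (fun u => v j u - v j0 u) (𝓝[≠] 0) (𝓝 0) := by
          refine h2.congr' ?_
          filter_upwards [hne j j0 hjj] with u hu
          have h5 : a j u - a j0 u ≠ 0 := sub_ne_zero.2 hu
          show (v j u - v j0 u) / (a j u - a j0 u) * (a j u - a j0 u) = _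
          field_simp
        have h4 := tendsto_nhds_unique ((hvL j).sub (hvL j0)) h3
        exact sub_eq_zero.1 h4
    set W' := W - C δ * (kc (L j0) * g) with hW'
    have hW'b : evt b W' = evt b W := by
      rw [hW', map_sub, map_mul, evt_C, hδ, C_0, zero_mul, sub_zero]
    have hW'v : ∀ᶠ u in 𝓝[≠] (0 : ℂ), ∀ j ∈ s, ev2 W' (b + u ^ m) (a j u) =
        δ.eval (b + u ^ m) * (ev2 g (b + u ^ m) (a j u) * (v j u - L j)) := by
      filter_upwards [hW] with u hu j hj
      have hj' := hj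
      rw [hs, mem_filter] at hj'
      rw [hW', Pool.Agent.H942.LP.ev2_sub', ev2_mul, ev2_mul, ev2_C, ev2_kc', hu j hj'.1,
        hLs j hj]
      ring
    rw [← hW'b]
    refine hV2 (Fin N) s a (fun u => evt (b + u ^ m) W') (evt b W') x0 (𝓝[≠] 0) W'.natDegree
      (Eventually.of_forall fun u => deg_evt W' _) (tend_cf W' b hm) ?_ ?_ ?_
    · intro j hj
      rw [hs, mem_filter] at hj
      rw [← hj.2]
      exact hta j
    · filter_upwards [P.inj] with u hu
      exact hu.injOn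
    · intro j hj
      have hj' := hj
      rw [hs, mem_filter] at hj'
      have hder : ∀ᶠ u in 𝓝[≠] (0 : ℂ), ev2 (derivative F) (b + u ^ m) (a j u) =
          (∏ l ∈ s.erase j, (a j u - a l u)) * ∏ l ∈ J \ s, (a j u - a l u) := by
        filter_upwards [hJ2] with u hu
        rw [← der_evt, hu, der_prod J (fun l => a l u) hj'.1, mul_comm]
        have hsub : s ⊆ J := Finset.filter_subset _ _
        have h6 : J.erase j = (J \ s) ∪ s.erase j := by
          ext l
          simp only [Finset.mem_erase, Finset.mem_union, Finset.mem_sdiff]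
          constructor
          · rintro ⟨h7, h8⟩
            by_cases h9 : l ∈ s
            · exact Or.inr ⟨h7, h9⟩
            · exact Or.inl ⟨h8, h9⟩
          · rintro (⟨h7, h8⟩ | ⟨h7, h8⟩)
            · exact ⟨fun h9 => h8 (h9 ▸ hj), h7⟩
            · exact ⟨h7, hsub h8⟩
        rw [h6, Finset.prod_union]
        rw [Finset.disjoint_left]
        intro l h7 h8
        exact (Finset.mem_sdiff.1 h7).2 (mem_erase.1 h8).2
      have hprod0 : ∀ᶠ u in 𝓝[≠] (0 : ℂ), (∏ l ∈ s.erase j, (a j u - a l u)) ≠ 0 ∧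
          (∏ l ∈ J \ s, (a j u - a l u)) ≠ 0 := by
        filter_upwards [P.inj] with u hu
        constructor
        · refine Finset.prod_ne_zero_iff.2 fun l hl => sub_ne_zero.2 fun h => ?_
          exact (mem_erase.1 hl).1 (hu h).symm
        · refine Finset.prod_ne_zero_iff.2 fun l hl => sub_ne_zero.2 fun h => ?_
          have h7 : j = l := hu h
          exact (Finset.mem_sdiff.1 hl).2 (h7 ▸ hj)
      obtain ⟨hsl, hl⟩ := hc m (a j) hm (han j) hj'.2 (by
        filter_upwards [hJ1] with u hu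
        exact (hu j).2 hj'.1) (by
        filter_upwards [hder, hprod0] with u h1 h2
        rw [h1]
        exact mul_ne_zero h2.1 h2.2)
      obtain ⟨l1, hl1⟩ := hMo N Q A H b m a L hm han P hL hdq j hsl
      obtain ⟨l2, hl2⟩ := tend_δ' hδ hm
      have hrest : Tendsto (fun u => ∏ i ∈ J \ s, (a j u - a i u)) (𝓝[≠] 0)
          (𝓝 (∏ i ∈ J \ s, (a j 0 - a i 0))) :=
        tendsto_finsetProd _ fun i _ => (hta j).sub (hta i)
      have h4 := (hl2.mul hl1).mul (hl.mul hrest)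
      rw [zero_mul, mul_zero] at h4
      refine h4.congr' ?_
      filter_upwards [hW'v, hder, hprod0, ev_ne] with u h1 h2 h3 h7
      show _ = ev2 W' (b + u ^ m) (a j u) / ∏ l ∈ s.erase j, (a j u - a l u)
      rw [h1 j hj, h2]
      have h5 := h3.1
      have h6 := h3.2
      have h8 : u ^ m ≠ 0 := pow_ne_zero _ h7
      show δ.eval (b + u ^ m) / u ^ m * ((v j u - L j) / u ^ m) * _ = _
      field_simp
  · -- the fraction is regular
    obtain ⟨y, hy⟩ : F ∣ c * W - C δ * (g * W1) := by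
      refine dvd_of_ev hFm (B := D0.roots.toFinset) fun t ht => ?_
      refine ⟨(hDs t (hB t ht)).1.of_dvd (map_dvd (evt t) hFQ), fun x h0 => ?_⟩
      have e1 := ev2_dvd hdiv h0
      have e2 := ev2_dvd hcW h0
      have e3 := (hDs t (hB t ht)).2 x (ev2_dvd hFQ h0)
      rw [Pool.Agent.H942.LP.ev2_sub', ev2_mul, ev2_mul, ev2_mul] at e1
      rw [Pool.Agent.H942.LP.ev2_sub', ev2_mul, ev2_mul] at e2
      rw [Pool.Agent.H942.LP.ev2_sub', ev2_mul, ev2_mul (C δ), ev2_mul g]
      refine (mul_eq_zero.1 ?_).resolve_left e3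
      linear_combination (ev2 (C δ) t x * ev2 g t x) * e2 - ev2 c t x * e1
    have h1 := congrArg (evt b) hy
    rw [map_sub, map_mul, map_mul (evt b) (C δ), evt_C, hδ, C_0, zero_mul, sub_zero, map_mul] at h1
    have h2 : (X - C x0) ^ #s ∣ evt b c * evt b W := by
      rw [h1]
      exact hpow.mul_right _
    refine (prime_X_sub_C x0).pow_dvd_of_dvd_mul_left _ (fun h3 => hc ?_) h2
    exact dvd_iff_isRoot.1 h3

end Pool.Agent.H942.LP
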