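import Pool.Agent.H942.LP.J3
import Pool.Agent.H942.LP.DefX
import Pool.Agent.H942.LP.Ce
import Pool.Agent.H942.LP.PK
import Pool.Agent.H942.LP.Class
import Pool.Agent.H941.QH.Class
import Pool.Agent.H941.NC.Irr

set_option autoImplicit false
set_option linter.unusedSectionVars false
set_option linter.unusedVariables false

/-! # The conditions at the singular points of the first curve -/

namespace Pool.Agent.H942.LP

open MvPolynomial Filter Topology Pool.Agent.Helper748.MC Pool.Agent.Helper748.TP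
  Pool.Agent.H941.TF Pool.Agent.H941.SC Pool.Agent.H941.NC Pool.Agent.H941.ND
  Pool.Agent.H941.QH Pool.Agent.H628R4.TP

/-- The point `z` of the curve `H = 0` is at most a double point (with no other condition), or a
non-resonant quasi-homogeneous point of `f`, or, on the curve, the squared distance to `z` times the
forms `g₁`, `g₂` is small against the gradient of `H`. -/
def TameAt (f H g₁ g₂ : MvPolynomial (Fin 3) ℂ) (z : Fin 3 → ℂ) : Prop :=
  MultLE 2 H z ∨ QHAt f z ∨ ∀ ε : ℝ, 0 < ε → ∀ᶠ y in 𝓝 z, eval y H = 0 →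
    crs y z ^ 2 * (‖eval y g₁‖ + ‖eval y g₂‖) ≤ ε * ∑ i, ‖eval y (pderiv i H)‖

/-- `dist (y, ℂ z) ^ (k + 2) = o (|∇ H y|)` on the curve `H = 0` -/
def FatAt (k : ℕ) (H : MvPolynomial (Fin 3) ℂ) (z : Fin 3 → ℂ) : Prop :=
  ∀ ε : ℝ, 0 < ε → ∀ᶠ y in 𝓝 z, eval y H = 0 →
    crs y z ^ (k + 2) ≤ ε * ∑ i, ‖eval y (pderiv i H)‖

/-- `g` vanishes of order `≥ k` at `z` -/
def VanGE (k : ℕ) (g : MvPolynomial (Fin 3) ℂ) (z : Fin 3 → ℂ) : Prop :=
  ∀ i < k, homogeneousComponent i (tay z g) = 0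

/-- the forms of degree `D` separate the jets of order `< k b` at the points `P b` -/
def SepJets (D : ℕ) {N : ℕ} (P : Fin N → Fin 3 → ℂ) (k : Fin N → ℕ) : Prop :=
  (∀ b, k b ≤ D + 1) ∧ ∀ (b : Fin N) (v : MvPolynomial (Fin 3) ℂ), v.IsHomogeneous D →
    ∃ g : MvPolynomial (Fin 3) ℂ, g.IsHomogeneous D ∧ VanGE (k b) (g - v) (P b) ∧
      ∀ b', b' ≠ b → VanGE (k b') g (P b')

/-- the conditions at the singular points of `H = 0` -/
def Start (f H : MvPolynomial (Fin 3) ℂ) (e : ℕ) : Prop :=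
  (∃ (κ : ℕ) (g₁ g₂ : MvPolynomial (Fin 3) ℂ), g₁.IsHomogeneous κ ∧ g₂.IsHomogeneous κ ∧
    IsRelPrime g₁ g₂ ∧ 2 * κ + 3 < e ∧
    ∀ z : Fin 3 → ℂ, z ≠ 0 → eval z H = 0 → (∀ i, eval z (pderiv i H) = 0) →
      TameAt f H g₁ g₂ z) ∨
  ∃ (N : ℕ) (P : Fin N → Fin 3 → ℂ) (k : Fin N → ℕ),
    (∀ b, P b ≠ 0 ∧ eval (P b) H = 0) ∧ (∀ b b', b ≠ b' → ∀ c : ℂ, P b ≠ c • P b') ∧
    (∑ b, k b + 5 ≤ e ∨ (6 ≤ e ∧ SepJets (e - 6) P k)) ∧
    ∀ z : Fin 3 → ℂ, z ≠ 0 → eval z H = 0 → (∀ i, eval z (pderiv i H) = 0) →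
      MultLE 2 H z ∨ QHAt f z ∨ ∃ b, (∃ c : ℂ, z = c • P b) ∧ FatAt (k b) H z

theorem Start.lt {f H : MvPolynomial (Fin 3) ℂ} {e : ℕ} (h : Start f H e) : 3 < e := by
  rcases h with ⟨κ, g₁, g₂, -, -, -, h, -⟩ | ⟨N, P, k, -, -, h | h, -⟩
  · omega
  · omega
  · omega

theorem mem0 {R : Type} [CommRing R] (I : Ideal R) (w : R) : w ∈ I ^ 0 := by
  rw [pow_zero, Ideal.one_eq_top]
  trivial

theorem mem1 {R : Type} [CommRing R] (I : Ideal R) (w : R) (h : w ∈ I) : w ∈ I ^ (0 + 1) := by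
  rwa [zero_add, pow_one]

theorem mem_ps {R : Type} [CommRing R] (I : Ideal R) (k : ℕ) (w : R) (h : w ∈ I ^ (k + 1)) :
    w ∈ I ^ k * I := by
  rwa [← pow_succ]

theorem mem_sp {R : Type} [CommRing R] (I : Ideal R) (k : ℕ) (f g : R) (hf : f ∈ I ^ k)
    (hg : g ∈ I) : f * g ∈ I ^ (k + 1) := by
  rw [pow_succ]
  exact Ideal.mul_mem_mul hf hg

/-- truncation of the Taylor expansion -/
theorem jet (t x : ℂ) (k : ℕ) (w : Polynomial (Polynomial ℂ)) (hw : w ∈ mId t x ^ k) :
    ∃ v, TD (k : ℤ) v ∧ v ∈ mId t x ^ k ∧ v - w ∈ mId t x ^ (k + 1) := by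
  have hA : (Polynomial.C (Polynomial.X - Polynomial.C t) : Polynomial (Polynomial ℂ)) ∈ mId t x :=
    Ideal.subset_span (Set.mem_insert _ _)
  have hB : (Polynomial.X - Polynomial.C (Polynomial.C x) : Polynomial (Polynomial ℂ)) ∈
      mId t x := Ideal.subset_span (Set.mem_insert_of_mem _ rfl)
  have tA : TD 1 (Polynomial.C (Polynomial.X - Polynomial.C t) : Polynomial (Polynomial ℂ)) := by
    intro i j hij
    rw [Polynomial.coeff_C]
    split_ifs with h
    · subst h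
      refine Polynomial.coeff_eq_zero_of_natDegree_lt ?_
      rw [Polynomial.natDegree_X_sub_C]
      push_cast at hij
      omega
    · exact Polynomial.coeff_zero _
  have tB : TD 1 (Polynomial.X - Polynomial.C (Polynomial.C x) : Polynomial (Polynomial ℂ)) := by
    intro i j hij
    rw [Polynomial.coeff_sub, Polynomial.coeff_X, Polynomial.coeff_C, Polynomial.coeff_sub]
    have h1 : (if 1 = i then (1 : Polynomial ℂ) else 0).coeff j = 0 := by
      split_ifs with h
      · subst h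
        rw [Polynomial.coeff_one, if_neg (by push_cast at hij; omega)]
      · exact Polynomial.coeff_zero _
    have h2 : (if i = 0 then (Polynomial.C x : Polynomial ℂ) else 0).coeff j = 0 := by
      split_ifs with h
      · subst h
        rw [Polynomial.coeff_C, if_neg (by push_cast at hij; omega)]
      · exact Polynomial.coeff_zero _
    rw [h1, h2, sub_zero]
  induction k generalizing w with
  | zero =>
    refine ⟨kc (ev2 w t x), ?_, mem0 _ _, ?_⟩
    · intro i j hij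
      rw [kc, Polynomial.coeff_C]
      split_ifs with h
      · subst h
        rw [Polynomial.coeff_C, if_neg (by push_cast at hij; omega)]
      · exact Polynomial.coeff_zero _
    · have h1 : ∀ w : Polynomial (Polynomial ℂ), kc (ev2 w t x) - w ∈ mId t x := by
        intro w
        have e1 : w = Polynomial.C (w.eval (Polynomial.C x)) +
            (Polynomial.X - Polynomial.C (Polynomial.C x)) *
              (w /ₘ (Polynomial.X - Polynomial.C (Polynomial.C x))) := by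
          conv_lhs => rw [← Polynomial.modByMonic_add_div w
            (Polynomial.X - Polynomial.C (Polynomial.C x))]
          rw [Polynomial.modByMonic_X_sub_C_eq_C_eval]
        have e2 : w.eval (Polynomial.C x) = Polynomial.C ((w.eval (Polynomial.C x)).eval t) +
            (Polynomial.X - Polynomial.C t) * (w.eval (Polynomial.C x) /ₘ
              (Polynomial.X - Polynomial.C t)) := by
          conv_lhs => rw [← Polynomial.modByMonic_add_div (w.eval (Polynomial.C x))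
            (Polynomial.X - Polynomial.C t)]
          rw [Polynomial.modByMonic_X_sub_C_eq_C_eval]
        have e3 : ev2 w t x = (w.eval (Polynomial.C x)).eval t := by
          have h2 := Polynomial.eval₂_at_apply (p := w) (Polynomial.evalRingHom t) (Polynomial.C x)
          rw [Polynomial.coe_evalRingHom, Polynomial.eval_C] at h2
          rw [ev2, evt, Polynomial.coe_mapRingHom, Polynomial.eval_map]
          exact h2
        have e4 : kc (ev2 w t x) - w = -(Polynomial.C (Polynomial.X - Polynomial.C t) *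
            Polynomial.C (w.eval (Polynomial.C x) /ₘ (Polynomial.X - Polynomial.C t))) -
            (Polynomial.X - Polynomial.C (Polynomial.C x)) *
              (w /ₘ (Polynomial.X - Polynomial.C (Polynomial.C x))) := by
          rw [e3, kc, ← Polynomial.C_mul]
          have e5 := congrArg (Polynomial.C : Polynomial ℂ → _) e2
          rw [Polynomial.C_add] at e5
          linear_combination -e1 - e5
        rw [e4]
        exact Ideal.sub_mem _ (neg_mem (Ideal.mul_mem_right _ _ hA)) (Ideal.mul_mem_right _ _ hB)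
      exact mem1 _ _ (h1 w)
  | succ k ih =>
    refine Submodule.mul_induction_on (mem_ps _ _ _ hw) ?_ ?_
    · intro f hf g hg
      obtain ⟨p, q, rfl⟩ := Ideal.mem_span_pair.1 hg
      obtain ⟨v1, a1, b1, c1⟩ := ih (f * p) (Ideal.mul_mem_right _ _ hf)
      obtain ⟨v2, a2, b2, c2⟩ := ih (f * q) (Ideal.mul_mem_right _ _ hf)
      refine ⟨v1 * Polynomial.C (Polynomial.X - Polynomial.C t) +
        v2 * (Polynomial.X - Polynomial.C (Polynomial.C x)), ?_, ?_, ?_⟩
      · have := (a1.mul tA).add (a2.mul tB)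
        push_cast
        exact this
      · exact Ideal.add_mem _ (mem_sp _ _ _ _ b1 hA) (mem_sp _ _ _ _ b2 hB)
      · have e : v1 * Polynomial.C (Polynomial.X - Polynomial.C t) +
            v2 * (Polynomial.X - Polynomial.C (Polynomial.C x)) -
            f * (p * Polynomial.C (Polynomial.X - Polynomial.C t) +
              q * (Polynomial.X - Polynomial.C (Polynomial.C x))) =
            (v1 - f * p) * Polynomial.C (Polynomial.X - Polynomial.C t) +
            (v2 - f * q) * (Polynomial.X - Polynomial.C (Polynomial.C x)) := by ring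
        rw [e]
        exact Ideal.add_mem _ (mem_sp _ _ _ _ c1 hA) (mem_sp _ _ _ _ c2 hB)
    · rintro f g ⟨v1, a1, b1, c1⟩ ⟨v2, a2, b2, c2⟩
      refine ⟨v1 + v2, a1.add a2, Ideal.add_mem _ b1 b2, ?_⟩
      have e : v1 + v2 - (f + g) = (v1 - f) + (v2 - g) := by ring
      rw [e]
      exact Ideal.add_mem _ c1 c2

/-- the Taylor polynomial -/
theorem jet' (t x : ℂ) (k : ℕ) (u : Polynomial (Polynomial ℂ)) :
    ∃ v, TD ((k : ℤ) - 1) v ∧ v - u ∈ mId t x ^ k := by
  induction k with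
  | zero => exact ⟨0, fun i j _ => by simp, mem0 _ _⟩
  | succ k ih =>
    obtain ⟨v, h1, h2⟩ := ih
    obtain ⟨w, h3, -, h4⟩ := jet t x k (v - u) h2
    refine ⟨v - w, ?_, ?_⟩
    · refine (h1.mono ?_).sub (h3.mono ?_)
      · push_cast
        omega
      · push_cast
        omega
    · have e : v - w - u = -(w - (v - u)) := by ring
      rw [e]
      exact neg_mem h4

theorem lin_li {A : Matrix (Fin 3) (Fin 3) ℂ} (hA : A.det ≠ 0) (f : MvPolynomial (Fin 3) ℂ) :
    lin A (lin A⁻¹ f) = f := by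
  refine MvPolynomial.funext fun z => ?_
  rw [eval_lin, eval_lin]
  congr 1
  congr 1
  have h1 : A⁻¹ * A = 1 := Matrix.nonsing_inv_mul A (isUnit_iff_ne_zero.2 hA)
  have h2 : A⁻¹.mulVec (A.mulVec z) = z := by
    rw [Matrix.mulVec_mulVec, h1, Matrix.one_mulVec]
  exact h2

/-- the point of the chart -/
noncomputable def cpt (p : Fin 3 → ℂ) : ℂ × ℂ := (p 0 / p 1, p 2 / p 1)

theorem cpt_eq {A : Matrix (Fin 3) (Fin 3) ℂ} {p q : Fin 3 → ℂ}
    (h : (fun i => ∑ j, A i j * p j) = q) (h1 : p 1 ≠ 0) :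
    (fun i => ∑ j, A i j * (![(cpt p).1, 1, (cpt p).2] : Fin 3 → ℂ) j) = (p 1)⁻¹ • q := by
  subst h
  funext i
  rw [Pi.smul_apply, smul_eq_mul, Finset.mul_sum]
  refine Finset.sum_congr rfl fun j _ => ?_
  have h3 : (![(cpt p).1, 1, (cpt p).2] : Fin 3 → ℂ) j = (p 1)⁻¹ * p j := by
    fin_cases j
    · change p 0 / p 1 = (p 1)⁻¹ * p 0
      rw [div_eq_mul_inv, mul_comm]
    · change (1 : ℂ) = (p 1)⁻¹ * p 1
      rw [inv_mul_cancel₀ h1]
    · change p 2 / p 1 = (p 1)⁻¹ * p 2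
      rw [div_eq_mul_inv, mul_comm]
  rw [h3]
  ring

section
variable {N : ℕ} {P P' : Fin N → Fin 3 → ℂ} {k : Fin N → ℕ} {A : Matrix (Fin 3) (Fin 3) ℂ}

/-- the exponents in the chart -/
noncomputable def kk (P' : Fin N → Fin 3 → ℂ) (k : Fin N → ℕ) (p : ℂ × ℂ) : ℕ := by
  classical
  exact ∑ b ∈ Finset.univ.filter (fun b => cpt (P' b) = p), k b

theorem kk_eq (hd : ∀ b b', b ≠ b' → (cpt (P' b)).1 ≠ (cpt (P' b')).1) (b : Fin N) :
    kk P' k (cpt (P' b)) = k b := by
  classical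
  unfold kk
  rw [Finset.sum_eq_single b]
  · intro b' hb' hne
    rw [Finset.mem_filter] at hb'
    exact absurd (congrArg Prod.fst hb'.2) (hd b' b hne)
  · intro h
    refine absurd ?_ h
    rw [Finset.mem_filter]
    exact ⟨Finset.mem_univ b, rfl⟩

theorem sum_kk [DecidableEq (ℂ × ℂ)]
    (hd : ∀ b b', b ≠ b' → (cpt (P' b)).1 ≠ (cpt (P' b')).1) :
    ∑ p ∈ Finset.univ.image (fun b => cpt (P' b)), kk P' k p = ∑ b, k b := by
  rw [Finset.sum_image]
  · exact Finset.sum_congr rfl fun b _ => kk_eq hd b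
  · intro b _ b' _ h
    by_contra hne
    exact hd b b' hne (congrArg Prod.fst h)

theorem sep_of_jets [DecidableEq (ℂ × ℂ)] {e : ℕ} (h6 : 6 ≤ e) (h : SepJets (e - 6) P k)
    (hA : A.det ≠ 0) (hAP : ∀ b, (fun i => ∑ j, A i j * P' b j) = P b) (h1 : ∀ b, P' b 1 ≠ 0)
    (hd : ∀ b b', b ≠ b' → (cpt (P' b)).1 ≠ (cpt (P' b')).1) :
    Sep e (Finset.univ.image fun b => cpt (P' b)) (kk P' k) := by
  intro b0 u
  have hle : (((e - 6 : ℕ) : ℤ)) ≤ (e : ℤ) - 6 := by omega
  have hmem : ∀ (G : MvPolynomial (Fin 3) ℂ) (b : Fin N), G.IsHomogeneous (e - 6) →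
      VanGE (k b) G (P b) → ch (lin A G) ∈ mId (cpt (P' b)).1 (cpt (P' b)).2 ^ k b :=
    fun G b hG hv => (t_Ce G (e - 6) (k b) (P b) A _ _ (P' b 1)⁻¹ hG hv (inv_ne_zero (h1 b))
      (cpt_eq (hAP b) (h1 b))).1
  by_cases hb : ∃ b, (cpt (P' b)).1 = b0
  · obtain ⟨b, rfl⟩ := hb
    obtain ⟨v, Tv, hv⟩ := jet' (cpt (P' b)).1 (cpt (P' b)).2 (k b) u
    have hk := h.1 b
    have Tv' : TD ((e - 6 : ℕ) : ℤ) v := Tv.mono (by omega)
    set V := hom (e - 6) v with hV
    have hVh : V.IsHomogeneous (e - 6) := hom_homog _ _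
    have hVc : ch V = v := ch_hom Tv'
    obtain ⟨G, hG, h2, h3⟩ := h.2 b (lin A⁻¹ V) (lin_homog _ hVh)
    refine ⟨ch (lin A G), (TD_ch (lin_homog A hG)).mono hle, fun p hp hpb => ?_,
      fun p hp hpb => ?_⟩
    · obtain ⟨b', -, rfl⟩ := Finset.mem_image.1 hp
      have hbb : b' = b := by
        by_contra hne
        exact hd b' b hne hpb
      subst hbb
      rw [kk_eq hd]
      have e1 : ch (lin A G) - u = ch (lin A (G - lin A⁻¹ V)) + (v - u) := by
        rw [map_sub (lin A), lin_li hA, map_sub ch, hVc]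
        ring
      rw [e1]
      exact Ideal.add_mem _ (hmem _ _ (hG.sub (lin_homog _ hVh)) h2) hv
    · obtain ⟨b', -, rfl⟩ := Finset.mem_image.1 hp
      rw [kk_eq hd]
      exact hmem _ _ hG (h3 b' fun hbb => hpb (by rw [hbb]))
  · refine ⟨0, fun i j _ => by simp, fun p hp hpb => ?_, fun p hp hpb => Ideal.zero_mem _⟩
    obtain ⟨b', -, rfl⟩ := Finset.mem_image.1 hp
    exact absurd ⟨b', hpb⟩ hb

end

/-- double points -/
theorem pt_two {H : MvPolynomial (Fin 3) ℂ} {A : Matrix (Fin 3) (Fin 3) ℂ} {t x c1 : ℂ} {μ : ℕ}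
    (hc1 : c1 ≠ 0) (h0 : ev2 (ch (lin A H)) t x = 0) (h2 : μ ≤ 2)
    (hμ : ev2 (Polynomial.derivative^[μ] (ch (lin A H))) t x ≠ 0)
    (g : Polynomial (Polynomial ℂ)) : PtOk (kc c1 * ch (lin A H)) g t x := by
  obtain rfl | rfl | rfl : μ = 0 ∨ μ = 1 ∨ μ = 2 := by omega
  · exact absurd h0 hμ
  · refine Or.inr (Or.inl ?_)
    rw [der_kc, PKN.ev_kc]
    exact mul_ne_zero hc1 hμ
  · refine Or.inr (Or.inr (Or.inl ?_))
    rw [der_kc, der_kc, PKN.ev_kc]
    exact mul_ne_zero hc1 hμ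

/-- fat points -/
theorem pt_fat (hNV : S_NV) (hBk : S_Bk) {H : MvPolynomial (Fin 3) ℂ} {e k : ℕ}
    {A : Matrix (Fin 3) (Fin 3) ℂ} {t x c1 : ℂ} {μ : ℕ} (hH : H.IsHomogeneous e) (hA : A.det ≠ 0)
    (hc1 : c1 ≠ 0) (hmem : ch (lin A H) ∈ mId t x ^ μ)
    (hμ : ev2 (Polynomial.derivative^[μ] (ch (lin A H))) t x ≠ 0)
    (hf : FatAt k H (fun i => ∑ j, A i j * (![t, 1, x] : Fin 3 → ℂ) j)) :
    FatOk (kc c1 * ch (lin A H)) k t x := by
  intro m a hm ha ha0 hroot hder
  have hroot' : ∀ᶠ u in 𝓝[≠] (0 : ℂ), ev2 (ch (lin A H)) (t + u ^ m) (a u) = 0 := by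
    filter_upwards [hroot] with u hu
    rw [PKN.ev_kc] at hu
    exact (mul_eq_zero.1 hu).resolve_left hc1
  have hder' : ∀ᶠ u in 𝓝[≠] (0 : ℂ),
      ev2 (Polynomial.derivative (ch (lin A H))) (t + u ^ m) (a u) ≠ 0 := by
    filter_upwards [hder] with u hu
    rw [der_kc, PKN.ev_kc] at hu
    exact right_ne_zero_of_mul hu
  have h1 := hNV (ch (lin A H)) t x μ hmem hμ m a hm ha ha0 hroot'
  have hL := hBk H e k _ A t x 1 hH hA one_ne_zero (one_smul ℂ _).symm hf m a hm ha ha0 hroot'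
    hder' h1
  refine ⟨h1, ?_⟩
  have h2 := hL.div_const c1
  rw [zero_div] at h2
  refine h2.congr fun u => ?_
  rw [der_kc, PKN.ev_kc, div_div, mul_comm c1]

/-- **the conditions in coordinates** -/
theorem Start.core (hNV : S_NV) (hBb : S_Bb) (hBk : S_Bk) (hRP : S_RP) (hIn : S_In)
    {f H : MvPolynomial (Fin 3) ℂ} {e : ℕ} (hH : H.IsHomogeneous e) (h : Start f H e) :
    ∃ (N : ℕ) (P : Fin N → Fin 3 → ℂ), (∀ b, P b ≠ 0 ∧ eval (P b) H = 0) ∧
      (∀ b b', b ≠ b' → ∀ c : ℂ, P b ≠ c • P b') ∧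
      ∀ (A : Matrix (Fin 3) (Fin 3) ℂ) (P' : Fin N → Fin 3 → ℂ), A.det ≠ 0 →
        (∀ b, (fun i => ∑ j, A i j * P' b j) = P b) → (∀ b, P' b 1 ≠ 0) →
        (∀ b b', b ≠ b' → P' b 0 / P' b 1 ≠ P' b' 0 / P' b' 1) →
        (∀ t x : ℂ, eval (fun i => ∑ j, A i j * (![t, 1, x] : Fin 3 → ℂ) j) H = 0 →
          (∀ l, eval (fun i => ∑ j, A i j * (![t, 1, x] : Fin 3 → ℂ) j) (pderiv l H) = 0) →
          ∃ μ : ℕ, (∀ M, MultLE M H (fun i => ∑ j, A i j * (![t, 1, x] : Fin 3 → ℂ) j) → μ ≤ M) ∧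
            ch (lin A H) ∈ mId t x ^ μ ∧
            ev2 (Polynomial.derivative^[μ] (ch (lin A H))) t x ≠ 0) →
        CoreStart (lin A f) (lin A H) e := by
  classical
  rcases h with ⟨κ, g₁, g₂, hg1, hg2, hrel, hκ, hpt⟩ | ⟨N, P, k, hP, hPP, hk, hpt⟩
  · refine ⟨0, fun b => b.elim0, fun b => b.elim0, fun b => b.elim0,
      fun A P' hA _ _ _ hcen => Or.inl ⟨κ, lin A g₁, lin A g₂, hκ, lin_homog A hg1,
        lin_homog A hg2, hRP g₁ g₂ κ κ A hg1 hg2 hrel hA, fun c t x hc0 h0 hs => ?_⟩⟩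
    rw [eval_lin] at h0
    have hz := lin_vec_ne hA (pt_ne t x)
    have hs' := sing_lin hA hs
    obtain ⟨μ, k1, k2, k3⟩ := hcen t x h0 hs'
    have hone : (fun i => ∑ j, A i j * (![t, 1, x] : Fin 3 → ℂ) j) =
        (1 : ℂ) • fun i => ∑ j, A i j * (![t, 1, x] : Fin 3 → ℂ) j := (one_smul ℂ _).symm
    have hPK := t_PK hNV hBb
    rcases hpt _ hz h0 hs' with h | h | hK
    · left
      have k4 := k1 2 h
      exact ⟨hPK H g₁ e κ μ _ A t x 1 c hH hg1 hA one_ne_zero hc0 hone h0 k2 k3 (Or.inl k4),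
        hPK H g₂ e κ μ _ A t x 1 c hH hg2 hA one_ne_zero hc0 hone h0 k2 k3 (Or.inl k4)⟩
    · exact Or.inr (qh_lin hA h)
    · left
      refine ⟨hPK H g₁ e κ μ _ A t x 1 c hH hg1 hA one_ne_zero hc0 hone h0 k2 k3
        (Or.inr fun ε hε => ?_), hPK H g₂ e κ μ _ A t x 1 c hH hg2 hA one_ne_zero hc0 hone h0 k2 k3
        (Or.inr fun ε hε => ?_)⟩
      · filter_upwards [hK ε hε] with y hy h1
        exact le_trans (mul_le_mul_of_nonneg_left (le_add_of_nonneg_right (norm_nonneg _))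
          (sq_nonneg _)) (hy h1)
      · filter_upwards [hK ε hε] with y hy h1
        exact le_trans (mul_le_mul_of_nonneg_left (le_add_of_nonneg_left (norm_nonneg _))
          (sq_nonneg _)) (hy h1)
  · refine ⟨N, P, hP, hPP, fun A P' hA hAP h1 hd hcen => Or.inr
      ⟨Finset.univ.image fun b => cpt (P' b), kk P' k, ?_, fun c t x hc0 h0 hs => ?_⟩⟩
    · rcases hk with hk | ⟨h6, hk⟩
      · exact sep_in hIn (by rw [sum_kk hd]; exact hk)
      · exact sep_of_jets h6 hk hA hAP h1 hd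
    · have h0e := h0
      rw [eval_lin] at h0
      have hz := lin_vec_ne hA (pt_ne t x)
      have hs' := sing_lin hA hs
      obtain ⟨μ, k1, k2, k3⟩ := hcen t x h0 hs'
      rcases hpt _ hz h0 hs' with h | h | ⟨b, ⟨c', hc'⟩, hfat⟩
      · exact Or.inl fun g => pt_two hc0 (by rw [ev_ch]; exact h0e) (k1 2 h) k3 g
      · exact Or.inr (Or.inl (qh_lin hA h))
      · refine Or.inr (Or.inr ?_)
        have hpe : (t, x) = cpt (P' b) := by
          have e1 := cpt_eq (hAP b) (h1 b)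
          have e2 : (fun i => ∑ j, A i j * (![t, 1, x] : Fin 3 → ℂ) j) =
              fun i => ∑ j, A i j * ((c' * P' b 1) • (![(cpt (P' b)).1, 1, (cpt (P' b)).2] :
                Fin 3 → ℂ)) j := by
            rw [hc']
            have e3 : P b = (P' b 1) • fun i => ∑ j, A i j *
                (![(cpt (P' b)).1, 1, (cpt (P' b)).2] : Fin 3 → ℂ) j := by
              rw [e1, smul_smul, mul_inv_cancel₀ (h1 b), one_smul]
            rw [e3, smul_smul]
            funext i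
            rw [Pi.smul_apply, smul_eq_mul, Finset.mul_sum]
            refine Finset.sum_congr rfl fun j _ => ?_
            rw [Pi.smul_apply, smul_eq_mul]
            ring
          have e3 : A.mulVec ![t, 1, x] = A.mulVec ((c' * P' b 1) •
              (![(cpt (P' b)).1, 1, (cpt (P' b)).2] : Fin 3 → ℂ)) := e2
          have e4 := Matrix.mulVec_injective_of_isUnit
            ((Matrix.isUnit_iff_isUnit_det A).2 (isUnit_iff_ne_zero.2 hA)) e3
          have e5 : (1 : ℂ) = (c' * P' b 1) * 1 := congrFun e4 1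
          have e6 : t = (c' * P' b 1) * (cpt (P' b)).1 := congrFun e4 0
          have e7 : x = (c' * P' b 1) * (cpt (P' b)).2 := congrFun e4 2
          rw [mul_one] at e5
          rw [← e5, one_mul] at e6 e7
          exact Prod.ext e6 e7
        refine ⟨?_, ?_⟩
        · rw [hpe]
          exact Finset.mem_image_of_mem _ (Finset.mem_univ b)
        · have e8 : kk P' k (t, x) = k b := by
            rw [hpe]
            exact kk_eq hd b
          rw [e8]
          exact pt_fat hNV hBk hH hA hc0 k2 k3 hfat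

end Pool.Agent.H942.LP
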