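import Pool.Agent.H942.LP.DefW

set_option autoImplicit false
set_option linter.unusedSectionVars false

/-! # LP-Sv: a smooth point of a plane curve with a vertical tangent (helper401) -/

namespace Pool.Agent.H942.LP.SvN

open Polynomial Finset Filter Topology Pool.Agent.Helper748.TP Pool.Agent.H941.TF
  Pool.Agent.H941.SC

theorem cont2 (P : ℂ[X][X]) : Continuous fun p : ℂ × ℂ => ev2 P p.1 p.2 := by
  induction P using Polynomial.induction_on' with
  | add P Q hP hQ =>
    have h : Continuous fun p : ℂ × ℂ => ev2 P p.1 p.2 + ev2 Q p.1 p.2 := hP.add hQ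
    simpa only [ev2_add] using h
  | monomial n c =>
    simp only [ev2_monomial]
    exact (c.continuous.comp continuous_fst).mul (continuous_snd.pow n)

theorem decomp (P : ℂ[X][X]) (b : ℂ) : ∃ P1 : ℂ[X][X],
    (∀ t x, ev2 P t x = (evt b P).eval x + (t - b) * ev2 P1 t x) ∧
    ∀ x, ev2 P1 b x = ev2 (dt P) b x := by
  have h1 : C (X - C b) ∣ P - (evt b P).map C := by
    rw [Polynomial.C_dvd_iff_dvd_coeff]
    intro i
    rw [coeff_sub, coeff_map, dvd_iff_isRoot, IsRoot, eval_sub, eval_C]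
    have h2 : (evt b P).coeff i = (P.coeff i).eval b := by
      rw [evt, coe_mapRingHom, coeff_map, coe_evalRingHom]
    rw [h2, sub_self]
  obtain ⟨P1, hP1⟩ := h1
  have h3 : ∀ t x, ev2 P t x = (evt b P).eval x + (t - b) * ev2 P1 t x := by
    intro t x
    have h4 : P = (evt b P).map C + C (X - C b) * P1 := by rw [← hP1]; ring
    have h5 : ev2 ((evt b P).map C) t x = (evt b P).eval x := by
      rw [ev2]
      congr 1
      rw [evt, coe_mapRingHom, Polynomial.map_map]
      have h6 : (evalRingHom t).comp C = RingHom.id ℂ := by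
        ext z
        simp
      rw [h6, Polynomial.map_id]
    conv_lhs => rw [h4]
    rw [ev2_add, ev2_mul, h5]
    have h7 : ev2 (C (X - C b)) t x = t - b := by
      rw [ev2, evt_C, eval_C, eval_sub, eval_X, eval_C]
    rw [h7]
  refine ⟨P1, h3, fun x => ?_⟩
  have h8 := hasDerivAt_ev2 P (hasDerivAt_id' b) (hasDerivAt_const b x)
  rw [zero_mul, add_zero, one_mul] at h8
  have h9 := hasDerivAt_ev2 P1 (hasDerivAt_id' b) (hasDerivAt_const b x)
  have h10 : HasDerivAt (fun t : ℂ => (evt b P).eval x + (t - b) * ev2 P1 t x)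
      (1 * ev2 P1 b x + (b - b) * (1 * ev2 (dt P1) b x + 0 * ev2 (derivative P1) b x)) b :=
    (((hasDerivAt_id' b).sub_const b).mul h9).const_add _
  have h11 : (fun t : ℂ => ev2 P t x) = fun t : ℂ => (evt b P).eval x + (t - b) * ev2 P1 t x := by
    funext t
    exact h3 t x
  rw [h11] at h8
  have h12 := h10.unique h8
  rw [sub_self, zero_mul, add_zero, one_mul] at h12
  exact h12

end Pool.Agent.H942.LP.SvN

namespace Pool.Agent.H942.LP

open Polynomial Finset Filter Topology Pool.Agent.Helper748.TP Pool.Agent.H941.TF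
  Pool.Agent.H941.SC

theorem t_Sv : S_SmV := by
  intro F W b x0 m a hm hF ha hFa hdt hW
  obtain ⟨F1, hF1, hF1'⟩ := SvN.decomp F b
  obtain ⟨W1, hW1, -⟩ := SvN.decomp W b
  set f := evt b F with hf
  set g := evt b W with hg
  have hf0 : f ≠ 0 := (evt_monic hF b).ne_zero
  set k := f.rootMultiplicity x0 with hk
  by_cases hg0 : g = 0
  · rw [hg0]
    exact dvd_zero _
  rw [← le_rootMultiplicity_iff hg0]
  by_contra hlt
  rw [not_le] at hlt
  have hum : Tendsto (fun u : ℂ => b + u ^ m) (𝓝[≠] 0) (𝓝 b) := by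
    have h1 : Tendsto (fun u : ℂ => b + u ^ m) (𝓝 0) (𝓝 (b + 0 ^ m)) :=
      (Continuous.tendsto (by fun_prop) 0)
    rw [zero_pow hm.ne', add_zero] at h1
    exact h1.mono_left nhdsWithin_le_nhds
  have hlim : ∀ P : ℂ[X][X], Tendsto (fun u : ℂ => ev2 P (b + u ^ m) (a u)) (𝓝[≠] 0)
      (𝓝 (ev2 P b x0)) := by
    intro P
    exact ((SvN.cont2 P).tendsto (b, x0)).comp (hum.prodMk_nhds ha)
  have hev : ∀ p : ℂ[X], Tendsto (fun u : ℂ => p.eval (a u)) (𝓝[≠] 0) (𝓝 (p.eval x0)) := by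
    intro p
    exact (p.continuous.tendsto x0).comp ha
  have hc : ev2 F1 b x0 ≠ 0 := by
    rw [hF1']
    exact hdt
  obtain ⟨e, he⟩ := pow_rootMultiplicity_dvd f x0
  have he0 : e.eval x0 ≠ 0 := by
    have h1 : f.rootMultiplicity x0 = k := rfl
    intro h
    have h2 : (X - C x0) ∣ e := dvd_iff_isRoot.2 h
    obtain ⟨e', he'⟩ := h2
    have h3 : (X - C x0) ^ (f.rootMultiplicity x0 + 1) ∣ f := by
      refine ⟨e', ?_⟩
      rw [pow_succ, mul_assoc, ← he', ← he]
    have h4 := (le_rootMultiplicity_iff hf0).2 h3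
    omega
  obtain ⟨G, hG⟩ := pow_rootMultiplicity_dvd g x0
  have hG0 : G.eval x0 ≠ 0 := by
    intro h
    have h2 : (X - C x0) ∣ G := dvd_iff_isRoot.2 h
    obtain ⟨e', he'⟩ := h2
    have h3 : (X - C x0) ^ (g.rootMultiplicity x0 + 1) ∣ g := by
      refine ⟨e', ?_⟩
      rw [pow_succ, mul_assoc, ← he', ← hG]
    have h4 := (le_rootMultiplicity_iff hg0).2 h3
    omega
  set r := g.rootMultiplicity x0 with hr
  have hk1 : 0 < k := by omega
  have hfe : ∀ x, f.eval x = (x - x0) ^ k * e.eval x := by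
    intro x
    conv_lhs => rw [he]
    rw [eval_mul, eval_pow, eval_sub, eval_X, eval_C]
  have hge : ∀ x, g.eval x = (x - x0) ^ r * G.eval x := by
    intro x
    conv_lhs => rw [hG]
    rw [eval_mul, eval_pow, eval_sub, eval_X, eval_C]
  -- the branch does not pass through the vertical line
  have hF1ne : ∀ᶠ u in 𝓝[≠] (0 : ℂ), ev2 F1 (b + u ^ m) (a u) ≠ 0 := (hlim F1).eventually_ne hc
  have hune : ∀ᶠ u in 𝓝[≠] (0 : ℂ), u ≠ 0 := eventually_mem_nhdsWithin
  have heq : ∀ᶠ u in 𝓝[≠] (0 : ℂ), (a u - x0) ^ k * e.eval (a u) =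
      -(u ^ m * ev2 F1 (b + u ^ m) (a u)) := by
    filter_upwards [hFa] with u hu
    rw [hF1, hfe] at hu
    linear_combination hu
  have hne : ∀ᶠ u in 𝓝[≠] (0 : ℂ), a u - x0 ≠ 0 := by
    filter_upwards [heq, hF1ne, hune] with u h1 h2 h3 h4
    rw [h4, zero_pow hk1.ne', zero_mul] at h1
    exact (neg_ne_zero.2 (mul_ne_zero (pow_ne_zero m h3) h2)) h1.symm
  have hq : Tendsto (fun u => u ^ m / (a u - x0) ^ k) (𝓝[≠] 0)
      (𝓝 (-(e.eval x0 / ev2 F1 b x0))) := by
    have h1 := ((hev e).div (hlim F1) hc).neg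
    refine h1.congr' ?_
    filter_upwards [heq, hF1ne, hne] with u h1 h2 h3
    show -(e.eval (a u) / ev2 F1 (b + u ^ m) (a u)) = u ^ m / (a u - x0) ^ k
    rw [← neg_div, div_eq_div_iff h2 (pow_ne_zero k h3)]
    linear_combination (-1 : ℂ) * h1
  obtain ⟨L, hL⟩ := hW
  have hgu : Tendsto (fun u => g.eval (a u) / u ^ m) (𝓝[≠] 0) (𝓝 (L - ev2 W1 b x0)) := by
    refine (hL.sub (hlim W1)).congr' ?_
    filter_upwards [hune] with u h1
    have h2 := pow_ne_zero m h1
    rw [hW1 (b + u ^ m)]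
    field_simp
    ring
  have hgk : Tendsto (fun u => g.eval (a u) / (a u - x0) ^ k) (𝓝[≠] 0)
      (𝓝 ((L - ev2 W1 b x0) * -(e.eval x0 / ev2 F1 b x0))) := by
    refine (hgu.mul hq).congr' ?_
    filter_upwards [hune, hne] with u h1 h2
    have h3 := pow_ne_zero m h1
    have h4 := pow_ne_zero k h2
    field_simp
  have hz : Tendsto (fun u => (a u - x0) ^ (k - r)) (𝓝[≠] 0) (𝓝 0) := by
    have h1 : Tendsto (fun u => (a u - x0) ^ (k - r)) (𝓝[≠] 0) (𝓝 ((x0 - x0) ^ (k - r))) :=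
      (ha.sub_const x0).pow _
    rwa [sub_self, zero_pow (by omega)] at h1
  have hGz : Tendsto (fun u => G.eval (a u)) (𝓝[≠] 0) (𝓝 0) := by
    have h1 := hz.mul hgk
    rw [zero_mul] at h1
    refine h1.congr' ?_
    filter_upwards [hne] with u h2
    show (a u - x0) ^ (k - r) * (g.eval (a u) / (a u - x0) ^ k) = G.eval (a u)
    rw [hge]
    have h3 : (a u - x0) ^ k = (a u - x0) ^ (k - r) * (a u - x0) ^ r := by
      rw [← pow_add]
      congr 1
      omega
    rw [h3]
    have h4 := pow_ne_zero (k - r) h2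
    have h5 := pow_ne_zero r h2
    field_simp
  exact hG0 (tendsto_nhds_unique (hev G) hGz)

end Pool.Agent.H942.LP
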