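import Pool.Agent.H942.LP.DefX
import Pool.Agent.H940.G.LinAlg

set_option autoImplicit false
set_option linter.unusedSectionVars false
set_option linter.unusedVariables false

/-! # Linear vector fields killing the form, by helper870 (after `exists_second'` of
`H940/F/Torus.lean`, with light imports) -/

namespace Pool.Agent.H942.LP.TZN

open MvPolynomial Pool.Agent.H940.G.LA
open Pool.Agent.Helper748.MC (lin lin_X)

/-- the two substitutions agree -/
theorem sb_eq_lin (B : Matrix (Fin 3) (Fin 3) ℂ) (f : MvPolynomial (Fin 3) ℂ) :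
    sb B f = lin B f := by
  have h1 : sb B = lin B := by
    apply algHom_ext
    intro i
    rw [sb_X, lf_apply, lin_X]
  rw [h1]

theorem der_sum {m : ℕ} (F : Fin m → Derivation ℂ (MvPolynomial (Fin m) ℂ) (MvPolynomial (Fin m) ℂ))
    (p : MvPolynomial (Fin m) ℂ) : (∑ i, F i) p = ∑ i, F i p := by
  have h1 : ((∑ i, F i : Derivation ℂ (MvPolynomial (Fin m) ℂ) (MvPolynomial (Fin m) ℂ)) :
      MvPolynomial (Fin m) ℂ → MvPolynomial (Fin m) ℂ) = ∑ i, (F i : MvPolynomial (Fin m) ℂ →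
      MvPolynomial (Fin m) ℂ) := map_sum Derivation.coeFnAddMonoidHom F Finset.univ
  rw [h1, Finset.sum_apply]

/-- the second torus of a linear vector field with a nonzero trace -/
theorem second (f : MvPolynomial (Fin 3) ℂ) (d : ℕ) (hd : 1 ≤ d) (hf : f.IsHomogeneous d)
    (A : Matrix (Fin 3) (Fin 3) ℂ) (hA : ∑ i, (∑ j, C (A i j) * X j) * pderiv i f = 0)
    (htr0 : A.trace ≠ 0) :
    ∃ (Y Z : Matrix (Fin 3) (Fin 3) ℂ) (w : Fin 3 → ℤ), Y * Z = 1 ∧ Z * Y = 1 ∧ ∑ i, w i ≠ 0 ∧
      ∀ α ∈ (sb Z f).support, ∑ i, (α i : ℤ) * w i = 0 := by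
  classical
  set T : Module.End ℂ (Fin 3 → ℂ) := Matrix.toLin' A.transpose with hT
  have hTs : ∀ i, T (Pi.single i 1) = A i := by
    intro i
    funext j
    rw [hT, Matrix.toLin'_apply, Matrix.mulVec_single_one]
    rfl
  have h1 : Dl T f = 0 := by
    rw [← hA]
    have h4 : Dl T = ∑ i, lf (A i) • pderiv i := by
      refine derivation_ext fun j => ?_
      rw [Dl_X, hTs, der_sum, Finset.sum_eq_single j]
      · rw [Derivation.smul_apply, pderiv_X_self, smul_eq_mul, mul_one]
      · intro i _ hi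
        rw [Derivation.smul_apply, pderiv_X_of_ne (Ne.symm hi), smul_zero]
      · intro h5
        exact absurd (Finset.mem_univ _) h5
    rw [h4, der_sum]
    exact Finset.sum_congr rfl fun i _ => by rw [Derivation.smul_apply, smul_eq_mul, lf_apply]
  obtain ⟨Y, Z, lam, hYZ, hZY, htr, hlam⟩ := exists_coords T f h1
  have h2 : ∑ i, lam i ≠ 0 := by
    rw [htr, hT, Matrix.trace_toLin'_eq, Matrix.trace_transpose]
    exact htr0
  have hg : (sb Z f).IsHomogeneous d := by
    have h3 := hf.aeval (fun i => lf (Z i)) (n := 1) fun i => by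
      rw [lf_apply]
      exact IsHomogeneous.sum _ _ _ fun j _ => by
        have := (isHomogeneous_C (Fin 3) (Z i j)).mul (isHomogeneous_X ℂ j)
        rwa [zero_add] at this
    rwa [one_mul] at h3
  obtain ⟨w, c₀, hw, hc₀, hpos, hwh⟩ := exists_weights lam h2 (sb Z f) d hd hg hlam
  refine ⟨Y, Z, w, hYZ, hZY, hw, fun α hα => ?_⟩
  have h3 := hwh c₀ le_rfl (mem_support_iff.1 hα)
  have h4 := hg (mem_support_iff.1 hα)
  rw [Finsupp.weight_apply, Finsupp.sum_fintype _ _ (by simp)] at h3 h4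
  simp only [Pi.one_apply, smul_eq_mul, mul_one] at h3 h4
  have h5 : ((∑ i, α i * (w i + c₀).toNat : ℕ) : ℤ) = ((c₀ * d : ℕ) : ℤ) := by rw [h3]
  push_cast at h5
  have h6 : ∀ i, (α i : ℤ) * ((w i + c₀).toNat : ℤ) = (α i : ℤ) * w i + (α i : ℤ) * c₀ := by
    intro i
    rw [Int.toNat_of_nonneg (hpos i).le]
    ring
  rw [Finset.sum_congr rfl fun i _ => h6 i, Finset.sum_add_distrib, ← Finset.sum_mul] at h5
  have h7 : ∑ i, (α i : ℤ) = d := by
    rw [← h4]
    push_cast
    rfl
  rw [h7] at h5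
  linear_combination h5

end Pool.Agent.H942.LP.TZN

namespace Pool.Agent.H942.LP

open MvPolynomial Filter Topology Pool.Agent.Helper748.MC Pool.Agent.Helper748.TP
  Pool.Agent.H941.TF Pool.Agent.H941.SC Pool.Agent.H941.NC Pool.Agent.H941.QH

theorem t_TZ (hMF : S_MF) : S_TZ := by
  intro f H d e M hf hd hf0 hH hHf hM hm B hB
  by_contra htr
  obtain ⟨Y, Z, w, hYZ, hZY, hw, hsup⟩ := TZN.second f d hd hf B hB htr
  have hdet : Z.det ≠ 0 := by
    intro h
    have h1 := congrArg Matrix.det hZY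
    rw [Matrix.det_mul, h, zero_mul, Matrix.det_one] at h1
    exact zero_ne_one h1
  refine hMF f H d e M Z w hdet hf hd hf0 hH hHf hM hm ?_ hw
  rw [← TZN.sb_eq_lin]
  exact hsup

end Pool.Agent.H942.LP
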