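import Pool.Agent.H942.LP.DefV

set_option autoImplicit false

/-! # Clusters of roots: the proofs (helper807) -/

namespace Pool.Agent.H942.LP

open Finset Filter Topology Polynomial

namespace VN

/-- coefficientwise convergence of products -/
theorem tendsto_mul {f : Filter ℂ} {P Q : ℂ → ℂ[X]} {P0 Q0 : ℂ[X]}
    (hP : ∀ i, Tendsto (fun u => (P u).coeff i) f (𝓝 (P0.coeff i)))
    (hQ : ∀ i, Tendsto (fun u => (Q u).coeff i) f (𝓝 (Q0.coeff i))) (i : ℕ) :
    Tendsto (fun u => (P u * Q u).coeff i) f (𝓝 ((P0 * Q0).coeff i)) := by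
  simp only [coeff_mul]
  exact tendsto_finsetSum _ fun x _ => (hP x.1).mul (hQ x.2)

theorem tendsto_lin {f : Filter ℂ} {a : ℂ → ℂ} {x0 : ℂ} (ha : Tendsto a f (𝓝 x0)) (i : ℕ) :
    Tendsto (fun u => (X - C (a u) : ℂ[X]).coeff i) f (𝓝 ((X - C x0 : ℂ[X]).coeff i)) := by
  simp only [coeff_sub, coeff_C]
  refine tendsto_const_nhds.sub ?_
  split_ifs
  · exact ha
  · exact tendsto_const_nhds

theorem tendsto_const {f : Filter ℂ} {a : ℂ → ℂ} {x0 : ℂ} (ha : Tendsto a f (𝓝 x0)) (i : ℕ) :
    Tendsto (fun u => (C (a u) : ℂ[X]).coeff i) f (𝓝 ((C x0 : ℂ[X]).coeff i)) := by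
  simp only [coeff_C]
  split_ifs
  · exact ha
  · exact tendsto_const_nhds

theorem tendsto_prod {ι : Type} {f : Filter ℂ} {a : ι → ℂ → ℂ} {x0 : ℂ} (t : Finset ι)
    (ha : ∀ j ∈ t, Tendsto (a j) f (𝓝 x0)) :
    ∀ i, Tendsto (fun u => (∏ l ∈ t, (X - C (a l u)) : ℂ[X]).coeff i) f
      (𝓝 ((∏ l ∈ t, (X - C x0) : ℂ[X]).coeff i)) := by
  classical
  induction t using Finset.induction_on with
  | empty =>
    intro i
    simp only [Finset.prod_empty]
    exact tendsto_const_nhds
  | insert j t hj ih =>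
    intro i
    simp only [Finset.prod_insert hj]
    exact tendsto_mul (tendsto_lin (ha j (Finset.mem_insert_self _ _)))
      (ih fun k hk => ha k (Finset.mem_insert_of_mem hk)) i

theorem coeff_zero_of_lim {f : Filter ℂ} [f.NeBot] {E : ℂ → ℂ[X]} {E0 : ℂ[X]} {D : ℕ}
    (hD : ∀ᶠ u in f, (E u).natDegree ≤ D)
    (hE : ∀ i, Tendsto (fun u => (E u).coeff i) f (𝓝 (E0.coeff i))) {i : ℕ} (hi : D < i) :
    E0.coeff i = 0 := by
  refine tendsto_nhds_unique (hE i) (tendsto_const_nhds.congr' ?_)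
  filter_upwards [hD] with u hu
  exact (coeff_eq_zero_of_natDegree_lt (lt_of_le_of_lt hu hi)).symm

theorem natDegree_of_lim {f : Filter ℂ} [f.NeBot] {E : ℂ → ℂ[X]} {E0 : ℂ[X]} {D : ℕ}
    (hD : ∀ᶠ u in f, (E u).natDegree ≤ D)
    (hE : ∀ i, Tendsto (fun u => (E u).coeff i) f (𝓝 (E0.coeff i))) : E0.natDegree ≤ D :=
  natDegree_le_iff_coeff_eq_zero.2 fun _ hi => coeff_zero_of_lim hD hE hi

theorem tendsto_eval {f : Filter ℂ} [f.NeBot] {E : ℂ → ℂ[X]} {E0 : ℂ[X]} {D : ℕ} {a : ℂ → ℂ}
    {x0 : ℂ} (hD : ∀ᶠ u in f, (E u).natDegree ≤ D)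
    (hE : ∀ i, Tendsto (fun u => (E u).coeff i) f (𝓝 (E0.coeff i)))
    (ha : Tendsto a f (𝓝 x0)) : Tendsto (fun u => (E u).eval (a u)) f (𝓝 (E0.eval x0)) := by
  rw [eval_eq_sum_range' (Nat.lt_succ_of_le (natDegree_of_lim hD hE))]
  have h1 : Tendsto (fun u => ∑ i ∈ Finset.range (D + 1), (E u).coeff i * a u ^ i) f
      (𝓝 (∑ i ∈ Finset.range (D + 1), E0.coeff i * x0 ^ i)) :=
    tendsto_finsetSum _ fun i _ => (hE i).mul (ha.pow i)
  refine h1.congr' ?_
  filter_upwards [hD] with u hu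
  rw [eval_eq_sum_range' (Nat.lt_succ_of_le hu)]

theorem coeff_div {p : ℂ[X]} {D : ℕ} (hD : p.natDegree ≤ D) (a : ℂ) (n : ℕ) :
    (p /ₘ (X - C a)).coeff n = ∑ i ∈ Finset.Icc (n + 1) D, a ^ (i - (n + 1)) * p.coeff i := by
  rw [coeff_divByMonic_X_sub_C]
  refine Finset.sum_subset (Finset.Icc_subset_Icc_right hD) fun i hi hi' => ?_
  rw [Finset.mem_Icc] at hi hi'
  rw [coeff_eq_zero_of_natDegree_lt, mul_zero]
  by_contra h
  exact hi' ⟨hi.1, not_lt.1 h⟩

theorem tendsto_div {f : Filter ℂ} [f.NeBot] {E : ℂ → ℂ[X]} {E0 : ℂ[X]} {D : ℕ} {a : ℂ → ℂ}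
    {x0 : ℂ} (hD : ∀ᶠ u in f, (E u).natDegree ≤ D)
    (hE : ∀ i, Tendsto (fun u => (E u).coeff i) f (𝓝 (E0.coeff i)))
    (ha : Tendsto a f (𝓝 x0)) (n : ℕ) :
    Tendsto (fun u => (E u /ₘ (X - C (a u))).coeff n) f (𝓝 ((E0 /ₘ (X - C x0)).coeff n)) := by
  rw [coeff_div (natDegree_of_lim hD hE)]
  have h1 : Tendsto (fun u => ∑ i ∈ Finset.Icc (n + 1) D, a u ^ (i - (n + 1)) * (E u).coeff i) f
      (𝓝 (∑ i ∈ Finset.Icc (n + 1) D, x0 ^ (i - (n + 1)) * E0.coeff i)) :=
    tendsto_finsetSum _ fun i _ => (ha.pow _).mul (hE i)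
  refine h1.congr' ?_
  filter_upwards [hD] with u hu
  rw [coeff_div hu]

/-- The main lemma: roots which converge to `x0`. -/
theorem core {ι : Type} {a : ι → ℂ → ℂ} {x0 : ℂ} {f : Filter ℂ} [f.NeBot] {D : ℕ}
    (s : Finset ι) : ∀ (E : ℂ → ℂ[X]) (E0 : ℂ[X]), (∀ᶠ u in f, (E u).natDegree ≤ D) →
    (∀ i, Tendsto (fun u => (E u).coeff i) f (𝓝 (E0.coeff i))) →
    (∀ j ∈ s, Tendsto (a j) f (𝓝 x0)) → (∀ᶠ u in f, Set.InjOn (fun j => a j u) s) →
    (∀ᶠ u in f, ∀ j ∈ s, (E u).eval (a j u) = 0) → (X - C x0) ^ #s ∣ E0 := by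
  classical
  induction s using Finset.induction_on with
  | empty =>
    intro E E0 _ _ _ _ _
    rw [Finset.card_empty, pow_zero]
    exact one_dvd _
  | insert j s hj ih =>
    intro E E0 hD hE ha hinj hz
    have hja := ha j (Finset.mem_insert_self _ _)
    have h0 : E0.eval x0 = 0 := by
      refine tendsto_nhds_unique (tendsto_eval hD hE hja) (tendsto_const_nhds.congr' ?_)
      filter_upwards [hz] with u hu
      exact (hu j (Finset.mem_insert_self _ _)).symm
    have h1 := ih (fun u => E u /ₘ (X - C (a j u))) (E0 /ₘ (X - C x0))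
      (by
        filter_upwards [hD] with u hu
        rw [natDegree_divByMonic _ (monic_X_sub_C _)]
        exact (Nat.sub_le _ _).trans hu)
      (tendsto_div hD hE hja) (fun k hk => ha k (Finset.mem_insert_of_mem hk))
      (by
        filter_upwards [hinj] with u hu
        exact hu.mono (by
          rw [Finset.coe_subset]
          exact Finset.subset_insert _ _))
      (by
        filter_upwards [hinj, hz] with u hu hu' k hk
        have hne : a k u - a j u ≠ 0 := by
          intro h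
          have h2 := hu (Finset.mem_coe.2 (Finset.mem_insert_of_mem hk))
            (Finset.mem_coe.2 (Finset.mem_insert_self _ _)) (sub_eq_zero.1 h)
          exact hj (h2 ▸ hk)
        have h3 : (X - C (a j u)) * (E u /ₘ (X - C (a j u))) = E u :=
          mul_divByMonic_eq_iff_isRoot.2 (hu' j (Finset.mem_insert_self _ _))
        have h4 := hu' k (Finset.mem_insert_of_mem hk)
        rw [← h3, eval_mul, eval_sub, eval_X, eval_C] at h4
        exact (mul_eq_zero.1 h4).resolve_left hne)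
    rw [Finset.card_insert_of_notMem hj, pow_succ',
      ← mul_divByMonic_eq_iff_isRoot.2 (show IsRoot E0 x0 from h0)]
    exact mul_dvd_mul_left _ h1

end VN

open VN

theorem t_V : S_V := by
  intro ι _ s a G G0 x0 f _ D hD hG ha hinj hI
  set L : ℂ → ℂ[X] := fun u => Lagrange.interpolate s (fun j => a j u)
    (fun j => (G u).eval (a j u)) with hL
  refine core (D := max D #s) s (fun u => G u - L u) G0 ?_ ?_ ha hinj ?_
  · filter_upwards [hD, hinj] with u hu hu'
    refine (natDegree_sub_le _ _).trans (max_le_max hu ?_)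
    exact natDegree_le_of_degree_le (Lagrange.degree_interpolate_lt _ hu').le
  · intro i
    have h1 := (hG i).sub (hI i)
    rw [sub_zero] at h1
    refine h1.congr fun u => ?_
    rw [coeff_sub]
  · filter_upwards [hinj] with u hu j hj
    rw [eval_sub, hL]
    simp only
    rw [Lagrange.eval_interpolate_at_node _ hu hj, sub_self]

theorem t_V2 : S_V2 := by
  intro ι _ s a G G0 x0 f _ D hD hG ha hinj hI
  refine t_V ι s a G G0 x0 f D hD hG ha hinj fun i => ?_
  have h1 : ∀ u, Lagrange.interpolate s (fun j => a j u) (fun j => (G u).eval (a j u)) =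
      ∑ j ∈ s, C ((G u).eval (a j u) / ∏ l ∈ s.erase j, (a j u - a l u)) *
        ∏ l ∈ s.erase j, (X - C (a l u)) := by
    intro u
    rw [Lagrange.interpolate_apply]
    refine Finset.sum_congr rfl fun j _ => ?_
    rw [Lagrange.basis]
    simp only [Lagrange.basisDivisor]
    rw [Finset.prod_mul_distrib, ← mul_assoc, ← map_prod, ← C_mul, Finset.prod_inv_distrib,
      div_eq_mul_inv]
  simp only [h1, finsetSum_coeff, coeff_C_mul]
  have h2 : Tendsto (fun u => ∑ j ∈ s, (G u).eval (a j u) / (∏ l ∈ s.erase j, (a j u - a l u)) *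
      (∏ l ∈ s.erase j, (X - C (a l u)) : ℂ[X]).coeff i) f
      (𝓝 (∑ j ∈ s, 0 * (∏ l ∈ s.erase j, (X - C x0) : ℂ[X]).coeff i)) :=
    tendsto_finsetSum _ fun j hj => (hI j hj).mul
      (tendsto_prod _ (fun k hk => ha k (Finset.mem_of_mem_erase hk)) i)
  simpa using h2

theorem t_V3 : S_V3 := by
  intro a b G G0 x0 f _ D hD hG ha hb hab h1 h2
  have h3 : (X - C x0) ^ #(Finset.univ : Finset Bool) ∣ G0 := by
    refine core (D := max D 1) (a := fun j => if j then a else b) (f := f) Finset.univ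
      (fun u => G u - (C (((G u).eval (a u) - (G u).eval (b u)) / (a u - b u)) * (X - C (a u)) +
        C ((G u).eval (a u)))) G0 ?_ ?_ ?_ ?_ ?_
    · filter_upwards [hD] with u hu
      refine (natDegree_sub_le _ _).trans (max_le_max hu ?_)
      refine (natDegree_add_le _ _).trans (max_le ?_ ?_)
      · refine (natDegree_C_mul_le _ _).trans ?_
        rw [natDegree_X_sub_C]
      · rw [natDegree_C]
        exact zero_le_one
    · intro i
      have h4 := (hG i).sub ((tendsto_mul (tendsto_const h2) (tendsto_lin ha) i).add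
        (tendsto_const h1 i))
      simp only [C_0, zero_mul, coeff_zero, add_zero, sub_zero] at h4
      refine h4.congr fun u => ?_
      rw [coeff_sub, coeff_add]
    · intro j _
      cases j
      · exact hb
      · exact ha
    · filter_upwards [hab] with u hu
      intro j _ k _ hjk
      cases j <;> cases k <;> simp at hjk ⊢
      · exact hu hjk.symm
      · exact hu hjk
    · filter_upwards [hab] with u hu
      have hne : a u - b u ≠ 0 := sub_ne_zero.2 hu
      intro j _
      cases j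
      · simp only [eval_sub, eval_add, eval_mul, eval_C, eval_X]
        simp only [Bool.false_eq_true, if_false]
        field_simp
        ring
      · simp only [eval_sub, eval_add, eval_mul, eval_C, eval_X]
        simp
  simpa using h3

end Pool.Agent.H942.LP
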