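import Pool.Agent.H942.LP.DefW
import Pool.Agent.H942.LP.P

set_option autoImplicit false
set_option linter.unusedSectionVars false
set_option linter.unusedVariables false

/-! # From `g1 v` and `g2 v` to `v` -/

namespace Pool.Agent.H942.LP

open Finset Filter Topology Polynomial Pool.Agent.Helper748.TP Pool.Agent.H941.TF
  Pool.Agent.H941.SC Pool.Agent.H941.NC

namespace ZqN

theorem ev2_of_dvd {F P : ℂ[X][X]} (h : F ∣ P) {t x : ℂ} (hx : ev2 F t x = 0) :
    ev2 P t x = 0 := by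
  obtain ⟨Q, rfl⟩ := h
  rw [ev2_mul, hx, zero_mul]

theorem cancel {F Y : ℂ[X][X]} (hF : F.Monic) {R : ℂ[X]} (hR : R ≠ 0) (h : F ∣ C R * Y) :
    F ∣ Y := by
  rw [← modByMonic_eq_zero_iff_dvd hF] at h ⊢
  rw [← smul_eq_C_mul, smul_modByMonic] at h
  exact (smul_eq_zero.1 h).resolve_left hR

theorem td_deg {k : ℕ} {P : ℂ[X][X]} (h : TD k P) : P.natDegree ≤ k := by
  rw [natDegree_le_iff_coeff_eq_zero]
  intro i hi
  ext j
  rw [coeff_zero]
  exact h i j (by omega)

end ZqN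

open ZqN

theorem t_Zq : S_Zq := by
  intro F A H g1 g2 W1 W2 D0 e κ hF he hD0 hsep hrel hg1 hg2 hW1 hW2 hκ h1 h2
  have ha : F ∣ g2 * W1 - g1 * W2 := by
    refine dvd_of_ev hF (B := D0.roots.toFinset) ?_
    intro t ht
    have ht' : D0.eval t ≠ 0 := by
      intro h0
      apply ht
      rw [Multiset.mem_toFinset, mem_roots hD0]
      exact h0
    refine ⟨(hsep t ht').1, fun x hx => ?_⟩
    have h3 : F ∣ H * (g2 * W1 - g1 * W2) := by
      have h4 : H * (g2 * W1 - g1 * W2) =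
          g1 * (g2 * A - H * W2) - g2 * (g1 * A - H * W1) := by ring
      rw [h4]
      exact dvd_sub (Dvd.dvd.mul_left h2 _) (Dvd.dvd.mul_left h1 _)
    have h5 := ev2_of_dvd h3 hx
    rw [ev2_mul] at h5
    exact (mul_eq_zero.1 h5).resolve_left ((hsep t ht').2 x hx)
  have hb : g2 * W1 - g1 * W2 = 0 := by
    by_contra hne
    have h3 := natDegree_le_of_dvd ha hne
    have h4 : TD ((2 * κ + 3 : ℕ) : ℤ) (g2 * W1 - g1 * W2) := by
      have e1 := (hg2.mul hW1).sub (hg1.mul hW2)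
      refine e1.mono ?_
      push_cast
      omega
    have h5 := td_deg h4
    omega
  have hc : g2 * W1 = g1 * W2 := sub_eq_zero.1 hb
  by_cases h0 : g1 = 0
  · rw [h0] at hrel
    have hu : IsUnit g2 := isRelPrime_zero_left.1 hrel
    obtain ⟨v, hv⟩ := hu.exists_right_inv
    refine ⟨v * W2, ?_⟩
    have h3 : A - H * (v * W2) = v * (g2 * A - H * W2) := by
      linear_combination (-A) * hv
    rw [h3]
    exact Dvd.dvd.mul_left h2 _
  · have h3 : g1 ∣ g2 * W1 := ⟨W2, hc⟩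
    obtain ⟨Z, hZ⟩ := hrel.dvd_of_dvd_mul_left h3
    have h4 : W2 = g2 * Z := by
      apply mul_left_cancel₀ h0
      rw [← hc, hZ]
      ring
    obtain ⟨R, p, q, hR, hpq⟩ := PN.elim h0 hrel
    refine ⟨Z, cancel hF hR ?_⟩
    rw [← hpq]
    have h5 : (g1 * p + g2 * q) * (A - H * Z) =
        p * (g1 * A - H * W1) + q * (g2 * A - H * W2) := by
      rw [hZ, h4]
      ring
    rw [h5]
    exact dvd_add (Dvd.dvd.mul_left h1 _) (Dvd.dvd.mul_left h2 _)

end Pool.Agent.H942.LP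

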