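import Pool.Agent.H942.LP.Start
import Pool.Agent.H942.LP.DefX
import Pool.Agent.H942.LP.MF
import Pool.Agent.H942.LP.CC
import Pool.Agent.H942.LP.Ce
import Pool.Agent.H942.LP.V
import Pool.Agent.H942.LP.NV
import Pool.Agent.H942.LP.Mo
import Pool.Agent.H942.LP.Bb
import Pool.Agent.H942.LP.RP
import Pool.Agent.H942.LP.Bk
import Pool.Agent.H942.LP.Rg
import Pool.Agent.H942.LP.Al
import Pool.Agent.H942.LP.In
import Pool.Agent.H942.LP.FP
import Pool.Agent.H942.LP.TZ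
import Pool.Agent.H942.LP.Sv
import Pool.Agent.H942.LP.Sa
import Pool.Agent.H942.LP.Sb
import Pool.Agent.H942.LP.Zq
import Pool.Agent.H942.LP.Ps
import Pool.Agent.H942.LP.P
import Pool.Agent.H942.LP.Class
import Pool.Agent.H941.QH.Class

set_option autoImplicit false
set_option linter.unusedSectionVars false
set_option linter.unusedVariables false

/-! # Curves built from a curve with arbitrary singularities: the class -/

namespace Pool.Agent.H942.LP

open MvPolynomial Filter Topology Pool.Agent.Helper748.MC Pool.Agent.Helper748.TP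
  Pool.Agent.H941.TF Pool.Agent.H941.SC Pool.Agent.H941.NC Pool.Agent.H941.ND
  Pool.Agent.H941.QH Pool.Agent.H628R4.TP

/-- **`H = 0` is a tame subcurve of `f = 0`.** -/
def TameSub (f H : MvPolynomial (Fin 3) ℂ) : Prop :=
  ∃ (r k e : ℕ) (n : Fin r → ℕ) (g : Fin r → MvPolynomial (Fin 3) ℂ),
    H.IsHomogeneous e ∧ (∀ j, (g j).IsHomogeneous (n j)) ∧
    Squarefree (H * ∏ j, g j) ∧ H * ∏ j, g j ∣ f ∧ f ∣ (H * ∏ j, g j) ^ k ∧ Start f H e ∧
    ∀ j, (Irreducible (g j) ∧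
        ManyPts (3 * n j + 1) (g j) (H * ∏ l ∈ Finset.univ.filter (· < j), g l)) ∨
      ∃ m, 3 * m < e + ∑ l ∈ Finset.univ.filter (· < j), n l ∧ ∀ z : Fin 3 → ℂ, z ≠ 0 →
        eval z (g j) = 0 → eval z (H * ∏ l ∈ Finset.univ.filter (· < j), g l) = 0 →
        MultLE m (H * ∏ l ∈ Finset.univ.filter (· < j), g l) z ∨ QHAt f z

/-- there is no linear vector field of trace `≠ 0` which annihilates `f` -/
def NoField (f H : MvPolynomial (Fin 3) ℂ) : Prop :=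
  (∀ z : Fin 3 → ℂ, z ≠ 0 → eval z H = 0 → (∀ i, eval z (pderiv i H) = 0) → NodeAt H z) ∨
    (∃ (e' M : ℕ) (H' : MvPolynomial (Fin 3) ℂ), H'.IsHomogeneous e' ∧ H' ∣ f ∧ 2 * M < e' ∧
      ∀ z : Fin 3 → ℂ, z ≠ 0 → eval z H' = 0 → MultLE M H' z) ∨ TrZero f

theorem TameSub.ne {f H : MvPolynomial (Fin 3) ℂ} (hf : TameSub f H) : f ≠ 0 := by
  obtain ⟨r, k, e, n, g, hh, hg, hsq, hSf, hfS, -⟩ := hf
  rintro rfl
  exact pow_ne_zero k hsq.ne_zero (zero_dvd_iff.1 hfS)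

theorem TameSub.deg {d : ℕ} {f H : MvPolynomial (Fin 3) ℂ} (hf : f.IsHomogeneous d)
    (h : TameSub f H) : 0 < d := by
  have hf0 := h.ne
  obtain ⟨r, k, e, n, g, hh, hg, hsq, hSf, hfS, hst, -⟩ := h
  have he := hst.lt
  have h1 := totalDegree_le_of_dvd_of_isDomain hSf hf0
  have hS : (H * ∏ j, g j).IsHomogeneous (e + ∑ j, n j) :=
    hh.mul (IsHomogeneous.prod _ _ _ fun j _ => hg j)
  rw [hS.totalDegree hsq.ne_zero, hf.totalDegree hf0] at h1
  omega

/-- multiplicities do not depend on the scaling -/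
theorem multLE_smul {H : MvPolynomial (Fin 3) ℂ} {e m : ℕ} (hH : H.IsHomogeneous e)
    {z : Fin 3 → ℂ} {c : ℂ} (hc : c ≠ 0) (h : MultLE m H (c • z)) : MultLE m H z := by
  obtain ⟨k, hk, hk0⟩ := h
  refine ⟨k, hk, fun h0 => ?_⟩
  set B : Matrix (Fin 3) (Fin 3) ℂ := c • (1 : Matrix (Fin 3) (Fin 3) ℂ) with hB
  have hBd : B.det ≠ 0 := by
    rw [hB, Matrix.det_smul, Matrix.det_one, mul_one]
    exact pow_ne_zero _ hc
  have hBz : ∀ y : Fin 3 → ℂ, (fun i => ∑ j, B i j * y j) = c • y := by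
    intro y
    funext i
    rw [Finset.sum_eq_single i]
    · simp [hB]
    · intro j _ hj
      simp [hB, Matrix.one_apply_ne hj.symm]
    · intro h
      exact absurd (Finset.mem_univ i) h
  have h1 : lin B H = C (c ^ e) * H := by
    refine MvPolynomial.funext fun y => ?_
    rw [eval_lin, hBz, map_mul, eval_C]
    exact eval_smul_pt hH c y
  have h2 := MFN.tay_lin B z H
  rw [hBz, h1, map_mul] at h2
  have h3 := congrArg (homogeneousComponent k) h2
  rw [MFN.hc_lin] at h3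
  have h4 : tay z (C (c ^ e)) = C (c ^ e) := by
    rw [tay, aeval_C]
    rfl
  rw [h4, homogeneousComponent_C_mul, h0, mul_zero] at h3
  exact MFN.lin_inj B hBd _ hk0 h3.symm


/-- the center of the projection for a curve and finitely many of its points -/
theorem center2 {H : MvPolynomial (Fin 3) ℂ} {e : ℕ} (hH : H.IsHomogeneous e) (hH0 : H ≠ 0)
    (s : Finset (Fin 3 → ℂ)) : ∃ L : MvPolynomial (Fin 3) ℂ, L ≠ 0 ∧
    ∀ A : Matrix (Fin 3) (Fin 3) ℂ, A.det ≠ 0 → eval (fun i => A i 2) L ≠ 0 →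
    ∀ (t x : ℂ) (w : Fin 3 → ℂ), w ∈ s → ∀ c : ℂ, c ≠ 0 →
    (fun i => ∑ j, A i j * (![t, 1, x] : Fin 3 → ℂ) j) = c • w →
    ∃ k : ℕ, (∀ M, MultLE M H (fun i => ∑ j, A i j * (![t, 1, x] : Fin 3 → ℂ) j) → k ≤ M) ∧
      ch (lin A H) ∈ (Ideal.span {Polynomial.C (Polynomial.X - Polynomial.C t),
        Polynomial.X - Polynomial.C (Polynomial.C x)} : Ideal (Polynomial (Polynomial ℂ))) ^ k ∧
      ev2 (Polynomial.derivative^[k] (ch (lin A H))) t x ≠ 0 := by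
  obtain ⟨L, hL0, hL⟩ := t_CC t_Ce H e s hH hH0
  refine ⟨L, hL0, fun A hA hAL t x w hw c hc hz => ?_⟩
  obtain ⟨k, h1, h2, h3⟩ := hL A hA hAL w hw t x c hc hz
  refine ⟨k, fun M hM => h1 M ?_, h2, h3⟩
  rw [hz] at hM
  exact multLE_smul hH hc hM

/-- **The root `-3/d`** -/
theorem not_tame {d : ℕ} {f H : MvPolynomial (Fin 3) ℂ} (hf : f.IsHomogeneous d)
    (hc : TameSub f H) (hfld : NoField f H) {b : Polynomial ℂ} (hb : IsBFunction f b)
    (hb0 : b.eval (-3 / d : ℂ) ≠ 0) : False := by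
  classical
  have hd := hc.deg hf
  have hf0 := hc.ne
  obtain ⟨r, k, e, n, g, hh, hg, hsq, hSf, hfS, hst, hchn⟩ := hc
  have he := hst.lt
  obtain ⟨N, Ps, hPs, hPPs, hcore⟩ := hst.core t_NV t_Bb t_Bk t_RP t_In hh
  have hS : (H * ∏ j, g j).IsHomogeneous (e + ∑ j, n j) :=
    hh.mul (IsHomogeneous.prod _ _ _ fun j _ => hg j)
  have hH0 : H ≠ 0 := left_ne_zero_of_mul hsq.ne_zero
  obtain ⟨W, hW, hWH⟩ := good_dir hh (by omega) (hsq.of_mul_left)
  -- the singular points of `H`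
  obtain ⟨Z, hZ⟩ := sing_fin hh (by omega) (hsq.of_mul_left)
  obtain ⟨L₀, hL₀, hL₀A⟩ := center2 hh hH0 Z
  -- the common points
  have hDj : ∀ j : Fin r, (H * ∏ l ∈ Finset.univ.filter (· < j), g l).IsHomogeneous
      (e + ∑ l ∈ Finset.univ.filter (· < j), n l) := fun j =>
    hh.mul (IsHomogeneous.prod _ _ _ fun j _ => hg j)
  have hDs : ∀ j : Fin r, Squarefree ((H * ∏ l ∈ Finset.univ.filter (· < j), g l) * g j) := by
    intro j
    refine hsq.squarefree_of_dvd ?_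
    rw [mul_assoc, mul_comm (∏ l ∈ Finset.univ.filter (· < j), g l) (g j)]
    refine mul_dvd_mul_left _ ?_
    rw [← Finset.prod_insert (f := g) (by simp : j ∉ Finset.univ.filter (· < j))]
    exact Finset.prod_dvd_prod_of_subset _ _ _ (Finset.subset_univ _)
  have hP2 : ∀ j : Fin r, ∃ L : MvPolynomial (Fin 3) ℂ, L ≠ 0 ∧
      ∀ A : Matrix (Fin 3) (Fin 3) ℂ, A.det ≠ 0 → eval (fun i => A i 2) L ≠ 0 → ∀ t x : ℂ,
      eval (fun i => ∑ j, A i j * (![t, 1, x] : Fin 3 → ℂ) j) (g j) = 0 →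
      eval (fun i => ∑ j, A i j * (![t, 1, x] : Fin 3 → ℂ) j)
        (H * ∏ l ∈ Finset.univ.filter (· < j), g l) = 0 →
      ∃ k : ℕ, (∀ M, MultLE M (H * ∏ l ∈ Finset.univ.filter (· < j), g l)
        (fun i => ∑ j, A i j * (![t, 1, x] : Fin 3 → ℂ) j) → k ≤ M) ∧
      ev2 (Polynomial.derivative^[k]
        (ch (lin A (H * ∏ l ∈ Finset.univ.filter (· < j), g l)))) t x ≠ 0 := by
    intro j
    obtain ⟨s, -, hs⟩ := t_P _ _ _ _ (hDj j) (hg j) (hDs j)
    obtain ⟨L, hL0, hL⟩ := center2 (hDj j) (left_ne_zero_of_mul (hDs j).ne_zero) s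
    refine ⟨L, hL0, fun A hA hAL t x h1 h2 => ?_⟩
    have hz := lin_vec_ne hA (pt_ne t x)
    obtain ⟨w, hw, c, hc⟩ := hs _ hz h2 h1
    have hc0 : c ≠ 0 := by
      rintro rfl
      rw [zero_smul] at hc
      exact hz hc
    obtain ⟨k, k1, k2, k3⟩ := hL A hA hAL t x w hw c hc0 hc
    exact ⟨k, k1, k3⟩
  choose Lj hLj hLjA using hP2
  -- the points of the chain
  set J := {j : Fin r // ManyPts (3 * n j + 1) (g j)
    (H * ∏ l ∈ Finset.univ.filter (· < j), g l)} with hJ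
  have hJP : ∀ j : J, ∃ P : Fin (3 * n j.1 + 1) → Fin 3 → ℂ,
    (∀ b, P b ≠ 0 ∧ eval (P b) (g j.1) = 0 ∧
      eval (P b) (H * ∏ l ∈ Finset.univ.filter (· < j.1), g l) = 0) ∧
    ∀ b b', b ≠ b' → ∀ c : ℂ, P b ≠ c • P b' := fun j => j.2
  choose P hP hPP using hJP
  obtain ⟨A, P'', hA, hsep, hdeg, hAW, hAP'', hP1'', hPt''⟩ := bert hS (by omega) hsq
    (ι := (Σ j : J, Fin (3 * n j.1 + 1)) ⊕ Fin N) (Sum.elim (fun x => P x.1 x.2) Ps)
    (fun x => by
      rcases x with x | x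
      · exact (hP x.1 x.2).1
      · exact (hPs x).1)
    (fun x => by
      rcases x with x | x
      · change eval (P x.1 x.2) _ = 0
        rw [map_mul, map_prod (eval _) g, Finset.prod_eq_zero (Finset.mem_univ x.1.1)
          (hP x.1 x.2).2.1, mul_zero]
      · change eval (Ps x) _ = 0
        rw [map_mul, (hPs x).2, zero_mul])
    (mul_ne_zero (mul_ne_zero hW hL₀) (Finset.prod_ne_zero_iff.2 fun j _ => hLj j))
  set P' := fun x : (Σ j : J, Fin (3 * n j.1 + 1)) => P'' (Sum.inl x) with hP'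
  have hAP : ∀ x, (fun k => ∑ l, A k l * P' x l) = P x.1 x.2 := fun x => hAP'' (Sum.inl x)
  have hP1 : ∀ x, P' x 1 ≠ 0 := fun x => hP1'' (Sum.inl x)
  have hPt : ∀ x y : (Σ j : J, Fin (3 * n j.1 + 1)), (∀ c : ℂ, P x.1 x.2 ≠ c • P y.1 y.2) →
      P' x 0 / P' x 1 ≠ P' y 0 / P' y 1 := fun x y h => hPt'' (Sum.inl x) (Sum.inl y) h
  rw [map_mul, map_mul, map_prod] at hAW
  have hAj : ∀ j, eval (fun i => A i 2) (Lj j) ≠ 0 := fun j =>
    Finset.prod_ne_zero_iff.1 (right_ne_zero_of_mul hAW) j (Finset.mem_univ j)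
  have hA0 : eval (fun i => A i 2) L₀ ≠ 0 := right_ne_zero_of_mul (left_ne_zero_of_mul hAW)
  replace hAW := left_ne_zero_of_mul (left_ne_zero_of_mul hAW)
  rw [map_mul, map_prod] at hsep hdeg
  -- the points in the new coordinates
  have hlin : ∀ (j : J) (b : Fin (3 * n j.1 + 1)) (p : MvPolynomial (Fin 3) ℂ) (m : ℕ),
      p.IsHomogeneous m → eval (P j b) p = 0 →
      eval ![P' ⟨j, b⟩ 0 / P' ⟨j, b⟩ 1, 1, P' ⟨j, b⟩ 2 / P' ⟨j, b⟩ 1] (lin A p) = 0 := by
    intro j b p m hp h0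
    have h1 : eval (P' ⟨j, b⟩) (lin A p) = 0 := by
      rw [eval_lin, hAP ⟨j, b⟩]
      exact h0
    have h2 := hP1 ⟨j, b⟩
    have h3 : P' ⟨j, b⟩ = fun i => P' ⟨j, b⟩ 1 *
        (![P' ⟨j, b⟩ 0 / P' ⟨j, b⟩ 1, 1, P' ⟨j, b⟩ 2 / P' ⟨j, b⟩ 1] : Fin 3 → ℂ) i := by
      funext i
      fin_cases i
      · simp [mul_div_cancel₀ _ h2]
      · simp
      · simp [mul_div_cancel₀ _ h2]
    rw [h3, eval_smul_pt (lin_homog A hp)] at h1
    exact (mul_eq_zero.1 h1).resolve_left (pow_ne_zero _ h2)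
  have hgood : ∀ z : Fin 3 → ℂ, z ≠ 0 → eval z (lin A H) = 0 →
      (∀ i, eval z (pderiv i (lin A H)) = 0) → NodeAt H (fun i => ∑ j, A i j * z j) →
      NodeAt (lin A H) z ∧ eval z (pderiv 2 (pderiv 2 (lin A H))) ≠ 0 := by
    intro z hz h0 hs hn
    rw [eval_lin] at h0
    refine ⟨node_lin hA hn, ?_⟩
    have h1 := hWH _ hAW _ (lin_vec_ne hA hz) h0 (sing_lin hA hs) hn
    rw [eval_hf] at h1
    rw [eval_hess_lin]
    intro h2
    apply h1
    rw [← h2]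
    refine Finset.sum_congr rfl fun i _ => Finset.sum_congr rfl fun j _ => ?_
    ring
  have hprod : ∀ j : Fin r, lin A (H * ∏ l ∈ Finset.univ.filter (· < j), g l) =
      lin A H * ∏ l ∈ Finset.univ.filter (· < j), lin A (g l) := fun j => by
    rw [map_mul, map_prod]
  have hSt2 : S_St2' := t_St2 t_V2 t_V3 t_Sv t_Mo
  refine core3 t_St1 hSt2 t_Zq t_Ps t_FP (t_Rg hSt2) t_Al (F := lin A f) (H := lin A H)
    (g := fun j => lin A (g j)) (K := k)
    (nn := n) (lin_homog A hf) hd (lin_homog A hh) (fun j => lin_homog A (hg j)) he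
    ?_ ?_ ?_ ?_ hsep hdeg ?_ b (isB_lin A hA hb) hb0
  · rw [← map_prod, ← map_mul]
    exact map_dvd (lin A) hSf
  · rw [← map_prod, ← map_mul, ← map_pow]
    exact map_dvd (lin A) hfS
  · refine hcore A (fun b => P'' (Sum.inr b)) hA (fun b => hAP'' (Sum.inr b))
      (fun b => hP1'' (Sum.inr b)) (fun b b' hb => hPt'' (Sum.inr b) (Sum.inr b') (hPPs b b' hb))
      fun t x h0 hs' => ?_
    have hz := lin_vec_ne hA (pt_ne t x)
    obtain ⟨w, hw, c', hc', hcw⟩ := hZ _ hz h0 hs'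
    exact hL₀A A hA hA0 t x w hw c' hc' hcw
  · rcases hfld with hn | ⟨e', M, H', hH', hHf', hM, hmult⟩ | ht
    · refine Or.inl fun z hz h0 hs => ?_
      have h0' := h0
      rw [eval_lin] at h0'
      exact hgood z hz h0 hs (hn _ (lin_vec_ne hA hz) h0' (sing_lin hA hs))
    · exact Or.inr (tr_lin hA (t_TZ t_MF f H' d e' M hf hd hf0 hH' hHf' hM hmult))
    · exact Or.inr (tr_lin hA ht)
  · intro j
    rcases hchn j with ⟨hirr, hj⟩ | ⟨m, hm, hmeet⟩
    · refine Or.inl ⟨irr_lin hA hirr,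
        Finset.univ.image fun b => P' ⟨⟨j, hj⟩, b⟩ 0 / P' ⟨⟨j, hj⟩, b⟩ 1, ?_, ?_⟩
      · rw [Finset.card_image_of_injective, Finset.card_univ, Fintype.card_fin]
        · exact Nat.lt_succ_self _
        · intro b b' hbb
          by_contra hne
          exact hPt ⟨⟨j, hj⟩, b⟩ ⟨⟨j, hj⟩, b'⟩ (hPP ⟨j, hj⟩ b b' hne) hbb
      · intro t ht
        rw [Finset.mem_image] at ht
        obtain ⟨b, -, rfl⟩ := ht
        refine ⟨P' ⟨⟨j, hj⟩, b⟩ 2 / P' ⟨⟨j, hj⟩, b⟩ 1,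
          hlin ⟨j, hj⟩ b _ _ (hg j) (hP ⟨j, hj⟩ b).2.1, ?_⟩
        have h1 := hlin ⟨j, hj⟩ b _ _ (hh.mul
          (IsHomogeneous.prod (Finset.univ.filter (· < j)) _ _ fun j _ => hg j))
          (hP ⟨j, hj⟩ b).2.2
        rwa [hprod] at h1
    · refine Or.inr ⟨max m 1, le_max_right _ _, ?_, fun t x h0 h1 => ?_⟩
      · have : 3 < e + ∑ l ∈ Finset.univ.filter (· < j), n l := by omega
        rcases le_total m 1 with h | h
        · rw [max_eq_right h]
          omega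
        · rw [max_eq_left h]
          exact hm
      · rw [← hprod] at h1 ⊢
        rw [eval_lin] at h0 h1
        rcases hmeet _ (lin_vec_ne hA (pt_ne t x)) h0 h1 with h | h
        · left
          obtain ⟨k, k1, k2⟩ := hLjA j A hA (hAj j) t x h0 h1
          exact ⟨k, (k1 m h).trans (le_max_left _ _), k2⟩
        · exact Or.inr (qh_lin hA h)

/-- **The root `-3/d`** -/
theorem TameSub.root {d : ℕ} {f H : MvPolynomial (Fin 3) ℂ} (hf : f.IsHomogeneous d)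
    (hc : TameSub f H) (hfld : NoField f H) {b : Polynomial ℂ} (hb : IsBFunction f b) :
    b.eval (-3 / d : ℂ) = 0 := by
  by_contra hb0
  exact not_tame hf hc hfld hb hb0

end Pool.Agent.H942.LP
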